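import Pool.Agent.H19.TM.Stm
import Pool.Graph.R_pool_sql_team_seeded_1acbe0a2.Y845.GM.CF

/-!
# Project TM: comparison of characteristic functions (CF2), product of the factors (COS2)
-/

set_option autoImplicit false

namespace Pool.Agent.H19.TM

open Finset Pool.Agent.Y862.GM

/-- the Taylor polynomial -/
noncomputable def tay (K : ℕ) (u : ℝ) : ℂ := ∑ k ∈ range K, ((u : ℂ) * Complex.I) ^ k / k.factorial

lemma tay_bound (m : ℕ) (u : ℝ) :
    ‖Complex.exp (Complex.I * (u : ℂ)) - tay (2 * m) u‖ ≤ u ^ (2 * m) / (2 * m).factorial := by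
  have h := Pool.Agent.Y845.GM.taylor (2 * m) u
  rw [mul_comm, tay]
  refine h.trans (le_of_eq ?_)
  congr 1
  rw [pow_mul, pow_mul, sq_abs]

lemma tay_sum {ι : Type} (s : Finset ι) (K : ℕ) (c u : ι → ℝ) :
    ∑ x ∈ s, (c x : ℂ) * tay K (u x) =
      ∑ k ∈ range K, (Complex.I ^ k / k.factorial) * ((∑ x ∈ s, c x * u x ^ k : ℝ) : ℂ) := by
  unfold tay
  simp_rw [mul_sum]
  rw [sum_comm]
  refine sum_congr rfl fun k _ => ?_
  push_cast
  rw [mul_sum]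
  refine sum_congr rfl fun x _ => ?_
  rw [mul_pow]
  ring

lemma fact_sum_le (n : ℕ) : ∑ k ∈ range n, (1 : ℝ) / k.factorial ≤ 3 := by
  have h := Real.sum_le_exp_of_nonneg (x := 1) zero_le_one n
  simp only [one_pow] at h
  linarith [Real.exp_one_lt_d9]

theorem t_CF2 : S_CF2 := by
  intro Om Us wt F G m η hwt hsum hη h
  obtain ⟨N, hN⟩ : ∃ N : ℝ, N = Om.card := ⟨_, rfl⟩
  have hN0 : 0 ≤ N := by rw [hN]; exact Nat.cast_nonneg _
  obtain ⟨R, hR⟩ : ∃ R : ℝ, R = ∑ x ∈ Om, ∑ U ∈ Us, wt U * G x U ^ (2 * m) := ⟨_, rfl⟩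
  have hfac : (1 : ℝ) ≤ (2 * m).factorial := by
    exact_mod_cast Nat.one_le_iff_ne_zero.2 (Nat.factorial_ne_zero _)
  have hfac0 : (0 : ℝ) < (2 * m).factorial := by linarith
  -- the three parts
  have e1 : ∑ x ∈ Om, Complex.exp (Complex.I * (F x : ℂ)) -
      ∑ x ∈ Om, ∑ U ∈ Us, (wt U : ℂ) * Complex.exp (Complex.I * (G x U : ℂ)) =
      ∑ x ∈ Om, (Complex.exp (Complex.I * (F x : ℂ)) - tay (2 * m) (F x)) +
      (∑ x ∈ Om, tay (2 * m) (F x) - ∑ x ∈ Om, ∑ U ∈ Us, (wt U : ℂ) * tay (2 * m) (G x U)) -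
      ∑ x ∈ Om, ∑ U ∈ Us, (wt U : ℂ) *
        (Complex.exp (Complex.I * (G x U : ℂ)) - tay (2 * m) (G x U)) := by
    simp_rw [mul_sub, sum_sub_distrib]
    ring
  have b1 : ‖∑ x ∈ Om, (Complex.exp (Complex.I * (F x : ℂ)) - tay (2 * m) (F x))‖ ≤
      (∑ x ∈ Om, F x ^ (2 * m)) / (2 * m).factorial := by
    refine (norm_sum_le _ _).trans ?_
    rw [sum_div]
    exact sum_le_sum fun x _ => tay_bound m (F x)
  have b3 : ‖∑ x ∈ Om, ∑ U ∈ Us, (wt U : ℂ) *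
      (Complex.exp (Complex.I * (G x U : ℂ)) - tay (2 * m) (G x U))‖ ≤
      R / (2 * m).factorial := by
    refine (norm_sum_le _ _).trans ?_
    rw [hR, sum_div]
    refine sum_le_sum fun x _ => ?_
    refine (norm_sum_le _ _).trans ?_
    rw [sum_div]
    refine sum_le_sum fun U hU => ?_
    rw [norm_mul, Complex.norm_real, Real.norm_eq_abs, abs_of_nonneg (hwt U hU), mul_div_assoc]
    exact mul_le_mul_of_nonneg_left (tay_bound m _) (hwt U hU)
  have b2 : ‖∑ x ∈ Om, tay (2 * m) (F x) -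
      ∑ x ∈ Om, ∑ U ∈ Us, (wt U : ℂ) * tay (2 * m) (G x U)‖ ≤ 3 * (η * N) := by
    have e2 : ∑ x ∈ Om, tay (2 * m) (F x) = ∑ k ∈ range (2 * m), (Complex.I ^ k / k.factorial) *
        ((∑ x ∈ Om, F x ^ k : ℝ) : ℂ) := by
      have := tay_sum Om (2 * m) (fun _ => 1) F
      simp only [Complex.ofReal_one, one_mul] at this
      exact this
    have e3 : ∑ x ∈ Om, ∑ U ∈ Us, (wt U : ℂ) * tay (2 * m) (G x U) =
        ∑ k ∈ range (2 * m), (Complex.I ^ k / k.factorial) *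
        ((∑ x ∈ Om, ∑ U ∈ Us, wt U * G x U ^ k : ℝ) : ℂ) := by
      rw [sum_congr rfl fun x _ => tay_sum Us (2 * m) wt (G x), sum_comm]
      refine sum_congr rfl fun k _ => ?_
      rw [← mul_sum]
      push_cast
      rfl
    rw [e2, e3, ← sum_sub_distrib]
    refine (norm_sum_le _ _).trans ?_
    have h1 : ∀ k ∈ range (2 * m), ‖(Complex.I ^ k / k.factorial) * ((∑ x ∈ Om, F x ^ k : ℝ) : ℂ) -
        (Complex.I ^ k / k.factorial) * ((∑ x ∈ Om, ∑ U ∈ Us, wt U * G x U ^ k : ℝ) : ℂ)‖ ≤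
        (1 / k.factorial) * (η * N) := by
      intro k hk
      rw [← mul_sub, norm_mul, norm_div, norm_pow, Complex.norm_I, one_pow, Complex.norm_natCast,
        ← Complex.ofReal_sub, Complex.norm_real, Real.norm_eq_abs, hN]
      exact mul_le_mul_of_nonneg_left (h k (mem_range.1 hk).le) (by positivity)
    refine (sum_le_sum h1).trans ?_
    rw [← sum_mul]
    exact mul_le_mul_of_nonneg_right (fact_sum_le _) (by positivity)
  have h2 := h (2 * m) le_rfl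
  rw [← hR, ← hN] at h2
  have h3 : ∑ x ∈ Om, F x ^ (2 * m) ≤ R + η * N := by
    have := (abs_le.1 h2).2
    linarith
  have h4 : (∑ x ∈ Om, F x ^ (2 * m)) / (2 * m).factorial ≤ R / (2 * m).factorial + η * N := by
    calc (∑ x ∈ Om, F x ^ (2 * m)) / (2 * m).factorial ≤ (R + η * N) / (2 * m).factorial := by
          gcongr
      _ = R / (2 * m).factorial + η * N / (2 * m).factorial := add_div _ _ _
      _ ≤ R / (2 * m).factorial + η * N := by
          have : η * N / (2 * m).factorial ≤ η * N := div_le_self (by positivity) hfac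
          linarith
  rw [e1, ← hN, ← hR]
  have t1 := norm_sub_le (∑ x ∈ Om, (Complex.exp (Complex.I * (F x : ℂ)) - tay (2 * m) (F x)) +
      (∑ x ∈ Om, tay (2 * m) (F x) - ∑ x ∈ Om, ∑ U ∈ Us, (wt U : ℂ) * tay (2 * m) (G x U)))
      (∑ x ∈ Om, ∑ U ∈ Us, (wt U : ℂ) *
        (Complex.exp (Complex.I * (G x U : ℂ)) - tay (2 * m) (G x U)))
  have t2 := norm_add_le (∑ x ∈ Om, (Complex.exp (Complex.I * (F x : ℂ)) - tay (2 * m) (F x)))
      (∑ x ∈ Om, tay (2 * m) (F x) - ∑ x ∈ Om, ∑ U ∈ Us, (wt U : ℂ) * tay (2 * m) (G x U))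
  have t3 : 2 * R / (2 * m).factorial = R / (2 * m).factorial + R / (2 * m).factorial := by ring
  linarith

/-- products of numbers of modulus at most one -/
lemma prod_sub_prod (s : Finset ℕ) (z w : ℕ → ℂ) (hz : ∀ h ∈ s, ‖z h‖ ≤ 1) (hw : ∀ h ∈ s, ‖w h‖ ≤ 1) :
    ‖∏ h ∈ s, z h - ∏ h ∈ s, w h‖ ≤ ∑ h ∈ s, ‖z h - w h‖ := by
  induction s using Finset.induction_on with
  | empty => simp
  | insert a s ha ih =>
    rw [prod_insert ha, prod_insert ha, sum_insert ha]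
    have h1 := ih (fun h hh => hz h (mem_insert_of_mem hh)) (fun h hh => hw h (mem_insert_of_mem hh))
    have e : z a * ∏ h ∈ s, z h - w a * ∏ h ∈ s, w h =
        (z a - w a) * ∏ h ∈ s, z h + w a * (∏ h ∈ s, z h - ∏ h ∈ s, w h) := by ring
    rw [e]
    refine (norm_add_le _ _).trans ?_
    rw [norm_mul, norm_mul]
    have h2 : ‖∏ h ∈ s, z h‖ ≤ 1 := by
      rw [norm_prod]
      exact prod_le_one (fun _ _ => norm_nonneg _) fun h hh => hz h (mem_insert_of_mem hh)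
    have h3 := hw a (mem_insert_self _ _)
    have h4 : ‖z a - w a‖ * ‖∏ h ∈ s, z h‖ ≤ ‖z a - w a‖ := mul_le_of_le_one_right (norm_nonneg _) h2
    have h5 : ‖w a‖ * ‖∏ h ∈ s, z h - ∏ h ∈ s, w h‖ ≤ ‖∏ h ∈ s, z h - ∏ h ∈ s, w h‖ :=
      mul_le_of_le_one_left (norm_nonneg _) h3
    linarith

lemma factor_norm (a d : ℝ) (hd : 0 ≤ d) (hd1 : d ≤ 1) :
    ‖(Real.cos a : ℂ) + Complex.I * ((d * Real.sin a : ℝ) : ℂ)‖ ≤ 1 := by
  rw [mul_comm Complex.I, ← Complex.mk_eq_add_mul_I]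
  rw [Complex.norm_def, Complex.normSq_mk]
  rw [Real.sqrt_le_one]
  have h := Real.cos_sq_add_sin_sq a
  have h1 : d * d ≤ 1 := by nlinarith
  have h2 := sq_nonneg (Real.sin a)
  nlinarith

lemma factor_close (a d : ℝ) (hd : 0 ≤ d) (hd1 : d ≤ 1) (ha : |a| ≤ 1 / 2) :
    ‖((Real.cos a : ℂ) + Complex.I * ((d * Real.sin a : ℝ) : ℂ)) -
      Complex.exp (((-(a ^ 2) / 2 : ℝ) : ℂ) + Complex.I * ((d * a : ℝ) : ℂ))‖ ≤
      |a| ^ 3 + d ^ 2 * a ^ 2 := by
  have ha0 := abs_nonneg a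
  obtain ⟨c, hc⟩ : ∃ c : ℂ, c = ((-(a ^ 2) / 2 : ℝ) : ℂ) + Complex.I * ((d * a : ℝ) : ℂ) := ⟨_, rfl⟩
  have hcn : ‖c‖ ^ 2 = a ^ 4 / 4 + d ^ 2 * a ^ 2 := by
    rw [hc, mul_comm Complex.I, ← Complex.mk_eq_add_mul_I, ← Complex.normSq_eq_norm_sq,
      Complex.normSq_mk]
    ring
  have ha2 : a ^ 2 ≤ 1 / 4 := by
    rw [← sq_abs]
    nlinarith
  have hd2 : d ^ 2 ≤ 1 := by nlinarith
  have hc1 : ‖c‖ ≤ 1 := by
    have : ‖c‖ ^ 2 ≤ 1 := by
      rw [hcn]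
      have h4 : a ^ 4 = a ^ 2 * a ^ 2 := by ring
      have := sq_nonneg a
      rw [h4]
      nlinarith
    nlinarith [norm_nonneg c]
  have h1 := Complex.norm_exp_sub_one_sub_id_le hc1
  have ha1 : |a| ≤ 1 := by linarith
  have h2 : |Real.cos a - (1 - a ^ 2 / 2)| ≤ |a| ^ 4 * (5 / 96) := Real.cos_bound ha1
  have h3 : |Real.sin a - (a - a ^ 3 / 6)| ≤ |a| ^ 4 * (5 / 96) := by
    refine (Real.sin_bound ha1).trans ?_
    have e5 : |a| ^ 5 = |a| ^ 4 * |a| := by ring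
    have h40 : 0 ≤ |a| ^ 4 := by positivity
    rw [e5]
    nlinarith
  have e : ((Real.cos a : ℂ) + Complex.I * ((d * Real.sin a : ℝ) : ℂ)) - Complex.exp c =
      ((Real.cos a - (1 - a ^ 2 / 2) : ℝ) : ℂ) + Complex.I * ((d * (Real.sin a - a) : ℝ) : ℂ) -
        (Complex.exp c - 1 - c) := by
    rw [hc]
    push_cast
    ring
  rw [← hc, e]
  have t1 := norm_sub_le (((Real.cos a - (1 - a ^ 2 / 2) : ℝ) : ℂ) +
    Complex.I * ((d * (Real.sin a - a) : ℝ) : ℂ)) (Complex.exp c - 1 - c)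
  have t2 := norm_add_le ((Real.cos a - (1 - a ^ 2 / 2) : ℝ) : ℂ)
    (Complex.I * ((d * (Real.sin a - a) : ℝ) : ℂ))
  rw [norm_mul, Complex.norm_I, one_mul, Complex.norm_real, Complex.norm_real, Real.norm_eq_abs,
    Real.norm_eq_abs, abs_mul, abs_of_nonneg hd] at t2
  have h5 : |Real.sin a - a| ≤ |a| ^ 4 * (5 / 96) + |a| ^ 3 / 6 := by
    have e2 : Real.sin a - a = (Real.sin a - (a - a ^ 3 / 6)) - a ^ 3 / 6 := by ring
    rw [e2]
    refine (abs_sub _ _).trans ?_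
    have : |a ^ 3 / 6| = |a| ^ 3 / 6 := by rw [abs_div, abs_pow]; norm_num
    rw [this]
    linarith
  have h6 : |a| ^ 4 ≤ |a| ^ 3 * (1 / 2) := by
    have : |a| ^ 4 = |a| ^ 3 * |a| := by ring
    rw [this]
    have h0 : 0 ≤ |a| ^ 3 := by positivity
    nlinarith
  have h7 : a ^ 4 = |a| ^ 4 := by
    have : |a| ^ 4 = (|a| ^ 2) ^ 2 := by ring
    rw [this, sq_abs]
    ring
  have h8 : d * |Real.sin a - a| ≤ |a| ^ 4 * (5 / 96) + |a| ^ 3 / 6 := by
    calc d * |Real.sin a - a| ≤ 1 * |Real.sin a - a| :=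
          mul_le_mul_of_nonneg_right hd1 (abs_nonneg _)
      _ ≤ _ := by rw [one_mul]; exact h5
  rw [hcn, h7] at h1
  have h9 : 0 ≤ |a| ^ 3 := by positivity
  linarith

theorem t_COS2 : S_COS2 := by
  intro s a d hd hd1 ha
  have e : Complex.exp (((-(∑ h ∈ s, a h ^ 2) / 2 : ℝ) : ℂ) + Complex.I * ((d * ∑ h ∈ s, a h : ℝ) : ℂ)) =
      ∏ h ∈ s, Complex.exp (((-(a h ^ 2) / 2 : ℝ) : ℂ) + Complex.I * ((d * a h : ℝ) : ℂ)) := by
    rw [← Complex.exp_sum]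
    congr 1
    rw [sum_add_distrib]
    congr 1
    · push_cast
      rw [← sum_neg_distrib, sum_div]
    · push_cast
      rw [mul_sum, mul_sum]
  rw [e]
  refine (prod_sub_prod s _ _ (fun h _ => factor_norm _ _ hd hd1) ?_).trans ?_
  · intro h _
    rw [Complex.norm_exp]
    rw [Real.exp_le_one_iff]
    have : (((-(a h ^ 2) / 2 : ℝ) : ℂ) + Complex.I * ((d * a h : ℝ) : ℂ)).re = -(a h ^ 2) / 2 := by
      rw [Complex.add_re, Complex.ofReal_re, Complex.mul_re, Complex.I_re, Complex.ofReal_im]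
      ring
    rw [this]
    have := sq_nonneg (a h)
    linarith
  · exact sum_le_sum fun h hh => factor_close _ _ hd hd1 (ha h hh)

end Pool.Agent.H19.TM
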