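import Pool.Agent.H19.TM.Pt
import Pool.Graph.R_pool_sql_team_seeded_1acbe0a2.Y862.GM.Asm

/-!
# Project TM: the characteristic function, with all small quantities as hypotheses
-/

set_option autoImplicit false

namespace Pool.Agent.H19.TM

open Finset Pool.Agent.Y862.GM

lemma fac_nonneg (P : Finset ℕ) (hP : ∀ p ∈ P, p.Prime) : ∀ p ∈ P, 0 < (1 - 1 / (p : ℝ)) ^ 2 ∧
    (1 - 1 / (p : ℝ)) ^ 2 ≤ 1 := by
  intro p hp
  have h2 : (2 : ℝ) ≤ p := by exact_mod_cast (hP p hp).two_le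
  have h3 : 1 / (p : ℝ) ≤ 1 / 2 := by
    apply one_div_le_one_div_of_le (by norm_num) h2
  have h4 : 0 < 1 / (p : ℝ) := by positivity
  constructor
  · apply pow_pos
    linarith
  · apply pow_le_one₀ <;> linarith

lemma V_pos (P : Finset ℕ) (hP : ∀ p ∈ P, p.Prime) : 0 < V P :=
  prod_pos fun p hp => (fac_nonneg P hP p hp).1

lemma V_le_one (P : Finset ℕ) (hP : ∀ p ∈ P, p.Prime) : V P ≤ 1 :=
  prod_le_one (fun p hp => (fac_nonneg P hP p hp).1.le) fun p hp => (fac_nonneg P hP p hp).2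

lemma pr_prime (y : ℕ) : ∀ p ∈ pr y, p.Prime := by
  intro p hp
  unfold pr at hp
  exact (mem_filter.1 hp).2

lemma pr_mono {r y : ℕ} (h : r ≤ y) : pr r ⊆ pr y := by
  intro p hp
  unfold pr at hp ⊢
  rw [mem_filter, mem_range] at hp ⊢
  exact ⟨by omega, hp.2⟩

lemma V_anti {r y : ℕ} (h : r ≤ y) : V (pr y) ≤ V (pr r) := by
  unfold V
  rw [← prod_sdiff (pr_mono h)]
  have h1 : ∏ p ∈ pr y \ pr r, (1 - 1 / (p : ℝ)) ^ 2 ≤ 1 :=
    prod_le_one (fun p hp => (fac_nonneg (pr y) (pr_prime y) p (mem_sdiff.1 hp).1).1.le)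
      fun p hp => (fac_nonneg (pr y) (pr_prime y) p (mem_sdiff.1 hp).1).2
  have h2 : 0 ≤ ∏ p ∈ pr r, (1 - 1 / (p : ℝ)) ^ 2 := (V_pos (pr r) (pr_prime r)).le
  exact mul_le_of_le_one_left h2 h1

/-- power sums -/
lemma pow_sum_le {k : ℕ} (m : ℕ) (hm : 1 ≤ m) (u : Fin k → ℝ) :
    (∑ i, u i) ^ (2 * m) ≤ (k : ℝ) ^ (2 * m) * ∑ i, u i ^ (2 * m) := by
  rcases Nat.eq_zero_or_pos k with hk | hk
  · subst hk
    have : 2 * m ≠ 0 := by omega
    simp [this]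
  · have hne : (univ : Finset (Fin k)).Nonempty := ⟨⟨0, hk⟩, mem_univ _⟩
    obtain ⟨i₀, _, hi₀⟩ := exists_max_image univ (fun i => |u i|) hne
    have h1 : |∑ i, u i| ≤ k * |u i₀| := by
      refine (abs_sum_le_sum_abs _ _).trans ?_
      refine (sum_le_sum fun i _ => hi₀ i (mem_univ i)).trans ?_
      rw [sum_const, card_univ, Fintype.card_fin, nsmul_eq_mul]
    have e : (∑ i, u i) ^ (2 * m) = |∑ i, u i| ^ (2 * m) := by
      rw [pow_mul, pow_mul, sq_abs]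
    rw [e]
    have h2 : |u i₀| ^ (2 * m) ≤ ∑ i, u i ^ (2 * m) := by
      have e2 : |u i₀| ^ (2 * m) = u i₀ ^ (2 * m) := by rw [pow_mul, pow_mul, sq_abs]
      rw [e2]
      exact single_le_sum (f := fun i => u i ^ (2 * m)) (fun i _ => (even_two_mul m).pow_nonneg _)
        (mem_univ i₀)
    calc |∑ i, u i| ^ (2 * m) ≤ (k * |u i₀|) ^ (2 * m) := pow_le_pow_left₀ (abs_nonneg _) h1 _
      _ = (k : ℝ) ^ (2 * m) * |u i₀| ^ (2 * m) := mul_pow _ _ _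
      _ ≤ _ := mul_le_mul_of_nonneg_left h2 (by positivity)

lemma abs_le_pow (m : ℕ) (hm : 1 ≤ m) (e z : ℝ) (he : 0 < e) : |z| ≤ e + z ^ (2 * m) / e ^ (2 * m - 1) := by
  have e1 : z ^ (2 * m) = |z| ^ (2 * m) := by rw [pow_mul, pow_mul, sq_abs]
  rw [e1]
  have h0 : 0 ≤ |z| ^ (2 * m) / e ^ (2 * m - 1) := by positivity
  rcases le_total |z| e with h | h
  · linarith
  · have h1 : |z| ≤ |z| ^ (2 * m) / e ^ (2 * m - 1) := by
      rw [le_div_iff₀ (by positivity)]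
      have e2 : |z| ^ (2 * m) = |z| * |z| ^ (2 * m - 1) := by
        rw [← pow_succ']
        congr 1
        omega
      rw [e2]
      exact mul_le_mul_of_nonneg_left (pow_le_pow_left₀ he.le h _) (abs_nonneg _)
    linarith

theorem core (h1 : S_RAD1) (h2 : S_RAD2) (h3 : S_RAD3) (h4 : S_COS2) (hCMP : S_CMP) (hCF2 : S_CF2)
    (k : ℕ) (hk : 1 ≤ k) (T : ℝ) (hT : 1 ≤ T) (m : ℕ) (hm : 1 ≤ m) (y r b Z Y : ℕ) (hr : r ≤ y)
    (hb : 1 ≤ b) (hY : 0 < Y) (w : Fin k → ℝ) (hw : ∀ i, |w i| ≤ T) (d σ B η MM εs εd MD : ℝ)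
    (hd : d = V (pr y) / V (pr r)) (hσ : σ = √(6 * b / Real.pi ^ 2)) (hB : B = k * T ^ 2 * (Real.pi ^ 2 / 6))
    (hη : 0 ≤ η) (hεd : 0 < εd)
    (hτ : T / σ ≤ 1 / 2)
    (hTUP : ∀ j ≤ 2 * m, ∀ g : Fin j → ℕ, (∀ l, g l ∈ Ioc 0 (k * b)) →
      |(∑ x ∈ Ioc Z (Z + Y), ∏ l, mu y (x + g l)) -
        d ^ (odd g).card * ∑ x ∈ Ioc Z (Z + Y), ∏ l, mu r (x + g l)| ≤ η * Y)
    (hMI : ∀ a : ℕ, (∑ x ∈ Ioc Z (Z + Y),
      (∑ h ∈ Ioc a (a + b), mu r (x + h) - b * V (pr r)) ^ (2 * m)) ≤ MM * Y)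
    (hSQ : ∀ i : Fin k, ∑ x ∈ Ioc Z (Z + Y), |(∑ n ∈ Ioc (x + i * b) (x + i * b + b), mu r n ^ 2) / b -
      6 / Real.pi ^ 2| ≤ εs * Y)
    (hMD : MD = (k * (T / σ) * d) ^ (2 * m) * (k * MM)) :
    ‖(∑ x ∈ Ioc Z (Z + Y), Complex.exp (Complex.I * ((∑ i : Fin k, w i *
        ((∑ n ∈ Ioc (x + i * b) (x + i * b + b), mu y n - b * V (pr y)) / √(6 * b / Real.pi ^ 2)) : ℝ) : ℂ))) /
        ((Ioc Z (Z + Y)).card : ℂ) - ((Real.exp (-(∑ i, w i ^ 2) / 2) : ℝ) : ℂ)‖ ≤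
      4 * ((2 * (T / σ) * (k * b)) ^ (2 * m) * η) + (4 * Real.exp (256 * B) / 16 ^ m + 2 * 4 ^ m * MD) +
        (T / σ + d ^ 2) * B + T ^ 2 * k * εs + εd + MD / εd ^ (2 * m - 1) := by
  -- basic facts
  have hb' : (1 : ℝ) ≤ b := by exact_mod_cast hb
  have hk' : (1 : ℝ) ≤ k := by exact_mod_cast hk
  have hY0 : (0 : ℝ) < Y := by exact_mod_cast hY
  obtain ⟨hσ0, hσ2, hσsq⟩ := sigma_facts b hb
  rw [← hσ] at hσ0 hσ2 hσsq
  have hVy := V_pos (pr y) (pr_prime y)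
  have hVr := V_pos (pr r) (pr_prime r)
  have hVy1 := V_le_one (pr y) (pr_prime y)
  have hd0 : 0 ≤ d := by rw [hd]; positivity
  have hd1 : d ≤ 1 := by
    rw [hd, div_le_one hVr]
    exact V_anti hr
  have hdV : d * V (pr r) = V (pr y) := by
    rw [hd]
    field_simp
  have hT0 : 0 < T := by linarith
  have hτ0 : 0 ≤ T / σ := by positivity
  obtain ⟨L, hL⟩ : ∃ L : ℕ, L = k * b := ⟨_, rfl⟩
  have hLr : (L : ℝ) = k * b := by rw [hL]; push_cast; ring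
  obtain ⟨v, hv⟩ : ∃ v, v = wt w b σ := ⟨_, rfl⟩
  have hvb : ∀ h, |v h| ≤ T / σ := fun h => by rw [hv]; exact wt_bound w b σ T hσ0 hT0.le hw h
  obtain ⟨Om, hOm⟩ : ∃ Om, Om = Ioc Z (Z + Y) := ⟨_, rfl⟩
  have hcardN : Om.card = Y := by rw [hOm, Nat.card_Ioc]; omega
  have hcard : (Om.card : ℝ) = Y := by rw [hcardN]
  obtain ⟨c₀, hc₀⟩ : ∃ c₀ : ℝ, c₀ = (∑ h ∈ Ioc 0 L, v h) * V (pr y) := ⟨_, rfl⟩
  obtain ⟨W, hW⟩ : ∃ W : ℝ, W = ∑ i, w i ^ 2 := ⟨_, rfl⟩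
  have hW0 : 0 ≤ W := by rw [hW]; exact sum_nonneg fun _ _ => sq_nonneg _
  have hvsq : ∑ h ∈ Ioc 0 L, v h ^ 2 ≤ B := by
    have h5 : ∀ h ∈ Ioc 0 L, v h ^ 2 ≤ (T / σ) ^ 2 := by
      intro h _
      rw [← sq_abs]
      exact pow_le_pow_left₀ (abs_nonneg _) (hvb h) 2
    refine (sum_le_sum h5).trans ?_
    rw [sum_const, Nat.card_Ioc, nsmul_eq_mul, div_pow, hσsq, hB, hL]
    push_cast
    apply le_of_eq
    have : (b : ℝ) ≠ 0 := by linarith
    have hpi := Real.pi_ne_zero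
    simp only [Nat.sub_zero]
    push_cast
    field_simp
  have hB0 : 0 ≤ B := (sum_nonneg fun _ _ => sq_nonneg _).trans hvsq
  have hc₀b : |c₀| ≤ T / σ * L := by
    rw [hc₀, abs_mul, abs_of_pos hVy]
    have h5 : |∑ h ∈ Ioc 0 L, v h| ≤ T / σ * L := by
      refine (abs_sum_le_sum_abs _ _).trans ?_
      refine (sum_le_sum fun h _ => hvb h).trans ?_
      rw [sum_const, Nat.card_Ioc, nsmul_eq_mul, Nat.sub_zero]
      apply le_of_eq
      ring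
    calc |∑ h ∈ Ioc 0 L, v h| * V (pr y) ≤ |∑ h ∈ Ioc 0 L, v h| * 1 :=
          mul_le_mul_of_nonneg_left hVy1 (abs_nonneg _)
      _ ≤ T / σ * L := by rw [mul_one]; exact h5
  -- the exponents
  have hS : ∀ x, ∑ h ∈ Ioc 0 L, v h * mu y (x + h) - c₀ = ∑ i : Fin k, w i *
      ((∑ n ∈ Ioc (x + i * b) (x + i * b + b), mu y n - b * V (pr y)) / √(6 * b / Real.pi ^ 2)) := by
    intro x
    have e1 : ∑ h ∈ Ioc 0 L, v h * mu y (x + h) - c₀ =
        ∑ h ∈ Ioc 0 L, v h * (mu y (x + h) - V (pr y)) := by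
      rw [hc₀, sum_mul, ← sum_sub_distrib]
      exact sum_congr rfl fun h _ => by ring
    rw [e1, hL, sum_blocks, ← hσ]
    apply sum_congr rfl
    intro i _
    have e2 : ∑ u ∈ Ioc ((i : ℕ) * b) (i * b + b), v u * (mu y (x + u) - V (pr y)) =
        ∑ u ∈ Ioc ((i : ℕ) * b) (i * b + b), w i / σ * (mu y (x + u) - V (pr y)) := by
      apply sum_congr rfl
      intro u hu
      rw [hv, wt_block w b σ i u hu]
    rw [e2, ← mul_sum, sum_sub_distrib, sum_shift, sum_const, Nat.card_Ioc, nsmul_eq_mul,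
      Nat.add_sub_cancel_left]
    ring
  have hD : ∀ x, d * ∑ h ∈ Ioc 0 L, v h * mu r (x + h) - c₀ = ∑ i : Fin k, d * (w i / σ) *
      (∑ h ∈ Ioc ((i : ℕ) * b) (i * b + b), mu r (x + h) - b * V (pr r)) := by
    intro x
    have e1 : d * ∑ h ∈ Ioc 0 L, v h * mu r (x + h) - c₀ =
        ∑ h ∈ Ioc 0 L, d * v h * (mu r (x + h) - V (pr r)) := by
      rw [hc₀, ← hdV, mul_sum, sum_mul, ← sum_sub_distrib]
      exact sum_congr rfl fun h _ => by ring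
    rw [e1, hL, sum_blocks]
    apply sum_congr rfl
    intro i _
    have e2 : ∑ u ∈ Ioc ((i : ℕ) * b) (i * b + b), d * v u * (mu r (x + u) - V (pr r)) =
        ∑ u ∈ Ioc ((i : ℕ) * b) (i * b + b), d * (w i / σ) * (mu r (x + u) - V (pr r)) := by
      apply sum_congr rfl
      intro u hu
      rw [hv, wt_block w b σ i u hu]
    rw [e2, ← mul_sum, sum_sub_distrib, sum_const, Nat.card_Ioc, nsmul_eq_mul,
      Nat.add_sub_cancel_left]
  -- the drift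
  obtain ⟨D, hDdef⟩ : ∃ D : ℕ → ℝ, D = fun x => d * ∑ h ∈ Ioc 0 L, v h * mu r (x + h) - c₀ := ⟨_, rfl⟩
  have hMM0 : 0 ≤ MM := by
    have h5 := hMI 0
    have h6 : 0 ≤ ∑ x ∈ Ioc Z (Z + Y), (∑ h ∈ Ioc 0 (0 + b), mu r (x + h) - b * V (pr r)) ^ (2 * m) :=
      sum_nonneg fun x _ => (even_two_mul m).pow_nonneg _
    by_contra hcon
    rw [not_le] at hcon
    nlinarith
  have hDpow : ∑ x ∈ Om, D x ^ (2 * m) ≤ MD * Y := by
    have h5 : ∀ x ∈ Om, D x ^ (2 * m) ≤ (k * (T / σ) * d) ^ (2 * m) * ∑ i : Fin k,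
        (∑ h ∈ Ioc ((i : ℕ) * b) (i * b + b), mu r (x + h) - b * V (pr r)) ^ (2 * m) := by
      intro x _
      rw [hDdef]
      simp only
      rw [hD x]
      refine (pow_sum_le m hm _).trans ?_
      rw [mul_assoc (k : ℝ), mul_pow (k : ℝ), mul_assoc]
      apply mul_le_mul_of_nonneg_left _ (by positivity)
      rw [mul_sum]
      apply sum_le_sum
      intro i _
      rw [mul_pow]
      apply mul_le_mul_of_nonneg_right _ ((even_two_mul m).pow_nonneg _)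
      have e3 : (d * (w i / σ)) ^ (2 * m) = |d * (w i / σ)| ^ (2 * m) := by
        rw [pow_mul, pow_mul, sq_abs]
      rw [e3]
      apply pow_le_pow_left₀ (abs_nonneg _)
      rw [abs_mul, abs_of_nonneg hd0, abs_div, abs_of_pos hσ0, mul_comm (T / σ)]
      apply mul_le_mul_of_nonneg_left _ hd0
      exact div_le_div_of_nonneg_right (hw i) hσ0.le
    refine (sum_le_sum h5).trans ?_
    rw [← mul_sum, sum_comm, hMD, hOm]
    have h6 : ∑ i : Fin k, ∑ x ∈ Ioc Z (Z + Y),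
        (∑ h ∈ Ioc ((i : ℕ) * b) (i * b + b), mu r (x + h) - b * V (pr r)) ^ (2 * m) ≤ k * MM * Y := by
      have h7 : ∀ i ∈ (univ : Finset (Fin k)), ∑ x ∈ Ioc Z (Z + Y),
          (∑ h ∈ Ioc ((i : ℕ) * b) (i * b + b), mu r (x + h) - b * V (pr r)) ^ (2 * m) ≤ MM * Y :=
        fun i _ => hMI ((i : ℕ) * b)
      refine (sum_le_sum h7).trans ?_
      rw [sum_const, card_univ, Fintype.card_fin, nsmul_eq_mul]
      apply le_of_eq
      ring
    rw [mul_assoc ((k * (T / σ) * d) ^ (2 * m))]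
    exact mul_le_mul_of_nonneg_left h6 ((even_two_mul m).pow_nonneg _)
  have hMD0 : 0 ≤ MD := by
    rw [hMD]
    exact mul_nonneg ((even_two_mul m).pow_nonneg _) (by positivity)
  have hDabs : ∑ x ∈ Om, |D x| ≤ (εd + MD / εd ^ (2 * m - 1)) * Y := by
    have h5 : ∀ x ∈ Om, |D x| ≤ εd + D x ^ (2 * m) / εd ^ (2 * m - 1) :=
      fun x _ => abs_le_pow m hm εd (D x) hεd
    refine (sum_le_sum h5).trans ?_
    rw [sum_add_distrib, sum_const, nsmul_eq_mul, hcard, ← sum_div, add_mul, mul_comm (Y : ℝ)]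
    apply add_le_add le_rfl
    rw [div_mul_eq_mul_div]
    exact div_le_div_of_nonneg_right hDpow (by positivity)
  -- the number of squarefree numbers
  have hQ : ∑ x ∈ Om, |∑ h ∈ Ioc 0 L, (v h * mu r (x + h)) ^ 2 - W| ≤ 2 * T ^ 2 * k * εs * Y := by
    have hpi : Real.pi ^ 2 / 6 ≤ 2 := by
      have := Real.pi_lt_d2
      have := Real.pi_pos
      nlinarith
    have h5 : ∀ x, |∑ h ∈ Ioc 0 L, (v h * mu r (x + h)) ^ 2 - W| ≤
        ∑ i : Fin k, 2 * T ^ 2 * |(∑ n ∈ Ioc (x + i * b) (x + i * b + b), mu r n ^ 2) / b -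
          6 / Real.pi ^ 2| := by
      intro x
      have e1 : ∑ h ∈ Ioc 0 L, (v h * mu r (x + h)) ^ 2 - W = ∑ i : Fin k, w i ^ 2 * (Real.pi ^ 2 / 6) *
          ((∑ n ∈ Ioc (x + i * b) (x + i * b + b), mu r n ^ 2) / b - 6 / Real.pi ^ 2) := by
        rw [hW, hL, sum_blocks, ← sum_sub_distrib]
        apply sum_congr rfl
        intro i _
        have e2 : ∑ u ∈ Ioc ((i : ℕ) * b) (i * b + b), (v u * mu r (x + u)) ^ 2 =
            ∑ u ∈ Ioc ((i : ℕ) * b) (i * b + b), (w i / σ) ^ 2 * mu r (x + u) ^ 2 := by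
          apply sum_congr rfl
          intro u hu
          rw [hv, wt_block w b σ i u hu]
          ring
        rw [e2, ← mul_sum, sum_shift x (i * b) b (fun n => mu r n ^ 2), div_pow, hσsq]
        have hb0 : (b : ℝ) ≠ 0 := by linarith
        have hpi0 := Real.pi_ne_zero
        field_simp
      rw [e1]
      refine (abs_sum_le_sum_abs _ _).trans ?_
      apply sum_le_sum
      intro i _
      rw [abs_mul]
      apply mul_le_mul_of_nonneg_right _ (abs_nonneg _)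
      rw [abs_of_nonneg (by positivity)]
      have h6 : w i ^ 2 ≤ T ^ 2 := by
        rw [← sq_abs]
        exact pow_le_pow_left₀ (abs_nonneg _) (hw i) 2
      calc w i ^ 2 * (Real.pi ^ 2 / 6) ≤ T ^ 2 * 2 := mul_le_mul h6 hpi (by positivity) (by positivity)
        _ = 2 * T ^ 2 := by ring
    refine (sum_le_sum fun x _ => h5 x).trans ?_
    rw [sum_comm]
    have h7 : ∀ i : Fin k, ∑ x ∈ Om, 2 * T ^ 2 * |(∑ n ∈ Ioc (x + i * b) (x + i * b + b), mu r n ^ 2) / b -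
          6 / Real.pi ^ 2| ≤ 2 * T ^ 2 * (εs * Y) := by
      intro i
      rw [← mul_sum, hOm]
      exact mul_le_mul_of_nonneg_left (hSQ i) (by positivity)
    refine (sum_le_sum fun i _ => h7 i).trans ?_
    rw [sum_const, card_univ, Fintype.card_fin, nsmul_eq_mul]
    apply le_of_eq
    ring
  have hmu1 : ∀ n, mu r n ^ 2 ≤ 1 := by
    intro n
    rcases mu_vals r n with h | h
    · rw [h]; norm_num
    · exact h.le
  have hasq : ∀ x, ∑ h ∈ Ioc 0 L, (v h * mu r (x + h)) ^ 2 ≤ B := by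
    intro x
    refine le_trans (sum_le_sum fun h _ => ?_) hvsq
    rw [mul_pow]
    exact mul_le_of_le_one_right (sq_nonneg _) (hmu1 _)
  have habs : ∀ x, ∀ h ∈ Ioc 0 L, |v h * mu r (x + h)| ≤ T / σ := by
    intro x h _
    rw [abs_mul]
    have h5 : |mu r (x + h)| ≤ 1 := by
      have := hmu1 (x + h)
      rw [← sq_abs] at this
      by_contra hcon
      rw [not_le] at hcon
      nlinarith
    calc |v h| * |mu r (x + h)| ≤ |v h| * 1 := mul_le_mul_of_nonneg_left h5 (abs_nonneg _)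
      _ ≤ T / σ := by rw [mul_one]; exact hvb h
  -- comparison of the moments
  obtain ⟨η₁, hη₁⟩ : ∃ η₁ : ℝ, η₁ = (2 * (T / σ) * (k * b)) ^ (2 * m) * η := ⟨_, rfl⟩
  have hbase : 1 ≤ 2 * (T / σ) * (k * b) := by
    have h5 : σ ≤ b := by
      have h6 : σ ^ 2 ≤ (b : ℝ) ^ 2 := by
        rw [hσsq, div_le_iff₀ (by positivity)]
        have h7 : (9 : ℝ) ≤ Real.pi ^ 2 := by
          have := Real.pi_gt_three
          nlinarith
        calc (6 : ℝ) * b ≤ b ^ 2 * 9 := by nlinarith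
          _ ≤ b ^ 2 * Real.pi ^ 2 := by gcongr
      exact (sq_le_sq₀ hσ0.le (by positivity)).1 h6
    have h6 : 1 ≤ T / σ * b := by
      rw [div_mul_eq_mul_div, le_div_iff₀ hσ0]
      nlinarith
    calc (1 : ℝ) ≤ T / σ * b := h6
      _ ≤ 2 * (T / σ) * (k * b) := by nlinarith [mul_nonneg hτ0 (by linarith : (0 : ℝ) ≤ b)]
  have hη₁0 : 0 ≤ η₁ := by rw [hη₁]; positivity
  have hcmp : ∀ j ≤ 2 * m, |∑ x ∈ Om, (∑ h ∈ Ioc 0 L, v h * mu y (x + h) - c₀) ^ j -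
      ∑ x ∈ Om, ∑ U ∈ (Ioc 0 L).powerset, pw d L U *
        (∑ h ∈ Ioc 0 L, v h * mu r (x + h) * sg U h - c₀) ^ j| ≤ η₁ * Om.card := by
    intro j hj
    have h5 := hCMP Om L j (fun x h => mu y (x + h)) (fun x h => mu r (x + h)) v d (T / σ) c₀ (η * Y)
      hvb (by positivity) (by
        intro i hi g hg
        rw [hOm]
        exact hTUP i (hi.trans hj) g (by rw [← hL]; exact hg))
    have e1 : ∀ x U, ∑ h ∈ Ioc 0 L, v h * sg U h * mu r (x + h) = ∑ h ∈ Ioc 0 L, v h * mu r (x + h) * sg U h := by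
      intro x U
      exact sum_congr rfl fun h _ => by ring
    simp_rw [e1] at h5
    refine h5.trans ?_
    rw [hcard, hη₁, mul_assoc]
    apply mul_le_mul_of_nonneg_right _ (by positivity)
    have h6 : T / σ * L + |c₀| ≤ 2 * (T / σ) * (k * b) := by
      rw [← hLr]
      linarith
    calc (T / σ * L + |c₀|) ^ j ≤ (2 * (T / σ) * (k * b)) ^ j :=
          pow_le_pow_left₀ (by positivity) h6 j
      _ ≤ _ := pow_le_pow_right₀ hbase hj
  have hcf := hCF2 Om (Ioc 0 L).powerset (pw d L) (fun x => ∑ h ∈ Ioc 0 L, v h * mu y (x + h) - c₀)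
    (fun x U => ∑ h ∈ Ioc 0 L, v h * mu r (x + h) * sg U h - c₀) m η₁
    (fun U _ => pw_nonneg d hd0 hd1 L U) (pw_sum h1 d L) hη₁0 hcmp
  -- the remainder
  have hrem : 2 * (∑ x ∈ Om, ∑ U ∈ (Ioc 0 L).powerset, pw d L U *
      (∑ h ∈ Ioc 0 L, v h * mu r (x + h) * sg U h - c₀) ^ (2 * m)) / (2 * m).factorial ≤
      (4 * Real.exp (256 * B) / 16 ^ m + 2 * 4 ^ m * MD) * Y := by
    have hfac : (1 : ℝ) ≤ (2 * m).factorial := by
      exact_mod_cast Nat.one_le_iff_ne_zero.2 (Nat.factorial_ne_zero _)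
    have hfac0 : (0 : ℝ) < (2 * m).factorial := by linarith
    have h5 : ∑ x ∈ Om, ∑ U ∈ (Ioc 0 L).powerset, pw d L U *
        (∑ h ∈ Ioc 0 L, v h * mu r (x + h) * sg U h - c₀) ^ (2 * m) ≤
        ∑ x ∈ Om, 2 ^ (2 * m) * ((2 * m).factorial * (2 * Real.exp (256 * B)) / 8 ^ (2 * m) +
          D x ^ (2 * m)) := by
      apply sum_le_sum
      intro x _
      have h6 := moment_pt h1 h2 d hd0 hd1 L m hm (fun h => v h * mu r (x + h)) c₀ B (hasq x)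
      rw [hDdef]
      exact h6
    have h7 : ∑ x ∈ Om, 2 ^ (2 * m) * ((2 * m).factorial * (2 * Real.exp (256 * B)) / 8 ^ (2 * m) +
          D x ^ (2 * m)) ≤ 2 ^ (2 * m) * ((2 * m).factorial * (2 * Real.exp (256 * B)) / 8 ^ (2 * m) + MD) * Y := by
      rw [← mul_sum, sum_add_distrib, sum_const, nsmul_eq_mul, hcard, mul_assoc]
      apply mul_le_mul_of_nonneg_left _ (by positivity)
      rw [add_mul, mul_comm (Y : ℝ)]
      exact add_le_add le_rfl hDpow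
    rw [div_le_iff₀ hfac0]
    have e8 : (8 : ℝ) ^ (2 * m) = 4 ^ m * 16 ^ m := by
      rw [← mul_pow, pow_mul]
      norm_num
    have e9 : (2 : ℝ) ^ (2 * m) = 4 ^ m := by rw [pow_mul]; norm_num
    have h8 : 2 * (2 ^ (2 * m) * ((2 * m).factorial * (2 * Real.exp (256 * B)) / 8 ^ (2 * m) + MD) * Y) ≤
        (4 * Real.exp (256 * B) / 16 ^ m + 2 * 4 ^ m * MD) * Y * (2 * m).factorial := by
      rw [e8, e9]
      have e10 : 2 * (4 ^ m * ((2 * m).factorial * (2 * Real.exp (256 * B)) / (4 ^ m * 16 ^ m) + MD) * (Y : ℝ)) =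
          (4 * Real.exp (256 * B) / 16 ^ m) * Y * (2 * m).factorial + 2 * 4 ^ m * MD * Y := by
        field_simp
        ring
      rw [e10]
      have h9 : 2 * 4 ^ m * MD * Y ≤ 2 * 4 ^ m * MD * Y * (2 * m).factorial :=
        le_mul_of_one_le_right (by positivity) hfac
      nlinarith
    linarith
  -- the phases
  have hph : ‖∑ x ∈ Om, ∑ U ∈ (Ioc 0 L).powerset, (pw d L U : ℂ) * Complex.exp (Complex.I *
      ((∑ h ∈ Ioc 0 L, v h * mu r (x + h) * sg U h - c₀ : ℝ) : ℂ)) -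
      (Y : ℂ) * ((Real.exp (-W / 2) : ℝ) : ℂ)‖ ≤
      ((T / σ + d ^ 2) * B + T ^ 2 * k * εs + εd + MD / εd ^ (2 * m - 1)) * Y := by
    have e1 : (Y : ℂ) * ((Real.exp (-W / 2) : ℝ) : ℂ) = ∑ _x ∈ Om, ((Real.exp (-W / 2) : ℝ) : ℂ) := by
      rw [sum_const, nsmul_eq_mul, hcardN]
    rw [e1, ← sum_sub_distrib]
    refine (norm_sum_le _ _).trans ?_
    have h5 : ∀ x ∈ Om, ‖∑ U ∈ (Ioc 0 L).powerset, (pw d L U : ℂ) * Complex.exp (Complex.I *
      ((∑ h ∈ Ioc 0 L, v h * mu r (x + h) * sg U h - c₀ : ℝ) : ℂ)) - ((Real.exp (-W / 2) : ℝ) : ℂ)‖ ≤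
        (T / σ + d ^ 2) * B + |∑ h ∈ Ioc 0 L, (v h * mu r (x + h)) ^ 2 - W| / 2 + |D x| := by
      intro x _
      rw [hDdef]
      exact phase_pt h3 h4 d hd0 hd1 L (fun h => v h * mu r (x + h)) c₀ B (T / σ) W (hasq x) hτ
        (habs x) hτ0 hW0
    refine (sum_le_sum h5).trans ?_
    rw [sum_add_distrib, sum_add_distrib, sum_const, nsmul_eq_mul, hcard, ← sum_div]
    have h6 : (∑ x ∈ Om, |∑ h ∈ Ioc 0 L, (v h * mu r (x + h)) ^ 2 - W|) / 2 ≤ T ^ 2 * k * εs * Y := by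
      rw [div_le_iff₀ (by norm_num : (0 : ℝ) < 2)]
      linarith
    have e2 : ((T / σ + d ^ 2) * B + T ^ 2 * k * εs + εd + MD / εd ^ (2 * m - 1)) * (Y : ℝ) =
        Y * ((T / σ + d ^ 2) * B) + T ^ 2 * k * εs * Y + (εd + MD / εd ^ (2 * m - 1)) * Y := by ring
    rw [e2]
    exact add_le_add (add_le_add le_rfl h6) hDabs
  -- conclusion
  rw [← hOm, ← hW]
  have hcardC : ((Om.card : ℕ) : ℂ) = (Y : ℂ) := by rw [hcardN]
  rw [hcardC]
  have e2 : ∑ x ∈ Om, Complex.exp (Complex.I * ((∑ i : Fin k, w i *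
        ((∑ n ∈ Ioc (x + i * b) (x + i * b + b), mu y n - b * V (pr y)) / √(6 * b / Real.pi ^ 2)) : ℝ) : ℂ)) =
      ∑ x ∈ Om, Complex.exp (Complex.I * ((∑ h ∈ Ioc 0 L, v h * mu y (x + h) - c₀ : ℝ) : ℂ)) :=
    sum_congr rfl fun x _ => by rw [hS x]
  rw [e2]
  obtain ⟨P, hPdef⟩ : ∃ P, P = ∑ x ∈ Om, Complex.exp (Complex.I *
    ((∑ h ∈ Ioc 0 L, v h * mu y (x + h) - c₀ : ℝ) : ℂ)) := ⟨_, rfl⟩
  obtain ⟨R, hR⟩ : ∃ R, R = ∑ x ∈ Om, ∑ U ∈ (Ioc 0 L).powerset, (pw d L U : ℂ) * Complex.exp (Complex.I *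
      ((∑ h ∈ Ioc 0 L, v h * mu r (x + h) * sg U h - c₀ : ℝ) : ℂ)) := ⟨_, rfl⟩
  rw [← hR] at hph
  have hcf' : ‖P - R‖ ≤ 4 * η₁ * Y + (4 * Real.exp (256 * B) / 16 ^ m + 2 * 4 ^ m * MD) * Y := by
    rw [hPdef, hR, ← hcard]
    refine hcf.trans ?_
    rw [hcard]
    exact add_le_add le_rfl hrem
  rw [← hPdef]
  have hYC : (Y : ℂ) ≠ 0 := by exact_mod_cast hY.ne'
  obtain ⟨E, hE⟩ : ∃ E : ℂ, E = ((Real.exp (-W / 2) : ℝ) : ℂ) := ⟨_, rfl⟩
  rw [← hE] at hph ⊢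
  have e3 : P / Y - E = (P - Y * E) / Y := by field_simp
  rw [e3, norm_div, Complex.norm_natCast, div_le_iff₀ hY0]
  calc ‖P - Y * E‖ = ‖(P - R) + (R - Y * E)‖ := by ring_nf
    _ ≤ ‖P - R‖ + ‖R - Y * E‖ := norm_add_le _ _
    _ ≤ (4 * η₁ * Y + (4 * Real.exp (256 * B) / 16 ^ m + 2 * 4 ^ m * MD) * Y) +
        ((T / σ + d ^ 2) * B + T ^ 2 * k * εs + εd + MD / εd ^ (2 * m - 1)) * Y := add_le_add hcf' hph
    _ = _ := by rw [hη₁]; ring

end Pool.Agent.H19.TM
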