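import Pool.Agent.H19.TM.Stm

/-!
# Project TM2: the exact ranges of the Gaussian law for the truncated Moebius function (MP_4f18df_nt)

Statements of the modules. `pr`, `muP`, `mu`, `loc`, `odd`, `sg` are those of `Pool.Agent.Y862.GM`, and `V`, `pw`,
`S_BR`, `S_RAD1`, `S_VV`, ... those of `Pool.Agent.H19.TM.Stm` (all the statements of that file are proved: see
the imports of `Pool/Agent/Results/MP_4f18df_nt/SharpThreshold.lean`).
-/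

set_option autoImplicit false

namespace Pool.Agent.H19.TM

open Finset Pool.Agent.Y862.GM

/-- the variance over a full period of the sum over a window of length `N` -/
noncomputable def Wv (P : Finset ℕ) (N : ℕ) : ℝ :=
  (∑ n ∈ range (∏ p ∈ P, p ^ 2), (∑ j ∈ range N, ∏ p ∈ P, muP p (n + j) - N * V P) ^ 2) /
    ∏ p ∈ P, (p : ℝ) ^ 2

/-- the mean value of the square of `∏ p ∈ P, muP p n` -/
noncomputable def sig (P : Finset ℕ) : ℝ := ∏ p ∈ P, (1 - 1 / (p : ℝ) ^ 2)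

/-- the covariance of `muP q` at the lag `h`, not centred -/
noncomputable def kap (q h : ℕ) : ℝ := (1 - 4 / q + 2 / (q : ℝ) ^ 2) +
  (if q ∣ h then 4 / (q : ℝ) - 4 / (q : ℝ) ^ 2 else 0) + (if q ^ 2 ∣ h then 1 / (q : ℝ) ^ 2 else 0)

/-- the number of `j < N` in the class `a` modulo `M` -/
def cnt (M a N : ℕ) : ℕ := ((range N).filter (fun j => j % M = a)).card

/-- the quadratic deviation of the numbers `cnt M a N` -/
noncomputable def th (M N : ℕ) : ℝ := ∑ a ∈ range M, ((cnt M a N : ℝ) - N / M) ^ 2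

/-- the values which `g` takes an odd number of times on `I` -/
def oddI {K : ℕ} (g : Fin K → ℕ) (I : Finset (Fin K)) : Finset ℕ :=
  (univ.image g).filter (fun v => Odd ((I.filter (fun i => g i = v)).card))

/-- **CNT**: the numbers `cnt M a N`.  Proof: if `N = u M + v` with `v < M` then `cnt M a N = u + 1` for `a < v` and
`= u` for `v ≤ a < M`; so `th M N = v (M - v) / M ≤ min (M / 4) v`, and for `N < M`: `u = 0`, `v = N`
(for `N = M`: `v = 0`). -/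
def S_CNT : Prop := ∀ M N : ℕ, 1 ≤ M →
  (∑ a ∈ range M, cnt M a N = N) ∧ (∀ a < M, N / M ≤ cnt M a N ∧ cnt M a N ≤ N / M + 1) ∧
  0 ≤ th M N ∧ th M N ≤ (M : ℝ) / 4 ∧ th M N ≤ N ∧ (N ≤ M → th M N = (N : ℝ) * (1 - N / M))

/-- **COV**: the variance over a full period from the covariances.  Proof: expand the square; the mean value over the
full period of `∏ q ∈ P, muP q (n + i)` is `V P` and that of `∏ q ∈ P, muP q (n + i) * muP q (n + j)` is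
`∏ q ∈ P, kap q (dist i j)`, by the Chinese remainder theorem in the form `Pool.Agent.Y672.GM.sum_prod` (see `corr_full`
in `Pool/Agent/H52/TM/Mi.lean`) and `muP q n = 1 - 2 [q ∣ n] + [q ^ 2 ∣ n]` (`muP_eq` in `Pool/Agent/H23/TM/Mom.lean`). -/
def S_COV : Prop := ∀ P : Finset ℕ, (∀ p ∈ P, p.Prime) → ∀ N : ℕ,
  Wv P N = (∑ i ∈ range N, ∑ j ∈ range N, ∏ q ∈ P, kap q (Nat.dist i j)) - (N : ℝ) ^ 2 * V P ^ 2

/-- **REC**: the recursion for the variance.  Proof from `S_COV`: for `q ∈ P` one has `kap q (p * h) = kap q h` and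
`kap q (p ^ 2 * h) = kap q h` (as `q` does not divide `p`); write `kap p (dist i j)` with its three terms; the `i, j < N`
with `p ∣ dist i j` are the pairs in the same class `a` modulo `p`, the class is `a + p i'`, `i' < cnt p a N`, and
`dist (a + p i') (a + p j') = p * dist i' j'`; so the second sum is `∑ a < p, (Wv P (cnt p a N) + (cnt p a N) ^ 2 V ^ 2)`,
the third is the same with `p ^ 2`.  Finally `∑ a < M, (cnt M a N) ^ 2 = N ^ 2 / M + th M N` (from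
`∑ a < M, cnt M a N = N`), `V (insert p P) = (1 - 1 / p) ^ 2 * V P`, and the coefficients of `N ^ 2 * V P ^ 2` cancel:
`(1 - 4 x + 2 x ^ 2) + (4 x - 4 x ^ 2) x + x ^ 4 = (1 - x) ^ 4`. -/
def S_REC : Prop := ∀ P : Finset ℕ, (∀ q ∈ P, q.Prime) → ∀ p : ℕ, p.Prime → p ∉ P → ∀ N : ℕ,
  Wv (insert p P) N = (1 - 4 / p + 2 / (p : ℝ) ^ 2) * Wv P N +
    (4 / (p : ℝ) - 4 / (p : ℝ) ^ 2) * ∑ a ∈ range p, Wv P (cnt p a N) +
    1 / (p : ℝ) ^ 2 * ∑ a ∈ range (p ^ 2), Wv P (cnt (p ^ 2) a N) +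
    V P ^ 2 * ((4 / (p : ℝ) - 4 / (p : ℝ) ^ 2) * th p N + th (p ^ 2) N / (p : ℝ) ^ 2)

/-- **SIG**: the mean value of the square.  Proof: `∏ p ∈ P, (1 - 1 / p ^ 2) ≥ ∏ 2 ≤ n ≤ N, (1 - 1 / n ^ 2) =
(N + 1) / (2 N) ≥ 1 / 2`; the product over all the primes is `1 / ζ(2) = 6 / π ^ 2` (Euler product); for windows of
length 1, `Wv P 1 = sig P - V P ^ 2` (from `S_COV`: `kap q 0 = 1 - 1 / q ^ 2`), `Wv P 0 = 0`. -/
def S_SIG : Prop := (∀ P : Finset ℕ, (∀ p ∈ P, p.Prime) → 1 / 2 ≤ sig P ∧ sig P ≤ 1) ∧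
  (∀ ε : ℝ, 0 < ε → ∃ A : ℕ, ∀ y : ℕ, A ≤ y → sig (pr y) ≤ (1 + ε) * (6 / Real.pi ^ 2)) ∧
  (∀ P : Finset ℕ, (∀ p ∈ P, p.Prime) → Wv P 0 = 0 ∧ Wv P 1 = sig P - V P ^ 2)

/-- **VAR**: the variance is bounded by a constant times the length, for all sets of primes.  Proof (`0 ≤ Wv` is clear):
induction on `P` (`Finset.induction_on`) with the bound `B P * N`, where
`B P = 5 * (∏ p ∈ P, (1 + 3 / p ^ 2)) * (1 - V P ^ 2)`: in `S_REC`, if `Wv P M ≤ B M` for all `M`, then with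
`∑ cnt = N`, `th p N ≤ N`, `th (p ^ 2) N ≤ N`: `Wv (insert p P) N ≤ B (max (1 - 4 / p + 2 / p ^ 2) 0 + 4 / p - 3 / p ^ 2) N +
V P ^ 2 (5 / p) N`, the bracket is `≤ 1 + 3 / p ^ 2` for every prime (`p = 2, 3` separately, for `p ≥ 5` it is
`1 - 1 / p ^ 2`), and `V P ^ 2 - V (insert p P) ^ 2 ≥ V P ^ 2 / p`.  The product is bounded. -/
def S_VAR : Prop := ∃ C : ℝ, 1 ≤ C ∧ ∀ P : Finset ℕ, (∀ p ∈ P, p.Prime) → ∀ N : ℕ, 0 ≤ Wv P N ∧ Wv P N ≤ C * N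

/-- **SMALL**: small primes contribute little.  Proof: by induction on `z` (only the prime steps `P = pr (p - 1)`,
`pr p = insert p P` matter) one shows `Wv (pr z) N ≤ K * (∏ q ∈ pr z, (1 + 3 / q ^ 2)) * N / (√(V (pr z)) * (1 + log N))`
for all `N ≥ 1`, with `K` large.  For `N ≤ p ^ 18` this is `S_VAR`, as `1 / √(V (pr p)) = ∏ q ≤ p, (1 - 1 / q)⁻¹ ≥ c log p`
(`S_VV`).  For `N > p ^ 18`: in `S_REC` use `cnt p a N ≥ N / (2 p)`, `cnt (p ^ 2) a N ≥ N / (2 p ^ 2)`, so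
`(1 + log N) / (1 + log (cnt p a N)) ≤ 1 + 1 / 8` and `(1 + log N) / (1 + log (cnt (p ^ 2) a N)) ≤ 1 + 1 / 5`; with
`B = K ∏ / √(V P)` and `th p N ≤ p / 4`, `th (p ^ 2) N ≤ p ^ 2 / 4`, `V P ≤ 1`:
`Wv (pr p) N ≤ B N / (1 + log N) * (max (1 - 4 / p + 2 / p ^ 2) 0 + (4 / p - 4 / p ^ 2) (1 + 1 / 8) + (1 / p ^ 2) (1 + 1 / 5)) + 5 / 4`
and the bracket is `≤ 1 + 1 / (2 p)` for `p ≥ 5` (and `≤ (1 + 3 / p ^ 2) (1 + 1 / (2 p))` for `p = 2, 3`), while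
`5 / 4 ≤ B N / (1 + log N) / (2 p)` as `N > p ^ 18`, `B ≥ K`; and `√(V (pr p)) = (1 - 1 / p) √(V P)`,
`(1 - 1 / p)⁻¹ ≥ 1 + 1 / p`.  At the end `1 / √(V (pr z)) ≤ C log z` by `S_VV`. -/
def S_SMALL : Prop := ∃ C : ℝ, 1 ≤ C ∧ ∀ z N : ℕ, 2 ≤ z → 1 ≤ N →
  Wv (pr z) N ≤ C * N * Real.log z / (1 + Real.log N)

/-- **FAR**: the deficiency at the primes above the length.  Proof: `S_REC` with `S_CNT` for `N ≤ p` (all the
`cnt p a N`, `cnt (p ^ 2) a N` are `0` or `1`, `N` of them are `1`), `Wv P 0 = 0`, `Wv P 1 = sig P - V P ^ 2`: with `x = 1 / p`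
`sig (insert p P) N - Wv (insert p P) N = (1 - 4 x + 2 x ^ 2) (sig P N - Wv P N) + V P ^ 2 N ^ 2 (4 x ^ 2 - 4 x ^ 3 + x ^ 4)`. -/
def S_FAR : Prop := ∀ P : Finset ℕ, (∀ q ∈ P, q.Prime) → ∀ p : ℕ, p.Prime → p ∉ P → ∀ N : ℕ, N ≤ p →
  (1 - 4 / p + 2 / (p : ℝ) ^ 2) * (sig P * N - Wv P N) ≤ sig (insert p P) * N - Wv (insert p P) N

/-- **PV**: the product of the `1 - 4 / q`, from `S_VV`.  Proof: `1 - 4 / q ≥ (1 - 1 / q) ^ 8` for `q ≥ 7`, so the product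
is `≥ (V (pr z) / V (pr w)) ^ 4 ≥ ((c / C) (log w / log z) ^ 2) ^ 4`. -/
def S_PV : Prop := ∃ c : ℝ, 0 < c ∧ ∀ w z : ℕ, 7 ≤ w → w ≤ z →
  c * (Real.log w / Real.log z) ^ 8 ≤ ∏ q ∈ (Ioc w z).filter Nat.Prime, (1 - 4 / (q : ℝ))

/-- **LIM**: the variance is smaller than that of random signs, for windows longer than the primes.
Proof.  `H e`: there is `M0` with `Wv (pr z) M ≤ (1 + e) * sig (pr z) * M` for all `M ≥ M0` and ALL `z`.
(a) `H e` for some `e` by `S_VAR`, as `sig ≥ 1 / 2`.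
(b) There is `c₁ ∈ (0, 1 / 2)` such that `H e`, `e ≥ 0` imply: there is `N2` with
`Wv (pr z) N ≤ (1 + (1 - c₁) e - c₁ / 4) * sig (pr z) * N` for all `N ≥ N2`, `z ≤ N`.
Then by `S_FAR` (for the primes above `N`, where `1 - 4 / q + 2 / q ^ 2 ≤ 1 - 1 / q ^ 2`) `H (max 0 ((1 - c₁) e - c₁ / 4))`.
(c) Iterate (b) finitely often to get `H 0`, and apply (b) once more with `e = 0`: the claim with `η = c₁ / 4`.
Proof of (b): by `S_SMALL` there is `κ > 0` with `Wv (pr z) N ≤ N / 4 ≤ (1 / 2) sig (pr z) N` for `z ≤ N ^ κ`.  Let `w` be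
the integer part of `N ^ κ`, and `X z = Wv (pr z) N / (sig (pr z) N)`.  For a prime `q = z + 1`, `w ≤ z < N`, `x = 1 / q`,
`S_REC` gives (`th ≤ M / 4`, `V ≤ 1`, `cnt q a N ≥ M0` if `2 M0 q ≤ N`, and `S_VAR` otherwise)
`X (z+1) - 1 - e ≤ (1 - 4 x) (X z - 1 - e) + C'' x ^ 2 + E / N`, `E` depending on `M0`.
By induction `X z - 1 - e ≤ - (1 / 2 + e) ∏ w < q ≤ z, (1 - 4 / q) + ∑ w < q ≤ z, (C'' / q ^ 2 + E / N)`, the product is
`≥ c₁` by `S_PV` (as `log w ≥ (κ / 2) log N`), and the sum is `≤ C'' / w + E π(N) / N ≤ c₁ / 4` for large `N`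
(`Chebyshev.eventually_primeCounting_le` in Mathlib for `π(N) / N → 0`). -/
def S_LIM : Prop := ∃ η : ℝ, 0 < η ∧ ∃ N0 : ℕ, ∀ N z : ℕ, N0 ≤ N → z ≤ N →
  Wv (pr z) N ≤ (1 - η) * sig (pr z) * N

/-- **DEF**: the deficiency of the variance for windows longer than a power of `y`.  Proof: for `y ≤ b` this is `S_LIM`
and `S_SIG`.  For `b < y`, `D z = sig (pr z) b - Wv (pr z) b` satisfies `D b ≥ η₀ b / 2` and, by `S_FAR`,
`D y ≥ D b * ∏ b < q ≤ y, (1 - 4 / q) ≥ D b * c' c ^ 8` (`S_PV`, `log b ≥ c log y`). -/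
def S_DEF : Prop := ∀ c : ℝ, 0 < c → ∃ η : ℝ, 0 < η ∧ ∃ A : ℕ, ∀ y b : ℕ, A ≤ y → (y : ℝ) ^ c ≤ b →
  Wv (pr y) b ≤ (1 - η) * (6 / Real.pi ^ 2) * b

/-- **MI1**: the second moment in an interval is the variance over a full period, up to an exponentially small error.
Proof: as in `Pool/Agent/H52/TM/Mi.lean` (`corr_int`, `corr_full`, `moment_cmp`, `mu_periodic`, with `K = 2`). -/
def S_MI1 : Prop := ∃ A : ℕ, ∀ y r : ℕ, A ≤ y → r ≤ y → ∀ lam : ℝ, Real.log (Real.log y) ≤ lam →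
  ∀ Z Y : ℕ, (y : ℝ) ^ (A * lam) ≤ Y → ∀ a b : ℕ, 1 ≤ b →
  |(∑ x ∈ Ioc Z (Z + Y), (∑ h ∈ Ioc a (a + b), mu r (x + h) - b * V (pr r)) ^ 2) / Y - Wv (pr r) b| ≤
    (2 * b) ^ 2 * Real.exp (-lam)

/-- **TUP2**: the primes above `r` act as independent signs, mixed tuples.  Proof: as `t_TUP` in
`Pool/Agent/H23/TM/Tup.lean`, applied to the local factors `loc g p` for `p ≤ r` and `∏ i ∈ I, muP p (n + g i)` for
`r < p ≤ y`; the latter is `loc g' p` for the tuple `g' = g ∘ (enumeration of I) : Fin I.card → ℕ`, with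
`odd g' = oddI g I`. -/
def S_TUP2 : Prop := ∀ K : ℕ, ∃ (C A : ℕ), ∀ y r : ℕ, A ≤ r → r ≤ y → ∀ lam : ℝ,
  Real.log (Real.log y) ≤ lam → ∀ Z Y : ℕ, (y : ℝ) ^ (A * lam) ≤ Y → ∀ g : Fin K → ℕ, (∀ i, g i ≤ r) →
  ∀ I : Finset (Fin K),
  |(∑ x ∈ Ioc Z (Z + Y), (∏ i ∈ I, mu y (x + g i)) * ∏ i ∈ Iᶜ, mu r (x + g i)) -
    (V (pr y) / V (pr r)) ^ (oddI g I).card * ∑ x ∈ Ioc Z (Z + Y), ∏ i, mu r (x + g i)| ≤
    (C / r + 2 * Real.exp (-lam)) * Y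

/-- **CMP2**: comparison of the moments of the centred sums.  Proof: as `t_CMP` in `Pool/Agent/H52/TM/Cmp.lean`: expand
the `j`-th powers over the `g : Fin j → Ioc 0 L` and each product `∏ l, (f₁ x (g l) - d f₂ x (g l))` over the subsets `I`
of `Fin j` (`Finset.prod_add` or `Finset.prod_sub`-type expansion); on the other side
`∑ U, pw d L U * ∏ l ∈ I, sg U (g l) = d ^ (oddI g I).card` by `S_RAD1` for the tuple `g ∘ (enumeration of I)`. -/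
def S_CMP2 : Prop := ∀ (Om : Finset ℕ) (L j : ℕ) (f₁ f₂ : ℕ → ℕ → ℝ) (v : ℕ → ℝ) (d C η : ℝ),
  (∀ h, |v h| ≤ C) → 0 ≤ η → 0 ≤ d → d ≤ 1 →
  (∀ g : Fin j → ℕ, (∀ l, g l ∈ Ioc 0 L) → ∀ I : Finset (Fin j),
    |(∑ x ∈ Om, (∏ l ∈ I, f₁ x (g l)) * ∏ l ∈ Iᶜ, f₂ x (g l)) -
      d ^ (oddI g I).card * ∑ x ∈ Om, ∏ l, f₂ x (g l)| ≤ η) →
  |∑ x ∈ Om, (∑ h ∈ Ioc 0 L, v h * (f₁ x h - d * f₂ x h)) ^ j -
    ∑ x ∈ Om, ∑ U ∈ (Ioc 0 L).powerset, pw d L U * (∑ h ∈ Ioc 0 L, v h * f₂ x h * (sg U h - d)) ^ j| ≤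
    (2 * C * L) ^ j * η

/-- **FAIL**: if the second moment stays below `1 - η` then the distribution function is not close to `Φ` at all the
points of a fixed finite set.  Proof: for `0 = s 0 < s 1 < ... < s M` (the `s i = i / n`, `i ≤ n ^ 2`) and every real `u`:
`u ^ 2 ≥ ∑ i, (s i ^ 2 - s (i-1) ^ 2) ([u ≤ - s i] + [u > s i])`.  Averaging, `1 - η ≥ ∑ i, (s i ^ 2 - s (i-1) ^ 2)
(F (- s i) + 1 - F (s i))`, and the same sum with `Φ` is `∫ f_n dγ` for the step function `f_n ≤ u ^ 2`, `f_n → u ^ 2`, so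
it tends to `∫ u ^ 2 dγ = 1` (dominated convergence); take `n` with the sum `≥ 1 - η / 2`, `ts = {± s i}` and `δ` with
`2 δ s M ^ 2 < η / 2`. -/
def S_FAIL : Prop := ∀ η : ℝ, 0 < η → ∃ (ts : Finset ℝ) (δ : ℝ), 0 < δ ∧ ∀ Om : Finset ℕ, Om.Nonempty →
  ∀ S : ℕ → ℝ, (∑ x ∈ Om, S x ^ 2) / Om.card ≤ 1 - η → ∃ t ∈ ts,
  δ ≤ |((Om.filter (fun x => S x ≤ t)).card : ℝ) / Om.card -
    (ProbabilityTheory.gaussianReal 0 1).real (Set.Iic t)|

end Pool.Agent.H19.TM
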