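import Pool.Agent.H19.TM.Core
import Pool.Agent.H19.TM.Stm2

/-!
# Project TM2: the characteristic function, with all small quantities as hypotheses, exact range
-/

set_option autoImplicit false

namespace Pool.Agent.H19.TM

open Finset Pool.Agent.Y862.GM

lemma exp_I_lip (a b : ℝ) : ‖Complex.exp (Complex.I * (a : ℂ)) - Complex.exp (Complex.I * (b : ℂ))‖ ≤ |a - b| := by
  have e : Complex.exp (Complex.I * (a : ℂ)) - Complex.exp (Complex.I * (b : ℂ)) =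
      Complex.exp (Complex.I * (b : ℂ)) * (Complex.exp (Complex.I * ((a - b : ℝ) : ℂ)) - 1) := by
    rw [mul_sub, ← Complex.exp_add, mul_one]
    congr 2
    push_cast
    ring
  rw [e, norm_mul]
  have h1 : ‖Complex.exp (Complex.I * (b : ℂ))‖ = 1 := by
    rw [mul_comm]
    exact Complex.norm_exp_ofReal_mul_I b
  rw [h1, one_mul]
  have := Real.norm_exp_I_mul_ofReal_sub_one_le (x := a - b)
  rwa [Real.norm_eq_abs] at this

theorem core2 (h1 : S_RAD1) (h2 : S_RAD2) (h3 : S_RAD3) (h4 : S_COS2) (hCMP : S_CMP2) (hCF2 : S_CF2)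
    (k : ℕ) (hk : 1 ≤ k) (T : ℝ) (hT : 1 ≤ T) (m : ℕ) (y r b Z Y : ℕ) (hr : r ≤ y)
    (hb : 1 ≤ b) (hY : 0 < Y) (w : Fin k → ℝ) (hw : ∀ i, |w i| ≤ T) (d σ B η MM εs εd MD : ℝ)
    (hd : d = V (pr y) / V (pr r)) (hσ : σ = √(6 * b / Real.pi ^ 2)) (hB : B = k * T ^ 2 * (Real.pi ^ 2 / 6))
    (hη : 0 ≤ η) (hεd : 0 < εd)
    (hτ : T / σ ≤ 1 / 2)
    (hTUP : ∀ j ≤ 2 * m, ∀ g : Fin j → ℕ, (∀ l, g l ∈ Ioc 0 (k * b)) → ∀ I : Finset (Fin j),
      |(∑ x ∈ Ioc Z (Z + Y), (∏ l ∈ I, mu y (x + g l)) * ∏ l ∈ Iᶜ, mu r (x + g l)) -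
        d ^ (oddI g I).card * ∑ x ∈ Ioc Z (Z + Y), ∏ l, mu r (x + g l)| ≤ η * Y)
    (hMI : ∀ a : ℕ, (∑ x ∈ Ioc Z (Z + Y),
      (∑ h ∈ Ioc a (a + b), mu r (x + h) - b * V (pr r)) ^ (2 * 1)) ≤ MM * Y)
    (hSQ : ∀ i : Fin k, ∑ x ∈ Ioc Z (Z + Y), |(∑ n ∈ Ioc (x + i * b) (x + i * b + b), mu r n ^ 2) / b -
      6 / Real.pi ^ 2| ≤ εs * Y)
    (hMD : MD = (k * (T / σ) * d) ^ (2 * 1) * (k * MM)) :
    ‖(∑ x ∈ Ioc Z (Z + Y), Complex.exp (Complex.I * ((∑ i : Fin k, w i *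
        ((∑ n ∈ Ioc (x + i * b) (x + i * b + b), mu y n - b * V (pr y)) / √(6 * b / Real.pi ^ 2)) : ℝ) : ℂ))) /
        ((Ioc Z (Z + Y)).card : ℂ) - ((Real.exp (-(∑ i, w i ^ 2) / 2) : ℝ) : ℂ)‖ ≤
      4 * ((2 * (T / σ) * (k * b)) ^ (2 * m) * η) + 4 * Real.exp (256 * B) / 64 ^ m +
        (T / σ + d ^ 2) * B + T ^ 2 * k * εs + (εd + MD / εd ^ (2 * 1 - 1)) := by
  -- basic facts
  have hb' : (1 : ℝ) ≤ b := by exact_mod_cast hb
  have hk' : (1 : ℝ) ≤ k := by exact_mod_cast hk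
  have hY0 : (0 : ℝ) < Y := by exact_mod_cast hY
  obtain ⟨hσ0, hσ2, hσsq⟩ := sigma_facts b hb
  rw [← hσ] at hσ0 hσ2 hσsq
  have hVy := V_pos (pr y) (pr_prime y)
  have hVr := V_pos (pr r) (pr_prime r)
  have hVy1 := V_le_one (pr y) (pr_prime y)
  have hd0 : 0 ≤ d := by rw [hd]; positivity
  have hd1 : d ≤ 1 := by
    rw [hd, div_le_one hVr]
    exact V_anti hr
  have hdV : d * V (pr r) = V (pr y) := by
    rw [hd]
    field_simp
  have hT0 : 0 < T := by linarith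
  have hτ0 : 0 ≤ T / σ := by positivity
  obtain ⟨L, hL⟩ : ∃ L : ℕ, L = k * b := ⟨_, rfl⟩
  have hLr : (L : ℝ) = k * b := by rw [hL]; push_cast; ring
  obtain ⟨v, hv⟩ : ∃ v, v = wt w b σ := ⟨_, rfl⟩
  have hvb : ∀ h, |v h| ≤ T / σ := fun h => by rw [hv]; exact wt_bound w b σ T hσ0 hT0.le hw h
  obtain ⟨Om, hOm⟩ : ∃ Om, Om = Ioc Z (Z + Y) := ⟨_, rfl⟩
  have hcardN : Om.card = Y := by rw [hOm, Nat.card_Ioc]; omega
  have hcard : (Om.card : ℝ) = Y := by rw [hcardN]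
  obtain ⟨c₀, hc₀⟩ : ∃ c₀ : ℝ, c₀ = (∑ h ∈ Ioc 0 L, v h) * V (pr y) := ⟨_, rfl⟩
  obtain ⟨W, hW⟩ : ∃ W : ℝ, W = ∑ i, w i ^ 2 := ⟨_, rfl⟩
  have hW0 : 0 ≤ W := by rw [hW]; exact sum_nonneg fun _ _ => sq_nonneg _
  have hvsq : ∑ h ∈ Ioc 0 L, v h ^ 2 ≤ B := by
    have h5 : ∀ h ∈ Ioc 0 L, v h ^ 2 ≤ (T / σ) ^ 2 := by
      intro h _
      rw [← sq_abs]
      exact pow_le_pow_left₀ (abs_nonneg _) (hvb h) 2
    refine (sum_le_sum h5).trans ?_
    rw [sum_const, Nat.card_Ioc, nsmul_eq_mul, div_pow, hσsq, hB, hL]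
    push_cast
    apply le_of_eq
    have : (b : ℝ) ≠ 0 := by linarith
    have hpi := Real.pi_ne_zero
    simp only [Nat.sub_zero]
    push_cast
    field_simp
  have hB0 : 0 ≤ B := (sum_nonneg fun _ _ => sq_nonneg _).trans hvsq
  have hc₀b : |c₀| ≤ T / σ * L := by
    rw [hc₀, abs_mul, abs_of_pos hVy]
    have h5 : |∑ h ∈ Ioc 0 L, v h| ≤ T / σ * L := by
      refine (abs_sum_le_sum_abs _ _).trans ?_
      refine (sum_le_sum fun h _ => hvb h).trans ?_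
      rw [sum_const, Nat.card_Ioc, nsmul_eq_mul, Nat.sub_zero]
      apply le_of_eq
      ring
    calc |∑ h ∈ Ioc 0 L, v h| * V (pr y) ≤ |∑ h ∈ Ioc 0 L, v h| * 1 :=
          mul_le_mul_of_nonneg_left hVy1 (abs_nonneg _)
      _ ≤ T / σ * L := by rw [mul_one]; exact h5
  -- the exponents
  have hS : ∀ x, ∑ h ∈ Ioc 0 L, v h * mu y (x + h) - c₀ = ∑ i : Fin k, w i *
      ((∑ n ∈ Ioc (x + i * b) (x + i * b + b), mu y n - b * V (pr y)) / √(6 * b / Real.pi ^ 2)) := by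
    intro x
    have e1 : ∑ h ∈ Ioc 0 L, v h * mu y (x + h) - c₀ =
        ∑ h ∈ Ioc 0 L, v h * (mu y (x + h) - V (pr y)) := by
      rw [hc₀, sum_mul, ← sum_sub_distrib]
      exact sum_congr rfl fun h _ => by ring
    rw [e1, hL, sum_blocks, ← hσ]
    apply sum_congr rfl
    intro i _
    have e2 : ∑ u ∈ Ioc ((i : ℕ) * b) (i * b + b), v u * (mu y (x + u) - V (pr y)) =
        ∑ u ∈ Ioc ((i : ℕ) * b) (i * b + b), w i / σ * (mu y (x + u) - V (pr y)) := by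
      apply sum_congr rfl
      intro u hu
      rw [hv, wt_block w b σ i u hu]
    rw [e2, ← mul_sum, sum_sub_distrib, sum_shift, sum_const, Nat.card_Ioc, nsmul_eq_mul,
      Nat.add_sub_cancel_left]
    ring
  have hD : ∀ x, d * ∑ h ∈ Ioc 0 L, v h * mu r (x + h) - c₀ = ∑ i : Fin k, d * (w i / σ) *
      (∑ h ∈ Ioc ((i : ℕ) * b) (i * b + b), mu r (x + h) - b * V (pr r)) := by
    intro x
    have e1 : d * ∑ h ∈ Ioc 0 L, v h * mu r (x + h) - c₀ =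
        ∑ h ∈ Ioc 0 L, d * v h * (mu r (x + h) - V (pr r)) := by
      rw [hc₀, ← hdV, mul_sum, sum_mul, ← sum_sub_distrib]
      exact sum_congr rfl fun h _ => by ring
    rw [e1, hL, sum_blocks]
    apply sum_congr rfl
    intro i _
    have e2 : ∑ u ∈ Ioc ((i : ℕ) * b) (i * b + b), d * v u * (mu r (x + u) - V (pr r)) =
        ∑ u ∈ Ioc ((i : ℕ) * b) (i * b + b), d * (w i / σ) * (mu r (x + u) - V (pr r)) := by
      apply sum_congr rfl
      intro u hu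
      rw [hv, wt_block w b σ i u hu]
    rw [e2, ← mul_sum, sum_sub_distrib, sum_const, Nat.card_Ioc, nsmul_eq_mul,
      Nat.add_sub_cancel_left]
  -- the drift
  obtain ⟨D, hDdef⟩ : ∃ D : ℕ → ℝ, D = fun x => d * ∑ h ∈ Ioc 0 L, v h * mu r (x + h) - c₀ := ⟨_, rfl⟩
  have hMM0 : 0 ≤ MM := by
    have h5 := hMI 0
    have h6 : 0 ≤ ∑ x ∈ Ioc Z (Z + Y), (∑ h ∈ Ioc 0 (0 + b), mu r (x + h) - b * V (pr r)) ^ (2 * 1) :=
      sum_nonneg fun x _ => (even_two_mul 1).pow_nonneg _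
    by_contra hcon
    rw [not_le] at hcon
    nlinarith
  have hDpow : ∑ x ∈ Om, D x ^ (2 * 1) ≤ MD * Y := by
    have h5 : ∀ x ∈ Om, D x ^ (2 * 1) ≤ (k * (T / σ) * d) ^ (2 * 1) * ∑ i : Fin k,
        (∑ h ∈ Ioc ((i : ℕ) * b) (i * b + b), mu r (x + h) - b * V (pr r)) ^ (2 * 1) := by
      intro x _
      rw [hDdef]
      simp only
      rw [hD x]
      refine (pow_sum_le 1 le_rfl _).trans ?_
      rw [mul_assoc (k : ℝ), mul_pow (k : ℝ), mul_assoc]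
      apply mul_le_mul_of_nonneg_left _ (by positivity)
      rw [mul_sum]
      apply sum_le_sum
      intro i _
      rw [mul_pow]
      apply mul_le_mul_of_nonneg_right _ ((even_two_mul 1).pow_nonneg _)
      have e3 : (d * (w i / σ)) ^ (2 * 1) = |d * (w i / σ)| ^ (2 * 1) := by
        rw [pow_mul, pow_mul, sq_abs]
      rw [e3]
      apply pow_le_pow_left₀ (abs_nonneg _)
      rw [abs_mul, abs_of_nonneg hd0, abs_div, abs_of_pos hσ0, mul_comm (T / σ)]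
      apply mul_le_mul_of_nonneg_left _ hd0
      exact div_le_div_of_nonneg_right (hw i) hσ0.le
    refine (sum_le_sum h5).trans ?_
    rw [← mul_sum, sum_comm, hMD, hOm]
    have h6 : ∑ i : Fin k, ∑ x ∈ Ioc Z (Z + Y),
        (∑ h ∈ Ioc ((i : ℕ) * b) (i * b + b), mu r (x + h) - b * V (pr r)) ^ (2 * 1) ≤ k * MM * Y := by
      have h7 : ∀ i ∈ (univ : Finset (Fin k)), ∑ x ∈ Ioc Z (Z + Y),
          (∑ h ∈ Ioc ((i : ℕ) * b) (i * b + b), mu r (x + h) - b * V (pr r)) ^ (2 * 1) ≤ MM * Y :=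
        fun i _ => hMI ((i : ℕ) * b)
      refine (sum_le_sum h7).trans ?_
      rw [sum_const, card_univ, Fintype.card_fin, nsmul_eq_mul]
      apply le_of_eq
      ring
    rw [mul_assoc ((k * (T / σ) * d) ^ (2 * 1))]
    exact mul_le_mul_of_nonneg_left h6 ((even_two_mul 1).pow_nonneg _)
  have hMD0 : 0 ≤ MD := by
    rw [hMD]
    exact mul_nonneg ((even_two_mul 1).pow_nonneg _) (by positivity)
  have hDabs : ∑ x ∈ Om, |D x| ≤ (εd + MD / εd ^ (2 * 1 - 1)) * Y := by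
    have h5 : ∀ x ∈ Om, |D x| ≤ εd + D x ^ (2 * 1) / εd ^ (2 * 1 - 1) :=
      fun x _ => abs_le_pow 1 le_rfl εd (D x) hεd
    refine (sum_le_sum h5).trans ?_
    rw [sum_add_distrib, sum_const, nsmul_eq_mul, hcard, ← sum_div, add_mul, mul_comm (Y : ℝ)]
    apply add_le_add le_rfl
    rw [div_mul_eq_mul_div]
    exact div_le_div_of_nonneg_right hDpow (by positivity)
  -- the number of squarefree numbers
  have hQ : ∑ x ∈ Om, |∑ h ∈ Ioc 0 L, (v h * mu r (x + h)) ^ 2 - W| ≤ 2 * T ^ 2 * k * εs * Y := by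
    have hpi : Real.pi ^ 2 / 6 ≤ 2 := by
      have := Real.pi_lt_d2
      have := Real.pi_pos
      nlinarith
    have h5 : ∀ x, |∑ h ∈ Ioc 0 L, (v h * mu r (x + h)) ^ 2 - W| ≤
        ∑ i : Fin k, 2 * T ^ 2 * |(∑ n ∈ Ioc (x + i * b) (x + i * b + b), mu r n ^ 2) / b -
          6 / Real.pi ^ 2| := by
      intro x
      have e1 : ∑ h ∈ Ioc 0 L, (v h * mu r (x + h)) ^ 2 - W = ∑ i : Fin k, w i ^ 2 * (Real.pi ^ 2 / 6) *
          ((∑ n ∈ Ioc (x + i * b) (x + i * b + b), mu r n ^ 2) / b - 6 / Real.pi ^ 2) := by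
        rw [hW, hL, sum_blocks, ← sum_sub_distrib]
        apply sum_congr rfl
        intro i _
        have e2 : ∑ u ∈ Ioc ((i : ℕ) * b) (i * b + b), (v u * mu r (x + u)) ^ 2 =
            ∑ u ∈ Ioc ((i : ℕ) * b) (i * b + b), (w i / σ) ^ 2 * mu r (x + u) ^ 2 := by
          apply sum_congr rfl
          intro u hu
          rw [hv, wt_block w b σ i u hu]
          ring
        rw [e2, ← mul_sum, sum_shift x (i * b) b (fun n => mu r n ^ 2), div_pow, hσsq]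
        have hb0 : (b : ℝ) ≠ 0 := by linarith
        have hpi0 := Real.pi_ne_zero
        field_simp
      rw [e1]
      refine (abs_sum_le_sum_abs _ _).trans ?_
      apply sum_le_sum
      intro i _
      rw [abs_mul]
      apply mul_le_mul_of_nonneg_right _ (abs_nonneg _)
      rw [abs_of_nonneg (by positivity)]
      have h6 : w i ^ 2 ≤ T ^ 2 := by
        rw [← sq_abs]
        exact pow_le_pow_left₀ (abs_nonneg _) (hw i) 2
      calc w i ^ 2 * (Real.pi ^ 2 / 6) ≤ T ^ 2 * 2 := mul_le_mul h6 hpi (by positivity) (by positivity)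
        _ = 2 * T ^ 2 := by ring
    refine (sum_le_sum fun x _ => h5 x).trans ?_
    rw [sum_comm]
    have h7 : ∀ i : Fin k, ∑ x ∈ Om, 2 * T ^ 2 * |(∑ n ∈ Ioc (x + i * b) (x + i * b + b), mu r n ^ 2) / b -
          6 / Real.pi ^ 2| ≤ 2 * T ^ 2 * (εs * Y) := by
      intro i
      rw [← mul_sum, hOm]
      exact mul_le_mul_of_nonneg_left (hSQ i) (by positivity)
    refine (sum_le_sum fun i _ => h7 i).trans ?_
    rw [sum_const, card_univ, Fintype.card_fin, nsmul_eq_mul]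
    apply le_of_eq
    ring
  have hmu1 : ∀ n, mu r n ^ 2 ≤ 1 := by
    intro n
    rcases mu_vals r n with h | h
    · rw [h]; norm_num
    · exact h.le
  have hasq : ∀ x, ∑ h ∈ Ioc 0 L, (v h * mu r (x + h)) ^ 2 ≤ B := by
    intro x
    refine le_trans (sum_le_sum fun h _ => ?_) hvsq
    rw [mul_pow]
    exact mul_le_of_le_one_right (sq_nonneg _) (hmu1 _)
  have habs : ∀ x, ∀ h ∈ Ioc 0 L, |v h * mu r (x + h)| ≤ T / σ := by
    intro x h _
    rw [abs_mul]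
    have h5 : |mu r (x + h)| ≤ 1 := by
      have := hmu1 (x + h)
      rw [← sq_abs] at this
      by_contra hcon
      rw [not_le] at hcon
      nlinarith
    calc |v h| * |mu r (x + h)| ≤ |v h| * 1 := mul_le_mul_of_nonneg_left h5 (abs_nonneg _)
      _ ≤ T / σ := by rw [mul_one]; exact hvb h
  -- comparison of the moments
  obtain ⟨η₁, hη₁⟩ : ∃ η₁ : ℝ, η₁ = (2 * (T / σ) * (k * b)) ^ (2 * m) * η := ⟨_, rfl⟩
  have hbase : 1 ≤ 2 * (T / σ) * (k * b) := by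
    have h5 : σ ≤ b := by
      have h6 : σ ^ 2 ≤ (b : ℝ) ^ 2 := by
        rw [hσsq, div_le_iff₀ (by positivity)]
        have h7 : (9 : ℝ) ≤ Real.pi ^ 2 := by
          have := Real.pi_gt_three
          nlinarith
        calc (6 : ℝ) * b ≤ b ^ 2 * 9 := by nlinarith
          _ ≤ b ^ 2 * Real.pi ^ 2 := by gcongr
      exact (sq_le_sq₀ hσ0.le (by positivity)).1 h6
    have h6 : 1 ≤ T / σ * b := by
      rw [div_mul_eq_mul_div, le_div_iff₀ hσ0]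
      nlinarith
    calc (1 : ℝ) ≤ T / σ * b := h6
      _ ≤ 2 * (T / σ) * (k * b) := by nlinarith [mul_nonneg hτ0 (by linarith : (0 : ℝ) ≤ b)]
  have hη₁0 : 0 ≤ η₁ := by rw [hη₁]; positivity
  have hcmp : ∀ j ≤ 2 * m, |∑ x ∈ Om, (∑ h ∈ Ioc 0 L, v h * (mu y (x + h) - d * mu r (x + h))) ^ j -
      ∑ x ∈ Om, ∑ U ∈ (Ioc 0 L).powerset, pw d L U *
        (∑ h ∈ Ioc 0 L, v h * mu r (x + h) * (sg U h - d)) ^ j| ≤ η₁ * Om.card := by
    intro j hj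
    have h5 := hCMP Om L j (fun x h => mu y (x + h)) (fun x h => mu r (x + h)) v d (T / σ) (η * Y)
      hvb (by positivity) hd0 hd1 (by
        intro g hg I
        rw [hOm]
        exact hTUP j hj g (by rw [← hL]; exact hg) I)
    refine h5.trans ?_
    rw [hcard, hη₁, mul_assoc (((2 * (T / σ) * (k * b)) ^ (2 * m)))]
    apply mul_le_mul_of_nonneg_right _ (by positivity)
    calc (2 * (T / σ) * L) ^ j = (2 * (T / σ) * (k * b)) ^ j := by rw [hLr]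
      _ ≤ _ := pow_le_pow_right₀ hbase hj
  have hcf := hCF2 Om (Ioc 0 L).powerset (pw d L)
    (fun x => ∑ h ∈ Ioc 0 L, v h * (mu y (x + h) - d * mu r (x + h)))
    (fun x U => ∑ h ∈ Ioc 0 L, v h * mu r (x + h) * (sg U h - d)) m η₁
    (fun U _ => pw_nonneg d hd0 hd1 L U) (pw_sum h1 d L) hη₁0 hcmp
  -- the remainder
  have hrem : 2 * (∑ x ∈ Om, ∑ U ∈ (Ioc 0 L).powerset, pw d L U *
      (∑ h ∈ Ioc 0 L, v h * mu r (x + h) * (sg U h - d)) ^ (2 * m)) / (2 * m).factorial ≤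
      4 * Real.exp (256 * B) / 64 ^ m * Y := by
    have hfac0 : (0 : ℝ) < (2 * m).factorial := by
      exact_mod_cast Nat.factorial_pos _
    have h5 : ∑ x ∈ Om, ∑ U ∈ (Ioc 0 L).powerset, pw d L U *
        (∑ h ∈ Ioc 0 L, v h * mu r (x + h) * (sg U h - d)) ^ (2 * m) ≤
        ∑ _x ∈ Om, (2 * m).factorial * (2 * Real.exp (256 * B)) / 8 ^ (2 * m) := by
      apply sum_le_sum
      intro x _
      refine (h2 d L m (fun h => v h * mu r (x + h)) hd0 hd1).trans ?_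
      have := hasq x
      gcongr
    rw [sum_const, nsmul_eq_mul, hcard] at h5
    rw [div_le_iff₀ hfac0]
    have e8 : (8 : ℝ) ^ (2 * m) = 64 ^ m := by
      rw [pow_mul]
      norm_num
    rw [e8] at h5
    calc 2 * (∑ x ∈ Om, ∑ U ∈ (Ioc 0 L).powerset, pw d L U *
        (∑ h ∈ Ioc 0 L, v h * mu r (x + h) * (sg U h - d)) ^ (2 * m)) ≤
        2 * ((Y : ℝ) * ((2 * m).factorial * (2 * Real.exp (256 * B)) / 64 ^ m)) :=
          mul_le_mul_of_nonneg_left h5 (by norm_num)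
      _ = 4 * Real.exp (256 * B) / 64 ^ m * Y * (2 * m).factorial := by
          field_simp
          ring
  -- the phases
  have hph : ‖∑ x ∈ Om, ∑ U ∈ (Ioc 0 L).powerset, (pw d L U : ℂ) * Complex.exp (Complex.I *
      ((∑ h ∈ Ioc 0 L, v h * mu r (x + h) * (sg U h - d) : ℝ) : ℂ)) -
      (Y : ℂ) * ((Real.exp (-W / 2) : ℝ) : ℂ)‖ ≤
      ((T / σ + d ^ 2) * B + T ^ 2 * k * εs) * Y := by
    have e1 : (Y : ℂ) * ((Real.exp (-W / 2) : ℝ) : ℂ) = ∑ _x ∈ Om, ((Real.exp (-W / 2) : ℝ) : ℂ) := by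
      rw [sum_const, nsmul_eq_mul, hcardN]
    rw [e1, ← sum_sub_distrib]
    refine (norm_sum_le _ _).trans ?_
    have h5 : ∀ x ∈ Om, ‖∑ U ∈ (Ioc 0 L).powerset, (pw d L U : ℂ) * Complex.exp (Complex.I *
      ((∑ h ∈ Ioc 0 L, v h * mu r (x + h) * (sg U h - d) : ℝ) : ℂ)) - ((Real.exp (-W / 2) : ℝ) : ℂ)‖ ≤
        (T / σ + d ^ 2) * B + |∑ h ∈ Ioc 0 L, (v h * mu r (x + h)) ^ 2 - W| / 2 := by
      intro x _
      have h6 := phase_pt h3 h4 d hd0 hd1 L (fun h => v h * mu r (x + h))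
        (d * ∑ h ∈ Ioc 0 L, v h * mu r (x + h)) B (T / σ) W (hasq x) hτ (habs x) hτ0 hW0
      rw [sub_self, abs_zero, add_zero] at h6
      have e2 : ∀ U, ∑ h ∈ Ioc 0 L, v h * mu r (x + h) * (sg U h - d) =
          ∑ h ∈ Ioc 0 L, v h * mu r (x + h) * sg U h - d * ∑ h ∈ Ioc 0 L, v h * mu r (x + h) := by
        intro U
        rw [mul_sum, ← sum_sub_distrib]
        exact sum_congr rfl fun h _ => by ring
      simp_rw [e2]
      exact h6
    refine (sum_le_sum h5).trans ?_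
    rw [sum_add_distrib, sum_const, nsmul_eq_mul, hcard, ← sum_div]
    have h6 : (∑ x ∈ Om, |∑ h ∈ Ioc 0 L, (v h * mu r (x + h)) ^ 2 - W|) / 2 ≤ T ^ 2 * k * εs * Y := by
      rw [div_le_iff₀ (by norm_num : (0 : ℝ) < 2)]
      linarith
    have e2 : ((T / σ + d ^ 2) * B + T ^ 2 * k * εs) * (Y : ℝ) =
        Y * ((T / σ + d ^ 2) * B) + T ^ 2 * k * εs * Y := by ring
    rw [e2]
    exact add_le_add le_rfl h6
  -- conclusion
  rw [← hOm, ← hW]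
  have hcardC : ((Om.card : ℕ) : ℂ) = (Y : ℂ) := by rw [hcardN]
  rw [hcardC]
  have e2 : ∑ x ∈ Om, Complex.exp (Complex.I * ((∑ i : Fin k, w i *
        ((∑ n ∈ Ioc (x + i * b) (x + i * b + b), mu y n - b * V (pr y)) / √(6 * b / Real.pi ^ 2)) : ℝ) : ℂ)) =
      ∑ x ∈ Om, Complex.exp (Complex.I * ((∑ h ∈ Ioc 0 L, v h * mu y (x + h) - c₀ : ℝ) : ℂ)) :=
    sum_congr rfl fun x _ => by rw [hS x]
  rw [e2]
  obtain ⟨P, hPdef⟩ : ∃ P, P = ∑ x ∈ Om, Complex.exp (Complex.I *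
    ((∑ h ∈ Ioc 0 L, v h * mu y (x + h) - c₀ : ℝ) : ℂ)) := ⟨_, rfl⟩
  obtain ⟨P1, hP1def⟩ : ∃ P, P = ∑ x ∈ Om, Complex.exp (Complex.I *
    ((∑ h ∈ Ioc 0 L, v h * (mu y (x + h) - d * mu r (x + h)) : ℝ) : ℂ)) := ⟨_, rfl⟩
  obtain ⟨R, hR⟩ : ∃ R, R = ∑ x ∈ Om, ∑ U ∈ (Ioc 0 L).powerset, (pw d L U : ℂ) * Complex.exp (Complex.I *
      ((∑ h ∈ Ioc 0 L, v h * mu r (x + h) * (sg U h - d) : ℝ) : ℂ)) := ⟨_, rfl⟩
  rw [← hR] at hph
  have hcf' : ‖P1 - R‖ ≤ 4 * η₁ * Y + 4 * Real.exp (256 * B) / 64 ^ m * Y := by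
    rw [hP1def, hR, ← hcard]
    refine hcf.trans ?_
    rw [hcard]
    exact add_le_add le_rfl hrem
  have hPP : ‖P - P1‖ ≤ (εd + MD / εd ^ (2 * 1 - 1)) * Y := by
    rw [hPdef, hP1def, ← sum_sub_distrib]
    refine (norm_sum_le _ _).trans (le_trans (sum_le_sum fun x _ => ?_) hDabs)
    refine (exp_I_lip _ _).trans (le_of_eq ?_)
    rw [hDdef]
    simp only
    congr 1
    have e5 : ∑ h ∈ Ioc 0 L, v h * (mu y (x + h) - d * mu r (x + h)) =
        ∑ h ∈ Ioc 0 L, v h * mu y (x + h) - d * ∑ h ∈ Ioc 0 L, v h * mu r (x + h) := by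
      rw [mul_sum, ← sum_sub_distrib]
      exact sum_congr rfl fun h _ => by ring
    rw [e5]
    ring
  rw [← hPdef]
  have hYC : (Y : ℂ) ≠ 0 := by exact_mod_cast hY.ne'
  obtain ⟨E, hE⟩ : ∃ E : ℂ, E = ((Real.exp (-W / 2) : ℝ) : ℂ) := ⟨_, rfl⟩
  rw [← hE] at hph ⊢
  have e3 : P / Y - E = (P - Y * E) / Y := by field_simp
  rw [e3, norm_div, Complex.norm_natCast, div_le_iff₀ hY0]
  calc ‖P - Y * E‖ = ‖((P - P1) + (P1 - R)) + (R - Y * E)‖ := by ring_nf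
    _ ≤ ‖(P - P1) + (P1 - R)‖ + ‖R - Y * E‖ := norm_add_le _ _
    _ ≤ (‖P - P1‖ + ‖P1 - R‖) + ‖R - Y * E‖ := add_le_add (norm_add_le _ _) le_rfl
    _ ≤ ((εd + MD / εd ^ (2 * 1 - 1)) * Y + (4 * η₁ * Y + 4 * Real.exp (256 * B) / 64 ^ m * Y)) +
        ((T / σ + d ^ 2) * B + T ^ 2 * k * εs) * Y := add_le_add (add_le_add hPP hcf') hph
    _ = _ := by rw [hη₁]; ring

end Pool.Agent.H19.TM
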