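import Pool.Agent.H19.TM.Stm4
import Pool.Agent.H93.TM.Gtwo
import Pool.Agent.H95.TM.Lim

/-!
# Project TM3: the module EC (contraction)
-/

set_option autoImplicit false

namespace Pool.Agent.H19.TM

open Finset Pool.Agent.Y862.GM Pool.Agent.H95.TM

/-- the recursion summed up, up to `N` -/
theorem rec_sum_le (N : ℕ) (Y : ℕ → ℝ) (B E : ℝ) (hB : 0 ≤ B) (hE : 0 ≤ E) (w : ℕ) (hw : 3 ≤ w)
    (h1 : ∀ z, w ≤ z → z + 1 ≤ N → (z + 1).Prime →
      Y (z + 1) ≤ (1 - 4 / ((z + 1 : ℕ) : ℝ)) * Y z + (B / ((z + 1 : ℕ) : ℝ) ^ 2 + E))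
    (h2 : ∀ z, ¬ (z + 1).Prime → Y (z + 1) = Y z) (z : ℕ) (hz : w ≤ z) : z ≤ N →
    Y z ≤ Y w * (∏ q ∈ (Ioc w z).filter Nat.Prime, (1 - 4 / (q : ℝ))) +
      ∑ q ∈ (Ioc w z).filter Nat.Prime, (B / (q : ℝ) ^ 2 + E) := by
  induction z, hz using Nat.le_induction with
  | base => intro _; simp
  | succ z hz ih =>
    intro hzN
    have ih := ih (by omega)
    by_cases hp : (z + 1).Prime
    · have hn : (z + 1) ∉ (Ioc w z).filter Nat.Prime := by
        simp only [mem_filter, mem_Ioc]; omega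
      rw [ioc_succ_prime hz hp, prod_insert hn, sum_insert hn]
      have hz4 : (4 : ℝ) ≤ ((z + 1 : ℕ) : ℝ) := by exact_mod_cast (by omega : 4 ≤ z + 1)
      have h4 : 0 ≤ 1 - 4 / ((z + 1 : ℕ) : ℝ) := by
        rw [sub_nonneg, div_le_one (by linarith)]; linarith
      have h5 : 0 ≤ 4 / ((z + 1 : ℕ) : ℝ) := by positivity
      have hS : 0 ≤ ∑ q ∈ (Ioc w z).filter Nat.Prime, (B / (q : ℝ) ^ 2 + E) :=
        sum_nonneg (fun q _ => by positivity)
      have h6 := h1 z hz hzN hp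
      have h7 := mul_le_mul_of_nonneg_left ih h4
      have h8 : (1 - 4 / ((z + 1 : ℕ) : ℝ)) * ∑ q ∈ (Ioc w z).filter Nat.Prime, (B / (q : ℝ) ^ 2 + E) ≤
          ∑ q ∈ (Ioc w z).filter Nat.Prime, (B / (q : ℝ) ^ 2 + E) := by nlinarith
      calc Y (z + 1) ≤ _ := h6
        _ ≤ (1 - 4 / ((z + 1 : ℕ) : ℝ)) * (Y w * (∏ q ∈ (Ioc w z).filter Nat.Prime, (1 - 4 / (q : ℝ))) +
            ∑ q ∈ (Ioc w z).filter Nat.Prime, (B / (q : ℝ) ^ 2 + E)) + (B / ((z + 1 : ℕ) : ℝ) ^ 2 + E) := by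
            linarith
        _ ≤ _ := by
            rw [mul_add]
            have : (1 - 4 / ((z + 1 : ℕ) : ℝ)) * (Y w * (∏ q ∈ (Ioc w z).filter Nat.Prime, (1 - 4 / (q : ℝ)))) =
              Y w * ((1 - 4 / ((z + 1 : ℕ) : ℝ)) * ∏ q ∈ (Ioc w z).filter Nat.Prime, (1 - 4 / (q : ℝ))) := by
              ring
            linarith
    · rw [h2 z hp, ioc_succ_not hp]; exact ih

theorem Ed_pr_small (z : ℕ) (hz : z < 2) (N : ℕ) (hN : 1 ≤ N) : Ed (pr z) N = 0 := by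
  have h : pr z = ∅ := by
    rw [Finset.eq_empty_iff_forall_notMem]
    intro q hq
    have h1 := (pr_prime hq).two_le
    simp only [pr, mem_filter, mem_range] at hq
    omega
  unfold Ed Fd
  rw [Wv_pr_small z hz, h, Pool.Agent.H93.TM.Gd_empty hN]
  simp

/-- the main step -/
theorem stepE (hE1 : S_E1) (hE3 : S_E3) (hG2 : S_G2) (hG4 : S_G4) (hPV : S_PV) (ε : ℝ) (hε : 0 < ε) :
    ∃ c₁ : ℝ, 0 < c₁ ∧ c₁ ≤ 1 / 2 ∧ ∀ e : ℝ, ε ≤ e →
      (∃ M0 : ℕ, ∀ M ≥ M0, ∀ z, |Ed (pr z) M| ≤ e) →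
      ∃ N2 : ℕ, ∀ N ≥ N2, ∀ z ≤ N, |Ed (pr z) N| ≤ (1 - c₁) * e := by
  obtain ⟨C, hC0, hE1⟩ := hE1
  obtain ⟨D, hD0, hDb, hDs⟩ := hE3
  obtain ⟨c, hc, hPv⟩ := hPV
  have hc1 : c ≤ 1 := by
    have h := hPv 7 7 le_rfl le_rfl
    have hl : Real.log (7 : ℕ) ≠ 0 := (Real.log_pos (by norm_num)).ne'
    rw [div_self hl] at h
    simpa using h
  obtain ⟨κ, hκ0, hκ1, hκD⟩ : ∃ κ : ℝ, 0 < κ ∧ κ ≤ 1 / 4 ∧ D * κ ≤ ε / 4 := by
    refine ⟨min (1 / 4) (ε / (4 * (D + 1))), by positivity, min_le_left _ _, ?_⟩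
    calc D * min (1 / 4) (ε / (4 * (D + 1))) ≤ (D + 1) * (ε / (4 * (D + 1))) := by
          apply mul_le_mul (by linarith) (min_le_right _ _) (by positivity) (by positivity)
      _ = ε / 4 := by field_simp
  obtain ⟨c₀, hc₀⟩ : ∃ c₀ : ℝ, c₀ = c * (κ / 2) ^ 8 := ⟨_, rfl⟩
  have hc₀0 : 0 < c₀ := by rw [hc₀]; positivity
  have hc₀1 : c₀ ≤ 1 := by
    have h1 : (κ / 2) ^ 8 ≤ 1 := pow_le_one₀ (by positivity) (by linarith)
    have h2 : c * (κ / 2) ^ 8 ≤ 1 * 1 := mul_le_mul hc1 h1 (by positivity) zero_le_one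
    rw [hc₀]; linarith
  refine ⟨c₀ / 2, by positivity, by linarith, ?_⟩
  intro e he ⟨M1, hH⟩
  have he0 : 0 < e := lt_of_lt_of_le hε he
  obtain ⟨δ, hδ⟩ : ∃ δ : ℝ, δ = c₀ * ε / 16 := ⟨_, rfl⟩
  have hδ0 : 0 < δ := by rw [hδ]; positivity
  obtain ⟨M2, hM2⟩ := hG4 δ hδ0
  obtain ⟨M0, hM0⟩ : ∃ M0 : ℕ, M0 = M1 + M2 := ⟨_, rfl⟩
  obtain ⟨E, hE⟩ : ∃ E : ℝ, E = C + 4 * (D + 1) * M0 + 1 := ⟨_, rfl⟩
  have hE0 : 0 < E := by rw [hE]; positivity
  obtain ⟨N1, hN1⟩ := pi_small (c₀ * ε / (16 * E)) (by positivity)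
  have ht : Filter.Tendsto (fun N : ℕ => (N : ℝ) ^ (κ / 2)) Filter.atTop Filter.atTop :=
    (tendsto_rpow_atTop (by positivity)).comp tendsto_natCast_atTop_atTop
  obtain ⟨N3, hN3⟩ := Filter.eventually_atTop.mp (ht.eventually_ge_atTop (16 * C / (c₀ * ε) + 8))
  refine ⟨max N1 (max N3 7), ?_⟩
  intro N hN z hz
  have hNN1 : N1 ≤ N := (le_max_left _ _).trans hN
  have hNN3 : N3 ≤ N := ((le_max_left _ _).trans (le_max_right _ _)).trans hN
  have hN7 : 7 ≤ N := ((le_max_right _ _).trans (le_max_right _ _)).trans hN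
  have hN0 : (0 : ℝ) < N := by exact_mod_cast (by omega : 0 < N)
  have hN1' : (1 : ℝ) < N := by exact_mod_cast (by omega : 1 < N)
  have hlN : 0 < Real.log N := Real.log_pos hN1'
  have hpi := hN1 N hNN1
  have hbig := hN3 N hNN3
  have hroot8 : 8 ≤ (N : ℝ) ^ (κ / 2) := by
    have : 0 ≤ 16 * C / (c₀ * ε) := by positivity
    linarith
  obtain ⟨w, hw⟩ : ∃ w : ℕ, w = ⌊(N : ℝ) ^ κ⌋₊ := ⟨_, rfl⟩
  have hsq : (N : ℝ) ^ κ = (N : ℝ) ^ (κ / 2) * (N : ℝ) ^ (κ / 2) := by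
    rw [← Real.rpow_add hN0]; congr 1; ring
  have hwle : (w : ℝ) ≤ (N : ℝ) ^ κ := by rw [hw]; exact Nat.floor_le (Real.rpow_nonneg hN0.le _)
  have hwlt : (N : ℝ) ^ κ < w + 1 := by rw [hw]; exact Nat.lt_floor_add_one _
  have hwge : (N : ℝ) ^ (κ / 2) ≤ w := by nlinarith
  have hw7 : 7 ≤ w := by
    have : (8 : ℝ) ≤ w := hroot8.trans hwge
    have : 8 ≤ w := by exact_mod_cast this
    omega
  have hw0 : (0 : ℝ) < w := by exact_mod_cast (by omega : 0 < w)
  have hwN : w ≤ N := by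
    have h1 : (N : ℝ) ^ κ ≤ N := by
      calc (N : ℝ) ^ κ ≤ (N : ℝ) ^ (1 : ℝ) :=
            Real.rpow_le_rpow_of_exponent_le hN1'.le (by linarith)
        _ = N := Real.rpow_one _
    exact_mod_cast hwle.trans h1
  -- small primes
  have hsmall : ∀ z ≤ w, |Ed (pr z) N| ≤ ε / 4 := by
    intro z hz
    by_cases hz2 : z < 2
    · rw [Ed_pr_small z hz2 N (by omega), abs_zero]; positivity
    · have h1 := hDs z N (by omega) (by omega)
      have hz0 : (0 : ℝ) < z := by exact_mod_cast (by omega : 0 < z)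
      have h2 : Real.log z ≤ κ * Real.log N := by
        rw [← Real.log_rpow hN0]
        exact Real.log_le_log hz0 (le_trans (by exact_mod_cast hz) hwle)
      refine h1.trans ?_
      rw [div_le_iff₀ (by linarith)]
      have h3 : D * Real.log z ≤ D * (κ * Real.log N) := mul_le_mul_of_nonneg_left h2 hD0
      have h4 : D * κ * Real.log N ≤ ε / 4 * Real.log N := mul_le_mul_of_nonneg_right hκD hlN.le
      nlinarith
  by_cases hzw : z ≤ w
  · have h1 := hsmall z hzw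
    have h2 : e / 2 ≤ (1 - c₀ / 2) * e := by nlinarith
    linarith
  · have hwz : w ≤ z := by omega
    -- one step
    have hstep : ∀ z', w ≤ z' → z' + 1 ≤ N → (z' + 1).Prime →
        (fun z => |Ed (pr z) N| - (e + δ)) (z' + 1) ≤
          (1 - 4 / ((z' + 1 : ℕ) : ℝ)) * (fun z => |Ed (pr z) N| - (e + δ)) z' +
            (C / ((z' + 1 : ℕ) : ℝ) ^ 2 + E / N) := by
      intro z' hz' hzN hp
      have hP : ∀ q ∈ pr z', q.Prime := fun q hq => pr_prime hq
      have hp5 : 5 ≤ z' + 1 := by omega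
      obtain ⟨x, hx⟩ : ∃ x : ℝ, x = ((z' + 1 : ℕ) : ℝ) := ⟨_, rfl⟩
      have hx5 : 5 ≤ x := by rw [hx]; exact_mod_cast hp5
      have hx0 : 0 < x := by linarith
      have h4x : 4 / x ≤ 1 := by rw [div_le_one hx0]; linarith
      have h4x0 : 0 ≤ 4 / x := by positivity
      simp only
      rw [← hx, pr_succ_prime hp]
      have hCE : C / N ≤ E / N - 4 * (D + 1) * M0 / N := by
        rw [← sub_div]
        apply div_le_div_of_nonneg_right _ hN0.le
        rw [hE]; linarith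
      by_cases hcase : M0 ≤ N / (z' + 1)
      · have g := hE1 (pr z') hP (z' + 1) hp (not_mem_pr z') hp5 N hzN e δ
          (hH _ (by omega) z') (hH _ (by omega) z') (hM2 _ (by omega) (pr z') hP)
        rw [← hx] at g
        have h6 : 0 ≤ 4 * (D + 1) * M0 / (N : ℝ) := by positivity
        have e1 : C * (1 / x ^ 2 + 1 / N) = C / x ^ 2 + C / N := by ring
        rw [e1] at g
        nlinarith
      · have g := hE1 (pr z') hP (z' + 1) hp (not_mem_pr z') hp5 N hzN D 1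
          (hDb (pr z') hP _) (hDb (pr z') hP _) (by
            obtain ⟨a1, a2⟩ := hG2.1 (pr z') hP (N / (z' + 1) + 1)
            obtain ⟨a3, a4⟩ := hG2.1 (pr z') hP (N / (z' + 1))
            rw [abs_le]
            constructor <;> linarith)
        rw [← hx] at g
        have h6 : (N : ℝ) ≤ M0 * x := by
          have h7 : N < M0 * (z' + 1) := (Nat.div_lt_iff_lt_mul (by omega)).1 (by omega)
          rw [hx]
          exact_mod_cast h7.le
        have h8 : 4 / x * (D + 1) ≤ 4 * (D + 1) * M0 / N := by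
          rw [div_mul_eq_mul_div, div_le_div_iff₀ hx0 hN0]
          nlinarith
        have e1 : C * (1 / x ^ 2 + 1 / N) = C / x ^ 2 + C / N := by ring
        rw [e1] at g
        have h9 : 0 ≤ 4 / x * (e + δ) := by positivity
        nlinarith
    have hYs := rec_sum_le N (fun z => |Ed (pr z) N| - (e + δ)) C (E / N) hC0 (by positivity) w (by omega)
      hstep (fun z' hp => by rw [pr_succ_not hp]) z hwz hz
    have herr := err_sum C (E / N) hC0 (by positivity) w z N (by omega) hwz hz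
    have hprod : c₀ ≤ ∏ q ∈ (Ioc w z).filter Nat.Prime, (1 - 4 / (q : ℝ)) := by
      rw [hc₀]
      refine le_trans ?_ (hPv w z hw7 hwz)
      refine mul_le_mul_of_nonneg_left (pow_le_pow_left₀ (by positivity) ?_ 8) hc.le
      have hz0 : (0 : ℝ) < z := by exact_mod_cast (by omega : 0 < z)
      have hlz : 0 < Real.log z := Real.log_pos (by exact_mod_cast (by omega : 1 < z))
      rw [le_div_iff₀ hlz]
      have h1 : Real.log z ≤ Real.log N := Real.log_le_log hz0 (by exact_mod_cast hz)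
      have h2 : κ / 2 * Real.log N ≤ Real.log w := by
        rw [← Real.log_rpow hN0]
        exact Real.log_le_log (Real.rpow_pos_of_pos hN0 _) hwge
      exact (mul_le_mul_of_nonneg_left h1 (by positivity)).trans h2
    have hYw : |Ed (pr w) N| - (e + δ) ≤ -(3 / 4 * e) := by
      have := hsmall w le_rfl
      linarith
    have hmain : (|Ed (pr w) N| - (e + δ)) * (∏ q ∈ (Ioc w z).filter Nat.Prime, (1 - 4 / (q : ℝ))) ≤
        -(3 / 4 * e * c₀) := by
      have hP0 : 0 ≤ ∏ q ∈ (Ioc w z).filter Nat.Prime, (1 - 4 / (q : ℝ)) := hc₀0.le.trans hprod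
      have h1 := mul_le_mul_of_nonneg_right hYw hP0
      have h2 := mul_le_mul_of_nonneg_left hprod (show 0 ≤ 3 / 4 * e by positivity)
      linarith
    have herr1 : C / w ≤ c₀ * ε / 16 := by
      rw [div_le_iff₀ hw0]
      have h1 : 16 * C / (c₀ * ε) ≤ w := by linarith
      rw [div_le_iff₀ (by positivity)] at h1
      nlinarith
    have herr2 : E / N * (pr N).card ≤ c₀ * ε / 16 := by
      have h1 := mul_le_mul_of_nonneg_left hpi (show 0 ≤ E / (N : ℝ) by positivity)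
      have h2 : E / N * (c₀ * ε / (16 * E) * N) = c₀ * ε / 16 := by field_simp
      linarith
    have hYs' : |Ed (pr z) N| - (e + δ) ≤ (|Ed (pr w) N| - (e + δ)) *
        (∏ q ∈ (Ioc w z).filter Nat.Prime, (1 - 4 / (q : ℝ))) +
        ∑ q ∈ (Ioc w z).filter Nat.Prime, (C / (q : ℝ) ^ 2 + E / N) := hYs
    have h9 : c₀ * ε ≤ c₀ * e := mul_le_mul_of_nonneg_left he hc₀0.le
    have h10 : (1 - c₀ / 2) * e = e - c₀ * e / 2 := by ring
    rw [h10]
    linarith

/-- above the length -/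
theorem far_E (hE2 : S_E2) : ∃ C : ℝ, 0 ≤ C ∧ ∀ N : ℕ, 5 ≤ N → ∀ z : ℕ, N ≤ z →
    |Ed (pr z) N| ≤ |Ed (pr N) N| + C / N + C * V (pr N) ^ 2 := by
  obtain ⟨C, hC0, hE2⟩ := hE2
  refine ⟨C, hC0, ?_⟩
  intro N hN
  have hN0 : (0 : ℝ) < N := by exact_mod_cast (by omega : 0 < N)
  obtain ⟨v, hv⟩ : ∃ v, v = V (pr N) := ⟨_, rfl⟩
  have hv0 : 0 ≤ v := by rw [hv]; exact (V_bd (pr N) (fun q hq => pr_prime hq)).1
  have hmono : ∀ z, N ≤ z → V (pr z) ≤ v := by
    intro z hz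
    induction z, hz using Nat.le_induction with
    | base => rw [hv]
    | succ z hz ih =>
      by_cases hp : (z + 1).Prime
      · rw [pr_succ_prime hp, V, prod_insert (not_mem_pr z)]
        have h1 : 0 ≤ V (pr z) := (V_bd (pr z) (fun q hq => pr_prime hq)).1
        have hz1 : (1 : ℝ) ≤ ((z + 1 : ℕ) : ℝ) := by exact_mod_cast (by omega : 1 ≤ z + 1)
        have h2 : (1 - 1 / ((z + 1 : ℕ) : ℝ)) ^ 2 ≤ 1 := by
          have h3 : 0 ≤ 1 / ((z + 1 : ℕ) : ℝ) := by positivity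
          have h4 : 1 / ((z + 1 : ℕ) : ℝ) ≤ 1 := by rw [div_le_one (by linarith)]; exact hz1
          nlinarith
        have h5 : (1 - 1 / ((z + 1 : ℕ) : ℝ)) ^ 2 * V (pr z) ≤ 1 * V (pr z) :=
          mul_le_mul_of_nonneg_right h2 h1
        have h6 : ∏ p ∈ pr z, (1 - 1 / (p : ℝ)) ^ 2 = V (pr z) := rfl
        rw [h6]
        linarith
      · rw [pr_succ_not hp]; exact ih
  have key : ∀ z, N ≤ z → |Ed (pr z) N| ≤ |Ed (pr N) N| + (C + C * v ^ 2 * N) * ((N : ℝ)⁻¹ - (z : ℝ)⁻¹) := by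
    intro z hz
    induction z, hz using Nat.le_induction with
    | base => simp
    | succ z hz ih =>
      have hz0 : (0 : ℝ) < z := by exact_mod_cast (by omega : 0 < z)
      have hK : 0 ≤ C + C * v ^ 2 * N := by positivity
      have hinv : (1 / ((z + 1 : ℕ) : ℝ) ^ 2) ≤ (z : ℝ)⁻¹ - ((z + 1 : ℕ) : ℝ)⁻¹ := by
        push_cast
        rw [inv_sub_inv (by positivity) (by positivity), div_le_div_iff₀ (by positivity) (by positivity)]
        nlinarith
      by_cases hp : (z + 1).Prime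
      · rw [pr_succ_prime hp]
        have g := hE2 (pr z) (fun q hq => pr_prime hq) (z + 1) hp (not_mem_pr z) (by omega) N (by omega) (by omega)
        have h1 : V (pr z) ^ 2 ≤ v ^ 2 :=
          pow_le_pow_left₀ (V_bd (pr z) (fun q hq => pr_prime hq)).1 (hmono z hz) 2
        have h2 : C * V (pr z) ^ 2 * N / ((z + 1 : ℕ) : ℝ) ^ 2 ≤ C * v ^ 2 * N / ((z + 1 : ℕ) : ℝ) ^ 2 := by
          apply div_le_div_of_nonneg_right _ (by positivity)
          apply mul_le_mul_of_nonneg_right _ hN0.le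
          exact mul_le_mul_of_nonneg_left h1 hC0
        have h3 : C / ((z + 1 : ℕ) : ℝ) ^ 2 + C * v ^ 2 * N / ((z + 1 : ℕ) : ℝ) ^ 2 ≤
            (C + C * v ^ 2 * N) * ((z : ℝ)⁻¹ - ((z + 1 : ℕ) : ℝ)⁻¹) := by
          have := mul_le_mul_of_nonneg_left hinv hK
          calc _ = (C + C * v ^ 2 * N) * (1 / ((z + 1 : ℕ) : ℝ) ^ 2) := by ring
            _ ≤ _ := this
        have h4 : (C + C * v ^ 2 * N) * ((N : ℝ)⁻¹ - ((z + 1 : ℕ) : ℝ)⁻¹) =
            (C + C * v ^ 2 * N) * ((N : ℝ)⁻¹ - (z : ℝ)⁻¹) +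
              (C + C * v ^ 2 * N) * ((z : ℝ)⁻¹ - ((z + 1 : ℕ) : ℝ)⁻¹) := by ring
        rw [h4]
        linarith
      · rw [pr_succ_not hp]
        have h4 : (C + C * v ^ 2 * N) * ((N : ℝ)⁻¹ - ((z + 1 : ℕ) : ℝ)⁻¹) =
            (C + C * v ^ 2 * N) * ((N : ℝ)⁻¹ - (z : ℝ)⁻¹) +
              (C + C * v ^ 2 * N) * ((z : ℝ)⁻¹ - ((z + 1 : ℕ) : ℝ)⁻¹) := by ring
        rw [h4]
        have h5 : 0 ≤ (z : ℝ)⁻¹ - ((z + 1 : ℕ) : ℝ)⁻¹ := le_trans (by positivity) hinv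
        have := mul_nonneg hK h5
        linarith
  intro z hz
  refine (key z hz).trans ?_
  rw [← hv]
  have hz0 : (0 : ℝ) < z := by exact_mod_cast (by omega : 0 < z)
  have h1 : (C + C * v ^ 2 * N) * ((N : ℝ)⁻¹ - (z : ℝ)⁻¹) ≤ (C + C * v ^ 2 * N) * (N : ℝ)⁻¹ := by
    apply mul_le_mul_of_nonneg_left _ (by positivity)
    have : 0 ≤ (z : ℝ)⁻¹ := by positivity
    linarith
  have h2 : (C + C * v ^ 2 * N) * (N : ℝ)⁻¹ = C / N + C * v ^ 2 := by
    field_simp
  linarith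

/-- **EC** -/
theorem t_EC (hE1 : S_E1) (hE2 : S_E2) (hE3 : S_E3) (hG2 : S_G2) (hG4 : S_G4) (hPV : S_PV) (hVV : S_VV) :
    S_EC := by
  intro ε hε
  obtain ⟨c₁, hc0, hc1, hstep⟩ := stepE hE1 hE3 hG2 hG4 hPV ε hε
  obtain ⟨C, hC0, hfar⟩ := far_E hE2
  obtain ⟨c', C', hc', hC', hV⟩ := hVV
  -- the step for all `z`
  have hstep2 : ∀ e : ℝ, ε ≤ e → (∃ M0 : ℕ, ∀ M ≥ M0, ∀ z, |Ed (pr z) M| ≤ e) →
      ∃ M0 : ℕ, ∀ M ≥ M0, ∀ z, |Ed (pr z) M| ≤ (1 - c₁ / 2) * e := by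
    intro e he hH
    have he0 : 0 < e := lt_of_lt_of_le hε he
    obtain ⟨N2, hN2⟩ := hstep e he hH
    obtain ⟨N4, hN4⟩ := exists_nat_ge (4 * C / (c₁ * e))
    have hlog : ∀ᶠ N : ℕ in Filter.atTop, 4 * C * C' ^ 2 / (c₁ * e) + 1 ≤ Real.log N :=
      (Real.tendsto_log_atTop.comp tendsto_natCast_atTop_atTop).eventually_ge_atTop _
    obtain ⟨N5, hN5⟩ := Filter.eventually_atTop.1 hlog
    refine ⟨N2 + N4 + N5 + 5, ?_⟩
    intro N hN z
    by_cases hz : z ≤ N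
    · have h1 := hN2 N (by omega) z hz
      have h2 : (1 - c₁) * e ≤ (1 - c₁ / 2) * e := by nlinarith
      linarith
    · have h1 := hfar N (by omega) z (by omega)
      have h2 := hN2 N (by omega) N le_rfl
      have hN0 : (0 : ℝ) < N := by exact_mod_cast (by omega : 0 < N)
      have h3 : C / N ≤ c₁ * e / 4 := by
        have h4 : (N4 : ℝ) ≤ N := by exact_mod_cast (by omega : N4 ≤ N)
        have h5 := hN4.trans h4
        rw [div_le_iff₀ (by positivity)] at h5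
        rw [div_le_iff₀ hN0]
        linarith
      have h6 : C * V (pr N) ^ 2 ≤ c₁ * e / 4 := by
        have g1 := hN5 N (by omega)
        have g0 : 0 ≤ 4 * C * C' ^ 2 / (c₁ * e) := by positivity
        have gl1 : 1 ≤ Real.log N := by linarith
        have g2 := (hV N (by omega)).2
        have g3 : 0 ≤ V (pr N) := (V_bd (pr N) (fun q hq => pr_prime hq)).1
        have g4 : C' / Real.log N ^ 2 ≤ C' / Real.log N := by
          apply div_le_div_of_nonneg_left hC'.le (by linarith)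
          nlinarith
        have g5 : V (pr N) ^ 2 ≤ (C' / Real.log N) ^ 2 := pow_le_pow_left₀ g3 (g2.trans g4) 2
        have g6 : (C' / Real.log N) ^ 2 ≤ C' ^ 2 / Real.log N := by
          rw [div_pow]
          apply div_le_div_of_nonneg_left (by positivity) (by linarith)
          nlinarith
        have g7 : 4 * C * C' ^ 2 / (c₁ * e) ≤ Real.log N := by linarith
        rw [div_le_iff₀ (by positivity)] at g7
        have g8 : C * (C' ^ 2 / Real.log N) ≤ c₁ * e / 4 := by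
          rw [← mul_div_assoc, div_le_iff₀ (by linarith)]
          nlinarith
        calc C * V (pr N) ^ 2 ≤ C * (C' ^ 2 / Real.log N) :=
              mul_le_mul_of_nonneg_left (g5.trans g6) hC0
          _ ≤ _ := g8
      have h7 : (1 - c₁ / 2) * e = (1 - c₁) * e + c₁ * e / 2 := by ring
      rw [h7]
      linarith
  -- iteration
  obtain ⟨D, hD0, hDb, -⟩ := hE3
  have hiter : ∀ n : ℕ, ∃ M0 : ℕ, ∀ M ≥ M0, ∀ z, |Ed (pr z) M| ≤ max ε ((1 - c₁ / 2) ^ n * (D + ε)) := by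
    intro n
    induction n with
    | zero =>
      refine ⟨0, fun M _ z => ?_⟩
      refine (hDb (pr z) (fun q hq => pr_prime hq) M).trans ?_
      refine le_trans ?_ (le_max_right _ _)
      rw [pow_zero, one_mul]
      linarith
    | succ n ih =>
      by_cases hcase : ε ≤ (1 - c₁ / 2) ^ n * (D + ε)
      · rw [max_eq_right hcase] at ih
        obtain ⟨M0, hM0⟩ := hstep2 _ hcase ih
        refine ⟨M0, fun M hM z => ?_⟩
        refine (hM0 M hM z).trans ?_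
        refine le_trans (le_of_eq ?_) (le_max_right _ _)
        ring
      · obtain ⟨M0, hM0⟩ := ih
        rw [max_eq_left (not_le.1 hcase).le] at hM0
        exact ⟨M0, fun M hM z => (hM0 M hM z).trans (le_max_left _ _)⟩
  have hlim : Filter.Tendsto (fun n : ℕ => (1 - c₁ / 2) ^ n * (D + ε)) Filter.atTop (nhds 0) := by
    have := (tendsto_pow_atTop_nhds_zero_of_lt_one (r := 1 - c₁ / 2) (by linarith) (by linarith)).mul_const (D + ε)
    simpa using this
  obtain ⟨n, hn⟩ := (hlim.eventually (eventually_le_nhds hε)).exists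
  obtain ⟨M0, hM0⟩ := hiter n
  refine ⟨M0, fun N hN z => ?_⟩
  have := hM0 N hN z
  rwa [max_eq_left hn] at this

end Pool.Agent.H19.TM
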