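import Pool.Agent.H19.TM.Law2
import Pool.Agent.H54.TM.Fail
import Pool.Agent.H95.TM.PvDef
import Pool.Agent.H95.TM.Lim

/-!
# Project TM2: the second moments in intervals
-/

set_option autoImplicit false

namespace Pool.Agent.H19.TM

open Finset Pool.Agent.Y862.GM Filter Topology

/-- the first moment in an interval -/
theorem first_moment : ∃ A : ℕ, ∀ y : ℕ, A ≤ y → ∀ lam : ℝ, Real.log (Real.log y) ≤ lam →
    ∀ Z Y : ℕ, (y : ℝ) ^ (A * lam) ≤ Y → ∀ b : ℕ, 1 ≤ b →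
    |(∑ x ∈ Ioc Z (Z + Y), (∑ h ∈ Ioc 0 b, mu y (x + h) - b * V (pr y))) / Y| ≤ 2 * b * Real.exp (-lam) := by
  obtain ⟨A, hA⟩ := Pool.Agent.H52.TM.corr_int 1
  refine ⟨A, ?_⟩
  intro y hy lam hlam Z Y hY b hb
  have hP : ∀ p ∈ pr y, p.Prime := pr_prime y
  obtain ⟨Q, hQ⟩ : ∃ Q : ℕ, Q = ∏ p ∈ pr y, p ^ 2 := ⟨_, rfl⟩
  have hQ0 : 0 < Q := by
    rw [hQ]
    exact Finset.prod_pos fun p hp => pow_pos (hP p hp).pos 2
  have hQ0' : (0 : ℝ) < Q := by exact_mod_cast hQ0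
  have hQr : (Q : ℝ) = ∏ p ∈ pr y, (p : ℝ) ^ 2 := by
    rw [hQ]
    push_cast
    rfl
  have h1 := Pool.Agent.H52.TM.moment_cmp (Ioc Z (Z + Y)) (range Q) (Ioc 0 b) (Y : ℝ) (Q : ℝ)
    (fun x h => mu y (x + h)) (b * V (pr y)) (Real.exp (-lam)) 1 ?_
  swap
  · intro i hi g
    have h2 := hA y y hy le_rfl lam hlam Z Y hY i hi g
    rw [← Pool.Agent.H52.TM.corr_full y i g, ← hQr, ← hQ] at h2
    exact h2
  obtain ⟨hV0, hV1⟩ := Pool.Agent.H52.TM.V_bounds y
  have hb0 : (0 : ℝ) ≤ b := Nat.cast_nonneg _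
  have hcard : ((Ioc 0 b).card : ℝ) = b := by
    rw [Nat.card_Ioc, Nat.sub_zero]
  have habs : |(b : ℝ) * V (pr y)| ≤ b := by
    rw [abs_of_nonneg (mul_nonneg hb0 hV0)]
    nlinarith
  simp only [pow_one] at h1
  have h3 : ∑ x ∈ range Q, (∑ h ∈ Ioc 0 b, mu y (x + h) - b * V (pr y)) = 0 := by
    rw [sum_sub_distrib, sum_comm]
    have h4 : ∀ h ∈ Ioc 0 b, ∑ x ∈ range Q, mu y (x + h) = Q * V (pr y) := by
      intro h _
      have h5 := Pool.Agent.Y672.GM.sum_prod (pr y) hP (fun p n => muP p (n + h)) (fun p _ n => muP_add_sq p n h)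
      rw [← hQ] at h5
      unfold mu
      rw [h5, hQr]
      unfold V
      rw [← prod_mul_distrib]
      exact prod_congr rfl fun p hp => muP_sum p (hP p hp) h
    rw [sum_congr rfl h4, sum_const, sum_const, card_range, Nat.card_Ioc, nsmul_eq_mul, nsmul_eq_mul]
    simp only [Nat.sub_zero]
    ring
  rw [h3, zero_div, sub_zero, hcard] at h1
  refine h1.trans ?_
  apply mul_le_mul_of_nonneg_right _ (Real.exp_pos _).le
  linarith

/-- the mean of the square of the sum over the window, minus `c` -/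
noncomputable def msq (y b Z Y : ℕ) (c : ℝ) : ℝ :=
  (∑ x ∈ Ioc Z (Z + Y), (∑ n ∈ Ioc x (x + b), mu y n - c) ^ 2) / Y

lemma window_shift (y x b : ℕ) : ∑ n ∈ Ioc x (x + b), mu y n = ∑ h ∈ Ioc 0 b, mu y (x + h) := by
  have := sum_shift x 0 b (mu y)
  simpa using this.symm

/-- the second moments and the variance over a full period -/
theorem msq_close : ∃ A : ℕ, ∀ y b Z Y : ℕ, A ≤ y → 1 ≤ b →
    (y : ℝ) ^ (A * (Real.log b + Real.log (Real.log y))) ≤ Y → 0 < Y ∧
    |msq y b Z Y (b * V (pr y)) - Wv (pr y) b| ≤ 4 ∧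
    |msq y b Z Y 0 - msq y b Z Y (b * V (pr y)) - (b * V (pr y)) ^ 2| ≤ 4 := by
  obtain ⟨A1, hA1⟩ := t_MI1
  obtain ⟨A2, hA2⟩ := first_moment
  refine ⟨2 * A1 + 2 * A2 + 3, ?_⟩
  intro y b Z Y hy hb hY
  have hy3 : 3 ≤ y := by omega
  have hy3' : (3 : ℝ) ≤ y := by exact_mod_cast hy3
  have hly1 : 1 ≤ Real.log y := by
    rw [← Real.log_exp 1]
    apply Real.log_le_log (Real.exp_pos _)
    linarith [Real.exp_one_lt_d9]
  have hly0 : 0 < Real.log y := by linarith
  have hlly : 0 ≤ Real.log (Real.log y) := Real.log_nonneg hly1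
  have hb1 : (1 : ℝ) ≤ b := by exact_mod_cast hb
  have hb0 : (0 : ℝ) < b := by linarith
  have hlb : 0 ≤ Real.log b := Real.log_nonneg hb1
  have hYpos : (0 : ℝ) < Y := (Real.rpow_pos_of_pos (by linarith) _).trans_le hY
  obtain ⟨lam, hlam⟩ : ∃ lam : ℝ, lam = 2 * Real.log b + Real.log (Real.log y) := ⟨_, rfl⟩
  have hlamge : Real.log (Real.log y) ≤ lam := by rw [hlam]; linarith
  have helam : Real.exp (-lam) ≤ 1 / (b : ℝ) ^ 2 := by
    rw [Real.exp_neg, one_div]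
    apply inv_anti₀ (by positivity)
    have h5 : (b : ℝ) ^ 2 = Real.exp (2 * Real.log b) := by
      have : (2 : ℝ) * Real.log b = ((2 : ℕ) : ℝ) * Real.log b := by norm_num
      rw [this, Real.exp_nat_mul, Real.exp_log hb0]
    rw [h5, hlam]
    exact Real.exp_le_exp.2 (by linarith)
  have hexp : ∀ A' : ℕ, 2 * A' ≤ 2 * A1 + 2 * A2 + 3 → (y : ℝ) ^ (A' * lam) ≤ Y := by
    intro A' hA'
    refine le_trans ?_ hY
    apply Real.rpow_le_rpow_of_exponent_le (by linarith)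
    rw [hlam]
    have h6 : (2 : ℝ) * A' ≤ ((2 * A1 + 2 * A2 + 3 : ℕ) : ℝ) := by exact_mod_cast hA'
    have h7 : (A' : ℝ) * (2 * Real.log b + Real.log (Real.log y)) ≤
        (2 * A') * (Real.log b + Real.log (Real.log y)) := by
      have : 0 ≤ (A' : ℝ) * Real.log (Real.log y) := by positivity
      nlinarith
    exact h7.trans (mul_le_mul_of_nonneg_right h6 (by linarith))
  have g1 := hA1 y y (by omega) le_rfl lam hlamge Z Y (hexp A1 (by omega)) 0 b hb
  have g2 := hA2 y (by omega) lam hlamge Z Y (hexp A2 (by omega)) b hb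
  simp only [zero_add] at g1
  have e1 : msq y b Z Y (b * V (pr y)) =
      (∑ x ∈ Ioc Z (Z + Y), (∑ h ∈ Ioc 0 b, mu y (x + h) - b * V (pr y)) ^ 2) / Y := by
    unfold msq
    congr 1
    exact sum_congr rfl fun x _ => by rw [window_shift]
  refine ⟨by exact_mod_cast hYpos, ?_, ?_⟩
  · rw [e1]
    refine g1.trans ?_
    calc (2 * (b : ℝ)) ^ 2 * Real.exp (-lam) ≤ (2 * (b : ℝ)) ^ 2 * (1 / (b : ℝ) ^ 2) := by gcongr
      _ = 4 := by
          field_simp
          norm_num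
  · obtain ⟨c, hc⟩ : ∃ c : ℝ, c = b * V (pr y) := ⟨_, rfl⟩
    have hV0 := (V_pos (pr y) (pr_prime y)).le
    have hV1 := V_le_one (pr y) (pr_prime y)
    have hc0 : 0 ≤ c := by rw [hc]; positivity
    have hcb : c ≤ b := by rw [hc]; nlinarith
    rw [← hc] at g2 ⊢
    have e2 : msq y b Z Y 0 - msq y b Z Y c - c ^ 2 =
        2 * c * ((∑ x ∈ Ioc Z (Z + Y), (∑ h ∈ Ioc 0 b, mu y (x + h) - c)) / Y) := by
      unfold msq
      have e3 : ∀ x, (∑ n ∈ Ioc x (x + b), mu y n - 0) ^ 2 = (∑ n ∈ Ioc x (x + b), mu y n - c) ^ 2 +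
          2 * c * (∑ h ∈ Ioc 0 b, mu y (x + h) - c) + c ^ 2 := by
        intro x
        rw [window_shift]
        ring
      simp_rw [e3]
      rw [sum_add_distrib, sum_add_distrib, ← mul_sum, sum_const, Nat.card_Ioc, nsmul_eq_mul]
      have e4 : ((Z + Y - Z : ℕ) : ℝ) = Y := by
        congr 1
        omega
      rw [e4]
      field_simp
      ring
    rw [e2, abs_mul, abs_of_nonneg (by linarith : 0 ≤ 2 * c)]
    calc 2 * c * |(∑ x ∈ Ioc Z (Z + Y), (∑ h ∈ Ioc 0 b, mu y (x + h) - c)) / Y| ≤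
          2 * b * (2 * b * (1 / (b : ℝ) ^ 2)) := by
          apply mul_le_mul (by linarith) (g2.trans _) (abs_nonneg _) (by positivity)
          gcongr
      _ = 4 := by
          field_simp
          norm_num

/-- the upper bound for the variance, for all sets of primes -/
theorem all_z (hL : S_LIM) : ∃ N0 : ℕ, ∀ N z : ℕ, N0 ≤ N → Wv (pr z) N ≤ sig (pr z) * N := by
  obtain ⟨η, hη, N0, hN0⟩ := hL
  refine ⟨N0 + 5, fun N z hN => ?_⟩
  have hle : ∀ z ≤ N, Wv (pr z) N ≤ sig (pr z) * N := by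
    intro z hz
    have h1 := hN0 N z (by omega) hz
    have h2 : 0 ≤ sig (pr z) := by
      have := (t_SIG.1 (pr z) (pr_prime z)).1
      linarith
    have h3 : 0 ≤ η * sig (pr z) * N := by positivity
    nlinarith
  rcases le_total z N with h | h
  · exact hle z h
  · induction z, h using Nat.le_induction with
    | base => exact hle N le_rfl
    | succ z hz ih =>
      by_cases hp : (z + 1).Prime
      · have hins : pr (z + 1) = insert (z + 1) (pr z) := by
          ext p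
          unfold pr
          rw [mem_insert, mem_filter, mem_filter, mem_range, mem_range]
          constructor
          · rintro ⟨h1, h2⟩
            rcases Nat.lt_or_ge p (z + 1) with h3 | h3
            · exact Or.inr ⟨h3, h2⟩
            · exact Or.inl (by omega)
          · rintro (h1 | ⟨h1, h2⟩)
            · rw [h1]; exact ⟨by omega, hp⟩
            · exact ⟨by omega, h2⟩
        have hnot : z + 1 ∉ pr z := by
          unfold pr
          rw [mem_filter, mem_range]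
          omega
        have h1 := t_FAR' (pr z) (pr_prime z) (z + 1) hp hnot N (by omega)
        rw [← hins] at h1
        have h5 : (5 : ℝ) ≤ ((z + 1 : ℕ) : ℝ) := by exact_mod_cast (by omega : 5 ≤ z + 1)
        have h2 : 0 ≤ 1 - 4 / ((z + 1 : ℕ) : ℝ) + 2 / ((z + 1 : ℕ) : ℝ) ^ 2 := by
          have h3 : 4 / ((z + 1 : ℕ) : ℝ) ≤ 4 / 5 := by
            apply div_le_div_of_nonneg_left (by norm_num) (by norm_num) h5
          have h4 : 0 ≤ 2 / ((z + 1 : ℕ) : ℝ) ^ 2 := by positivity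
          linarith
        have h3 := mul_nonneg h2 (by linarith : 0 ≤ sig (pr z) * N - Wv (pr z) N)
        linarith
      · have hins : pr (z + 1) = pr z := by
          ext p
          unfold pr
          rw [mem_filter, mem_filter, mem_range, mem_range]
          constructor
          · rintro ⟨h1, h2⟩
            refine ⟨?_, h2⟩
            have : p ≠ z + 1 := fun h => hp (h ▸ h2)
            omega
          · rintro ⟨h1, h2⟩
            exact ⟨by omega, h2⟩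
        rw [hins]
        exact ih

/-- the upper bound for the second moment in intervals -/
theorem msq_up (hL : S_LIM) (ε : ℝ) (hε : 0 < ε) : ∃ A : ℕ, ∀ y b Z Y : ℕ, A ≤ y → A ≤ b →
    (y : ℝ) ^ (A * (Real.log b + Real.log (Real.log y))) ≤ Y →
    msq y b Z Y (b * V (pr y)) ≤ (1 + ε) * (6 * b / Real.pi ^ 2) := by
  obtain ⟨A1, hA1⟩ := msq_close
  obtain ⟨N0, hN0⟩ := all_z hL
  obtain ⟨A2, hA2⟩ := t_SIG.2.1 (ε / 2) (by positivity)
  obtain ⟨N3, hN3⟩ := exists_nat_ge (4 * 2 * Real.pi ^ 2 / (6 * ε))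
  refine ⟨A1 + N0 + A2 + N3 + 3, ?_⟩
  intro y b Z Y hy hb hY
  have hb1 : 1 ≤ b := by omega
  have hy3' : (3 : ℝ) ≤ y := by exact_mod_cast (by omega : 3 ≤ y)
  have hly1 : 1 ≤ Real.log y := by
    rw [← Real.log_exp 1]
    apply Real.log_le_log (Real.exp_pos _)
    linarith [Real.exp_one_lt_d9]
  have hlly : 0 ≤ Real.log (Real.log y) := Real.log_nonneg hly1
  have hlb : 0 ≤ Real.log b := Real.log_natCast_nonneg b
  have hY1 : (y : ℝ) ^ (A1 * (Real.log b + Real.log (Real.log y))) ≤ Y := by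
    refine le_trans ?_ hY
    apply Real.rpow_le_rpow_of_exponent_le (by linarith)
    apply mul_le_mul_of_nonneg_right _ (by linarith)
    exact_mod_cast (by omega : A1 ≤ A1 + N0 + A2 + N3 + 3)
  have g1 := (abs_le.1 (hA1 y b Z Y (by omega) hb1 hY1).2.1).2
  have g2 := hN0 b y (by omega)
  have g3 := hA2 y (by omega)
  have hb0 : (0 : ℝ) ≤ b := Nat.cast_nonneg _
  have g4 : sig (pr y) * b ≤ (1 + ε / 2) * (6 / Real.pi ^ 2) * b := mul_le_mul_of_nonneg_right g3 hb0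
  have g5 : 4 ≤ ε / 2 * (6 * b / Real.pi ^ 2) := by
    have h1 : (N3 : ℝ) ≤ b := by exact_mod_cast (by omega : N3 ≤ b)
    have h2 := hN3.trans h1
    rw [div_le_iff₀ (by positivity)] at h2
    have e : ε / 2 * (6 * b / Real.pi ^ 2) = (b * (6 * ε)) / (2 * Real.pi ^ 2) := by
      field_simp
    rw [e, le_div_iff₀ (by positivity)]
    linarith
  have e6 : (1 + ε / 2) * (6 / Real.pi ^ 2) * b + ε / 2 * (6 * b / Real.pi ^ 2) =
      (1 + ε) * (6 * b / Real.pi ^ 2) := by ring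
  linarith

/-- the deficiency of the second moment in intervals -/
theorem msq_def (hD : S_DEF) (c : ℝ) (hc : 0 < c) : ∃ η : ℝ, 0 < η ∧ ∃ A : ℕ, ∀ y b Z Y : ℕ, A ≤ y → A ≤ b →
    (y : ℝ) ^ c ≤ b → (y : ℝ) ^ (A * (Real.log b + Real.log (Real.log y))) ≤ Y →
    msq y b Z Y (b * V (pr y)) ≤ (1 - η) * (6 * b / Real.pi ^ 2) := by
  obtain ⟨A1, hA1⟩ := msq_close
  obtain ⟨η, hη, A2, hA2⟩ := hD c hc
  obtain ⟨N3, hN3⟩ := exists_nat_ge (4 * 2 * Real.pi ^ 2 / (6 * η))
  refine ⟨η / 2, by positivity, A1 + A2 + N3 + 3, ?_⟩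
  intro y b Z Y hy hb hyb hY
  have hb1 : 1 ≤ b := by omega
  have hy3' : (3 : ℝ) ≤ y := by exact_mod_cast (by omega : 3 ≤ y)
  have hly1 : 1 ≤ Real.log y := by
    rw [← Real.log_exp 1]
    apply Real.log_le_log (Real.exp_pos _)
    linarith [Real.exp_one_lt_d9]
  have hlly : 0 ≤ Real.log (Real.log y) := Real.log_nonneg hly1
  have hlb : 0 ≤ Real.log b := Real.log_natCast_nonneg b
  have hY1 : (y : ℝ) ^ (A1 * (Real.log b + Real.log (Real.log y))) ≤ Y := by
    refine le_trans ?_ hY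
    apply Real.rpow_le_rpow_of_exponent_le (by linarith)
    apply mul_le_mul_of_nonneg_right _ (by linarith)
    exact_mod_cast (by omega : A1 ≤ A1 + A2 + N3 + 3)
  have g1 := (abs_le.1 (hA1 y b Z Y (by omega) hb1 hY1).2.1).2
  have g2 := hA2 y b (by omega) hyb
  have g5 : 4 ≤ η / 2 * (6 * b / Real.pi ^ 2) := by
    have h1 : (N3 : ℝ) ≤ b := by exact_mod_cast (by omega : N3 ≤ b)
    have h2 := hN3.trans h1
    rw [div_le_iff₀ (by positivity)] at h2
    have e : η / 2 * (6 * b / Real.pi ^ 2) = (b * (6 * η)) / (2 * Real.pi ^ 2) := by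
      field_simp
    rw [e, le_div_iff₀ (by positivity)]
    linarith
  have e6 : (1 - η) * (6 / Real.pi ^ 2) * b + η / 2 * (6 * b / Real.pi ^ 2) =
      (1 - η / 2) * (6 * b / Real.pi ^ 2) := by ring
  linarith

/-- a deficiency of the second moment excludes the law -/
theorem msq_fail (η : ℝ) (hη : 0 < η) : ∃ (ts : Finset ℝ) (δ : ℝ), 0 < δ ∧ ∀ (y b Z Y : ℕ) (c : ℝ), 1 ≤ b →
    0 < Y → msq y b Z Y c ≤ (1 - η) * (6 * b / Real.pi ^ 2) → ∃ t ∈ ts,
    δ ≤ |law y b Z Y c (fun _ : Fin 1 => t * √(6 * b / Real.pi ^ 2)) - Ph t| := by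
  classical
  obtain ⟨ts, δ, hδ, h⟩ := Pool.Agent.H54.TM.t_FAIL η hη
  refine ⟨ts, δ, hδ, ?_⟩
  intro y b Z Y c hb hY hm
  obtain ⟨hσ0, _, hσsq⟩ := sigma_facts b hb
  have hne : (Ioc Z (Z + Y)).Nonempty := ⟨Z + 1, by rw [mem_Ioc]; omega⟩
  have hcard : ((Ioc Z (Z + Y)).card : ℝ) = Y := by
    rw [Nat.card_Ioc]
    congr 1
    omega
  have hY0 : (0 : ℝ) < Y := by exact_mod_cast hY
  have h1 := h (Ioc Z (Z + Y)) hne (fun x => (∑ n ∈ Ioc x (x + b), mu y n - c) / √(6 * b / Real.pi ^ 2)) ?_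
  · obtain ⟨t, ht, h2⟩ := h1
    refine ⟨t, ht, ?_⟩
    rw [hcard] at h2
    unfold law Ph
    have hfil : (Ioc Z (Z + Y)).filter (fun x => ∀ i : Fin 1,
        ∑ n ∈ Ioc (x + i * b) (x + i * b + b), mu y n - c ≤ t * √(6 * b / Real.pi ^ 2)) =
        (Ioc Z (Z + Y)).filter (fun x =>
        (∑ n ∈ Ioc x (x + b), mu y n - c) / √(6 * b / Real.pi ^ 2) ≤ t) := by
      apply Finset.filter_congr
      intro x _
      rw [Fin.forall_fin_one, div_le_iff₀ hσ0]
      simp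
    rw [hfil]
    convert h2 using 5
  · rw [hcard]
    have e1 : ∑ x ∈ Ioc Z (Z + Y), ((∑ n ∈ Ioc x (x + b), mu y n - c) / √(6 * b / Real.pi ^ 2)) ^ 2 =
        (∑ x ∈ Ioc Z (Z + Y), (∑ n ∈ Ioc x (x + b), mu y n - c) ^ 2) / (6 * b / Real.pi ^ 2) := by
      rw [sum_div]
      refine sum_congr rfl fun x _ => ?_
      rw [div_pow, hσsq]
    rw [e1, div_right_comm]
    have hb0 : (0 : ℝ) < b := by exact_mod_cast hb
    rw [div_le_iff₀ (by positivity)]
    exact hm

end Pool.Agent.H19.TM
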