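import Pool.Agent.H19.TM.Stm4
import Pool.Agent.H19.TM.Var2

/-!
# Project TM3: from the variance over a full period to the second moment in intervals
-/

set_option autoImplicit false

namespace Pool.Agent.H19.TM

open Finset Filter Topology Pool.Agent.Y862.GM

/-- the exact variance in intervals -/
theorem exact_var (hEC : S_EC) (hG2 : S_G2) (ε : ℝ) (hε : 0 < ε) : ∃ A : ℕ, ∀ y b Z Y : ℕ, A ≤ y → A ≤ b →
    (y : ℝ) ^ (A * (Real.log b + Real.log (Real.log y))) ≤ Y →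
    |msq y b Z Y (b * V (pr y)) / (6 * b / Real.pi ^ 2) - (1 - Gd (pr y) b)| ≤ ε := by
  obtain ⟨A1, hA1⟩ := msq_close
  obtain ⟨N0, hN0⟩ := hEC (ε / 8) (by positivity)
  have hcc : Tendsto (fun y : ℕ => sig (pr y) / (6 / Real.pi ^ 2)) atTop (𝓝 1) := by
    have h1 := Pool.Agent.Y968.GM.cc_tendsto
    have h2 : Tendsto (fun y : ℕ => sig (pr y)) atTop (𝓝 (6 / Real.pi ^ 2)) := h1
    have h3 := h2.div_const (6 / Real.pi ^ 2)
    rwa [div_self (by positivity)] at h3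
  obtain ⟨A2, hA2⟩ := Filter.eventually_atTop.1 ((Metric.tendsto_nhds.1 hcc) (min (ε / 4) 1) (by positivity))
  obtain ⟨N3, hN3⟩ := exists_nat_ge (4 * 4 * Real.pi ^ 2 / (6 * ε))
  refine ⟨A1 + N0 + A2 + N3 + 3, ?_⟩
  intro y b Z Y hy hb hY
  have hb1 : 1 ≤ b := by omega
  have hy3' : (3 : ℝ) ≤ y := by exact_mod_cast (by omega : 3 ≤ y)
  have hly1 : 1 ≤ Real.log y := by
    rw [← Real.log_exp 1]
    apply Real.log_le_log (Real.exp_pos _)
    linarith [Real.exp_one_lt_d9]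
  have hlly : 0 ≤ Real.log (Real.log y) := Real.log_nonneg hly1
  have hlb : 0 ≤ Real.log b := Real.log_natCast_nonneg b
  have hY1 : (y : ℝ) ^ (A1 * (Real.log b + Real.log (Real.log y))) ≤ Y := by
    refine le_trans ?_ hY
    apply Real.rpow_le_rpow_of_exponent_le (by linarith)
    apply mul_le_mul_of_nonneg_right _ (by linarith)
    exact_mod_cast (by omega : A1 ≤ A1 + N0 + A2 + N3 + 3)
  have g1 := (hA1 y b Z Y (by omega) hb1 hY1).2.1
  have g2 := hN0 b (by omega) y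
  have g3 := hA2 y (by omega)
  rw [Real.dist_eq] at g3
  have g3a := g3.le.trans (min_le_left _ _)
  have g3b := g3.le.trans (min_le_right _ _)
  obtain ⟨hG0, hG1⟩ := hG2.1 (pr y) (fun q hq => (mem_filter.1 hq).2) b
  have hb0 : (0 : ℝ) < b := by exact_mod_cast hb1
  have hs0 : (0 : ℝ) < sig (pr y) := by
    have := (t_SIG.1 (pr y) (fun q hq => (mem_filter.1 hq).2)).1
    linarith
  obtain ⟨s, hs⟩ : ∃ s, s = sig (pr y) := ⟨_, rfl⟩
  obtain ⟨W, hW⟩ : ∃ W, W = Wv (pr y) b := ⟨_, rfl⟩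
  obtain ⟨G, hG⟩ : ∃ G, G = Gd (pr y) b := ⟨_, rfl⟩
  obtain ⟨m, hm⟩ : ∃ m, m = msq y b Z Y (b * V (pr y)) := ⟨_, rfl⟩
  have e1 : Ed (pr y) b = 1 - W / (s * b) - G := by rw [hs, hW, hG]; rfl
  rw [e1] at g2
  rw [← hs] at g3a g3b hs0
  rw [← hG] at hG0 hG1
  rw [← hm, ← hW] at g1
  rw [← hm, ← hG]
  have ht0 : (0 : ℝ) < 6 / Real.pi ^ 2 := by positivity
  obtain ⟨t, ht⟩ : ∃ t, t = 6 / Real.pi ^ 2 := ⟨_, rfl⟩
  rw [← ht] at g3a g3b ht0
  have e2 : 6 * (b : ℝ) / Real.pi ^ 2 = t * b := by rw [ht]; ring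
  rw [e2]
  have key : m / (t * b) - (1 - G) = (s / t - 1) * (1 - G) - s / t * (1 - W / (s * b) - G) + (m - W) / (t * b) := by
    field_simp
    ring
  rw [key]
  have hst : |s / t| ≤ 2 := by
    have := (abs_le.1 g3b)
    rw [abs_le]
    constructor <;> linarith [this.1, this.2]
  have b1 : |(s / t - 1) * (1 - G)| ≤ ε / 4 := by
    rw [abs_mul]
    calc |s / t - 1| * |1 - G| ≤ ε / 4 * 1 := by
          apply mul_le_mul g3a _ (abs_nonneg _) (by positivity)
          rw [abs_le]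
          constructor <;> linarith
      _ = ε / 4 := mul_one _
  have b2 : |s / t * (1 - W / (s * b) - G)| ≤ ε / 4 := by
    rw [abs_mul]
    calc |s / t| * |1 - W / (s * b) - G| ≤ 2 * (ε / 8) :=
          mul_le_mul hst g2 (abs_nonneg _) (by norm_num)
      _ = ε / 4 := by ring
  have b3 : |(m - W) / (t * b)| ≤ ε / 4 := by
    rw [abs_div, abs_of_pos (by positivity : (0 : ℝ) < t * b), div_le_iff₀ (by positivity)]
    refine g1.trans ?_
    have h1 : (N3 : ℝ) ≤ b := by exact_mod_cast (by omega : N3 ≤ b)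
    have h2 := hN3.trans h1
    rw [div_le_iff₀ (by positivity)] at h2
    have e : ε / 4 * (t * b) = (b * (6 * ε)) / (4 * Real.pi ^ 2) := by
      rw [ht]
      field_simp
    rw [e, le_div_iff₀ (by positivity)]
    linarith
  calc |(s / t - 1) * (1 - G) - s / t * (1 - W / (s * b) - G) + (m - W) / (t * b)|
      ≤ |(s / t - 1) * (1 - G) - s / t * (1 - W / (s * b) - G)| + |(m - W) / (t * b)| := abs_add_le _ _
    _ ≤ |(s / t - 1) * (1 - G)| + |s / t * (1 - W / (s * b) - G)| + |(m - W) / (t * b)| := by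
        gcongr
        exact abs_sub _ _
    _ ≤ ε := by linarith

end Pool.Agent.H19.TM
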