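import Pool.Agent.H19.TM.Exact

/-!
# Project TM3: the final form
-/

set_option autoImplicit false

namespace Pool.Agent.H19.TM

open Finset Filter Topology Pool.Agent.Y862.GM

/-- the function is unique -/
theorem j_unique (hJ6 : S_J6) (j j' : ℝ → ℝ) (h : JProp j) (h' : JProp j') : j = j' := by
  funext u
  rcases le_or_gt u 0 with hu | hu
  · rw [h.2.1 u hu, h'.2.1 u hu]
  have key : Tendsto (fun m : ℕ => Real.log (⌊((2 ^ m : ℕ) : ℝ) ^ u⌋₊ : ℕ) / Real.log ((2 ^ m : ℕ) : ℝ)) atTop (𝓝 u) := by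
    have h2 : Tendsto (fun m : ℕ => ((2 ^ m : ℕ) : ℝ)) atTop atTop := by
      have := tendsto_pow_atTop_atTop_of_one_lt (r := (2 : ℝ)) (by norm_num)
      simpa using this
    have h3 : Tendsto (fun m : ℕ => (1 / (u * Real.log ((2 ^ m : ℕ) : ℝ)) : ℝ)) atTop (𝓝 0) := by
      have h4 := (Real.tendsto_log_atTop.comp h2)
      have h5 := Tendsto.const_mul_atTop hu h4
      have h6 := h5.inv_tendsto_atTop
      refine h6.congr (fun m => ?_)
      simp [one_div]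
    have hlo : Tendsto (fun m : ℕ => u - Real.log 2 / Real.log ((2 ^ m : ℕ) : ℝ)) atTop (𝓝 u) := by
      have h4 := (Real.tendsto_log_atTop.comp h2).inv_tendsto_atTop.const_mul (Real.log 2)
      rw [mul_zero] at h4
      have h5 := h4.const_sub u
      rw [sub_zero] at h5
      refine h5.congr (fun m => ?_)
      simp [div_eq_mul_inv]
    refine tendsto_of_tendsto_of_tendsto_of_le_of_le' hlo tendsto_const_nhds ?_ ?_
    · filter_upwards [h2.eventually_ge_atTop 2] with m hm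
      obtain ⟨x, hx⟩ : ∃ x : ℝ, x = ((2 ^ m : ℕ) : ℝ) := ⟨_, rfl⟩
      rw [← hx] at hm ⊢
      have hx0 : 0 < x := by linarith
      have hlx : 0 < Real.log x := Real.log_pos (by linarith)
      have hxu : 1 ≤ x ^ u := Real.one_le_rpow (by linarith) hu.le
      have hf1 : 1 ≤ ⌊x ^ u⌋₊ := (Nat.one_le_floor_iff _).2 hxu
      have hf2 : x ^ u ≤ 2 * (⌊x ^ u⌋₊ : ℝ) := by
        have h5 := Nat.lt_floor_add_one (x ^ u)
        have h6 : (1 : ℝ) ≤ ⌊x ^ u⌋₊ := by exact_mod_cast hf1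
        linarith
      rw [sub_le_iff_le_add, ← add_div, le_div_iff₀ hlx, ← Real.log_rpow hx0]
      calc Real.log (x ^ u) ≤ Real.log (2 * (⌊x ^ u⌋₊ : ℝ)) := Real.log_le_log (by positivity) hf2
        _ = Real.log (⌊x ^ u⌋₊ : ℝ) + Real.log 2 := by
            rw [Real.log_mul (by norm_num) (by positivity)]
            ring
    · filter_upwards [h2.eventually_ge_atTop 2] with m hm
      obtain ⟨x, hx⟩ : ∃ x : ℝ, x = ((2 ^ m : ℕ) : ℝ) := ⟨_, rfl⟩
      rw [← hx] at hm ⊢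
      have hx0 : 0 < x := by linarith
      have hlx : 0 < Real.log x := Real.log_pos (by linarith)
      have hxu : 1 ≤ x ^ u := Real.one_le_rpow (by linarith) hu.le
      have hf1 : 1 ≤ ⌊x ^ u⌋₊ := (Nat.one_le_floor_iff _).2 hxu
      rw [div_le_iff₀ hlx, ← Real.log_rpow hx0]
      apply Real.log_le_log (by exact_mod_cast hf1)
      exact Nat.floor_le (by positivity)
  have hbig : Tendsto (fun m : ℕ => ⌊((2 ^ m : ℕ) : ℝ) ^ u⌋₊) atTop atTop := by
    apply tendsto_nat_floor_atTop.comp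
    apply (tendsto_rpow_atTop hu).comp
    have := tendsto_pow_atTop_atTop_of_one_lt (r := (2 : ℝ)) (by norm_num)
    simpa using this
  have h1 : Tendsto (fun m : ℕ => j (Real.log (⌊((2 ^ m : ℕ) : ℝ) ^ u⌋₊ : ℕ) / Real.log ((2 ^ m : ℕ) : ℝ)) -
      j' (Real.log (⌊((2 ^ m : ℕ) : ℝ) ^ u⌋₊ : ℕ) / Real.log ((2 ^ m : ℕ) : ℝ))) atTop (𝓝 (j u - j' u)) :=
    ((h.1.tendsto u).comp key).sub ((h'.1.tendsto u).comp key)
  have h2 : Tendsto (fun m : ℕ => j (Real.log (⌊((2 ^ m : ℕ) : ℝ) ^ u⌋₊ : ℕ) / Real.log ((2 ^ m : ℕ) : ℝ)) -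
      j' (Real.log (⌊((2 ^ m : ℕ) : ℝ) ^ u⌋₊ : ℕ) / Real.log ((2 ^ m : ℕ) : ℝ))) atTop (𝓝 0) := by
    rw [Metric.tendsto_nhds]
    intro ε hε
    obtain ⟨A, hA⟩ := (hJ6 j h).2.2.2 (ε / 4) (by positivity)
    obtain ⟨A', hA'⟩ := (hJ6 j' h').2.2.2 (ε / 4) (by positivity)
    filter_upwards [hbig.eventually_ge_atTop (A + A'), eventually_ge_atTop 1] with m hm hm1
    have h2m : 2 ≤ 2 ^ m := by
      calc 2 = 2 ^ 1 := by norm_num
        _ ≤ 2 ^ m := Nat.pow_le_pow_right (by norm_num) hm1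
    have g1 := hA ⌊((2 ^ m : ℕ) : ℝ) ^ u⌋₊ (2 ^ m) (by omega) h2m
    have g2 := hA' ⌊((2 ^ m : ℕ) : ℝ) ^ u⌋₊ (2 ^ m) (by omega) h2m
    rw [Real.dist_eq, sub_zero]
    rw [abs_le] at g1 g2
    rw [abs_lt]
    constructor <;> linarith [g1.1, g1.2, g2.1, g2.2]
  have := tendsto_nhds_unique h1 h2
  linarith

/-- the exact variance in intervals with the function `j` -/
theorem exact_var_j (hEC : S_EC) (hG2 : S_G2) (hJ6 : S_J6) (j : ℝ → ℝ) (hj : JProp j) (ε : ℝ) (hε : 0 < ε) :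
    ∃ A : ℕ, ∀ y b Z Y : ℕ, A ≤ y → A ≤ b →
    (y : ℝ) ^ (A * (Real.log b + Real.log (Real.log y))) ≤ Y →
    |msq y b Z Y (b * V (pr y)) / (6 * b / Real.pi ^ 2) - (1 - Gd (pr y) b)| ≤ ε ∧
    |msq y b Z Y (b * V (pr y)) / (6 * b / Real.pi ^ 2) - (1 - j (Real.log b / Real.log y))| ≤ ε := by
  obtain ⟨A1, hA1⟩ := exact_var hEC hG2 (ε / 2) (by positivity)
  obtain ⟨A2, hA2⟩ := (hJ6 j hj).2.2.2 (ε / 2) (by positivity)
  refine ⟨A1 + A2 + 3, ?_⟩
  intro y b Z Y hy hb hY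
  have hy3' : (3 : ℝ) ≤ y := by exact_mod_cast (by omega : 3 ≤ y)
  have hly1 : 1 ≤ Real.log y := by
    rw [← Real.log_exp 1]
    apply Real.log_le_log (Real.exp_pos _)
    linarith [Real.exp_one_lt_d9]
  have hlly : 0 ≤ Real.log (Real.log y) := Real.log_nonneg hly1
  have hlb : 0 ≤ Real.log b := Real.log_natCast_nonneg b
  have hY1 : (y : ℝ) ^ (A1 * (Real.log b + Real.log (Real.log y))) ≤ Y := by
    refine le_trans ?_ hY
    apply Real.rpow_le_rpow_of_exponent_le (by linarith)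
    apply mul_le_mul_of_nonneg_right _ (by linarith)
    exact_mod_cast (by omega : A1 ≤ A1 + A2 + 3)
  have g1 := hA1 y b Z Y (by omega) (by omega) hY1
  have g2 := hA2 b y (by omega) (by omega)
  refine ⟨by linarith, ?_⟩
  rw [abs_le] at g1 g2 ⊢
  constructor <;> linarith [g1.1, g1.2, g2.1, g2.2]

end Pool.Agent.H19.TM
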