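import Pool.Agent.H19.TM.Main
import Pool.Agent.H19.TM.Cf

/-!
# Project TM: the final statements
-/

set_option autoImplicit false

namespace Pool.Agent.H19.TM

open Finset Pool.Agent.Y862.GM Filter Topology

theorem main_of (h1 : S_RAD1) (h2 : S_RAD2) (h3 : S_RAD3) (hCMP : S_CMP)
    (hMI : S_MI) (hTUP : S_TUP) (hVV : S_VV) (hSQ : S_SQ) : S_MAIN := by
  classical
  intro k ε hε
  rcases Nat.eq_zero_or_pos k with hk | hk
  · subst hk
    refine ⟨3, fun y b Z Y hb hl hY t => ?_⟩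
    have hbe : Real.exp 1 ≤ b := by
      have : (3 : ℝ) ≤ b := by exact_mod_cast hb
      linarith [Real.exp_one_lt_d9]
    have hlb : 1 ≤ Real.log b := by
      rw [← Real.log_exp 1]
      exact Real.log_le_log (Real.exp_pos _) hbe
    have hly : 1 ≤ Real.log y := (one_le_pow₀ hlb).trans hl
    have hy0 : (0 : ℝ) < y := by
      rcases Nat.eq_zero_or_pos y with h | h
      · rw [h] at hly
        simp at hly
        linarith
      · exact_mod_cast h
    have hYpos : (0 : ℝ) < Y := (Real.rpow_pos_of_pos hy0 _).trans_le hY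
    have : (Ioc Z (Z + Y)).filter (fun x => ∀ i : Fin 0, ∑ n ∈ Ioc (x + i * b) (x + i * b + b), mu y n -
        b * V (pr y) ≤ t i * √(6 * b / Real.pi ^ 2)) = Ioc Z (Z + Y) := by
      apply Finset.filter_true_of_mem
      intro x _ i
      exact i.elim0
    rw [this, Nat.card_Ioc, Nat.add_sub_cancel_left, div_self hYpos.ne']
    simp
    exact hε.le
  · obtain ⟨T, δ, hδ, hlevy⟩ := t_LEVY2 k ε hε
    obtain ⟨A, hA⟩ := char_main h1 h2 h3 t_COS2 hCMP t_CF2 hMI hTUP hVV hSQ k hk (max T 1) δ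
      (le_max_right _ _) hδ
    refine ⟨max A 3, fun y b Z Y hb hl hYy t => ?_⟩
    have hA' : (A : ℕ) ≤ max A 3 := le_max_left _ _
    have hb3 : 3 ≤ b := (le_max_right _ _).trans hb
    have hb1 : 1 ≤ b := by omega
    have hlb1 : 1 ≤ Real.log b := by
      rw [← Real.log_exp 1]
      apply Real.log_le_log (Real.exp_pos _)
      have : (3 : ℝ) ≤ b := by exact_mod_cast hb3
      linarith [Real.exp_one_lt_d9]
    have hl' : Real.log b ^ A ≤ Real.log y := (pow_le_pow_right₀ hlb1 hA').trans hl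
    have hly1 : 1 ≤ Real.log y := (one_le_pow₀ hlb1).trans hl'
    have hy1 : (1 : ℝ) ≤ y := by
      rcases Nat.eq_zero_or_pos y with h | h
      · rw [h] at hly1
        simp at hly1
        linarith
      · exact_mod_cast h
    have hY' : (y : ℝ) ^ (A * (Real.log b + Real.log (Real.log y))) ≤ Y := by
      refine le_trans ?_ hYy
      apply Real.rpow_le_rpow_of_exponent_le hy1
      apply mul_le_mul_of_nonneg_right _ (by
        have := Real.log_nonneg hly1
        linarith)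
      exact_mod_cast hA'
    obtain ⟨hY, hch⟩ := hA y b Z Y (by omega) hl' hY'
    have hne : (Ioc Z (Z + Y)).Nonempty := ⟨Z + 1, by rw [mem_Ioc]; omega⟩
    have hσ := (sigma_facts b hb1).1
    have h5 := hlevy (Ioc Z (Z + Y)) hne (fun x i =>
      (∑ n ∈ Ioc (x + i * b) (x + i * b + b), mu y n - b * V (pr y)) / √(6 * b / Real.pi ^ 2))
      (fun w hw => hch w (fun i => (hw i).trans (le_max_left _ _))) t
    have hcard : ((Ioc Z (Z + Y)).card : ℝ) = Y := by
      rw [Nat.card_Ioc]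
      congr 1
      omega
    rw [hcard] at h5
    have hfil : (Ioc Z (Z + Y)).filter (fun x => ∀ i : Fin k,
        ∑ n ∈ Ioc (x + i * b) (x + i * b + b), mu y n - b * V (pr y) ≤ t i * √(6 * b / Real.pi ^ 2)) =
        (Ioc Z (Z + Y)).filter (fun x => ∀ i : Fin k,
        (∑ n ∈ Ioc (x + i * b) (x + i * b + b), mu y n - b * V (pr y)) / √(6 * b / Real.pi ^ 2) ≤ t i) := by
      apply Finset.filter_congr
      intro x _
      apply forall_congr'
      intro i
      rw [div_le_iff₀ hσ]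
    rw [hfil]
    convert h5 using 4

/-- large numbers -/
lemma log_pow_small (n : ℕ) (c : ℝ) (hc : 0 ≤ c) : ∃ X : ℝ, 3 ≤ X ∧ ∀ u : ℝ, X ≤ u → (c * Real.log u) ^ n ≤ u := by
  have h := Real.isLittleO_pow_log_id_atTop (n := n)
  rw [Asymptotics.isLittleO_iff] at h
  have h2 := h (c := 1 / (c + 1) ^ n) (by positivity)
  rw [eventually_atTop] at h2
  obtain ⟨X, hX⟩ := h2
  refine ⟨max X 3, le_max_right _ _, fun u hu => ?_⟩
  have h3 := hX u ((le_max_left _ _).trans hu)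
  have hu3 : 3 ≤ u := (le_max_right _ _).trans hu
  have hl0 : 0 ≤ Real.log u := Real.log_nonneg (by linarith)
  rw [Real.norm_eq_abs, Real.norm_eq_abs, abs_of_nonneg (by positivity)] at h3
  simp only [id] at h3
  rw [abs_of_nonneg (by linarith)] at h3
  rw [mul_pow]
  calc c ^ n * Real.log u ^ n ≤ (c + 1) ^ n * Real.log u ^ n := by
        apply mul_le_mul_of_nonneg_right _ (by positivity)
        exact pow_le_pow_left₀ hc (by linarith) n
    _ ≤ (c + 1) ^ n * (1 / (c + 1) ^ n * u) := by gcongr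
    _ = u := by field_simp

open Classical in
/-- the proportion of the `x` in `(Z, Z + Y]` for which the sums of `mu y n - c` over the `k` adjacent windows of
length `b` after `x` are at most `s i` -/
noncomputable def law {k : ℕ} (y b Z Y : ℕ) (c : ℝ) (s : Fin k → ℝ) : ℝ :=
  (((Ioc Z (Z + Y)).filter (fun x => ∀ i : Fin k,
    ∑ n ∈ Ioc (x + i * b) (x + i * b + b), mu y n - c ≤ s i)).card : ℝ) / Y

lemma main_law (hMAIN : S_MAIN) (k : ℕ) (ε : ℝ) (hε : 0 < ε) : ∃ A : ℕ, ∀ y b Z Y : ℕ, A ≤ b →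
    Real.log b ^ A ≤ Real.log y → (y : ℝ) ^ (A * (Real.log b + Real.log (Real.log y))) ≤ Y →
    ∀ t : Fin k → ℝ, |law y b Z Y (b * V (pr y)) (fun i => t i * √(6 * b / Real.pi ^ 2)) -
      ∏ i, Ph (t i)| ≤ ε := by
  obtain ⟨A, hA⟩ := hMAIN k ε hε
  refine ⟨A, fun y b Z Y h1 h2 h3 t => ?_⟩
  have := hA y b Z Y h1 h2 h3 t
  unfold law Ph
  convert this using 4

lemma law_shift {k : ℕ} (y b Z Y : ℕ) (c : ℝ) (s : Fin k → ℝ) :
    law y b Z Y 0 s = law y b Z Y c (fun i => s i - c) := by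
  unfold law
  congr 2
  congr 1
  apply filter_congr
  intro x _
  apply forall_congr'
  intro i
  constructor <;> intro h <;> linarith

/-- consequences of `b ≤ (log y) ^ n` -/
lemma poly_range (A n : ℕ) (hn : 1 ≤ n) : ∃ A' : ℕ, A ≤ A' ∧ 3 ≤ A' ∧ ∀ y b Y : ℕ, A' ≤ b → (b : ℝ) ≤ Real.log y ^ n →
    (y : ℝ) ^ (A' * Real.log (Real.log y)) ≤ Y →
    A ≤ b ∧ Real.log b ^ A ≤ Real.log y ∧ (y : ℝ) ^ (A * (Real.log b + Real.log (Real.log y))) ≤ Y := by
  obtain ⟨X, hX3, hX⟩ := log_pow_small A n (Nat.cast_nonneg n)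
  obtain ⟨N, hN⟩ := exists_nat_ge (X ^ n)
  refine ⟨A * (n + 1) + N + 3, by nlinarith [Nat.zero_le A], by omega, ?_⟩
  intro y b Y hb hby hY
  have hAb : A ≤ b := by nlinarith [Nat.zero_le A, Nat.zero_le n]
  have hb3 : (3 : ℝ) ≤ b := by exact_mod_cast (by omega : 3 ≤ b)
  have hly0 : 0 ≤ Real.log y := Real.log_natCast_nonneg y
  have hlyX : X ≤ Real.log y := by
    have h1 : X ^ n ≤ Real.log y ^ n := by
      refine hN.trans (le_trans ?_ hby)
      exact_mod_cast (by omega : N ≤ b)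
    exact (pow_le_pow_iff_left₀ (by linarith) hly0 (by omega)).1 h1
  have hly3 : 3 ≤ Real.log y := hX3.trans hlyX
  have hlly : 0 ≤ Real.log (Real.log y) := Real.log_nonneg (by linarith)
  have hlb : Real.log b ≤ n * Real.log (Real.log y) := by
    rw [← Real.log_pow]
    exact Real.log_le_log (by linarith) hby
  have hlb0 : 0 ≤ Real.log b := Real.log_natCast_nonneg b
  have hy1 : (1 : ℝ) ≤ y := by
    rcases Nat.eq_zero_or_pos y with h | h
    · rw [h] at hly3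
      simp at hly3
      linarith
    · exact_mod_cast h
  refine ⟨hAb, ?_, ?_⟩
  · calc Real.log b ^ A ≤ (n * Real.log (Real.log y)) ^ A := pow_le_pow_left₀ hlb0 hlb A
      _ ≤ Real.log y := hX _ hlyX
  · refine le_trans ?_ hY
    apply Real.rpow_le_rpow_of_exponent_le hy1
    push_cast
    have h2 : (A : ℝ) * (Real.log b + Real.log (Real.log y)) ≤ A * ((n + 1) * Real.log (Real.log y)) := by
      apply mul_le_mul_of_nonneg_left _ (Nat.cast_nonneg _)
      linarith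
    have h3 : (0 : ℝ) ≤ (N + 3) * Real.log (Real.log y) := by positivity
    nlinarith

lemma Ph_shift (t u : ℝ) (hu : 0 ≤ u) : |Ph (t - u) - Ph t| ≤ u := by
  have h1 := Ph_mono (by linarith : t - u ≤ t)
  have h2 := Ph_lip (by linarith : t - u ≤ t)
  rw [abs_sub_comm, abs_of_nonneg (by linarith)]
  linarith

/-- below the threshold -/
theorem below (hMAIN : S_MAIN) (hVV : S_VV) (k : ℕ) (ε : ℝ) (hε : 0 < ε) : ∃ (A : ℕ) (κ : ℝ), 0 < κ ∧
    ∀ y b Z Y : ℕ, A ≤ b → (b : ℝ) ≤ κ * Real.log y ^ 4 →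
    (y : ℝ) ^ (A * Real.log (Real.log y)) ≤ Y → ∀ t : Fin k → ℝ,
    |law y b Z Y 0 (fun i => t i * √(6 * b / Real.pi ^ 2)) - ∏ i, Ph (t i)| ≤ ε := by
  obtain ⟨A0, hA0⟩ := main_law hMAIN k (ε / 2) (by positivity)
  obtain ⟨c, C, hc, hC, hV⟩ := hVV
  obtain ⟨A, hAA0, hA3, hA⟩ := poly_range A0 4 (by norm_num)
  obtain ⟨κ, hκ⟩ : ∃ κ : ℝ, κ = min 1 ((ε / (4 * C * (k + 1))) ^ 2) := ⟨_, rfl⟩
  have hκ0 : 0 < κ := by rw [hκ]; positivity
  refine ⟨A, κ, hκ0, ?_⟩
  intro y b Z Y hb hbκ hY t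
  have hly0 : 0 ≤ Real.log y := Real.log_natCast_nonneg y
  have hb4 : (b : ℝ) ≤ Real.log y ^ 4 := by
    refine hbκ.trans (mul_le_of_le_one_left (by positivity) ?_)
    rw [hκ]
    exact min_le_left _ _
  obtain ⟨g1, g2, g3⟩ := hA y b Y hb hb4 hY
  have hb3 : 3 ≤ b := by omega
  have hb3' : (3 : ℝ) ≤ b := by exact_mod_cast hb3
  have hlypos : 0 < Real.log y := by
    rcases hly0.lt_or_eq with h | h
    · exact h
    · rw [← h] at hb4
      norm_num at hb4
      linarith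
  have hy3 : 3 ≤ y := by
    by_contra hcon
    have hy2 : (y : ℝ) ≤ 2 := by exact_mod_cast (by omega : y ≤ 2)
    have hly1 : Real.log y ≤ 1 := by
      rcases Nat.eq_zero_or_pos y with h | h
      · rw [h]; simp
      · have h0 : (0 : ℝ) < y := by exact_mod_cast h
        have := Real.log_le_sub_one_of_pos h0
        linarith
    have : Real.log y ^ 4 ≤ 1 := pow_le_one₀ hly0 hly1
    linarith
  have hVy := (hV y hy3).2
  have hV0 := V_pos (pr y) (pr_prime y)
  obtain ⟨hσ0, hσ2, hσsq⟩ := sigma_facts b (by omega)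
  obtain ⟨σ, hσ⟩ : ∃ σ, σ = √(6 * b / Real.pi ^ 2) := ⟨_, rfl⟩
  rw [← hσ] at hσ0 hσ2 hσsq
  obtain ⟨u, hu⟩ : ∃ u : ℝ, u = b * V (pr y) / σ := ⟨_, rfl⟩
  have hu0 : 0 ≤ u := by rw [hu]; positivity
  have hule : u ≤ ε / (2 * (k + 1)) := by
    have hpi : Real.pi ^ 2 ≤ 12 := by
      have := Real.pi_lt_d2
      have := Real.pi_pos
      nlinarith
    have h6 : (b : ℝ) ^ 2 / σ ^ 2 ≤ 2 * b := by
      rw [hσsq]
      have hb0 : (b : ℝ) ≠ 0 := by linarith
      rw [div_le_iff₀ (by positivity)]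
      have : 2 * b * (6 * b / Real.pi ^ 2) = b ^ 2 * (12 / Real.pi ^ 2) := by
        field_simp
        ring
      rw [this]
      have h7 : 1 ≤ 12 / Real.pi ^ 2 := by
        rw [one_le_div (by positivity)]
        exact hpi
      nlinarith [sq_nonneg (b : ℝ)]
    have h7 : u ^ 2 ≤ (ε / (2 * (k + 1))) ^ 2 := by
      calc u ^ 2 = b ^ 2 / σ ^ 2 * V (pr y) ^ 2 := by rw [hu]; ring
        _ ≤ 2 * b * (C / Real.log y ^ 2) ^ 2 := by gcongr
        _ ≤ 2 * (κ * Real.log y ^ 4) * (C / Real.log y ^ 2) ^ 2 := by gcongr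
        _ = 2 * C ^ 2 * κ := by
            field_simp
        _ ≤ 2 * C ^ 2 * (ε / (4 * C * (k + 1))) ^ 2 := by
            gcongr
            rw [hκ]
            exact min_le_right _ _
        _ = (ε / (2 * (k + 1))) ^ 2 / 2 := by
            field_simp
            ring
        _ ≤ (ε / (2 * (k + 1))) ^ 2 := by
            have : 0 ≤ (ε / (2 * (k + 1))) ^ 2 := sq_nonneg _
            linarith
    exact (sq_le_sq₀ hu0 (by positivity)).1 h7
  have hm := hA0 y b Z Y g1 g2 g3 (fun i => t i - u)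
  rw [← hσ] at hm ⊢
  rw [law_shift y b Z Y (b * V (pr y))]
  have e1 : (fun i : Fin k => t i * σ - b * V (pr y)) = fun i => (t i - u) * σ := by
    funext i
    rw [hu]
    field_simp
  rw [e1]
  have hp : |∏ i, Ph (t i - u) - ∏ i, Ph (t i)| ≤ ε / 2 := by
    refine (prod_close _ _ (fun _ => ⟨Ph_nonneg _, Ph_le_one _⟩)
      (fun _ => ⟨Ph_nonneg _, Ph_le_one _⟩)).trans ?_
    calc _ ≤ ∑ _i : Fin k, ε / (2 * (k + 1)) := sum_le_sum fun i _ => (Ph_shift _ _ hu0).trans hule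
      _ = k * (ε / (2 * (k + 1))) := by rw [sum_const, card_univ, Fintype.card_fin, nsmul_eq_mul]
      _ ≤ ε / 2 := by
          have hk0 : (0 : ℝ) ≤ k := Nat.cast_nonneg _
          rw [mul_div_assoc', div_le_div_iff₀ (by positivity) (by norm_num)]
          nlinarith
  have := abs_add_le (law y b Z Y (b * V (pr y)) (fun i => (t i - u) * σ) - ∏ i, Ph (t i - u))
    (∏ i, Ph (t i - u) - ∏ i, Ph (t i))
  have e2 : law y b Z Y (b * V (pr y)) (fun i => (t i - u) * σ) - ∏ i, Ph (t i) =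
    law y b Z Y (b * V (pr y)) (fun i => (t i - u) * σ) - ∏ i, Ph (t i - u) +
    (∏ i, Ph (t i - u) - ∏ i, Ph (t i)) := by ring
  rw [e2]
  linarith

lemma law_mono {k : ℕ} (y b Z Y : ℕ) (c : ℝ) {s s' : Fin k → ℝ} (h : ∀ i, s i ≤ s' i) :
    law y b Z Y c s ≤ law y b Z Y c s' := by
  classical
  unfold law
  apply div_le_div_of_nonneg_right _ (Nat.cast_nonneg _)
  have h1 : (Ioc Z (Z + Y)).filter (fun x => ∀ i : Fin k,
      ∑ n ∈ Ioc (x + i * b) (x + i * b + b), mu y n - c ≤ s i) ⊆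
      (Ioc Z (Z + Y)).filter (fun x => ∀ i : Fin k,
      ∑ n ∈ Ioc (x + i * b) (x + i * b + b), mu y n - c ≤ s' i) := by
    intro x hx
    rw [mem_filter] at hx ⊢
    exact ⟨hx.1, fun i => (hx.2 i).trans (h i)⟩
  exact_mod_cast card_le_card h1

/-- above the threshold -/
theorem above (hMAIN : S_MAIN) (hMI : S_MI) (hVV : S_VV) (R ε : ℝ) (hε : 0 < ε) : ∃ A : ℕ,
    ∀ y b Z Y : ℕ, A ≤ y → (A : ℝ) * Real.log y ^ 4 ≤ b → (y : ℝ) ^ (A * Real.log (Real.log y)) ≤ Y →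
    law y b Z Y 0 (fun _ : Fin 1 => R * √b) ≤ ε := by
  classical
  obtain ⟨c, C, hc, hC, hV⟩ := hVV
  obtain ⟨A0, hA0⟩ := main_law hMAIN 1 (ε / 2) (by positivity)
  obtain ⟨C1, A1, hMI1⟩ := hMI 1
  obtain ⟨n, hn⟩ : ∃ n : ℕ, n = C1 + 6 := ⟨_, rfl⟩
  obtain ⟨A2, hA2A0, hA23, hA2⟩ := poly_range A0 n (by omega)
  obtain ⟨ρ, hρ0, hρ⟩ : ∃ ρ : ℝ, 0 ≤ ρ ∧ Ph (-ρ) ≤ ε / 2 := by
    have t2 : ∀ᶠ s : ℝ in atTop, Ph (-s) < ε / 2 :=
      (Ph_tendsto_bot.comp tendsto_neg_atTop_atBot).eventually (gt_mem_nhds (by positivity))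
    obtain ⟨ρ, h1, h2⟩ := (t2.and (eventually_ge_atTop 0)).exists
    exact ⟨ρ, h2, h1.le⟩
  obtain ⟨Q, hQ⟩ : ∃ Q : ℝ, Q = ((2 * |R| + ρ) / c) ^ 2 := ⟨_, rfl⟩
  obtain ⟨N1, hN1⟩ := exists_nat_ge Q
  obtain ⟨W, hW⟩ : ∃ W : ℝ, W = 1 + (4 * C1 + 16) / (c ^ 2 * ε) := ⟨_, rfl⟩
  obtain ⟨N2, hN2⟩ := exists_nat_ge (Real.exp W)
  refine ⟨A2 + N1 + N2 + 6 * A1 + 3, ?_⟩
  intro y b Z Y hy hb hY
  obtain ⟨A, hA⟩ : ∃ A : ℕ, A = A2 + N1 + N2 + 6 * A1 + 3 := ⟨_, rfl⟩
  rw [← hA] at hy hb hY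
  have hy3 : 3 ≤ y := by omega
  have hyR : (A : ℝ) ≤ y := by exact_mod_cast hy
  have hlyW : W ≤ Real.log y := by
    rw [← Real.log_exp W]
    apply Real.log_le_log (Real.exp_pos _)
    refine hN2.trans (le_trans ?_ hyR)
    exact_mod_cast (by omega : N2 ≤ A)
  have hW1 : 1 ≤ W := by
    rw [hW]
    have : 0 ≤ (4 * (C1 : ℝ) + 16) / (c ^ 2 * ε) := by positivity
    linarith
  obtain ⟨ly, hly⟩ : ∃ ly : ℝ, ly = Real.log y := ⟨_, rfl⟩
  rw [← hly] at hlyW hb hY
  have hly1 : 1 ≤ ly := by linarith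
  have hly0 : 0 < ly := by linarith
  have hlly : 0 ≤ Real.log ly := Real.log_nonneg hly1
  have hy1 : (1 : ℝ) ≤ y := by exact_mod_cast (by omega : 1 ≤ y)
  have hy0 : (0 : ℝ) < y := by linarith
  have hYpos : (0 : ℝ) < Y := (Real.rpow_pos_of_pos hy0 _).trans_le hY
  have hApos : (1 : ℝ) ≤ A := by exact_mod_cast (by omega : 1 ≤ A)
  have hbA : (A : ℝ) ≤ b := by
    have : (1 : ℝ) ≤ ly ^ 4 := one_le_pow₀ hly1
    nlinarith
  have hbAn : A ≤ b := by exact_mod_cast hbA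
  have hb1 : 1 ≤ b := by omega
  have hb0' : (0 : ℝ) < b := by linarith
  have hVl := (hV y hy3).1
  rw [← hly] at hVl
  have hV0 := V_pos (pr y) (pr_prime y)
  -- the size of the mean
  have hsb : 0 < √(b : ℝ) := Real.sqrt_pos.2 hb0'
  have hsbsq : √(b : ℝ) ^ 2 = b := Real.sq_sqrt hb0'.le
  have hmean : 2 * |R| + ρ ≤ √b * V (pr y) := by
    have h1 : (2 * |R| + ρ) / c * ly ^ 2 ≤ √b := by
      apply Real.le_sqrt_of_sq_le
      rw [mul_pow, ← hQ]
      calc Q * (ly ^ 2) ^ 2 = Q * ly ^ 4 := by ring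
        _ ≤ A * ly ^ 4 := by
            apply mul_le_mul_of_nonneg_right _ (by positivity)
            refine hN1.trans ?_
            exact_mod_cast (by omega : N1 ≤ A)
        _ ≤ b := hb
    calc 2 * |R| + ρ = (2 * |R| + ρ) / c * ly ^ 2 * (c / ly ^ 2) := by field_simp
      _ ≤ √b * V (pr y) := mul_le_mul h1 hVl (by positivity) hsb.le
  have hmean2 : (2 * |R| + ρ) * √b ≤ b * V (pr y) := by
    calc (2 * |R| + ρ) * √b ≤ √b * V (pr y) * √b := mul_le_mul_of_nonneg_right hmean hsb.le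
      _ = √b ^ 2 * V (pr y) := by ring
      _ = b * V (pr y) := by rw [hsbsq]
  have hR := le_abs_self R
  have hRa := abs_nonneg R
  rcases le_total (b : ℝ) (ly ^ n) with hcase | hcase
  · -- powers of log y: the Gaussian law
    have hY2 : (y : ℝ) ^ (A2 * Real.log (Real.log y)) ≤ Y := by
      refine le_trans ?_ hY
      rw [← hly]
      apply Real.rpow_le_rpow_of_exponent_le hy1
      apply mul_le_mul_of_nonneg_right _ hlly
      exact_mod_cast (by omega : A2 ≤ A)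
    obtain ⟨g1, g2, g3⟩ := hA2 y b Y (by omega) (by rw [← hly]; exact hcase) hY2
    have hm := hA0 y b Z Y g1 g2 g3 (fun _ => -ρ)
    obtain ⟨hσ0, hσ2, hσsq⟩ := sigma_facts b hb1
    obtain ⟨σ, hσ⟩ : ∃ σ, σ = √(6 * b / Real.pi ^ 2) := ⟨_, rfl⟩
    rw [← hσ] at hσ0 hσ2 hσsq hm
    have hσb : σ ≤ √b := by
      rw [hσ]
      apply Real.sqrt_le_sqrt
      rw [div_le_iff₀ (by positivity)]
      have h7 : (9 : ℝ) ≤ Real.pi ^ 2 := by
        have := Real.pi_gt_three
        nlinarith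
      nlinarith
    have h1 : law y b Z Y 0 (fun _ : Fin 1 => R * √b) ≤
        law y b Z Y (b * V (pr y)) (fun _ : Fin 1 => -ρ * σ) := by
      rw [law_shift y b Z Y (b * V (pr y))]
      apply law_mono
      intro i
      have h2 : ρ * σ ≤ ρ * √b := mul_le_mul_of_nonneg_left hσb hρ0
      nlinarith [mul_le_mul_of_nonneg_right hR hsb.le, mul_nonneg hRa hsb.le]
    have h3 := (abs_le.1 hm).2
    simp only [univ_unique, prod_const, card_singleton, pow_one] at h3
    linarith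
  · -- long windows: the variance
    obtain ⟨lam, hlam⟩ : ∃ lam : ℝ, lam = 6 * Real.log ly := ⟨_, rfl⟩
    have helam : Real.exp (-lam) = 1 / ly ^ 6 := by
      rw [hlam, Real.exp_neg, one_div]
      congr 1
      have : (6 : ℝ) * Real.log ly = ((6 : ℕ) : ℝ) * Real.log ly := by norm_num
      rw [this, Real.exp_nat_mul, Real.exp_log hly0]
    have hmi := hMI1 y y (by omega) hy3 le_rfl lam (by rw [← hly, hlam]; linarith) Z Y (by
      refine le_trans ?_ hY
      apply Real.rpow_le_rpow_of_exponent_le hy1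
      rw [hlam, ← mul_assoc]
      apply mul_le_mul_of_nonneg_right _ hlly
      have : ((A1 * 6 : ℕ) : ℝ) ≤ A := by exact_mod_cast (by omega : A1 * 6 ≤ A)
      push_cast at this
      exact this) 0 b hb1
    rw [div_le_iff₀ hYpos, helam, ← hly] at hmi
    simp only [zero_add, mul_one, pow_one] at hmi
    obtain ⟨F, hF⟩ : ∃ F, F = (Ioc Z (Z + Y)).filter (fun x => ∀ i : Fin 1,
      ∑ n ∈ Ioc (x + i * b) (x + i * b + b), mu y n - 0 ≤ R * √b) := ⟨_, rfl⟩
    have hcheb : (F.card : ℝ) * (b * V (pr y) / 2) ^ 2 ≤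
        ∑ x ∈ Ioc Z (Z + Y), (∑ h ∈ Ioc 0 b, mu y (x + h) - b * V (pr y)) ^ 2 := by
      calc (F.card : ℝ) * (b * V (pr y) / 2) ^ 2 = ∑ _x ∈ F, (b * V (pr y) / 2) ^ 2 := by
            rw [sum_const, nsmul_eq_mul]
        _ ≤ ∑ x ∈ F, (∑ h ∈ Ioc 0 b, mu y (x + h) - b * V (pr y)) ^ 2 := by
            apply sum_le_sum
            intro x hx
            rw [hF, mem_filter] at hx
            have h1 := hx.2 0
            simp only [Fin.val_zero, zero_mul, add_zero, sub_zero] at h1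
            have h2 : ∑ h ∈ Ioc 0 b, mu y (x + h) = ∑ n ∈ Ioc x (x + b), mu y n := by
              have := sum_shift x 0 b (mu y)
              simpa using this
            rw [h2]
            have h3 : b * V (pr y) / 2 ≤ b * V (pr y) - ∑ n ∈ Ioc x (x + b), mu y n := by
              have h4 : 0 ≤ ρ * √b := by positivity
              nlinarith [mul_le_mul_of_nonneg_right hR hsb.le, mul_nonneg hRa hsb.le]
            have h5 : 0 ≤ b * V (pr y) / 2 := by positivity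
            nlinarith
        _ ≤ _ := by
            apply sum_le_sum_of_subset_of_nonneg
            · rw [hF]; exact filter_subset _ _
            · intro x _ _
              exact sq_nonneg _
    have hlaw : law y b Z Y 0 (fun _ : Fin 1 => R * √b) = F.card / Y := by
      rw [hF]
      rfl
    rw [hlaw, div_le_iff₀ hYpos]
    have hVsq : c ^ 2 / ly ^ 4 ≤ V (pr y) ^ 2 := by
      calc c ^ 2 / ly ^ 4 = (c / ly ^ 2) ^ 2 := by ring
        _ ≤ V (pr y) ^ 2 := pow_le_pow_left₀ (by positivity) hVl 2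
    have hbly : ly ^ (C1 + 6) ≤ b := by rw [← hn]; exact hcase
    -- the final inequality
    have h10 : (F.card : ℝ) * (b ^ 2 * (c ^ 2 / ly ^ 4) / 4) ≤
        (C1 * ly ^ C1 * b + (2 * b) ^ 2 * (1 / ly ^ 6)) * Y := by
      calc (F.card : ℝ) * (b ^ 2 * (c ^ 2 / ly ^ 4) / 4) ≤ F.card * (b ^ 2 * V (pr y) ^ 2 / 4) := by
            gcongr
        _ = F.card * (b * V (pr y) / 2) ^ 2 := by ring
        _ ≤ _ := hcheb.trans hmi
    have h11 : (C1 * ly ^ C1 * b + (2 * b) ^ 2 * (1 / ly ^ 6)) * Y ≤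
        ((C1 + 4) / ly ^ 5) * b ^ 2 * Y := by
      apply mul_le_mul_of_nonneg_right _ hYpos.le
      have h12 : C1 * ly ^ C1 * b ≤ C1 / ly ^ 6 * (b : ℝ) ^ 2 := by
        rw [div_mul_eq_mul_div, le_div_iff₀ (by positivity)]
        calc C1 * ly ^ C1 * b * ly ^ 6 = C1 * (b * ly ^ (C1 + 6)) := by ring
          _ ≤ C1 * (b * b) := by gcongr
          _ = C1 * (b : ℝ) ^ 2 := by ring
      have h13 : 1 / ly ^ 6 ≤ 1 / ly ^ 5 :=
        one_div_le_one_div_of_le (by positivity) (pow_le_pow_right₀ hly1 (by norm_num))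
      calc C1 * ly ^ C1 * b + (2 * b) ^ 2 * (1 / ly ^ 6) ≤
            C1 / ly ^ 6 * (b : ℝ) ^ 2 + (2 * b) ^ 2 * (1 / ly ^ 6) := by gcongr
        _ = (C1 + 4) * (1 / ly ^ 6) * b ^ 2 := by ring
        _ ≤ (C1 + 4) * (1 / ly ^ 5) * b ^ 2 := by gcongr
        _ = _ := by ring
    have h14 : (F.card : ℝ) * c ^ 2 * ly ≤ 4 * (C1 + 4) * Y := by
      have h15 := h10.trans h11
      have h16 : (F.card : ℝ) * (b ^ 2 * (c ^ 2 / ly ^ 4) / 4) =
          ((F.card : ℝ) * c ^ 2 * ly) * (b ^ 2 / (4 * ly ^ 5)) := by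
        field_simp
      have h17 : ((C1 + 4) / ly ^ 5) * b ^ 2 * (Y : ℝ) = (4 * (C1 + 4) * Y) * (b ^ 2 / (4 * ly ^ 5)) := by
        field_simp
      rw [h16, h17] at h15
      exact le_of_mul_le_mul_right h15 (by positivity)
    have h18 : (4 * C1 + 16) / (c ^ 2 * ε) ≤ ly := by
      refine le_trans ?_ hlyW
      rw [hW]
      linarith
    rw [div_le_iff₀ (by positivity)] at h18
    have h19 : (F.card : ℝ) * (c ^ 2 * ly) ≤ ε * Y * (c ^ 2 * ly) := by
      calc (F.card : ℝ) * (c ^ 2 * ly) = F.card * c ^ 2 * ly := by ring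
        _ ≤ 4 * ((C1 : ℝ) + 4) * (Y : ℝ) := h14
        _ = (4 * (C1 : ℝ) + 16) * (Y : ℝ) := by ring
        _ ≤ (ly * (c ^ 2 * ε)) * Y := mul_le_mul_of_nonneg_right h18 hYpos.le
        _ = _ := by ring
    exact le_of_mul_le_mul_right h19 (by positivity)

end Pool.Agent.H19.TM
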