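import Pool.Agent.H19.TM.Stm2
import Pool.Agent.H23.TM.Tup
import Pool.Agent.H52.TM.Mi
import Pool.Graph.R_pool_sql_team_seeded_1acbe0a2.Y340.GM.Sign

/-!
# Project TM2: mixed tuples (modules CMP2, TUP2) and the second moment in an interval (module MI1)
-/

set_option autoImplicit false

namespace Pool.Agent.H19.TM

open Finset Pool.Agent.Y862.GM

/-- an enumeration of the subset `I` -/
noncomputable def en {K : ℕ} (I : Finset (Fin K)) : Fin I.card ≃ I := I.equivFin.symm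

lemma prod_en {K : ℕ} (I : Finset (Fin K)) (F : Fin K → ℝ) :
    ∏ i : Fin I.card, F (en I i) = ∏ l ∈ I, F l := by
  rw [← Finset.prod_coe_sort I F]
  exact Equiv.prod_comp (en I) (fun l : I => F l)

lemma card_en {K : ℕ} (I : Finset (Fin K)) (g : Fin K → ℕ) (v : ℕ) :
    (univ.filter (fun i : Fin I.card => g (en I i) = v)).card = (I.filter (fun i => g i = v)).card := by
  rw [Finset.card_filter, Finset.card_filter, ← Finset.sum_coe_sort I (fun l => if g l = v then 1 else 0)]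
  exact Equiv.sum_comp (en I) (fun l : I => if g l = v then 1 else 0)

lemma odd_en {K : ℕ} (I : Finset (Fin K)) (g : Fin K → ℕ) :
    odd (fun i : Fin I.card => g (en I i)) = oddI g I := by
  ext v
  unfold odd oddI
  rw [mem_filter, mem_filter, card_en]
  constructor
  · rintro ⟨h1, h2⟩
    refine ⟨?_, h2⟩
    obtain ⟨i, _, hi⟩ := mem_image.1 h1
    exact mem_image.2 ⟨_, mem_univ _, hi⟩
  · rintro ⟨_, h2⟩
    refine ⟨?_, h2⟩
    have h3 := card_en I g v
    have h4 : (univ.filter (fun i : Fin I.card => g (en I i) = v)).Nonempty := by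
      rw [← Finset.card_pos, h3]
      exact h2.pos
    obtain ⟨i, hi⟩ := h4
    exact mem_image.2 ⟨i, mem_univ _, (mem_filter.1 hi).2⟩

/-- the correlations of the random signs on a subset -/
lemma rad1I (hR : S_RAD1) (d : ℝ) (L K : ℕ) (g : Fin K → ℕ) (hg : ∀ i, g i ∈ Ioc 0 L) (I : Finset (Fin K)) :
    ∑ U ∈ (Ioc 0 L).powerset, pw d L U * ∏ i ∈ I, sg U (g i) = d ^ (oddI g I).card := by
  rw [← odd_en, ← hR d L I.card (fun i => g (en I i)) (fun i => hg _)]
  refine Finset.sum_congr rfl fun U _ => ?_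
  rw [prod_en I (fun l => sg U (g l))]

/-- **CMP2** -/
theorem t_CMP2 (hR : S_RAD1) : S_CMP2 := by
  intro Om L j f₁ f₂ v d C η hv hη hd0 hd1 h
  have hC : 0 ≤ C := (abs_nonneg _).trans (hv 0)
  obtain ⟨G, hG⟩ : ∃ G, G = Fintype.piFinset (fun _ : Fin j => Ioc 0 L) := ⟨_, rfl⟩
  have e1 : ∑ x ∈ Om, (∑ h ∈ Ioc 0 L, v h * (f₁ x h - d * f₂ x h)) ^ j =
      ∑ g ∈ G, (∏ l, v (g l)) * ∑ I ∈ (univ : Finset (Fin j)).powerset, (-d) ^ (Iᶜ).card *
        ∑ x ∈ Om, (∏ l ∈ I, f₁ x (g l)) * ∏ l ∈ Iᶜ, f₂ x (g l) := by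
    have e2 : ∀ x, (∑ h ∈ Ioc 0 L, v h * (f₁ x h - d * f₂ x h)) ^ j =
        ∑ g ∈ G, (∏ l, v (g l)) * ∑ I ∈ (univ : Finset (Fin j)).powerset, (-d) ^ (Iᶜ).card *
          ((∏ l ∈ I, f₁ x (g l)) * ∏ l ∈ Iᶜ, f₂ x (g l)) := by
      intro x
      rw [Pool.Agent.Y340.GM.pow_expand, hG]
      refine Finset.sum_congr rfl fun g _ => ?_
      rw [Finset.prod_mul_distrib]
      congr 1
      have e3 : ∏ l, (f₁ x (g l) - d * f₂ x (g l)) = ∏ l, (f₁ x (g l) + (-d) * f₂ x (g l)) :=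
        Finset.prod_congr rfl fun l _ => by ring
      rw [e3, Finset.prod_add]
      refine Finset.sum_congr rfl fun I _ => ?_
      rw [← Finset.compl_eq_univ_sdiff, Finset.prod_mul_distrib, Finset.prod_const]
      ring
    simp_rw [e2]
    rw [Finset.sum_comm]
    refine Finset.sum_congr rfl fun g _ => ?_
    rw [← Finset.mul_sum]
    congr 1
    rw [Finset.sum_comm]
    refine Finset.sum_congr rfl fun I _ => ?_
    rw [← Finset.mul_sum]
  have e4 : ∑ x ∈ Om, ∑ U ∈ (Ioc 0 L).powerset,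
      pw d L U * (∑ h ∈ Ioc 0 L, v h * f₂ x h * (sg U h - d)) ^ j =
      ∑ g ∈ G, (∏ l, v (g l)) * ∑ I ∈ (univ : Finset (Fin j)).powerset, (-d) ^ (Iᶜ).card *
        (d ^ (oddI g I).card * ∑ x ∈ Om, ∏ l, f₂ x (g l)) := by
    have e5 : ∀ x, ∑ U ∈ (Ioc 0 L).powerset,
        pw d L U * (∑ h ∈ Ioc 0 L, v h * f₂ x h * (sg U h - d)) ^ j =
        ∑ g ∈ G, (∏ l, v (g l)) * ∑ I ∈ (univ : Finset (Fin j)).powerset, (-d) ^ (Iᶜ).card *
          (d ^ (oddI g I).card * ∏ l, f₂ x (g l)) := by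
      intro x
      have e6 : ∀ U ∈ (Ioc 0 L).powerset,
          pw d L U * (∑ h ∈ Ioc 0 L, v h * f₂ x h * (sg U h - d)) ^ j =
          ∑ g ∈ G, (∏ l, v (g l)) * ∑ I ∈ (univ : Finset (Fin j)).powerset, (-d) ^ (Iᶜ).card *
            ((pw d L U * ∏ l ∈ I, sg U (g l)) * ∏ l, f₂ x (g l)) := by
        intro U _
        rw [Pool.Agent.Y340.GM.pow_expand, hG, Finset.mul_sum]
        refine Finset.sum_congr rfl fun g _ => ?_
        rw [Finset.prod_mul_distrib, Finset.prod_mul_distrib]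
        have e3 : ∏ l, (sg U (g l) - d) = ∏ l, (sg U (g l) + (-d)) :=
          Finset.prod_congr rfl fun l _ => by ring
        rw [e3, Finset.prod_add, Finset.mul_sum, Finset.mul_sum, Finset.mul_sum]
        refine Finset.sum_congr rfl fun I _ => ?_
        rw [← Finset.compl_eq_univ_sdiff, Finset.prod_const]
        ring
      rw [Finset.sum_congr rfl e6, Finset.sum_comm]
      refine Finset.sum_congr rfl fun g hg => ?_
      rw [← Finset.mul_sum]
      congr 1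
      rw [Finset.sum_comm]
      refine Finset.sum_congr rfl fun I _ => ?_
      rw [← Finset.mul_sum, ← Finset.sum_mul]
      rw [hG] at hg
      rw [rad1I hR d L j g (fun l => Fintype.mem_piFinset.1 hg l) I]
    simp_rw [e5]
    rw [Finset.sum_comm]
    refine Finset.sum_congr rfl fun g _ => ?_
    rw [← Finset.mul_sum]
    congr 1
    rw [Finset.sum_comm]
    refine Finset.sum_congr rfl fun I _ => ?_
    rw [← Finset.mul_sum, ← Finset.mul_sum]
  rw [e1, e4, ← Finset.sum_sub_distrib]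
  refine (Finset.abs_sum_le_sum_abs _ _).trans ?_
  have key : ∀ g ∈ G, |(∏ l, v (g l)) * (∑ I ∈ (univ : Finset (Fin j)).powerset, (-d) ^ (Iᶜ).card *
        ∑ x ∈ Om, (∏ l ∈ I, f₁ x (g l)) * ∏ l ∈ Iᶜ, f₂ x (g l)) -
      (∏ l, v (g l)) * ∑ I ∈ (univ : Finset (Fin j)).powerset, (-d) ^ (Iᶜ).card *
        (d ^ (oddI g I).card * ∑ x ∈ Om, ∏ l, f₂ x (g l))| ≤ C ^ j * (2 ^ j * η) := by
    intro g hg
    rw [hG] at hg
    have hg' : ∀ l, g l ∈ Ioc 0 L := fun l => Fintype.mem_piFinset.1 hg l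
    rw [← mul_sub, ← Finset.sum_sub_distrib, abs_mul]
    have h1 : |∏ l, v (g l)| ≤ C ^ j := by
      rw [Finset.abs_prod]
      calc ∏ l, |v (g l)| ≤ ∏ _l : Fin j, C :=
            Finset.prod_le_prod (fun l _ => abs_nonneg _) (fun l _ => hv _)
        _ = C ^ j := by simp
    refine mul_le_mul h1 ?_ (abs_nonneg _) (pow_nonneg hC _)
    refine (Finset.abs_sum_le_sum_abs _ _).trans ?_
    calc _ ≤ ∑ _I ∈ (univ : Finset (Fin j)).powerset, η := by
          refine Finset.sum_le_sum fun I _ => ?_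
          rw [← mul_sub, abs_mul, abs_pow, abs_neg, abs_of_nonneg hd0]
          calc d ^ (Iᶜ).card * |∑ x ∈ Om, (∏ l ∈ I, f₁ x (g l)) * ∏ l ∈ Iᶜ, f₂ x (g l) -
                d ^ (oddI g I).card * ∑ x ∈ Om, ∏ l, f₂ x (g l)| ≤ 1 * η :=
                mul_le_mul (pow_le_one₀ hd0 hd1) (h g hg' I) (abs_nonneg _) zero_le_one
            _ = η := one_mul _
      _ = 2 ^ j * η := by
          rw [Finset.sum_const, Finset.card_powerset, card_univ, Fintype.card_fin, nsmul_eq_mul]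
          push_cast
          ring
  refine (Finset.sum_le_sum key).trans (le_of_eq ?_)
  rw [Finset.sum_const, hG, Fintype.card_piFinset]
  simp only [Nat.card_Ioc, Nat.sub_zero, prod_const, card_univ, Fintype.card_fin, nsmul_eq_mul]
  push_cast
  rw [mul_pow, mul_pow]
  ring

/-- **MI1** -/
theorem t_MI1 : S_MI1 := by
  obtain ⟨A, hA⟩ := Pool.Agent.H52.TM.corr_int 2
  refine ⟨A, ?_⟩
  intro y r hy hry lam hlam Z Y hY a b hb
  have hP : ∀ p ∈ pr r, p.Prime := fun p hp => (Pool.Agent.Y71.GM.mem_pr.1 hp).2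
  obtain ⟨Q, hQ⟩ : ∃ Q : ℕ, Q = ∏ p ∈ pr r, p ^ 2 := ⟨_, rfl⟩
  have hQr : (Q : ℝ) = ∏ p ∈ pr r, (p : ℝ) ^ 2 := by
    rw [hQ]
    push_cast
    rfl
  have h1 := Pool.Agent.H52.TM.moment_cmp (Ioc Z (Z + Y)) (range Q) (Ioc a (a + b)) (Y : ℝ) (Q : ℝ)
    (fun x h => mu r (x + h)) (b * V (pr r)) (Real.exp (-lam)) 2 ?_
  swap
  · intro i hi g
    have h2 := hA y r hy hry lam hlam Z Y hY i hi g
    rw [← Pool.Agent.H52.TM.corr_full r i g, ← hQr, ← hQ] at h2
    exact h2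
  obtain ⟨hV0, hV1⟩ := Pool.Agent.H52.TM.V_bounds r
  have hb0 : (0 : ℝ) ≤ b := Nat.cast_nonneg _
  have hcard : ((Ioc a (a + b)).card : ℝ) = b := by
    rw [Nat.card_Ioc, add_tsub_cancel_left]
  have habs : |(b : ℝ) * V (pr r)| ≤ b := by
    rw [abs_of_nonneg (mul_nonneg hb0 hV0)]
    nlinarith
  have h3 : (((Ioc a (a + b)).card : ℝ) + |(b : ℝ) * V (pr r)|) ^ 2 * Real.exp (-lam) ≤
      (2 * b) ^ 2 * Real.exp (-lam) := by
    rw [hcard]
    have : (b : ℝ) + |(b : ℝ) * V (pr r)| ≤ 2 * b := by linarith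
    gcongr
  refine le_trans ?_ (h1.trans h3)
  apply le_of_eq
  congr 2
  -- the moment over a full period
  have e1 : ∀ x, ∑ h ∈ Ioc a (a + b), mu r (x + h) = ∑ j ∈ range b, mu r ((a + 1 + x) + j) := by
    intro x
    have : Ioc a (a + b) = Ico (a + 1) (a + b + 1) := by
      ext t
      simp only [mem_Ioc, mem_Ico]
      omega
    rw [this, Finset.sum_Ico_eq_sum_range]
    have e3 : a + b + 1 - (a + 1) = b := by omega
    rw [e3]
    refine Finset.sum_congr rfl fun j _ => ?_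
    congr 1
    ring
  have hper : Function.Periodic (fun x => (∑ j ∈ range b, mu r (x + j) - b * V (pr r)) ^ 2) Q := by
    intro x
    have : ∀ j, mu r (x + Q + j) = mu r (x + j) := by
      intro j
      have h5 := Pool.Agent.H52.TM.mu_periodic r (x + j)
      rw [← hQ] at h5
      rw [← h5]
      congr 1
      ring
    simp only [this]
  have e2 : ∑ x ∈ range Q, (∑ h ∈ Ioc a (a + b), mu r (x + h) - b * V (pr r)) ^ 2 =
      ∑ x ∈ range Q, (∑ j ∈ range b, mu r (x + j) - b * V (pr r)) ^ 2 := by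
    simp only [e1]
    exact Pool.Agent.Y672.GM.sum_shift Q _ hper (a + 1)
  rw [e2]
  unfold Wv
  rw [← hQ, ← hQr]
  rfl

lemma mem_S {y r p : ℕ} (hp : p ∈ (pr y).filter (fun p => ¬ p ≤ r)) : p.Prime ∧ r < p ∧ p ≤ y := by
  have h1 := Pool.Agent.Y71.GM.mem_pr.1 (mem_filter.1 hp).1
  exact ⟨h1.2, not_le.1 (mem_filter.1 hp).2, h1.1⟩

/-- **TUP2** -/
theorem t_TUP2 (hBR : S_BR) : S_TUP2 := by
  intro K
  obtain ⟨A0, hA0⟩ := hBR (2 * K)
  refine ⟨2 * (4 * K ^ 2 + 2 * K), max A0 3, ?_⟩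
  intro y r hAr hry lam hlam Z Y hY g hg I
  have hA0r : A0 ≤ r := le_trans (le_max_left _ _) hAr
  have h3r : 3 ≤ r := le_trans (le_max_right _ _) hAr
  have hA0y : A0 ≤ y := hA0r.trans hry
  have h3y : 3 ≤ y := h3r.trans hry
  have h3y' : (3 : ℝ) ≤ y := by exact_mod_cast h3y
  have hr0 : (0 : ℝ) < r := by exact_mod_cast (by omega : 0 < r)
  have hly1 : 1 ≤ Real.log y := by
    rw [← Real.log_exp 1]
    refine Real.log_le_log (Real.exp_pos _) ?_
    linarith [Real.exp_one_lt_d9]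
  have hlam0 : 0 ≤ lam := (Real.log_nonneg hly1).trans hlam
  have hY' : (y : ℝ) ^ (A0 * lam) ≤ Y := by
    refine le_trans (Real.rpow_le_rpow_of_exponent_le (by linarith) ?_) hY
    refine mul_le_mul_of_nonneg_right ?_ hlam0
    exact_mod_cast le_max_left _ _
  have hY0 : (0 : ℝ) < Y := lt_of_lt_of_le (Real.rpow_pos_of_pos (by linarith) _) hY'
  have hL := Pool.Agent.Y259.GM.t_LOC
  obtain ⟨g', hg'⟩ : ∃ g' : Fin I.card → ℕ, g' = fun i => g (en I i) := ⟨_, rfl⟩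
  have hIK : I.card ≤ K := by
    have := Finset.card_le_univ I
    rwa [Fintype.card_fin] at this
  have hIKR : (I.card : ℝ) ≤ K := by exact_mod_cast hIK
  have hodd : odd g' = oddI g I := by rw [hg']; exact odd_en I g
  -- the two applications of the fundamental lemma
  have hb1 := hA0 y hA0y lam hlam Z Y hY' (fun p n => (if p ≤ r then loc g p n else loc g' p n) - 1)
    (fun p hp n => by
      have hp' := (Pool.Agent.Y71.GM.mem_pr.1 hp).2
      split_ifs
      · rw [(hL K g p hp').1 n]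
      · rw [(hL _ g' p hp').1 n])
    (fun p hp n => by
      have hp' := (Pool.Agent.Y71.GM.mem_pr.1 hp).2
      rw [add_sub_cancel]
      split_ifs
      · exact (hL K g p hp').2.1 n
      · exact (hL _ g' p hp').2.1 n)
    (fun p hp => by
      have hp' := (Pool.Agent.Y71.GM.mem_pr.1 hp).2
      split_ifs
      · exact (hL K g p hp').2.2.1
      · refine (hL _ g' p hp').2.2.1.trans ?_
        gcongr)
  have hb2 := hA0 y hA0y lam hlam Z Y hY' (fun p n => if p ≤ r then loc g p n - 1 else 0)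
    (fun p hp n => by
      split_ifs
      · rw [(hL K g p (Pool.Agent.Y71.GM.mem_pr.1 hp).2).1 n]
      · rfl)
    (fun p hp n => by
      split_ifs
      · rw [add_sub_cancel]
        exact (hL K g p (Pool.Agent.Y71.GM.mem_pr.1 hp).2).2.1 n
      · simp)
    (fun p hp => by
      split_ifs
      · exact (hL K g p (Pool.Agent.Y71.GM.mem_pr.1 hp).2).2.2.1
      · simp only [abs_zero, Finset.sum_const_zero]
        positivity)
  obtain ⟨Pr, hPr⟩ : ∃ Pr : ℝ, Pr = ∏ p ∈ pr r, ((∑ n ∈ range (p ^ 2), loc g p n) / (p : ℝ) ^ 2) := ⟨_, rfl⟩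
  obtain ⟨S, hS⟩ : ∃ S, S = (pr y).filter (fun p => ¬ p ≤ r) := ⟨_, rfl⟩
  obtain ⟨PS, hPS⟩ : ∃ PS : ℝ, PS = ∏ p ∈ S, ((∑ n ∈ range (p ^ 2), loc g' p n) / (p : ℝ) ^ 2) := ⟨_, rfl⟩
  have hnotle : ∀ p ∈ S, ¬ p ≤ r := fun p hp => by rw [hS] at hp; exact (mem_filter.1 hp).2
  have hle : ∀ p ∈ pr r, p ≤ r := fun p hp => (Pool.Agent.Y71.GM.mem_pr.1 hp).1
  have e1 : ∑ n ∈ Ioc Z (Z + Y), ∏ p ∈ pr y, (1 + ((if p ≤ r then loc g p n else loc g' p n) - 1)) =
      ∑ n ∈ Ioc Z (Z + Y), (∏ i ∈ I, mu y (n + g i)) * ∏ i ∈ Iᶜ, mu r (n + g i) := by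
    refine Finset.sum_congr rfl fun n _ => ?_
    have h1 : ∏ p ∈ pr y, (1 + ((if p ≤ r then loc g p n else loc g' p n) - 1)) =
        (∏ p ∈ pr r, loc g p n) * ∏ p ∈ S, loc g' p n := by
      rw [Pool.Agent.H23.TM.split_pr hry, ← hS]
      congr 1
      · refine Finset.prod_congr rfl fun p hp => ?_
        rw [if_pos (hle p hp), add_sub_cancel]
      · refine Finset.prod_congr rfl fun p hp => ?_
        rw [if_neg (hnotle p hp), add_sub_cancel]
    rw [h1]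
    have h2 : ∀ i, mu y (n + g i) = mu r (n + g i) * ∏ p ∈ S, muP p (n + g i) := by
      intro i
      unfold mu
      rw [Pool.Agent.H23.TM.split_pr hry, ← hS]
    have h3 : ∏ p ∈ pr r, loc g p n = ∏ i, mu r (n + g i) := by
      rw [Pool.Agent.Y71.GM.prod_mu]
    have h4 : ∏ p ∈ S, loc g' p n = ∏ i ∈ I, ∏ p ∈ S, muP p (n + g i) := by
      rw [Finset.prod_comm]
      refine Finset.prod_congr rfl fun p _ => ?_
      unfold loc
      rw [hg', ← prod_en I (fun i => muP p (n + g i))]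
    rw [h3, h4, ← Finset.prod_mul_prod_compl I (fun i => mu r (n + g i))]
    have h5 : ∏ i ∈ I, mu y (n + g i) = (∏ i ∈ I, mu r (n + g i)) * ∏ i ∈ I, ∏ p ∈ S, muP p (n + g i) := by
      rw [← Finset.prod_mul_distrib]
      exact Finset.prod_congr rfl fun i _ => h2 i
    rw [h5]
    ring
  have e2 : ∏ p ∈ pr y, (1 + (∑ n ∈ range (p ^ 2), ((if p ≤ r then loc g p n else loc g' p n) - 1)) /
      (p : ℝ) ^ 2) = Pr * PS := by
    rw [Pool.Agent.H23.TM.split_pr hry, ← hS, hPr, hPS]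
    congr 1
    · refine Finset.prod_congr rfl fun p hp => ?_
      simp only [if_pos (hle p hp)]
      exact Pool.Agent.Y71.GM.fac g p (Pool.Agent.Y71.GM.mem_pr.1 hp).2
    · refine Finset.prod_congr rfl fun p hp => ?_
      simp only [if_neg (hnotle p hp)]
      rw [hS] at hp
      exact Pool.Agent.Y71.GM.fac g' p (mem_S hp).1
  have e3 : ∑ n ∈ Ioc Z (Z + Y), ∏ p ∈ pr y, (1 + (if p ≤ r then loc g p n - 1 else 0)) =
      ∑ n ∈ Ioc Z (Z + Y), ∏ i, mu r (n + g i) := by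
    refine Finset.sum_congr rfl fun n _ => ?_
    rw [Pool.Agent.Y71.GM.prod_mu, ← Pool.Agent.H23.TM.filter_pr hry, Finset.prod_filter]
    refine Finset.prod_congr rfl fun p _ => ?_
    split_ifs
    · rw [add_sub_cancel]
    · rw [add_zero]
  have e4 : ∏ p ∈ pr y, (1 + (∑ n ∈ range (p ^ 2), (if p ≤ r then loc g p n - 1 else 0)) /
      (p : ℝ) ^ 2) = Pr := by
    rw [hPr, ← Pool.Agent.H23.TM.filter_pr hry, Finset.prod_filter]
    refine Finset.prod_congr rfl fun p hp => ?_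
    split_ifs
    · exact Pool.Agent.Y71.GM.fac g p (Pool.Agent.Y71.GM.mem_pr.1 hp).2
    · simp
  rw [e1, e2] at hb1
  rw [e3, e4] at hb2
  -- the main term
  have hPr1 : |Pr| ≤ 1 := by
    rw [hPr, abs_prod]
    exact Finset.prod_le_one (fun _ _ => abs_nonneg _)
      fun p hp => Pool.Agent.Y71.GM.fac_le hL g p (Pool.Agent.Y71.GM.mem_pr.1 hp).2
  have hVr := Pool.Agent.H23.TM.V_pr_pos r
  obtain ⟨d, hd⟩ : ∃ d : ℝ, d = V (pr y) / V (pr r) := ⟨_, rfl⟩
  have hdS : d = ∏ p ∈ S, (1 - 1 / (p : ℝ)) ^ 2 := by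
    rw [hd, V, Pool.Agent.H23.TM.split_pr hry (fun p => (1 - 1 / (p : ℝ)) ^ 2)]
    rw [show (∏ p ∈ pr r, (1 - 1 / (p : ℝ)) ^ 2) = V (pr r) from rfl, mul_comm,
      mul_div_assoc, div_self hVr.ne', mul_one, hS]
  have hbnd : ∀ p ∈ S, |((1 - 1 / (p : ℝ)) ^ 2)| ≤ 1 := by
    intro p hp
    rw [hS] at hp
    have hp' := (mem_S hp).1
    have h1 : (1 : ℝ) < p := by exact_mod_cast hp'.one_lt
    have h2 : (1 : ℝ) / p < 1 := by rw [div_lt_one (by linarith)]; exact h1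
    have h3 : (0 : ℝ) ≤ 1 / p := by positivity
    rw [abs_of_nonneg (sq_nonneg _)]
    nlinarith
  have hd1 : |d| ≤ 1 := by
    rw [hdS, abs_prod]
    exact Finset.prod_le_one (fun _ _ => abs_nonneg _) hbnd
  obtain ⟨o, ho⟩ : ∃ o : ℕ, o = (odd g').card := ⟨_, rfl⟩
  have hR : |PS - d ^ o| ≤ 2 * (4 * (K : ℝ) ^ 2 + 2 * K) / r := by
    rw [hPS, hdS, ← Finset.prod_pow]
    refine (Pool.Agent.H23.TM.abs_prod_sub_prod_le S _ _ ?_ ?_).trans ?_
    · intro p hp
      rw [hS] at hp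
      exact Pool.Agent.Y71.GM.fac_le hL g' p (mem_S hp).1
    · intro p hp
      rw [abs_pow]
      exact pow_le_one₀ (abs_nonneg _) (hbnd p hp)
    · calc ∑ p ∈ S, |(∑ n ∈ range (p ^ 2), loc g' p n) / (p : ℝ) ^ 2 -
            ((1 - 1 / (p : ℝ)) ^ 2) ^ o|
          ≤ ∑ p ∈ S, (4 * (K : ℝ) ^ 2 + 2 * K) * ((p : ℝ) ^ 2)⁻¹ := by
            refine Finset.sum_le_sum fun p hp => ?_
            rw [hS] at hp
            rw [ho]
            refine (Pool.Agent.H23.TM.local_close g' p (mem_S hp).1 (fun i => ?_)).trans ?_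
            · rw [hg']
              exact lt_of_le_of_lt (hg _) (mem_S hp).2.1
            · apply mul_le_mul_of_nonneg_right _ (by positivity)
              gcongr
        _ = (4 * (K : ℝ) ^ 2 + 2 * K) * ∑ p ∈ S, ((p : ℝ) ^ 2)⁻¹ := by rw [Finset.mul_sum]
        _ ≤ (4 * (K : ℝ) ^ 2 + 2 * K) * (2 / r) := by
            refine mul_le_mul_of_nonneg_left ?_ (by positivity)
            calc ∑ p ∈ S, ((p : ℝ) ^ 2)⁻¹ ≤ ∑ p ∈ Ioo r (y + 1), ((p : ℝ) ^ 2)⁻¹ := by
                  refine Finset.sum_le_sum_of_subset_of_nonneg ?_ fun p _ _ => by positivity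
                  intro p hp
                  rw [hS] at hp
                  rw [mem_Ioo]
                  exact ⟨(mem_S hp).2.1, Nat.lt_succ_iff.2 (mem_S hp).2.2⟩
              _ ≤ 2 / ((r : ℝ) + 1) := sum_Ioo_inv_sq_le r (y + 1)
              _ ≤ 2 / r := by
                  apply div_le_div_of_nonneg_left (by norm_num) hr0
                  linarith
        _ = _ := by ring
  have hPdiff : |Pr * PS - d ^ o * Pr| ≤ 2 * (4 * (K : ℝ) ^ 2 + 2 * K) / r := by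
    have h1 : Pr * PS - d ^ o * Pr = Pr * (PS - d ^ o) := by ring
    rw [h1, abs_mul]
    exact (mul_le_of_le_one_left (abs_nonneg _) hPr1).trans hR
  rw [← hodd, ← ho, ← hd]
  obtain ⟨X1, hX1⟩ : ∃ X1 : ℝ, X1 = ∑ n ∈ Ioc Z (Z + Y), (∏ i ∈ I, mu y (n + g i)) *
    ∏ i ∈ Iᶜ, mu r (n + g i) := ⟨_, rfl⟩
  obtain ⟨X2, hX2⟩ : ∃ X2 : ℝ, X2 = ∑ n ∈ Ioc Z (Z + Y), ∏ i, mu r (n + g i) := ⟨_, rfl⟩
  rw [← hX1] at hb1
  rw [← hX2] at hb2
  rw [← hX1, ← hX2]
  have hdo : |d ^ o| ≤ 1 := by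
    rw [abs_pow]
    exact pow_le_one₀ (abs_nonneg _) hd1
  have hmain : |X1 / Y - d ^ o * (X2 / Y)| ≤
      2 * (4 * (K : ℝ) ^ 2 + 2 * K) / r + 2 * Real.exp (-lam) := by
    have h1 : X1 / Y - d ^ o * (X2 / Y) =
        (X1 / Y - Pr * PS) + (Pr * PS - d ^ o * Pr) + (-(d ^ o * (X2 / Y - Pr))) := by ring
    rw [h1]
    have h2 : |-(d ^ o * (X2 / Y - Pr))| ≤ Real.exp (-lam) := by
      rw [abs_neg, abs_mul]
      exact (mul_le_of_le_one_left (abs_nonneg _) hdo).trans hb2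
    calc _ ≤ |X1 / Y - Pr * PS| + |Pr * PS - d ^ o * Pr| + |-(d ^ o * (X2 / Y - Pr))| :=
          (abs_add_le _ _).trans (add_le_add (abs_add_le _ _) le_rfl)
      _ ≤ Real.exp (-lam) + 2 * (4 * (K : ℝ) ^ 2 + 2 * K) / r + Real.exp (-lam) :=
          add_le_add (add_le_add hb1 hPdiff) h2
      _ = _ := by ring
  have h5 : X1 - d ^ o * X2 = (X1 / Y - d ^ o * (X2 / Y)) * Y := by
    field_simp
  rw [h5, abs_mul, abs_of_pos hY0]
  refine mul_le_mul_of_nonneg_right (hmain.trans (le_of_eq ?_)) hY0.le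
  push_cast
  ring

end Pool.Agent.H19.TM
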