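import Pool.Agent.H19.TM.VarFar
import Pool.Agent.H23.TM.Mom
import Pool.Graph.R_pool_sql_team_seeded_1acbe0a2.Y968.GM.Sq

/-!
# Project TM2: the modules CNT, COV, SIG, REC
-/

set_option autoImplicit false

namespace Pool.Agent.H19.TM

open Finset Pool.Agent.Y862.GM

/-! ## CNT -/

lemma cnt_eq (M a N : ℕ) (hM : 1 ≤ M) (ha : a < M) :
    cnt M a N = N / M + if a < N % M then 1 else 0 := by
  have h1 := Nat.count_modEq_card (r := M) (v := a) N hM
  rw [Nat.mod_eq_of_lt ha] at h1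
  rw [← h1, Nat.count_eq_card_filter_range]
  unfold cnt
  congr 1
  apply filter_congr
  intro j _
  unfold Nat.ModEq
  rw [Nat.mod_eq_of_lt ha]

lemma cnt_sum (M N : ℕ) (hM : 1 ≤ M) : ∑ a ∈ range M, cnt M a N = N := by
  have h1 := Finset.card_eq_sum_card_fiberwise (s := range N) (t := range M) (f := fun j => j % M)
    (fun j _ => by simpa using Nat.mod_lt j hM)
  rw [card_range] at h1
  exact h1.symm

lemma th_eq (M N : ℕ) (hM : 1 ≤ M) :
    th M N = ((N % M : ℕ) : ℝ) - ((N % M : ℕ) : ℝ) ^ 2 / M := by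
  have hM0 : (0 : ℝ) < M := by exact_mod_cast hM
  obtain ⟨v, hv⟩ : ∃ v, v = N % M := ⟨_, rfl⟩
  obtain ⟨u, hu⟩ : ∃ u, u = N / M := ⟨_, rfl⟩
  have hN : (N : ℝ) = M * u + v := by
    have := Nat.div_add_mod N M
    rw [← hv, ← hu] at this
    exact_mod_cast this.symm
  have hvM : v < M := by rw [hv]; exact Nat.mod_lt _ hM
  unfold th
  have h1 : ∀ a ∈ range M, ((cnt M a N : ℝ) - N / M) ^ 2 =
      (if a < v then (1 : ℝ) else 0) * (1 - 2 * (v / M)) + (v / M) ^ 2 := by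
    intro a ha
    rw [cnt_eq M a N hM (mem_range.1 ha), ← hv, ← hu, hN]
    have e : (M * (u : ℝ) + v) / M = u + v / M := by
      field_simp
    rw [e]
    push_cast
    split_ifs
    · ring
    · ring
  rw [sum_congr rfl h1, sum_add_distrib, ← sum_mul, sum_const, card_range, nsmul_eq_mul]
  have h2 : ∑ a ∈ range M, (if a < v then (1 : ℝ) else 0) = v := by
    rw [← sum_filter, sum_const]
    have : (range M).filter (fun a => a < v) = range v := by
      ext a
      simp only [mem_filter, mem_range]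
      omega
    rw [this, card_range, nsmul_eq_mul, mul_one]
  rw [h2, ← hv]
  field_simp
  ring

/-- **CNT** -/
theorem t_CNT : S_CNT := by
  intro M N hM
  have hM0 : (0 : ℝ) < M := by exact_mod_cast hM
  have hvM : N % M < M := Nat.mod_lt _ hM
  have hvM' : ((N % M : ℕ) : ℝ) ≤ M := by exact_mod_cast hvM.le
  have hv0 : (0 : ℝ) ≤ ((N % M : ℕ) : ℝ) := Nat.cast_nonneg _
  have hvN : ((N % M : ℕ) : ℝ) ≤ N := by exact_mod_cast Nat.mod_le N M
  refine ⟨cnt_sum M N hM, ?_, ?_, ?_, ?_, ?_⟩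
  · intro a ha
    rw [cnt_eq M a N hM ha]
    split_ifs <;> omega
  · rw [th_eq M N hM, sub_nonneg, div_le_iff₀ hM0]
    nlinarith
  · rw [th_eq M N hM]
    have : ((N % M : ℕ) : ℝ) ^ 2 / M = ((N % M : ℕ) : ℝ) ^ 2 / M := rfl
    have h1 : 0 ≤ (((N % M : ℕ) : ℝ) - M / 2) ^ 2 / M := by positivity
    have h2 : (((N % M : ℕ) : ℝ) - M / 2) ^ 2 / M =
        ((N % M : ℕ) : ℝ) ^ 2 / M - ((N % M : ℕ) : ℝ) + M / 4 := by
      field_simp
      ring
    linarith
  · rw [th_eq M N hM]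
    have h1 : 0 ≤ ((N % M : ℕ) : ℝ) ^ 2 / M := by positivity
    linarith
  · intro hNM
    rw [th_eq M N hM]
    rcases Nat.lt_or_ge N M with h | h
    · rw [Nat.mod_eq_of_lt h]
      field_simp
    · have : N = M := le_antisymm hNM h
      rw [this, Nat.mod_self, div_self hM0.ne']
      simp

/-! ## COV -/

lemma ind_sum (M m : ℕ) (hm : 0 < m) (hdvd : m ∣ M) (Z : ℕ) :
    ∑ n ∈ range M, (if m ∣ n + Z then (1 : ℝ) else 0) = (M : ℝ) / m := by
  have hper : Function.Periodic (fun n => if m ∣ n then (1 : ℝ) else 0) M := by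
    intro n
    simp only
    congr 1
    rw [eq_iff_iff]
    exact (Nat.dvd_add_left hdvd)
  have h1 := Pool.Agent.Y672.GM.sum_shift M _ hper Z
  have h2 := Pool.Agent.Y672.GM.sum_shift M _ hper 1
  have e1 : ∑ n ∈ range M, (if m ∣ n + Z then (1 : ℝ) else 0) =
      ∑ i ∈ range M, (fun n => if m ∣ n then (1 : ℝ) else 0) (Z + i) :=
    sum_congr rfl fun i _ => by rw [add_comm Z i]
  rw [e1, h1, ← h2]
  have e2 : ∑ i ∈ range M, (fun n => if m ∣ n then (1 : ℝ) else 0) (1 + i) =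
      ((M / m : ℕ) : ℝ) := by
    rw [← Nat.card_multiples M m, card_filter]
    push_cast
    refine sum_congr rfl fun i _ => ?_
    simp only [add_comm 1 i]
  rw [e2, Nat.cast_div hdvd (by exact_mod_cast hm.ne')]

lemma muP_sum (p : ℕ) (hp : p.Prime) (Z : ℕ) :
    ∑ n ∈ range (p ^ 2), muP p (n + Z) = (p : ℝ) ^ 2 * (1 - 1 / (p : ℝ)) ^ 2 := by
  have hp0 : (p : ℝ) ≠ 0 := by exact_mod_cast hp.ne_zero
  have h1 : ∀ n, muP p (n + Z) = 1 - 2 * (if p ∣ n + Z then (1 : ℝ) else 0) +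
      (if p ^ 2 ∣ n + Z then (1 : ℝ) else 0) := fun n => Pool.Agent.H23.TM.muP_eq p _ hp
  simp_rw [h1]
  rw [sum_add_distrib, sum_sub_distrib, ← mul_sum, ind_sum (p ^ 2) p hp.pos (dvd_pow_self p two_ne_zero),
    ind_sum (p ^ 2) (p ^ 2) (pow_pos hp.pos 2) dvd_rfl, sum_const, card_range, nsmul_eq_mul]
  push_cast
  field_simp
  ring

lemma kap_sum0 (p : ℕ) (hp : p.Prime) (Z h : ℕ) :
    ∑ n ∈ range (p ^ 2), muP p (n + Z) * muP p (n + Z + h) = (p : ℝ) ^ 2 * kap p h := by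
  have hp0 : (p : ℝ) ≠ 0 := by exact_mod_cast hp.ne_zero
  obtain ⟨δ1, hδ1⟩ : ∃ δ : ℝ, δ = if p ∣ h then (1 : ℝ) else 0 := ⟨_, rfl⟩
  obtain ⟨δ2, hδ2⟩ : ∃ δ : ℝ, δ = if p ^ 2 ∣ h then (1 : ℝ) else 0 := ⟨_, rfl⟩
  have h1 : ∀ n, muP p (n + Z) * muP p (n + Z + h) =
      1 - 2 * (if p ∣ n + Z then (1 : ℝ) else 0) - 2 * (if p ∣ n + (Z + h) then (1 : ℝ) else 0) +
      (if p ^ 2 ∣ n + Z then (1 : ℝ) else 0) + (if p ^ 2 ∣ n + (Z + h) then (1 : ℝ) else 0) +
      4 * (δ1 * (if p ∣ n + Z then (1 : ℝ) else 0)) - 2 * (δ1 * (if p ^ 2 ∣ n + (Z + h) then (1 : ℝ) else 0)) -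
      2 * (δ1 * (if p ^ 2 ∣ n + Z then (1 : ℝ) else 0)) + δ2 * (if p ^ 2 ∣ n + Z then (1 : ℝ) else 0) := by
    intro n
    rw [Pool.Agent.H23.TM.muP_eq p _ hp, Pool.Agent.H23.TM.muP_eq p _ hp, add_assoc n Z h]
    have a1 : (if p ∣ n + Z then (1 : ℝ) else 0) * (if p ∣ n + (Z + h) then (1 : ℝ) else 0) =
        δ1 * (if p ∣ n + Z then (1 : ℝ) else 0) := by
      by_cases hc : p ∣ n + Z
      · have : p ∣ n + (Z + h) ↔ p ∣ h := by
          rw [← add_assoc]
          exact Nat.dvd_add_right hc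
        simp only [hc, this, if_true, hδ1]
        ring
      · simp only [hc, if_false]
        ring
    have a2 : (if p ∣ n + Z then (1 : ℝ) else 0) * (if p ^ 2 ∣ n + (Z + h) then (1 : ℝ) else 0) =
        δ1 * (if p ^ 2 ∣ n + (Z + h) then (1 : ℝ) else 0) := by
      by_cases hc : p ^ 2 ∣ n + (Z + h)
      · have hc' : p ∣ (n + Z) + h := by
          rw [add_assoc]
          exact (dvd_pow_self p two_ne_zero).trans hc
        have : p ∣ n + Z ↔ p ∣ h := by
          constructor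
          · intro h'
            exact (Nat.dvd_add_right h').1 hc'
          · intro h'
            exact (Nat.dvd_add_left h').1 hc'
        simp only [hc, this, if_true, hδ1]
      · simp only [hc, if_false]
        ring
    have a3 : (if p ^ 2 ∣ n + Z then (1 : ℝ) else 0) * (if p ∣ n + (Z + h) then (1 : ℝ) else 0) =
        δ1 * (if p ^ 2 ∣ n + Z then (1 : ℝ) else 0) := by
      by_cases hc : p ^ 2 ∣ n + Z
      · have : p ∣ n + (Z + h) ↔ p ∣ h := by
          rw [← add_assoc]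
          exact Nat.dvd_add_right ((dvd_pow_self p two_ne_zero).trans hc)
        simp only [hc, this, if_true, hδ1]
        ring
      · simp only [hc, if_false]
        ring
    have a4 : (if p ^ 2 ∣ n + Z then (1 : ℝ) else 0) * (if p ^ 2 ∣ n + (Z + h) then (1 : ℝ) else 0) =
        δ2 * (if p ^ 2 ∣ n + Z then (1 : ℝ) else 0) := by
      by_cases hc : p ^ 2 ∣ n + Z
      · have : p ^ 2 ∣ n + (Z + h) ↔ p ^ 2 ∣ h := by
          rw [← add_assoc]
          exact Nat.dvd_add_right hc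
        simp only [hc, this, if_true, hδ2]
        ring
      · simp only [hc, if_false]
        ring
    linear_combination 4 * a1 - 2 * a2 - 2 * a3 + a4
  simp_rw [h1]
  simp only [sum_add_distrib, sum_sub_distrib, ← mul_sum]
  rw [ind_sum (p ^ 2) p hp.pos (dvd_pow_self p two_ne_zero), ind_sum (p ^ 2) p hp.pos (dvd_pow_self p two_ne_zero),
    ind_sum (p ^ 2) (p ^ 2) (pow_pos hp.pos 2) dvd_rfl, ind_sum (p ^ 2) (p ^ 2) (pow_pos hp.pos 2) dvd_rfl,
    sum_const, card_range, nsmul_eq_mul]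
  unfold kap
  have e1 : (if p ∣ h then 4 / (p : ℝ) - 4 / (p : ℝ) ^ 2 else 0) = (4 / (p : ℝ) - 4 / (p : ℝ) ^ 2) * δ1 := by
    rw [hδ1]
    split_ifs <;> ring
  have e2 : (if p ^ 2 ∣ h then 1 / (p : ℝ) ^ 2 else 0) = 1 / (p : ℝ) ^ 2 * δ2 := by
    rw [hδ2]
    split_ifs <;> ring
  rw [e1, e2]
  push_cast
  field_simp
  ring

lemma kap_sum (p : ℕ) (hp : p.Prime) (i j : ℕ) :
    ∑ n ∈ range (p ^ 2), muP p (n + i) * muP p (n + j) = (p : ℝ) ^ 2 * kap p (Nat.dist i j) := by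
  rcases le_total i j with h | h
  · rw [Nat.dist_eq_sub_of_le h, ← kap_sum0 p hp i (j - i)]
    refine sum_congr rfl fun n _ => ?_
    congr 2
    omega
  · rw [Nat.dist_comm, Nat.dist_eq_sub_of_le h, ← kap_sum0 p hp j (i - j)]
    refine sum_congr rfl fun n _ => ?_
    rw [mul_comm]
    congr 2
    omega

lemma muP_add_sq (p n Z : ℕ) : muP p (n + p ^ 2 + Z) = muP p (n + Z) := by
  rw [show n + p ^ 2 + Z = (n + Z) + p ^ 2 by ring]
  exact Pool.Agent.H23.TM.muP_per p _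

/-- **COV** -/
theorem t_COV : S_COV := by
  intro P hP N
  obtain ⟨Q, hQ⟩ : ∃ Q : ℝ, Q = ∏ p ∈ P, (p : ℝ) ^ 2 := ⟨_, rfl⟩
  have hQ0 : 0 < Q := by
    rw [hQ]
    refine prod_pos fun p hp => ?_
    have : (0 : ℝ) < p := by exact_mod_cast (hP p hp).pos
    positivity
  have hcard : (((∏ p ∈ P, p ^ 2 : ℕ)) : ℝ) = Q := by
    rw [hQ]
    push_cast
    rfl
  have h1 : ∀ j, ∑ n ∈ range (∏ p ∈ P, p ^ 2), ∏ p ∈ P, muP p (n + j) = Q * V P := by
    intro j
    rw [Pool.Agent.Y672.GM.sum_prod P hP (fun p n => muP p (n + j)) (fun p _ n => muP_add_sq p n j), hQ]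
    unfold V
    rw [← prod_mul_distrib]
    exact prod_congr rfl fun p hp => muP_sum p (hP p hp) j
  have h2 : ∀ i j, ∑ n ∈ range (∏ p ∈ P, p ^ 2), (∏ p ∈ P, muP p (n + i)) * (∏ p ∈ P, muP p (n + j)) =
      Q * ∏ p ∈ P, kap p (Nat.dist i j) := by
    intro i j
    have e1 : ∀ n, (∏ p ∈ P, muP p (n + i)) * (∏ p ∈ P, muP p (n + j)) =
        ∏ p ∈ P, (muP p (n + i) * muP p (n + j)) := fun n => (prod_mul_distrib).symm
    simp_rw [e1]
    rw [Pool.Agent.Y672.GM.sum_prod P hP (fun p n => muP p (n + i) * muP p (n + j))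
      (fun p _ n => by rw [muP_add_sq, muP_add_sq]), hQ, ← prod_mul_distrib]
    exact prod_congr rfl fun p hp => kap_sum p (hP p hp) i j
  unfold Wv
  rw [← hQ, div_eq_iff hQ0.ne']
  have e3 : ∀ n, (∑ j ∈ range N, ∏ p ∈ P, muP p (n + j) - N * V P) ^ 2 =
      (∑ i ∈ range N, ∑ j ∈ range N, (∏ p ∈ P, muP p (n + i)) * (∏ p ∈ P, muP p (n + j))) -
      2 * (N * V P) * (∑ j ∈ range N, ∏ p ∈ P, muP p (n + j)) + (N * V P) ^ 2 := by
    intro n
    rw [← sum_mul_sum]
    ring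
  simp_rw [e3]
  rw [sum_add_distrib, sum_sub_distrib, ← mul_sum]
  have e4 : ∑ n ∈ range (∏ p ∈ P, p ^ 2), ∑ i ∈ range N, ∑ j ∈ range N,
      (∏ p ∈ P, muP p (n + i)) * (∏ p ∈ P, muP p (n + j)) =
      Q * ∑ i ∈ range N, ∑ j ∈ range N, ∏ q ∈ P, kap q (Nat.dist i j) := by
    rw [sum_comm, mul_sum]
    refine sum_congr rfl fun i _ => ?_
    rw [sum_comm, mul_sum]
    exact sum_congr rfl fun j _ => h2 i j
  have e5 : ∑ n ∈ range (∏ p ∈ P, p ^ 2), ∑ j ∈ range N, ∏ p ∈ P, muP p (n + j) = N * (Q * V P) := by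
    rw [sum_comm, sum_congr rfl fun j _ => h1 j, sum_const, card_range, nsmul_eq_mul]
  rw [e4, e5, sum_const, card_range, nsmul_eq_mul, hcard]
  ring

/-! ## SIG -/

lemma tel (K : ℕ) (hK : 1 ≤ K) : ∏ n ∈ Ioc 1 K, (1 - 1 / (n : ℝ) ^ 2) = ((K : ℝ) + 1) / (2 * K) := by
  induction K, hK using Nat.le_induction with
  | base => simp
  | succ K hK ih =>
    have hK0 : (0 : ℝ) < K := by exact_mod_cast hK
    rw [Finset.prod_Ioc_succ_top hK, ih]
    push_cast
    field_simp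
    ring

/-- **SIG** -/
theorem t_SIG : S_SIG := by
  refine ⟨?_, ?_, ?_⟩
  · intro P hP
    have hfac : ∀ n : ℕ, 2 ≤ n → 0 ≤ 1 - 1 / (n : ℝ) ^ 2 ∧ 1 - 1 / (n : ℝ) ^ 2 ≤ 1 := by
      intro n hn
      have h2 : (2 : ℝ) ≤ n := by exact_mod_cast hn
      have h3 : 0 ≤ 1 / (n : ℝ) ^ 2 := by positivity
      have h4 : 1 / (n : ℝ) ^ 2 ≤ 1 := by
        rw [div_le_one (by positivity)]
        nlinarith
      constructor <;> linarith
    constructor
    · obtain ⟨K, hK⟩ : ∃ K : ℕ, ∀ p ∈ P, p ≤ K := by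
        refine ⟨P.sup id, fun p hp => ?_⟩
        exact Finset.le_sup (f := id) hp
      have hsub : P ⊆ Ioc 1 (K + 1) := by
        intro p hp
        rw [mem_Ioc]
        exact ⟨(hP p hp).one_lt, (hK p hp).trans (by omega)⟩
      have h1 : ∏ n ∈ Ioc 1 (K + 1), (1 - 1 / (n : ℝ) ^ 2) ≤ sig P := by
        unfold sig
        rw [← prod_sdiff hsub]
        have h2 : ∏ n ∈ Ioc 1 (K + 1) \ P, (1 - 1 / (n : ℝ) ^ 2) ≤ 1 := by
          refine prod_le_one (fun n hn => ?_) (fun n hn => ?_)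
          · have := (mem_Ioc.1 (mem_sdiff.1 hn).1).1
            exact (hfac n (by omega)).1
          · have := (mem_Ioc.1 (mem_sdiff.1 hn).1).1
            exact (hfac n (by omega)).2
        have h3 : 0 ≤ ∏ n ∈ P, (1 - 1 / (n : ℝ) ^ 2) :=
          prod_nonneg fun n hn => (hfac n (hP n hn).two_le).1
        exact mul_le_of_le_one_left h3 h2
      rw [tel (K + 1) (by omega)] at h1
      refine le_trans ?_ h1
      have hK0 : (0 : ℝ) < ((K + 1 : ℕ) : ℝ) := by positivity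
      rw [div_le_div_iff₀ (by norm_num) (by positivity)]
      linarith
    · exact prod_le_one (fun n hn => (hfac n (hP n hn).two_le).1) (fun n hn => (hfac n (hP n hn).two_le).2)
  · intro ε hε
    have h1 := Pool.Agent.Y968.GM.cc_tendsto
    have h2 : (6 : ℝ) / Real.pi ^ 2 < (1 + ε) * (6 / Real.pi ^ 2) := by
      have : (0 : ℝ) < 6 / Real.pi ^ 2 := by positivity
      nlinarith
    have h3 := h1.eventually (eventually_le_nhds h2)
    obtain ⟨A, hA⟩ := Filter.eventually_atTop.1 h3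
    exact ⟨A, fun y hy => hA y hy⟩
  · intro P hP
    constructor
    · rw [t_COV P hP 0]
      simp
    · rw [t_COV P hP 1]
      simp only [sum_range_one, Nat.dist_self, Nat.cast_one, one_pow, one_mul]
      congr 1
      unfold sig
      refine prod_congr rfl fun q hq => ?_
      unfold kap
      simp only [dvd_zero, if_true]
      ring

/-! ## REC -/

lemma sum_classes (M N : ℕ) (hM : 1 ≤ M) (F : ℕ → ℝ) :
    ∑ i ∈ range N, F i = ∑ a ∈ range M, ∑ i' ∈ range (cnt M a N), F (a + M * i') := by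
  have h1 : ∑ i ∈ range N, F i = ∑ a ∈ range M, ∑ i ∈ (range N).filter (fun j => j % M = a), F i :=
    (Finset.sum_fiberwise_of_maps_to (fun j _ => by simpa using Nat.mod_lt j hM) F).symm
  rw [h1]
  refine sum_congr rfl fun a ha => ?_
  have ha' := mem_range.1 ha
  obtain ⟨c, hc⟩ : ∃ c, c = (N - a + (M - 1)) / M := ⟨_, rfl⟩
  have hset : (range N).filter (fun j => j % M = a) = (range c).image (fun i => a + M * i) := by
    ext j
    rw [mem_filter, mem_range, mem_image]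
    have key : ∀ i, i < c ↔ a + M * i < N := by
      intro i
      rw [hc, ← Nat.succ_le_iff, Nat.le_div_iff_mul_le (by omega)]
      have e : (i + 1) * M = M * i + M := by ring
      rw [Nat.succ_eq_add_one, e]
      omega
    constructor
    · rintro ⟨h2, h3⟩
      have h4 : a + M * (j / M) = j := by
        rw [← h3]
        exact Nat.mod_add_div j M
      exact ⟨j / M, mem_range.2 ((key _).2 (by rw [h4]; exact h2)), h4⟩
    · rintro ⟨i, hi, rfl⟩
      refine ⟨(key i).1 (mem_range.1 hi), ?_⟩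
      rw [Nat.add_mul_mod_self_left, Nat.mod_eq_of_lt ha']
  have hinj : Set.InjOn (fun i => a + M * i) (range c : Set ℕ) := by
    intro i _ i' _ h
    simp only at h
    have h2 : M * i = M * i' := by omega
    exact Nat.eq_of_mul_eq_mul_left (by omega) h2
  have hcnt : cnt M a N = c := by
    unfold cnt
    rw [hset, card_image_of_injOn hinj, card_range]
  rw [hset, sum_image hinj, hcnt]

lemma dvd_dist (M x y : ℕ) : M ∣ Nat.dist x y ↔ x % M = y % M := by
  rcases le_total x y with h | h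
  · rw [Nat.dist_eq_sub_of_le h]
    exact (Nat.modEq_iff_dvd' h).symm
  · rw [Nat.dist_comm, Nat.dist_eq_sub_of_le h]
    rw [eq_comm]
    exact (Nat.modEq_iff_dvd' h).symm

lemma kap_dil (q M h : ℕ) (hq : Nat.Coprime q M) : kap q (M * h) = kap q h := by
  unfold kap
  have h1 : q ∣ M * h ↔ q ∣ h := hq.dvd_mul_left
  have h2 : q ^ 2 ∣ M * h ↔ q ^ 2 ∣ h := (hq.pow_left 2).dvd_mul_left
  simp only [h1, h2]

lemma class_sum (P : Finset ℕ) (hP : ∀ q ∈ P, q.Prime) (M N : ℕ) (hM : 1 ≤ M)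
    (hcop : ∀ q ∈ P, Nat.Coprime q M) :
    ∑ i ∈ range N, ∑ j ∈ range N, (if M ∣ Nat.dist i j then ∏ q ∈ P, kap q (Nat.dist i j) else 0) =
      (∑ a ∈ range M, Wv P (cnt M a N)) + V P ^ 2 * ((N : ℝ) ^ 2 / M + th M N) := by
  have hM0 : (0 : ℝ) < M := by exact_mod_cast hM
  rw [sum_classes M N hM]
  have h1 : ∀ a ∈ range M, ∑ i' ∈ range (cnt M a N), ∑ j ∈ range N,
      (if M ∣ Nat.dist (a + M * i') j then ∏ q ∈ P, kap q (Nat.dist (a + M * i') j) else 0) =
      Wv P (cnt M a N) + (cnt M a N : ℝ) ^ 2 * V P ^ 2 := by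
    intro a ha
    have ha' := mem_range.1 ha
    have h2 : ∀ i' ∈ range (cnt M a N), ∑ j ∈ range N,
        (if M ∣ Nat.dist (a + M * i') j then ∏ q ∈ P, kap q (Nat.dist (a + M * i') j) else 0) =
        ∑ j' ∈ range (cnt M a N), ∏ q ∈ P, kap q (Nat.dist i' j') := by
      intro i' _
      rw [sum_classes M N hM]
      rw [Finset.sum_eq_single_of_mem a ha]
      · refine sum_congr rfl fun j' _ => ?_
        rw [Nat.dist_add_add_left, Nat.dist_mul_left, if_pos (dvd_mul_right _ _)]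
        exact prod_congr rfl fun q hq => kap_dil q M _ (hcop q hq)
      · intro a' ha'' hne
        apply sum_eq_zero
        intro j' _
        rw [if_neg]
        rw [dvd_dist, Nat.add_mul_mod_self_left, Nat.add_mul_mod_self_left, Nat.mod_eq_of_lt ha',
          Nat.mod_eq_of_lt (mem_range.1 ha'')]
        exact fun h => hne h.symm
    rw [sum_congr rfl h2, t_COV P hP]
    ring
  rw [sum_congr rfl h1, sum_add_distrib, ← sum_mul]
  have h3 : ∑ a ∈ range M, (cnt M a N : ℝ) ^ 2 = (N : ℝ) ^ 2 / M + th M N := by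
    unfold th
    have h4 : ∀ a ∈ range M, ((cnt M a N : ℝ) - N / M) ^ 2 =
        (cnt M a N : ℝ) ^ 2 - 2 * (N / M) * (cnt M a N : ℝ) + (N / M) ^ 2 := fun a _ => by ring
    rw [sum_congr rfl h4, sum_add_distrib, sum_sub_distrib, ← mul_sum]
    have h5 : ∑ a ∈ range M, (cnt M a N : ℝ) = N := by exact_mod_cast cnt_sum M N hM
    rw [h5, sum_const, card_range, nsmul_eq_mul]
    field_simp
    ring
  rw [h3]
  ring

/-- **REC** -/
theorem t_REC : S_REC := by
  intro P hP p hp hpP N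
  have hP' : ∀ q ∈ insert p P, q.Prime := by
    intro q hq
    rcases mem_insert.1 hq with h | h
    · rw [h]; exact hp
    · exact hP q h
  have hcop : ∀ q ∈ P, Nat.Coprime q p := by
    intro q hq
    exact (Nat.coprime_primes (hP q hq) hp).2 (fun h => hpP (h ▸ hq))
  have hcop2 : ∀ q ∈ P, Nat.Coprime q (p ^ 2) := fun q hq => (hcop q hq).pow_right 2
  have hp1 : 1 ≤ p := hp.one_lt.le
  have hp0 : (0 : ℝ) < p := by exact_mod_cast hp.pos
  have e1 : ∀ i j, ∏ q ∈ insert p P, kap q (Nat.dist i j) =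
      (1 - 4 / p + 2 / (p : ℝ) ^ 2) * (∏ q ∈ P, kap q (Nat.dist i j)) +
      (4 / (p : ℝ) - 4 / (p : ℝ) ^ 2) * (if p ∣ Nat.dist i j then ∏ q ∈ P, kap q (Nat.dist i j) else 0) +
      1 / (p : ℝ) ^ 2 * (if p ^ 2 ∣ Nat.dist i j then ∏ q ∈ P, kap q (Nat.dist i j) else 0) := by
    intro i j
    rw [prod_insert hpP]
    obtain ⟨K, hK⟩ : ∃ K : ℝ, K = ∏ q ∈ P, kap q (Nat.dist i j) := ⟨_, rfl⟩
    rw [← hK]
    unfold kap
    split_ifs <;> ring
  rw [t_COV _ hP' N]
  simp_rw [e1]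
  simp only [sum_add_distrib, ← mul_sum]
  rw [class_sum P hP p N hp1 hcop, class_sum P hP (p ^ 2) N (by nlinarith) hcop2, V_insert hpP]
  have e2 := t_COV P hP N
  have e3 : ∑ i ∈ range N, ∑ j ∈ range N, ∏ q ∈ P, kap q (Nat.dist i j) = Wv P N + (N : ℝ) ^ 2 * V P ^ 2 := by
    rw [e2]
    ring
  rw [e3]
  push_cast
  field_simp
  ring

end Pool.Agent.H19.TM
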