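import Pool.Agent.H19.TM.Main2
import Pool.Agent.H19.TM.Mix
import Pool.Agent.H19.TM.Rec
import Pool.Agent.H19.TM.Fin
import Pool.Agent.H61.TM.Rad
import Pool.Agent.H61.TM.VV

/-!
# Project TM2: the centred Gaussian law for windows of length `b`, `A log b ≤ log y`
-/

set_option autoImplicit false

namespace Pool.Agent.H19.TM

open Finset Pool.Agent.Y862.GM Filter Topology

theorem t_VAR' : S_VAR := t_VAR t_REC t_CNT

theorem t_FAR' : S_FAR := t_FAR t_REC t_CNT t_SIG

/-- the centred Gaussian law -/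
theorem law2 (k : ℕ) (ε : ℝ) (hε : 0 < ε) : ∃ A : ℕ, ∀ y b Z Y : ℕ, A ≤ b →
    (A : ℝ) * Real.log b ≤ Real.log y → (y : ℝ) ^ (A * (Real.log b + Real.log (Real.log y))) ≤ Y →
    ∀ t : Fin k → ℝ, |law y b Z Y (b * V (pr y)) (fun i => t i * √(6 * b / Real.pi ^ 2)) -
      ∏ i, Ph (t i)| ≤ ε := by
  classical
  rcases Nat.eq_zero_or_pos k with hk | hk
  · subst hk
    refine ⟨3, fun y b Z Y hb hl hY t => ?_⟩
    have hbe : Real.exp 1 ≤ b := by
      have : (3 : ℝ) ≤ b := by exact_mod_cast hb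
      linarith [Real.exp_one_lt_d9]
    have hlb : 1 ≤ Real.log b := by
      rw [← Real.log_exp 1]
      exact Real.log_le_log (Real.exp_pos _) hbe
    have hly : 1 ≤ Real.log y := by
      push_cast at hl
      linarith
    have hy0 : (0 : ℝ) < y := by
      rcases Nat.eq_zero_or_pos y with h | h
      · rw [h] at hly
        simp at hly
        linarith
      · exact_mod_cast h
    have hYpos : (0 : ℝ) < Y := (Real.rpow_pos_of_pos hy0 _).trans_le hY
    unfold law
    have : (Ioc Z (Z + Y)).filter (fun x => ∀ i : Fin 0, ∑ n ∈ Ioc (x + i * b) (x + i * b + b), mu y n -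
        b * V (pr y) ≤ t i * √(6 * b / Real.pi ^ 2)) = Ioc Z (Z + Y) := by
      apply Finset.filter_true_of_mem
      intro x _ i
      exact i.elim0
    rw [this, Nat.card_Ioc, Nat.add_sub_cancel_left, div_self hYpos.ne']
    simp
    exact hε.le
  · obtain ⟨T, δ, hδ, hlevy⟩ := t_LEVY2 k ε hε
    obtain ⟨A, hA⟩ := char_main2 Pool.Agent.H61.TM.t_RAD1 Pool.Agent.H61.TM.t_RAD2 Pool.Agent.H61.TM.t_RAD3
      t_COS2 (t_CMP2 Pool.Agent.H61.TM.t_RAD1) t_CF2 t_MI1 t_VAR' (t_TUP2 Pool.Agent.H52.TM.t_BR)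
      Pool.Agent.H61.TM.t_VV (Pool.Agent.Y968.GM.t_SQ Pool.Agent.Y672.GM.t_EQUI) k hk (max T 1) δ
      (le_max_right _ _) hδ
    refine ⟨max A 3, fun y b Z Y hb hl hYy t => ?_⟩
    have hA' : (A : ℕ) ≤ max A 3 := le_max_left _ _
    have hA'' : (A : ℝ) ≤ ((max A 3 : ℕ) : ℝ) := by exact_mod_cast hA'
    have hA3 : (3 : ℝ) ≤ ((max A 3 : ℕ) : ℝ) := by exact_mod_cast le_max_right A 3
    have hb3 : 3 ≤ b := (le_max_right _ _).trans hb
    have hb1 : 1 ≤ b := by omega
    have hlb1 : 1 ≤ Real.log b := by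
      rw [← Real.log_exp 1]
      apply Real.log_le_log (Real.exp_pos _)
      have : (3 : ℝ) ≤ b := by exact_mod_cast hb3
      linarith [Real.exp_one_lt_d9]
    have hl' : (A : ℝ) * Real.log b ≤ Real.log y :=
      (mul_le_mul_of_nonneg_right hA'' (by linarith)).trans hl
    have hly1 : 1 ≤ Real.log y := by nlinarith
    have hy1 : (1 : ℝ) ≤ y := by
      rcases Nat.eq_zero_or_pos y with h | h
      · rw [h] at hly1
        simp at hly1
        linarith
      · exact_mod_cast h
    have hY' : (y : ℝ) ^ (A * (Real.log b + Real.log (Real.log y))) ≤ Y := by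
      refine le_trans ?_ hYy
      apply Real.rpow_le_rpow_of_exponent_le hy1
      apply mul_le_mul_of_nonneg_right hA'' (by
        have := Real.log_nonneg hly1
        linarith)
    obtain ⟨hY, hch⟩ := hA y b Z Y (by omega) hl' hY'
    have hne : (Ioc Z (Z + Y)).Nonempty := ⟨Z + 1, by rw [mem_Ioc]; omega⟩
    have hσ := (sigma_facts b hb1).1
    have h5 := hlevy (Ioc Z (Z + Y)) hne (fun x i =>
      (∑ n ∈ Ioc (x + i * b) (x + i * b + b), mu y n - b * V (pr y)) / √(6 * b / Real.pi ^ 2))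
      (fun w hw => hch w (fun i => (hw i).trans (le_max_left _ _))) t
    have hcard : ((Ioc Z (Z + Y)).card : ℝ) = Y := by
      rw [Nat.card_Ioc]
      congr 1
      omega
    rw [hcard] at h5
    unfold law Ph
    have hfil : (Ioc Z (Z + Y)).filter (fun x => ∀ i : Fin k,
        ∑ n ∈ Ioc (x + i * b) (x + i * b + b), mu y n - b * V (pr y) ≤ t i * √(6 * b / Real.pi ^ 2)) =
        (Ioc Z (Z + Y)).filter (fun x => ∀ i : Fin k,
        (∑ n ∈ Ioc (x + i * b) (x + i * b + b), mu y n - b * V (pr y)) / √(6 * b / Real.pi ^ 2) ≤ t i) := by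
      apply Finset.filter_congr
      intro x _
      apply forall_congr'
      intro i
      rw [div_le_iff₀ hσ]
    rw [hfil]
    convert h5 using 4

/-- the weaker form with `(log b) ^ A ≤ log y` -/
theorem main2 : S_MAIN := by
  classical
  intro k ε hε
  obtain ⟨A0, hA0⟩ := law2 k ε hε
  refine ⟨A0 + 8, fun y b Z Y hb hl hY t => ?_⟩
  have hb8 : (8 : ℝ) ≤ b := by exact_mod_cast (by omega : 8 ≤ b)
  have hlb : 2 ≤ Real.log b := by
    rw [← Real.log_exp 2]
    apply Real.log_le_log (Real.exp_pos _)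
    have h1 : Real.exp 2 = Real.exp 1 * Real.exp 1 := by
      rw [← Real.exp_add]
      norm_num
    have := Real.exp_one_lt_d9
    have := Real.exp_pos 1
    rw [h1]
    nlinarith
  have h1 : (A0 : ℝ) * Real.log b ≤ Real.log b ^ (A0 + 8) := by
    have h2 : (A0 : ℝ) ≤ Real.log b ^ (A0 + 7) := by
      have h3 : (A0 : ℝ) ≤ 2 ^ A0 := by exact_mod_cast Nat.lt_two_pow_self.le
      calc (A0 : ℝ) ≤ 2 ^ A0 := h3
        _ ≤ 2 ^ (A0 + 7) := pow_le_pow_right₀ (by norm_num) (by omega)
        _ ≤ Real.log b ^ (A0 + 7) := pow_le_pow_left₀ (by norm_num) hlb _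
    calc (A0 : ℝ) * Real.log b ≤ Real.log b ^ (A0 + 7) * Real.log b :=
          mul_le_mul_of_nonneg_right h2 (by linarith)
      _ = _ := by rw [← pow_succ]
  have hly : 1 ≤ Real.log y := (one_le_pow₀ (by linarith)).trans hl
  have hy1 : (1 : ℝ) ≤ y := by
    rcases Nat.eq_zero_or_pos y with h | h
    · rw [h] at hly
      simp at hly
      linarith
    · exact_mod_cast h
  have h3 : (y : ℝ) ^ (A0 * (Real.log b + Real.log (Real.log y))) ≤ Y := by
    refine le_trans ?_ hY
    apply Real.rpow_le_rpow_of_exponent_le hy1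
    apply mul_le_mul_of_nonneg_right _ (by
      have := Real.log_nonneg hly
      linarith)
    push_cast
    linarith
  have := hA0 y b Z Y (by omega) (h1.trans hl) h3 t
  unfold law Ph at this
  convert this using 4

end Pool.Agent.H19.TM
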