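import Pool.Agent.H19.TM.Stm
import Pool.Graph.R_pool_sql_team_seeded_1acbe0a2.Y756.GM.Levy

/-!
# Project TM: Lévy continuity, uniformly in the point
-/

set_option autoImplicit false

namespace Pool.Agent.H19.TM

open Finset Pool.Agent.Y862.GM MeasureTheory ProbabilityTheory Filter Topology

/-- the normal distribution function -/
noncomputable def Ph (s : ℝ) : ℝ := (gaussianReal 0 1).real (Set.Iic s)

lemma Ph_nonneg (s : ℝ) : 0 ≤ Ph s := measureReal_nonneg

lemma Ph_le_one (s : ℝ) : Ph s ≤ 1 := by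
  unfold Ph
  exact measureReal_le_one

lemma Ph_mono {s t : ℝ} (h : s ≤ t) : Ph s ≤ Ph t := by
  unfold Ph
  exact measureReal_mono (Set.Iic_subset_Iic.2 h) (measure_ne_top _ _)

lemma Ph_tendsto_top : Tendsto Ph atTop (𝓝 1) := by
  have h := tendsto_cdf_atTop (gaussianReal 0 1)
  refine h.congr fun s => ?_
  rw [cdf_eq_real]
  rfl

lemma Ph_tendsto_bot : Tendsto Ph atBot (𝓝 0) := by
  have h := tendsto_cdf_atBot (gaussianReal 0 1)
  refine h.congr fun s => ?_
  rw [cdf_eq_real]
  rfl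

lemma pdf_le_one (x : ℝ) : gaussianPDFReal 0 1 x ≤ 1 := by
  unfold gaussianPDFReal
  have h1 : Real.exp (-(x - 0) ^ 2 / (2 * ((1 : NNReal) : ℝ))) ≤ 1 := by
    rw [Real.exp_le_one_iff]
    have : 0 ≤ (x - 0) ^ 2 := sq_nonneg _
    simp only [NNReal.coe_one]
    linarith
  have h2 : (√(2 * Real.pi * ((1 : NNReal) : ℝ)))⁻¹ ≤ 1 := by
    apply inv_le_one_of_one_le₀
    rw [Real.one_le_sqrt]
    simp only [NNReal.coe_one]
    linarith [Real.pi_gt_three]
  have h0 : 0 ≤ (√(2 * Real.pi * ((1 : NNReal) : ℝ)))⁻¹ := by positivity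
  calc _ ≤ 1 * 1 := mul_le_mul h2 h1 (Real.exp_pos _).le zero_le_one
    _ = 1 := one_mul 1

/-- the distribution function is Lipschitz -/
lemma Ph_lip {s t : ℝ} (h : s ≤ t) : Ph t - Ph s ≤ t - s := by
  have h1 : Ph t - Ph s = (gaussianReal 0 1).real (Set.Ioc s t) := by
    unfold Ph
    have e : Set.Ioc s t = Set.Iic t \ Set.Iic s := by
      ext x
      simp only [Set.mem_Ioc, Set.mem_sdiff, Set.mem_Iic, not_le]
      exact and_comm
    rw [e, measureReal_sdiff (Set.Iic_subset_Iic.2 h) measurableSet_Iic]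
  rw [h1]
  have h2 : (gaussianReal 0 1) (Set.Ioc s t) ≤ ENNReal.ofReal (t - s) := by
    rw [gaussianReal_apply _ one_ne_zero]
    calc ∫⁻ x in Set.Ioc s t, gaussianPDF 0 1 x ≤ ∫⁻ x in Set.Ioc s t, 1 := by
          refine lintegral_mono fun x => ?_
          unfold gaussianPDF
          rw [← ENNReal.ofReal_one]
          exact ENNReal.ofReal_le_ofReal (pdf_le_one x)
      _ = ENNReal.ofReal (t - s) := by
          rw [setLIntegral_one, Real.volume_Ioc]
  unfold Measure.real
  calc _ ≤ (ENNReal.ofReal (t - s)).toReal := ENNReal.toReal_mono ENNReal.ofReal_ne_top h2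
    _ = t - s := ENNReal.toReal_ofReal (by linarith)

/-- products of numbers between zero and one -/
lemma prod_close {k : ℕ} (a b : Fin k → ℝ) (ha : ∀ i, 0 ≤ a i ∧ a i ≤ 1) (hb : ∀ i, 0 ≤ b i ∧ b i ≤ 1) :
    |∏ i, a i - ∏ i, b i| ≤ ∑ i, |a i - b i| := by
  classical
  have key : ∀ s : Finset (Fin k), |∏ i ∈ s, a i - ∏ i ∈ s, b i| ≤ ∑ i ∈ s, |a i - b i| := by
    intro s
    induction s using Finset.induction_on with
    | empty => simp
    | insert j s hj ih =>
      rw [prod_insert hj, prod_insert hj, sum_insert hj]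
      have e : a j * ∏ i ∈ s, a i - b j * ∏ i ∈ s, b i =
          (a j - b j) * ∏ i ∈ s, a i + b j * (∏ i ∈ s, a i - ∏ i ∈ s, b i) := by ring
      rw [e]
      refine (abs_add_le _ _).trans ?_
      rw [abs_mul, abs_mul]
      have h2 : |∏ i ∈ s, a i| ≤ 1 := by
        rw [abs_of_nonneg (prod_nonneg fun i _ => (ha i).1)]
        exact prod_le_one (fun i _ => (ha i).1) fun i _ => (ha i).2
      have h3 : |b j| ≤ 1 := by rw [abs_of_nonneg (hb j).1]; exact (hb j).2
      have h4 : |a j - b j| * |∏ i ∈ s, a i| ≤ |a j - b j| := mul_le_of_le_one_right (abs_nonneg _) h2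
      have h5 : |b j| * |∏ i ∈ s, a i - ∏ i ∈ s, b i| ≤ |∏ i ∈ s, a i - ∏ i ∈ s, b i| :=
        mul_le_of_le_one_left (abs_nonneg _) h3
      linarith
  exact key univ

open Classical in
/-- the empirical distribution function -/
noncomputable def emp1 {k : ℕ} (Om : Finset ℕ) (S : ℕ → Fin k → ℝ) (t : Fin k → ℝ) : ℝ :=
  ((Om.filter (fun x => ∀ i, S x i ≤ t i)).card : ℝ) / Om.card

/-- the conclusion at one point -/
def Good (k : ℕ) (t : Fin k → ℝ) (ε T δ : ℝ) : Prop :=
  ∀ Om : Finset ℕ, Om.Nonempty → ∀ S : ℕ → Fin k → ℝ,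
  (∀ w : Fin k → ℝ, (∀ i, |w i| ≤ T) →
    ‖(∑ x ∈ Om, Complex.exp (Complex.I * ((∑ i, w i * S x i : ℝ) : ℂ))) / Om.card -
      ((Real.exp (-(∑ i, w i ^ 2) / 2) : ℝ) : ℂ)‖ ≤ δ) →
  |emp1 Om S t - ∏ i, Ph (t i)| ≤ ε

lemma Good.mono {k : ℕ} {t : Fin k → ℝ} {ε T δ T' δ' : ℝ} (h : Good k t ε T δ) (hT : T ≤ T')
    (hδ : δ' ≤ δ) : Good k t ε T' δ' := by
  intro Om hOm S hS
  exact h Om hOm S fun w hw => (hS w fun i => (hw i).trans hT).trans hδ

lemma good_finset (k : ℕ) (ε : ℝ) (hε : 0 < ε) (s : Finset (Fin k → ℝ)) :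
    ∃ T δ : ℝ, 0 < δ ∧ ∀ t ∈ s, Good k t ε T δ := by
  classical
  induction s using Finset.induction_on with
  | empty => exact ⟨1, 1, one_pos, by simp⟩
  | insert t s _ ih =>
    obtain ⟨T, δ, hδ, h⟩ := ih
    obtain ⟨T', δ', hδ', h'⟩ := Pool.Agent.Y756.GM.t_LEVY k t ε hε
    refine ⟨max T T', min δ δ', lt_min hδ hδ', ?_⟩
    intro u hu
    rcases mem_insert.1 hu with rfl | hu
    · have : Good k u ε T' δ' := by
        intro Om hOm S hS
        have := h' Om hOm S hS
        unfold emp1 Ph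
        convert this using 4
      exact this.mono (le_max_right _ _) (min_le_right _ _)
    · exact (h u hu).mono (le_max_left _ _) (min_le_left _ _)

lemma emp1_le_one {k : ℕ} (Om : Finset ℕ) (hOm : Om.Nonempty) (S : ℕ → Fin k → ℝ) (t : Fin k → ℝ) :
    emp1 Om S t ≤ 1 := by
  unfold emp1
  have h : (0 : ℝ) < Om.card := by exact_mod_cast hOm.card_pos
  rw [div_le_one h]
  exact_mod_cast card_filter_le _ _

lemma emp1_mono {k : ℕ} (Om : Finset ℕ) (S : ℕ → Fin k → ℝ) {t u : Fin k → ℝ} (h : ∀ i, t i ≤ u i) :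
    emp1 Om S t ≤ emp1 Om S u := by
  classical
  unfold emp1
  apply div_le_div_of_nonneg_right _ (Nat.cast_nonneg _)
  have h1 : Om.filter (fun x => ∀ i, S x i ≤ t i) ⊆ Om.filter (fun x => ∀ i, S x i ≤ u i) := by
    intro x hx
    rw [mem_filter] at hx ⊢
    exact ⟨hx.1, fun i => (hx.2 i).trans (h i)⟩
  exact_mod_cast card_le_card h1

/-- the clamped point -/
noncomputable def clamp (R : ℝ) (s : ℝ) : ℝ := max (-R) (min s R)

open Classical in
lemma emp1_clamp {k : ℕ} (Om : Finset ℕ) (hOm : Om.Nonempty) (S : ℕ → Fin k → ℝ) (t : Fin k → ℝ)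
    (R : ℝ) :
    |emp1 Om S t - emp1 Om S (fun i => clamp R (t i))| ≤
      (1 - emp1 Om S (fun _ => R)) + ∑ i, (emp1 Om S (fun j => if j = i then -R else R) +
        (1 - emp1 Om S (fun _ => R))) := by
  have hc : (0 : ℝ) < Om.card := by exact_mod_cast hOm.card_pos
  -- counting
  obtain ⟨B, hB⟩ : ∃ B, B = Om.filter (fun x => ¬ ∀ i, S x i ≤ R) := ⟨_, rfl⟩
  obtain ⟨D, hD⟩ : ∃ D : Fin k → Finset ℕ, D = fun i => Om.filter (fun x => S x i ≤ -R) := ⟨_, rfl⟩
  have hBc : (B.card : ℝ) / Om.card = 1 - emp1 Om S (fun _ => R) := by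
    have h := card_filter_add_card_filter_not (s := Om) (fun x => ∀ i, S x i ≤ R)
    rw [← hB] at h
    unfold emp1
    rw [eq_sub_iff_add_eq, ← add_div, div_eq_one_iff_eq hc.ne']
    have h' : B.card + (Om.filter (fun x => ∀ i, S x i ≤ R)).card = Om.card := by omega
    exact_mod_cast h'
  have hDc : ∀ i, ((D i).card : ℝ) / Om.card ≤ emp1 Om S (fun j => if j = i then -R else R) +
      (1 - emp1 Om S (fun _ => R)) := by
    intro i
    rw [← hBc]
    unfold emp1
    rw [← add_div]
    apply div_le_div_of_nonneg_right _ hc.le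
    have hsub : D i ⊆ Om.filter (fun x => ∀ j, S x j ≤ (if j = i then -R else R)) ∪ B := by
      intro x hx
      rw [hD] at hx
      simp only [mem_filter] at hx
      rw [mem_union, hB, mem_filter, mem_filter]
      by_cases hh : ∀ j, S x j ≤ R
      · left
        refine ⟨hx.1, fun j => ?_⟩
        split_ifs with hj
        · rw [hj]; exact hx.2
        · exact hh j
      · right
        exact ⟨hx.1, hh⟩
    have := (card_le_card hsub).trans (card_union_le _ _)
    exact_mod_cast this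
  have hbound : |emp1 Om S t - emp1 Om S (fun i => clamp R (t i))| ≤
      ((B.card : ℝ) + ∑ i, ((D i).card : ℝ)) / Om.card := by
    unfold emp1
    rw [← sub_div, abs_div, abs_of_pos hc]
    apply div_le_div_of_nonneg_right _ hc.le
    obtain ⟨E1, hE1⟩ : ∃ E1, E1 = Om.filter (fun x => ∀ i, S x i ≤ t i) := ⟨_, rfl⟩
    obtain ⟨E2, hE2⟩ : ∃ E2, E2 = Om.filter (fun x => ∀ i, S x i ≤ clamp R (t i)) := ⟨_, rfl⟩
    rw [← hE1, ← hE2]
    obtain ⟨W, hW⟩ : ∃ W, W = B ∪ univ.biUnion D := ⟨_, rfl⟩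
    have hWc : (W.card : ℝ) ≤ (B.card : ℝ) + ∑ i, ((D i).card : ℝ) := by
      have h1 : W.card ≤ B.card + ∑ i, (D i).card := by
        rw [hW]
        exact (card_union_le _ _).trans (Nat.add_le_add_left card_biUnion_le _)
      exact_mod_cast h1
    have hs1 : E1 ⊆ E2 ∪ W := by
      intro x hx
      rw [hE1, mem_filter] at hx
      rw [mem_union]
      by_cases hh : ∀ i, S x i ≤ clamp R (t i)
      · left
        rw [hE2, mem_filter]
        exact ⟨hx.1, hh⟩
      · right
        push Not at hh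
        obtain ⟨i, hi⟩ := hh
        unfold clamp at hi
        have h1 := hx.2 i
        have h2 : R < S x i := by
          by_contra h3
          rw [not_lt] at h3
          have : S x i ≤ max (-R) (min (t i) R) := le_max_of_le_right (le_min h1 h3)
          linarith
        rw [hW, mem_union, hB, mem_filter]
        left
        refine ⟨hx.1, fun h3 => ?_⟩
        have := h3 i
        linarith
    have hs2 : E2 ⊆ E1 ∪ W := by
      intro x hx
      rw [hE2, mem_filter] at hx
      rw [mem_union]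
      by_cases hh : ∀ i, S x i ≤ t i
      · left
        rw [hE1, mem_filter]
        exact ⟨hx.1, hh⟩
      · right
        push Not at hh
        obtain ⟨i, hi⟩ := hh
        have h1 := hx.2 i
        unfold clamp at h1
        have h2 : S x i ≤ -R := by
          rcases le_max_iff.1 h1 with h3 | h3
          · exact h3
          · have := h3.trans (min_le_left _ _)
            linarith
        rw [hW, mem_union]
        right
        rw [mem_biUnion]
        refine ⟨i, mem_univ _, ?_⟩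
        rw [hD]
        simp only [mem_filter]
        exact ⟨hx.1, h2⟩
    have c1 : (E1.card : ℝ) ≤ E2.card + W.card := by
      exact_mod_cast (card_le_card hs1).trans (card_union_le _ _)
    have c2 : (E2.card : ℝ) ≤ E1.card + W.card := by
      exact_mod_cast (card_le_card hs2).trans (card_union_le _ _)
    rw [abs_le]
    constructor <;> linarith
  refine hbound.trans ?_
  rw [add_div, hBc, sum_div]
  exact add_le_add le_rfl (sum_le_sum fun i _ => hDc i)

lemma clamp_mem (R s : ℝ) (hR : 0 ≤ R) : -R ≤ clamp R s ∧ clamp R s ≤ R := by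
  unfold clamp
  exact ⟨le_max_left _ _, max_le (by linarith) (min_le_right _ _)⟩

lemma Ph_clamp (R s : ℝ) (hR : 0 ≤ R) : |Ph s - Ph (clamp R s)| ≤ Ph (-R) + (1 - Ph R) := by
  have h1 := Ph_nonneg (-R)
  have h2 := Ph_le_one R
  unfold clamp
  rcases le_total s (-R) with h | h
  · have e : max (-R) (min s R) = -R := max_eq_left ((min_le_left _ _).trans h)
    rw [e, abs_le]
    have := Ph_mono h
    have := Ph_nonneg s
    constructor <;> linarith
  · rcases le_total s R with h' | h'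
    · rw [min_eq_left h', max_eq_right h, sub_self, abs_zero]
      linarith
    · rw [min_eq_right h', max_eq_right (by linarith)]
      rw [abs_le]
      have := Ph_mono h'
      have := Ph_le_one s
      constructor <;> linarith

/-- the grid point below -/
noncomputable def lo (R M : ℕ) (s : ℝ) : ℤ := ⌊clamp R s * M⌋

theorem t_LEVY2 : S_LEVY2 := by
  classical
  intro k ε hε
  -- the parameters
  obtain ⟨ε₁, hε₁⟩ : ∃ ε₁ : ℝ, ε₁ = ε / (8 * (k + 1) ^ 2) := ⟨_, rfl⟩
  have hk0 : (0 : ℝ) ≤ k := Nat.cast_nonneg _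
  have hε₁0 : 0 < ε₁ := by rw [hε₁]; positivity
  have hε₁' : 8 * ((k : ℝ) + 1) ^ 2 * ε₁ = ε := by rw [hε₁]; field_simp
  obtain ⟨R, hR1, hR2⟩ : ∃ R : ℕ, 1 - Ph R ≤ ε₁ ∧ Ph (-R) ≤ ε₁ := by
    have t1 : ∀ᶠ n : ℕ in atTop, 1 - ε₁ < Ph (n : ℝ) :=
      (Ph_tendsto_top.comp tendsto_natCast_atTop_atTop).eventually (lt_mem_nhds (by linarith))
    have t2 : ∀ᶠ n : ℕ in atTop, Ph (-(n : ℝ)) < ε₁ :=
      (Ph_tendsto_bot.comp (tendsto_neg_atTop_atBot.comp
        (tendsto_natCast_atTop_atTop (R := ℝ)))).eventually (gt_mem_nhds hε₁0)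
    obtain ⟨R, h1, h2⟩ := (t1.and t2).exists
    exact ⟨R, by linarith, h2.le⟩
  obtain ⟨M, hM0, hM⟩ : ∃ M : ℕ, 0 < M ∧ (1 : ℝ) / M ≤ ε₁ := by
    obtain ⟨M, hM⟩ := exists_nat_gt (1 / ε₁)
    have hpos : (0 : ℝ) < M := lt_trans (by positivity) hM
    refine ⟨M, by exact_mod_cast hpos, ?_⟩
    rw [div_le_iff₀ hpos]
    rw [div_lt_iff₀ hε₁0] at hM
    linarith
  have hM' : (0 : ℝ) < M := by exact_mod_cast hM0
  -- the grid
  obtain ⟨gr, hgr⟩ : ∃ gr : Finset (Fin k → ℝ), gr =
      (Fintype.piFinset (fun _ : Fin k => Finset.Icc (-(R * M : ℤ)) (R * M + 1))).image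
        (fun j i => (j i : ℝ) / M) := ⟨_, rfl⟩
  obtain ⟨T, δ, hδ, hgood⟩ := good_finset k ε₁ hε₁0 gr
  refine ⟨T, δ, hδ, ?_⟩
  intro Om hOm S hS t
  have hgoal : |emp1 Om S t - ∏ i, Ph (t i)| ≤ ε := by
    -- the test points
    have htest : ∀ j : Fin k → ℤ, (∀ i, -(R * M : ℤ) ≤ j i ∧ j i ≤ R * M + 1) →
        |emp1 Om S (fun i => (j i : ℝ) / M) - ∏ i, Ph ((j i : ℝ) / M)| ≤ ε₁ := by
      intro j hj
      have hmem : (fun i => (j i : ℝ) / M) ∈ gr := by
        rw [hgr, mem_image]
        exact ⟨j, by rw [Fintype.mem_piFinset]; exact fun i => mem_Icc.2 (hj i), rfl⟩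
      exact hgood _ hmem Om hOm S hS
    have hRM : ∀ (s : ℝ), s * M / M = s := fun s => by field_simp
    have hRMnn : (0 : ℤ) ≤ R * M := by positivity
    -- the upper corner
    have hup : |emp1 Om S (fun _ => (R : ℝ)) - ∏ _i : Fin k, Ph (R : ℝ)| ≤ ε₁ := by
      have := htest (fun _ => R * M) (fun i => ⟨by linarith, by linarith⟩)
      push_cast at this
      simp only [hRM] at this
      exact this
    have hup2 : 1 - emp1 Om S (fun _ => (R : ℝ)) ≤ (k + 1) * ε₁ := by
      have h1 := prod_close (fun _ : Fin k => Ph (R : ℝ)) (fun _ => 1)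
        (fun _ => ⟨Ph_nonneg _, Ph_le_one _⟩) (fun _ => ⟨zero_le_one, le_rfl⟩)
      simp only [prod_const_one] at h1
      have h2 : ∑ _i : Fin k, |Ph (R : ℝ) - 1| ≤ k * ε₁ := by
        rw [sum_const, card_univ, Fintype.card_fin, nsmul_eq_mul]
        apply mul_le_mul_of_nonneg_left _ hk0
        rw [abs_sub_comm, abs_of_nonneg (by linarith [Ph_le_one (R : ℝ)])]
        exact hR1
      have h3 := (abs_le.1 hup).1
      have h4 := (abs_le.1 h1).1
      linarith
    have hlow : ∀ i : Fin k, emp1 Om S (fun j => if j = i then -(R : ℝ) else R) ≤ 2 * ε₁ := by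
      intro i
      have h1 := htest (fun j => if j = i then -(R * M : ℤ) else R * M) (fun j => by
        split_ifs <;> constructor <;> linarith)
      have e1 : (fun j : Fin k => (((if j = i then -(R * M : ℤ) else R * M : ℤ) : ℤ) : ℝ) / M) =
          fun j => if j = i then -(R : ℝ) else R := by
        funext j
        split_ifs
        · push_cast
          rw [neg_div, hRM]
        · push_cast
          rw [hRM]
      have e2 : ∀ j : Fin k, Ph ((((if j = i then -(R * M : ℤ) else R * M : ℤ) : ℤ) : ℝ) / M) =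
          Ph (if j = i then -(R : ℝ) else R) := fun j => congrArg Ph (congrFun e1 j)
      rw [e1] at h1
      simp_rw [e2] at h1
      have h2 : ∏ j : Fin k, Ph (if j = i then -(R : ℝ) else R) ≤ ε₁ := by
        rw [← mul_prod_erase univ _ (mem_univ i)]
        rw [if_pos rfl]
        calc Ph (-(R : ℝ)) * ∏ j ∈ univ.erase i, Ph (if j = i then -(R : ℝ) else R) ≤
              ε₁ * 1 := by
              apply mul_le_mul hR2 _ (prod_nonneg fun j _ => Ph_nonneg _) hε₁0.le
              exact prod_le_one (fun j _ => Ph_nonneg _) fun j _ => Ph_le_one _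
          _ = ε₁ := mul_one _
      have h3 := (abs_le.1 h1).2
      linarith
    have hR0 : (0 : ℝ) ≤ R := Nat.cast_nonneg _
    have hcl := emp1_clamp Om hOm S t R
    have hcl2 : |emp1 Om S t - emp1 Om S (fun i => clamp R (t i))| ≤
        (k + 1) * ε₁ + k * (2 * ε₁ + (k + 1) * ε₁) := by
      refine hcl.trans ?_
      apply add_le_add hup2
      calc _ ≤ ∑ _i : Fin k, (2 * ε₁ + (k + 1) * ε₁) :=
            sum_le_sum fun i _ => add_le_add (hlow i) hup2
        _ = k * (2 * ε₁ + (k + 1) * ε₁) := by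
            rw [sum_const, card_univ, Fintype.card_fin, nsmul_eq_mul]
    have hpc := prod_close (fun i => Ph (t i)) (fun i => Ph (clamp R (t i)))
      (fun _ => ⟨Ph_nonneg _, Ph_le_one _⟩) (fun _ => ⟨Ph_nonneg _, Ph_le_one _⟩)
    have hpc2 : |∏ i, Ph (t i) - ∏ i, Ph (clamp R (t i))| ≤ k * (2 * ε₁) := by
      refine hpc.trans ?_
      calc _ ≤ ∑ _i : Fin k, (2 * ε₁) := sum_le_sum fun i _ => by
            have := Ph_clamp R (t i) hR0
            linarith
        _ = k * (2 * ε₁) := by rw [sum_const, card_univ, Fintype.card_fin, nsmul_eq_mul]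
    -- the grid around the clamped point
    obtain ⟨j, hj⟩ : ∃ j : Fin k → ℤ, j = fun i => lo R M (t i) := ⟨_, rfl⟩
    have hj1 : ∀ i, (j i : ℝ) / M ≤ clamp R (t i) := by
      intro i
      rw [div_le_iff₀ hM', hj]
      exact Int.floor_le _
    have hj2 : ∀ i, clamp R (t i) ≤ ((j i + 1 : ℤ) : ℝ) / M := by
      intro i
      rw [le_div_iff₀ hM', hj]
      push_cast
      exact (Int.lt_floor_add_one _).le
    have hj3 : ∀ i, -(R * M : ℤ) ≤ j i ∧ j i ≤ R * M := by
      intro i
      have h1 := clamp_mem R (t i) hR0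
      rw [hj]
      unfold lo
      constructor
      · rw [Int.le_floor]
        push_cast
        nlinarith [h1.1]
      · have h2 : ((⌊clamp (R : ℝ) (t i) * M⌋ : ℤ) : ℝ) ≤ (R * M : ℤ) := by
          refine (Int.floor_le _).trans ?_
          push_cast
          exact mul_le_mul_of_nonneg_right h1.2 hM'.le
        exact_mod_cast h2
    have g1 := htest j (fun i => ⟨(hj3 i).1, by linarith [(hj3 i).2]⟩)
    have g2 := htest (fun i => j i + 1) (fun i => ⟨by linarith [(hj3 i).1], by linarith [(hj3 i).2]⟩)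
    have m1 : emp1 Om S (fun i => (j i : ℝ) / M) ≤ emp1 Om S (fun i => clamp R (t i)) :=
      emp1_mono Om S hj1
    have m2 : emp1 Om S (fun i => clamp R (t i)) ≤ emp1 Om S (fun i => ((j i + 1 : ℤ) : ℝ) / M) :=
      emp1_mono Om S hj2
    have hstep : ∀ i, ((j i + 1 : ℤ) : ℝ) / M - (j i : ℝ) / M = 1 / M := by
      intro i
      push_cast
      rw [add_div]
      ring
    have p1 : |∏ i, Ph ((j i : ℝ) / M) - ∏ i, Ph (clamp R (t i))| ≤ k * ε₁ := by
      refine (prod_close _ _ (fun _ => ⟨Ph_nonneg _, Ph_le_one _⟩)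
        (fun _ => ⟨Ph_nonneg _, Ph_le_one _⟩)).trans ?_
      calc _ ≤ ∑ _i : Fin k, ε₁ := sum_le_sum fun i _ => by
            rw [abs_sub_comm, abs_of_nonneg (by linarith [Ph_mono (hj1 i)])]
            have := Ph_lip (hj1 i)
            have := hstep i
            have := hj2 i
            linarith
        _ = k * ε₁ := by rw [sum_const, card_univ, Fintype.card_fin, nsmul_eq_mul]
    have p2 : |∏ i, Ph (((j i + 1 : ℤ) : ℝ) / M) - ∏ i, Ph (clamp R (t i))| ≤ k * ε₁ := by
      refine (prod_close _ _ (fun _ => ⟨Ph_nonneg _, Ph_le_one _⟩)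
        (fun _ => ⟨Ph_nonneg _, Ph_le_one _⟩)).trans ?_
      calc _ ≤ ∑ _i : Fin k, ε₁ := sum_le_sum fun i _ => by
            rw [abs_of_nonneg (by linarith [Ph_mono (hj2 i)])]
            have := Ph_lip (hj2 i)
            have := hstep i
            have := hj1 i
            linarith
        _ = k * ε₁ := by rw [sum_const, card_univ, Fintype.card_fin, nsmul_eq_mul]
    have hmid : |emp1 Om S (fun i => clamp R (t i)) - ∏ i, Ph (clamp R (t i))| ≤ ε₁ + k * ε₁ := by
      rw [abs_le] at g1 g2 p1 p2 ⊢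
      constructor <;> linarith [g1.1, g1.2, g2.1, g2.2, p1.1, p1.2, p2.1, p2.2]
    have e3 : emp1 Om S t - ∏ i, Ph (t i) =
        (emp1 Om S t - emp1 Om S (fun i => clamp R (t i))) +
        (emp1 Om S (fun i => clamp R (t i)) - ∏ i, Ph (clamp R (t i))) -
        (∏ i, Ph (t i) - ∏ i, Ph (clamp R (t i))) := by ring
    rw [e3]
    have t1 := abs_sub ((emp1 Om S t - emp1 Om S (fun i => clamp R (t i))) +
        (emp1 Om S (fun i => clamp R (t i)) - ∏ i, Ph (clamp R (t i))))
        (∏ i, Ph (t i) - ∏ i, Ph (clamp R (t i)))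
    have t2 := abs_add_le (emp1 Om S t - emp1 Om S (fun i => clamp R (t i)))
        (emp1 Om S (fun i => clamp R (t i)) - ∏ i, Ph (clamp R (t i)))
    nlinarith
  unfold emp1 Ph at hgoal
  convert hgoal using 4

end Pool.Agent.H19.TM
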