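import Pool.Agent.H19.TM.Core2
import Pool.Agent.H19.TM.Lev

/-!
# Project TM2: the centred Gaussian law for windows of length `b`, `A log b ≤ log y`, from the modules
-/

set_option autoImplicit false

namespace Pool.Agent.H19.TM

open Finset Pool.Agent.Y862.GM

/-- facts on the sizes of the parameters -/
lemma sizes2 (q A b y Y : ℕ) (hb3 : 3 ≤ b) (hA2 : 2 ≤ A) (hqA : q ≤ A)
    (h1 : (A : ℝ) * Real.log b ≤ Real.log y)
    (h2 : (y : ℝ) ^ (A * (Real.log b + Real.log (Real.log y))) ≤ Y) :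
    1 ≤ Real.log b ∧ Real.log b ≤ Real.log y ∧ b ≤ y ∧ b ^ q ≤ y ∧
    0 ≤ Real.log (Real.log y) ∧ 0 < Y ∧ y * y ≤ Y ∧ 1 < y ∧
    ∀ A' : ℕ, A' * q ≤ A → 1 ≤ q →
      (y : ℝ) ^ (A' * (q * Real.log b + Real.log (Real.log y))) ≤ Y := by
  have hb3' : (3 : ℝ) ≤ b := by exact_mod_cast hb3
  have hb0 : (0 : ℝ) < b := by linarith
  have hlb1 : 1 ≤ Real.log b := by
    rw [← Real.log_exp 1]
    apply Real.log_le_log (Real.exp_pos _)
    linarith [Real.exp_one_lt_d9]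
  have hA2' : (2 : ℝ) ≤ A := by exact_mod_cast hA2
  have hly : Real.log b ≤ Real.log y := by nlinarith
  have hy0 : (0 : ℝ) < y := by
    rcases Nat.eq_zero_or_pos y with h | h
    · rw [h] at hly
      simp at hly
      linarith
    · exact_mod_cast h
  have hby : b ≤ y := by
    have : (b : ℝ) ≤ y := (Real.log_le_log_iff hb0 hy0).1 hly
    exact_mod_cast this
  have hbq : b ^ q ≤ y := by
    have h3 : Real.log ((b : ℝ) ^ q) ≤ Real.log y := by
      rw [Real.log_pow]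
      have h5 : (q : ℝ) ≤ A := by exact_mod_cast hqA
      exact le_trans (mul_le_mul_of_nonneg_right h5 (by linarith)) h1
    have h4 : (b : ℝ) ^ q ≤ y := (Real.log_le_log_iff (by positivity) hy0).1 h3
    exact_mod_cast h4
  have hly1 : 1 ≤ Real.log y := by linarith
  have hlly : 0 ≤ Real.log (Real.log y) := Real.log_nonneg hly1
  have hy1 : (1 : ℝ) < y := by
    by_contra hcon
    rw [not_lt] at hcon
    have := Real.log_nonpos hy0.le hcon
    linarith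
  have hYpos : (0 : ℝ) < Y := (Real.rpow_pos_of_pos hy0 _).trans_le h2
  refine ⟨hlb1, hly, hby, hbq, hlly, by exact_mod_cast hYpos, ?_, by exact_mod_cast hy1, ?_⟩
  · have h3 : ((y * y : ℕ) : ℝ) ≤ Y := by
      push_cast
      calc (y : ℝ) * y = (y : ℝ) ^ (2 : ℝ) := by rw [Real.rpow_two]; ring
        _ ≤ (y : ℝ) ^ (A * (Real.log b + Real.log (Real.log y))) := by
          apply Real.rpow_le_rpow_of_exponent_le hy1.le
          nlinarith
        _ ≤ Y := h2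
    exact_mod_cast h3
  · intro A' hA' hq1
    refine le_trans ?_ h2
    apply Real.rpow_le_rpow_of_exponent_le hy1.le
    have hq1' : (1 : ℝ) ≤ q := by exact_mod_cast hq1
    have hA'' : (A' : ℝ) * q ≤ A := by exact_mod_cast hA'
    have h3 : (A' : ℝ) * (q * Real.log b + Real.log (Real.log y)) ≤
        A' * (q * (Real.log b + Real.log (Real.log y))) := by
      apply mul_le_mul_of_nonneg_left _ (Nat.cast_nonneg _)
      nlinarith
    refine h3.trans ?_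
    rw [← mul_assoc]
    exact mul_le_mul_of_nonneg_right hA'' (by linarith)

theorem char_main2 (h1 : S_RAD1) (h2 : S_RAD2) (h3 : S_RAD3) (h4 : S_COS2) (hCMP : S_CMP2) (hCF2 : S_CF2)
    (hMI : S_MI1) (hVAR : S_VAR) (hTUP : S_TUP2) (hVV : S_VV) (hSQ : S_SQ)
    (k : ℕ) (hk : 1 ≤ k) (T δ : ℝ) (hT : 1 ≤ T) (hδ : 0 < δ) :
    ∃ A : ℕ, ∀ y b Z Y : ℕ, A ≤ b → (A : ℝ) * Real.log b ≤ Real.log y →
      (y : ℝ) ^ (A * (Real.log b + Real.log (Real.log y))) ≤ Y → 0 < Y ∧ ∀ w : Fin k → ℝ, (∀ i, |w i| ≤ T) →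
      ‖(∑ x ∈ Ioc Z (Z + Y), Complex.exp (Complex.I * ((∑ i : Fin k, w i *
        ((∑ n ∈ Ioc (x + i * b) (x + i * b + b), mu y n - b * V (pr y)) / √(6 * b / Real.pi ^ 2)) : ℝ) : ℂ))) /
        ((Ioc Z (Z + Y)).card : ℂ) - ((Real.exp (-(∑ i, w i ^ 2) / 2) : ℝ) : ℂ)‖ ≤ δ := by
  have hT0 : 0 < T := by linarith
  have hk' : (1 : ℝ) ≤ k := by exact_mod_cast hk
  obtain ⟨B, hB⟩ : ∃ B : ℝ, B = k * T ^ 2 * (Real.pi ^ 2 / 6) := ⟨_, rfl⟩
  have hB0 : 0 ≤ B := by rw [hB]; positivity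
  obtain ⟨m, hm⟩ : ∃ m : ℕ, 4 * Real.exp (256 * B) / 64 ^ m ≤ δ / 8 := by
    obtain ⟨N, hN⟩ := exists_nat_ge (4 * Real.exp (256 * B) / (δ / 8))
    refine ⟨N, ?_⟩
    have h5 : (N : ℝ) ≤ 64 ^ N := by
      have : N ≤ 64 ^ N := by
        calc N ≤ 2 ^ N := Nat.lt_two_pow_self.le
          _ ≤ 64 ^ N := Nat.pow_le_pow_left (by norm_num) N
      exact_mod_cast this
    rw [div_le_iff₀ (by positivity)] at hN ⊢
    calc 4 * Real.exp (256 * B) ≤ N * (δ / 8) := hN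
      _ ≤ 64 ^ N * (δ / 8) := by gcongr
      _ = δ / 8 * 64 ^ N := by ring
  obtain ⟨A1, hMI'⟩ := hMI
  obtain ⟨CV, hCV1, hVAR'⟩ := hVAR
  choose Ct At hTUP' using hTUP
  obtain ⟨C2, hC2⟩ : ∃ C2 : ℕ, C2 = ∑ j ∈ range (2 * m + 1), Ct j := ⟨_, rfl⟩
  obtain ⟨A2, hA2⟩ : ∃ A2 : ℕ, A2 = ∑ j ∈ range (2 * m + 1), At j := ⟨_, rfl⟩
  obtain ⟨c, C3, hc0, hC30, hV⟩ := hVV
  obtain ⟨Cd, hCd⟩ : ∃ Cd : ℝ, Cd = C3 / c := ⟨_, rfl⟩
  have hCd0 : 0 < Cd := by rw [hCd]; positivity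
  obtain ⟨εs, hεs⟩ : ∃ εs : ℝ, εs = δ / (8 * T ^ 2 * k) := ⟨_, rfl⟩
  have hεs0 : 0 < εs := by rw [hεs]; positivity
  obtain ⟨A3, hSQ'⟩ := hSQ εs hεs0
  obtain ⟨εd, hεd⟩ : ∃ εd : ℝ, εd = δ / 8 := ⟨_, rfl⟩
  have hεd0 : 0 < εd := by rw [hεd]; positivity
  obtain ⟨q, hq⟩ : ∃ q : ℕ, q = 2 * m + 2 := ⟨_, rfl⟩
  have hq0 : (0 : ℝ) < q := by rw [hq]; positivity
  obtain ⟨K1, hK1⟩ : ∃ K1 : ℝ, K1 = 2 * k ^ 3 * T ^ 2 * (CV + 4) := ⟨_, rfl⟩
  have hK10 : 0 ≤ K1 := by rw [hK1]; positivity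
  obtain ⟨τ0, hτ0⟩ : ∃ τ0 : ℝ, τ0 = min (1 / 2) (δ / (8 * (B + 1))) := ⟨_, rfl⟩
  have hτ0pos : 0 < τ0 := by rw [hτ0]; positivity
  obtain ⟨K4, hK4⟩ : ∃ K4 : ℝ, K4 = 4 * ((8 * k ^ 2 * T ^ 2) ^ m * (C2 + 2)) := ⟨_, rfl⟩
  have hK40 : 0 ≤ K4 := by rw [hK4]; positivity
  obtain ⟨N1, hN1⟩ := exists_nat_ge (Cd * q ^ 2 * (B / (δ / 8) + K1 / εd / (δ / 8)))
  obtain ⟨N2, hN2⟩ := exists_nat_ge (2 * T ^ 2 / τ0 ^ 2)
  obtain ⟨N3, hN3⟩ := exists_nat_ge (K4 / (δ / 8))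
  refine ⟨N1 + N2 + N3 + A1 * q + A2 * q + A3 + k + q + 3, ?_⟩
  intro y b Z Y hAb hlog hYy
  obtain ⟨A, hA⟩ : ∃ A : ℕ, A = N1 + N2 + N3 + A1 * q + A2 * q + A3 + k + q + 3 := ⟨_, rfl⟩
  rw [← hA] at hAb hlog hYy
  obtain ⟨hlb1, hlbly, hby, hbqy, hlly, hY, hyyY, hy1, hexp⟩ :=
    sizes2 q A b y Y (by omega) (by omega) (by omega) hlog hYy
  refine ⟨hY, ?_⟩
  intro w hw
  obtain ⟨lb, hlb⟩ : ∃ lb : ℝ, lb = Real.log b := ⟨_, rfl⟩
  obtain ⟨ly, hly⟩ : ∃ ly : ℝ, ly = Real.log y := ⟨_, rfl⟩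
  obtain ⟨r, hr⟩ : ∃ r : ℕ, r = b ^ q := ⟨_, rfl⟩
  have hb3 : 3 ≤ b := by omega
  have hb1 : 1 ≤ b := by omega
  have hb1' : (1 : ℝ) ≤ b := by exact_mod_cast hb1
  have hb0' : (0 : ℝ) < b := by linarith
  have hry : r ≤ y := by rw [hr]; exact hbqy
  have hbr : b ≤ r := by
    rw [hr]
    calc b = b ^ 1 := (pow_one b).symm
      _ ≤ b ^ q := Nat.pow_le_pow_right hb1 (by omega)
  have hrR : (r : ℝ) = (b : ℝ) ^ q := by rw [hr]; push_cast; rfl
  have hr0 : (0 : ℝ) < r := by rw [hrR]; positivity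
  have hlogr : Real.log r = q * lb := by rw [hrR, Real.log_pow, hlb]
  have hly1 : 1 ≤ ly := by rw [hly]; linarith
  have hlb1' : 1 ≤ lb := by rw [hlb]; exact hlb1
  have hlb0 : 0 < lb := by linarith
  have hly0 : 0 < ly := by linarith
  have hY0 : (0 : ℝ) < Y := by exact_mod_cast hY
  have hA1' : (1 : ℝ) ≤ A := by
    have : 1 ≤ A := by omega
    exact_mod_cast this
  -- lam
  obtain ⟨lam, hlam⟩ : ∃ lam : ℝ, lam = q * Real.log b + Real.log (Real.log y) := ⟨_, rfl⟩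
  have hlamge : Real.log (Real.log y) ≤ lam := by
    rw [hlam]
    have : 0 ≤ (q : ℝ) * Real.log b := by positivity
    linarith
  have helam : Real.exp (-lam) ≤ 1 / r := by
    rw [Real.exp_neg, one_div]
    apply inv_anti₀ hr0
    have h5 : (r : ℝ) = Real.exp (q * Real.log b) := by
      rw [Real.exp_nat_mul, Real.exp_log hb0', hrR]
    rw [h5, hlam]
    exact Real.exp_le_exp.2 (by linarith)
  have helam0 : 0 < Real.exp (-lam) := Real.exp_pos _
  -- sigma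
  obtain ⟨hσ0, hσ2, hσsq⟩ := sigma_facts b hb1
  obtain ⟨σ, hσ⟩ : ∃ σ, σ = √(6 * b / Real.pi ^ 2) := ⟨_, rfl⟩
  rw [← hσ] at hσ0 hσ2 hσsq
  have hτsq : (T / σ) ^ 2 ≤ 2 * T ^ 2 / b := by
    rw [div_pow, hσsq, div_le_div_iff₀ (by positivity) hb0']
    have hpi : Real.pi ^ 2 ≤ 12 := by
      have := Real.pi_lt_d2
      have := Real.pi_pos
      nlinarith
    have : (b : ℝ) ≤ 2 * (6 * b / Real.pi ^ 2) := by
      rw [← mul_div_assoc, le_div_iff₀ (by positivity)]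
      nlinarith
    nlinarith [sq_nonneg T]
  have hτnn : 0 ≤ T / σ := by positivity
  have hτle : T / σ ≤ τ0 := by
    have h5 : (T / σ) ^ 2 ≤ τ0 ^ 2 := by
      refine hτsq.trans ?_
      rw [div_le_iff₀ hb0']
      have h6 : 2 * T ^ 2 / τ0 ^ 2 ≤ b := hN2.trans (by exact_mod_cast (by omega : N2 ≤ b))
      rw [div_le_iff₀ (by positivity)] at h6
      linarith
    exact (sq_le_sq₀ hτnn hτ0pos.le).1 h5
  -- the mean of the signs
  obtain ⟨d, hd⟩ : ∃ d : ℝ, d = V (pr y) / V (pr r) := ⟨_, rfl⟩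
  have hVr := V_pos (pr r) (pr_prime r)
  have hVy := V_pos (pr y) (pr_prime y)
  have hd0 : 0 ≤ d := by rw [hd]; positivity
  have hd1 : d ≤ 1 := by
    rw [hd, div_le_one hVr]
    exact V_anti hry
  have hdle : d ≤ Cd * (q * lb) ^ 2 / ly ^ 2 := by
    have h5 := (hV y (by omega)).2
    have h6 := (hV r (by omega)).1
    rw [← hly] at h5
    rw [hlogr] at h6
    rw [hd, div_le_iff₀ hVr]
    have h7 : Cd * (q * lb) ^ 2 / ly ^ 2 * (c / (q * lb) ^ 2) = C3 / ly ^ 2 := by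
      rw [hCd]
      field_simp
    calc V (pr y) ≤ C3 / ly ^ 2 := h5
      _ = Cd * (q * lb) ^ 2 / ly ^ 2 * (c / (q * lb) ^ 2) := h7.symm
      _ ≤ _ := mul_le_mul_of_nonneg_left h6 (by positivity)
  have hdA : d * A ≤ Cd * q ^ 2 := by
    have h5 : (A : ℝ) * lb ≤ ly := by rw [hly, hlb]; exact hlog
    have h6 : (A : ℝ) * lb ^ 2 ≤ ly ^ 2 := by
      calc (A : ℝ) * lb ^ 2 ≤ (A * lb) ^ 2 := by
            rw [mul_pow]
            apply mul_le_mul_of_nonneg_right _ (sq_nonneg _)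
            nlinarith
        _ ≤ ly ^ 2 := pow_le_pow_left₀ (by positivity) h5 2
    calc d * A ≤ Cd * (q * lb) ^ 2 / ly ^ 2 * A := mul_le_mul_of_nonneg_right hdle (by linarith)
      _ = Cd * q ^ 2 * (A * lb ^ 2 / ly ^ 2) := by ring
      _ ≤ Cd * q ^ 2 * 1 := by
          apply mul_le_mul_of_nonneg_left _ (by positivity)
          rw [div_le_one (by positivity)]
          exact h6
      _ = Cd * q ^ 2 := mul_one _
  have hsmall : d * (B / (δ / 8) + K1 / εd / (δ / 8)) ≤ 1 := by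
    have h5 : (N1 : ℝ) ≤ A := by exact_mod_cast (by omega : N1 ≤ A)
    have h6 : 0 ≤ B / (δ / 8) + K1 / εd / (δ / 8) := by positivity
    have h7 : d * (B / (δ / 8) + K1 / εd / (δ / 8)) * A ≤ 1 * A := by
      calc d * (B / (δ / 8) + K1 / εd / (δ / 8)) * A = (d * A) * (B / (δ / 8) + K1 / εd / (δ / 8)) := by ring
        _ ≤ Cd * q ^ 2 * (B / (δ / 8) + K1 / εd / (δ / 8)) := mul_le_mul_of_nonneg_right hdA h6
        _ ≤ A := hN1.trans h5
        _ = 1 * A := (one_mul _).symm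
    exact le_of_mul_le_mul_right h7 (by linarith)
  -- the moments
  obtain ⟨MM, hMM⟩ : ∃ MM : ℝ, MM = (CV + 4) * b := ⟨_, rfl⟩
  have hMM0 : 0 ≤ MM := by rw [hMM]; positivity
  obtain ⟨MD, hMD⟩ : ∃ MD : ℝ, MD = (k * (T / σ) * d) ^ (2 * 1) * (k * MM) := ⟨_, rfl⟩
  have hMDle : MD ≤ K1 * d := by
    rw [hMD, hMM, hK1]
    calc (k * (T / σ) * d) ^ (2 * 1) * (k * ((CV + 4) * b)) =
          k ^ 3 * (CV + 4) * b * ((T / σ) ^ 2 * (d * d)) := by ring
      _ ≤ k ^ 3 * (CV + 4) * b * ((2 * T ^ 2 / b) * (d * 1)) := by gcongr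
      _ = 2 * k ^ 3 * T ^ 2 * (CV + 4) * d := by
          field_simp
  -- application of the core
  have hcore := core2 h1 h2 h3 h4 hCMP hCF2 k hk T hT m y r b Z Y hry hb1 hY w hw d σ B
    (C2 / r + 2 * Real.exp (-lam)) MM εs εd MD hd hσ hB (by positivity) hεd0
    (hτle.trans (by rw [hτ0]; exact min_le_left _ _))
    (by
      intro j hj g hg I
      have hjm : j ∈ range (2 * m + 1) := mem_range.2 (by omega)
      have hAtj : At j ≤ A2 := by rw [hA2]; exact single_le_sum (fun _ _ => Nat.zero_le _) hjm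
      have hCtj : Ct j ≤ C2 := by rw [hC2]; exact single_le_sum (fun _ _ => Nat.zero_le _) hjm
      have hA2q : A2 ≤ A2 * q := Nat.le_mul_of_pos_right _ (by omega)
      have h5 := hTUP' j y r (by omega) hry lam hlamge Z Y (by
        rw [hlam]
        exact hexp (At j) ((Nat.mul_le_mul_right q hAtj).trans (by omega)) (by omega)) g (by
          intro l
          have h6 := (mem_Ioc.1 (hg l)).2
          calc g l ≤ k * b := h6
            _ ≤ b * b := Nat.mul_le_mul_right _ (by omega)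
            _ = b ^ 2 := (sq b).symm
            _ ≤ b ^ q := Nat.pow_le_pow_right hb1 (by omega)
            _ = r := hr.symm) I
      rw [← hd] at h5
      refine h5.trans ?_
      apply mul_le_mul_of_nonneg_right _ hY0.le
      have h6 : (Ct j : ℝ) ≤ C2 := by exact_mod_cast hCtj
      gcongr)
    (by
      intro a
      have hA1q : A1 ≤ A1 * q := Nat.le_mul_of_pos_right _ (by omega)
      have h5 := hMI' y r (by omega) hry lam hlamge Z Y (by
        rw [hlam]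
        exact hexp A1 (by omega) (by omega)) a b hb1
      have h6 := (abs_le.1 h5).2
      have h7 := (hVAR' (pr r) (pr_prime r) b).2
      have h8 : (2 * (b : ℝ)) ^ 2 * Real.exp (-lam) ≤ 4 * b := by
        calc (2 * (b : ℝ)) ^ 2 * Real.exp (-lam) ≤ (2 * (b : ℝ)) ^ 2 * (1 / r) := by gcongr
          _ ≤ (2 * (b : ℝ)) ^ 2 * (1 / b) := by
              have : (b : ℝ) ≤ r := by exact_mod_cast hbr
              gcongr
          _ = 4 * b := by
              field_simp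
              ring
      rw [← div_le_iff₀ hY0, hMM, mul_one]
      linarith)
    (by
      intro i
      have h5 : A3 * r ≤ Y := by
        calc A3 * r ≤ y * y := Nat.mul_le_mul (by omega) hry
          _ ≤ Y := hyyY
      have h7 := hSQ' r b (Z + i * b) Y (by omega) (by omega) h5
      refine le_trans (le_of_eq ?_) h7
      have e1 := sum_shift ((i : ℕ) * b) Z Y (fun x => |(∑ n ∈ Ioc x (x + b), mu r n ^ 2) / b -
        6 / Real.pi ^ 2|)
      rw [show (i : ℕ) * b + Z = Z + i * b by ring] at e1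
      rw [← e1]
      apply sum_congr rfl
      intro x _
      rw [show x + (i : ℕ) * b = i * b + x by ring])
    hMD
  refine hcore.trans ?_
  -- the sum of the errors
  have g1 : 4 * ((2 * (T / σ) * (k * b)) ^ (2 * m) * (C2 / r + 2 * Real.exp (-lam))) ≤ δ / 8 := by
    have h5 : (2 * (T / σ) * (k * b)) ^ (2 * m) ≤ (8 * k ^ 2 * T ^ 2) ^ m * (b : ℝ) ^ m := by
      rw [pow_mul, ← mul_pow]
      apply pow_le_pow_left₀ (sq_nonneg _)
      calc (2 * (T / σ) * (k * b)) ^ 2 = 4 * k ^ 2 * b ^ 2 * (T / σ) ^ 2 := by ring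
        _ ≤ 4 * k ^ 2 * b ^ 2 * (2 * T ^ 2 / b) := by gcongr
        _ = 8 * k ^ 2 * T ^ 2 * b := by
            field_simp
            ring
    have h6 : (C2 / r + 2 * Real.exp (-lam)) ≤ (C2 + 2) / (b : ℝ) ^ q := by
      rw [← hrR, add_div]
      have : 2 * Real.exp (-lam) ≤ 2 / r := by
        calc 2 * Real.exp (-lam) ≤ 2 * (1 / r) := by gcongr
          _ = 2 / r := by ring
      linarith
    have h7 : K4 / (δ / 8) ≤ b := hN3.trans (by exact_mod_cast (by omega : N3 ≤ b))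
    rw [div_le_iff₀ (by positivity)] at h7
    calc 4 * ((2 * (T / σ) * (k * b)) ^ (2 * m) * (C2 / r + 2 * Real.exp (-lam))) ≤
          4 * ((8 * k ^ 2 * T ^ 2) ^ m * (b : ℝ) ^ m * ((C2 + 2) / (b : ℝ) ^ q)) := by gcongr
      _ = K4 * ((b : ℝ) ^ m / (b : ℝ) ^ q) := by rw [hK4]; ring
      _ ≤ K4 * (1 / b) := by
          apply mul_le_mul_of_nonneg_left _ hK40
          rw [div_le_div_iff₀ (by positivity) hb0', one_mul, ← pow_succ]
          exact pow_le_pow_right₀ hb1' (by omega)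
      _ ≤ δ / 8 := by
          rw [mul_one_div, div_le_iff₀ hb0']
          linarith
  have hBd : d * (B / (δ / 8)) ≤ 1 := by
    have h5 : 0 ≤ d * (K1 / εd / (δ / 8)) := by positivity
    rw [mul_add] at hsmall
    linarith
  have hKd : d * (K1 / εd / (δ / 8)) ≤ 1 := by
    have h5 : 0 ≤ d * (B / (δ / 8)) := by positivity
    rw [mul_add] at hsmall
    linarith
  have g2 : MD / εd ^ (2 * 1 - 1) ≤ δ / 8 := by
    have e5 : εd ^ (2 * 1 - 1) = εd := by norm_num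
    rw [e5]
    calc MD / εd ≤ K1 * d / εd := by gcongr
      _ = d * (K1 / εd / (δ / 8)) * (δ / 8) := by
          field_simp
      _ ≤ 1 * (δ / 8) := mul_le_mul_of_nonneg_right hKd (by positivity)
      _ = δ / 8 := one_mul _
  have g3 : T / σ * B ≤ δ / 8 := by
    have h5 : T / σ ≤ δ / (8 * (B + 1)) := hτle.trans (by rw [hτ0]; exact min_le_right _ _)
    calc T / σ * B ≤ δ / (8 * (B + 1)) * (B + 1) := by
          apply mul_le_mul h5 (by linarith) hB0 (by positivity)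
      _ = δ / 8 := by field_simp
  have g4 : d ^ 2 * B ≤ δ / 8 := by
    calc d ^ 2 * B ≤ d * B := by
          apply mul_le_mul_of_nonneg_right _ hB0
          nlinarith
      _ = d * (B / (δ / 8)) * (δ / 8) := by field_simp
      _ ≤ 1 * (δ / 8) := mul_le_mul_of_nonneg_right hBd (by positivity)
      _ = δ / 8 := one_mul _
  have g5 : T ^ 2 * k * εs = δ / 8 := by
    rw [hεs]
    field_simp
  have g6 : εd = δ / 8 := hεd
  have e9 : 4 * ((2 * (T / σ) * (k * b)) ^ (2 * m) * (C2 / r + 2 * Real.exp (-lam))) +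
      4 * Real.exp (256 * B) / 64 ^ m + (T / σ + d ^ 2) * B + T ^ 2 * k * εs + (εd +
      MD / εd ^ (2 * 1 - 1)) =
      4 * ((2 * (T / σ) * (k * b)) ^ (2 * m) * (C2 / r + 2 * Real.exp (-lam))) +
      4 * Real.exp (256 * B) / 64 ^ m + MD / εd ^ (2 * 1 - 1) + T / σ * B + d ^ 2 * B +
      T ^ 2 * k * εs + εd := by ring
  rw [e9]
  linarith

end Pool.Agent.H19.TM
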