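import Pool.Agent.H19.TM.Unc
import Pool.Agent.H97.TM.J3

/-!
# Project TM2: the limit laws without centring, for every limit of `b / (log y) ^ 4`
-/

set_option autoImplicit false

namespace Pool.Agent.H19.TM

open Finset Pool.Agent.Y862.GM Filter Topology

/-- the limit of the mean of the normalised window sum if `b / (log y) ^ 4 → c` -/
noncomputable def dr (c : ℝ) : ℝ := √c * Real.exp (-(2 * Real.eulerMascheroniConstant)) * (Real.pi / √6)

lemma dr_nonneg (c : ℝ) : 0 ≤ dr c := by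
  unfold dr
  positivity

lemma dr_inj {a c : ℝ} (ha : 0 ≤ a) (hc : 0 ≤ c) (h : dr a = dr c) : a = c := by
  unfold dr at h
  have h1 : 0 < Real.exp (-(2 * Real.eulerMascheroniConstant)) := Real.exp_pos _
  have h2 : 0 < Real.pi / √6 := by positivity
  have h3 := mul_right_cancel₀ h2.ne' h
  have h4 := mul_right_cancel₀ h1.ne' h3
  exact (Real.sqrt_inj ha hc).1 h4

lemma Ph_inj {s t : ℝ} (h : Ph s = Ph t) : s = t := by
  rcases lt_trichotomy s t with h1 | h1 | h1
  · exact absurd h (Ph_strict h1).ne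
  · exact h1
  · exact absurd h.symm (Ph_strict h1).ne

lemma Ph_pos (s : ℝ) : 0 < Ph s := (Ph_nonneg (s - 1)).trans_lt (Ph_strict (by linarith))

lemma Ph_lip2 (u v : ℝ) : |Ph u - Ph v| ≤ |u - v| := by
  rcases le_total u v with h | h
  · have h1 := Ph_mono h
    have h2 := Ph_lip h
    rw [abs_sub_comm, abs_of_nonneg (by linarith), abs_sub_comm, abs_of_nonneg (by linarith)]
    exact h2
  · have h1 := Ph_mono h
    have h2 := Ph_lip h
    rw [abs_of_nonneg (by linarith), abs_of_nonneg (by linarith)]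
    exact h2

section

variable {y b Z Y : ℕ → ℕ}

lemma V_lim (hy : Tendsto y atTop atTop) : Tendsto (fun n => V (pr (y n)) * Real.log (y n) ^ 2) atTop
    (𝓝 (Real.exp (-(2 * Real.eulerMascheroniConstant)))) := by
  have h := (Pool.Agent.H97.TM.mertens_prod.comp hy).pow 2
  rw [← Real.exp_nat_mul] at h
  have e : ((2 : ℕ) : ℝ) * -Real.eulerMascheroniConstant = -(2 * Real.eulerMascheroniConstant) := by
    push_cast
    ring
  rw [e] at h
  refine h.congr fun n => ?_
  simp only [Function.comp]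
  unfold V
  rw [mul_pow, prod_pow]

lemma sd_eq (b : ℕ) : sd b = √6 * √(b : ℝ) / Real.pi := by
  unfold sd
  rw [Real.sqrt_div (by positivity), Real.sqrt_mul (by norm_num), Real.sqrt_sq Real.pi_pos.le]

lemma shift_lim (hy : Tendsto y atTop atTop) (hb : Tendsto b atTop atTop) (c : ℝ)
    (h : Tendsto (fun n => (b n : ℝ) / Real.log (y n) ^ 4) atTop (𝓝 c)) :
    Tendsto (fun n => b n * V (pr (y n)) / sd (b n)) atTop (𝓝 (dr c)) := by
  have h1 := ((Real.continuous_sqrt.tendsto c).comp h).mul (V_lim hy)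
  have h2 := h1.mul_const (Real.pi / √6)
  refine h2.congr' ?_
  filter_upwards [ev_ge hb 1, ev_log_large hy 1] with n g1 g2
  have hb0 : (0 : ℝ) < b n := by exact_mod_cast g1
  have hl : 0 < Real.log (y n) := by linarith
  have e1 : √((b n : ℝ) / Real.log (y n) ^ 4) = √(b n : ℝ) / Real.log (y n) ^ 2 := by
    rw [Real.sqrt_div hb0.le, show Real.log (y n) ^ 4 = (Real.log (y n) ^ 2) ^ 2 by ring,
      Real.sqrt_sq (by positivity)]
  have e3 : √(b n : ℝ) ^ 2 = b n := Real.sq_sqrt hb0.le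
  have h5 : √(b n : ℝ) ≠ 0 := (Real.sqrt_pos.2 hb0).ne'
  have h6 : √(6 : ℝ) ≠ 0 := (Real.sqrt_pos.2 (by norm_num)).ne'
  simp only [Function.comp]
  rw [e1, sd_eq]
  field_simp
  rw [e3]
  ring

lemma small_log_c (hy : Tendsto y atTop atTop) (hb : Tendsto b atTop atTop) (c : ℝ) (hc : 0 ≤ c)
    (h : Tendsto (fun n => (b n : ℝ) / Real.log (y n) ^ 4) atTop (𝓝 c)) :
    Tendsto (fun n => Real.log (b n) / Real.log (y n)) atTop (𝓝 0) := by
  have hly : Tendsto (fun n => Real.log (y n)) atTop atTop :=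
    Real.tendsto_log_atTop.comp (tendsto_natCast_atTop_atTop.comp hy)
  have h1 : Tendsto (fun n => Real.log (c + 1) / Real.log (y n)) atTop (𝓝 0) := hly.const_div_atTop _
  have h2 : Tendsto (fun n => Real.log (Real.log (y n)) / Real.log (y n)) atTop (𝓝 0) :=
    Real.isLittleO_log_id_atTop.tendsto_div_nhds_zero.comp hly
  have h3 := h1.add (h2.const_mul 4)
  rw [mul_zero, add_zero] at h3
  refine squeeze_zero' ?_ ?_ h3
  · filter_upwards with n
    exact div_nonneg (Real.log_natCast_nonneg _) (Real.log_natCast_nonneg _)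
  · filter_upwards [h.eventually (gt_mem_nhds (by linarith : c < c + 1)), ev_log_large hy 1, ev_ge hb 1]
      with n g1 g2 g3
    have hl : 0 < Real.log (y n) := by linarith
    have hb0 : (0 : ℝ) < b n := by exact_mod_cast g3
    rw [div_lt_iff₀ (by positivity)] at g1
    have h4 : Real.log (b n) ≤ Real.log (c + 1) + 4 * Real.log (Real.log (y n)) := by
      calc Real.log (b n) ≤ Real.log ((c + 1) * Real.log (y n) ^ 4) := Real.log_le_log hb0 g1.le
        _ = _ := by
            rw [Real.log_mul (by positivity) (by positivity), Real.log_pow]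
            norm_num
    rw [← mul_div_assoc, ← add_div]
    exact div_le_div_of_nonneg_right h4 hl.le

theorem joint_c (hy : Tendsto y atTop atTop) (hb : Tendsto b atTop atTop) (hL : Long y b Y) (c : ℝ) (hc : 0 ≤ c)
    (h : Tendsto (fun n => (b n : ℝ) / Real.log (y n) ^ 4) atTop (𝓝 c)) :
    ∀ (k : ℕ) (ε : ℝ), 0 < ε → ∀ᶠ n in atTop, ∀ t : Fin k → ℝ,
      |law (y n) (b n) (Z n) (Y n) 0 (fun i => t i * sd (b n)) - ∏ i, Ph (t i - dr c)| ≤ ε := by
  have h0 := small_log_c hy hb c hc h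
  have h1 := ((centred (Z := Z) hy hb hL).out 3 1).1 h0
  intro k ε hε
  have hs := shift_lim hy hb c h
  rw [Metric.tendsto_nhds] at hs
  have hk : (0 : ℝ) < 2 * (k + 1) := by positivity
  filter_upwards [h1 k (ε / 2) (by positivity), hs (ε / (2 * (k + 1))) (by positivity), ev_ge hb 1] with n g1 g2 g3
  intro t
  obtain ⟨hs0, _⟩ := sd_facts g3
  rw [Real.dist_eq] at g2
  obtain ⟨s, hsdef⟩ : ∃ s : ℝ, s = b n * V (pr (y n)) / sd (b n) := ⟨_, rfl⟩
  rw [← hsdef] at g2
  have e : law (y n) (b n) (Z n) (Y n) 0 (fun i => t i * sd (b n)) =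
      law (y n) (b n) (Z n) (Y n) (b n * V (pr (y n))) (fun i => (t i - s) * sd (b n)) := by
    rw [law_shift (y n) (b n) (Z n) (Y n) (b n * V (pr (y n)))]
    have e2 : (fun i => t i * sd (b n) - b n * V (pr (y n))) = (fun i => (t i - s) * sd (b n)) := by
      funext i
      rw [hsdef]
      field_simp
    rw [e2]
  have g4 := g1 (fun i => t i - s)
  have g5 := prod_close (fun i => Ph (t i - s)) (fun i => Ph (t i - dr c))
    (fun i => ⟨Ph_nonneg _, Ph_le_one _⟩) (fun i => ⟨Ph_nonneg _, Ph_le_one _⟩)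
  have g6 : ∑ i : Fin k, |Ph (t i - s) - Ph (t i - dr c)| ≤ ε / 2 := by
    calc ∑ i : Fin k, |Ph (t i - s) - Ph (t i - dr c)| ≤ ∑ _i : Fin k, ε / (2 * (k + 1)) := by
          apply sum_le_sum
          intro i _
          have g7 := Ph_lip2 (t i - s) (t i - dr c)
          have g8 : |t i - s - (t i - dr c)| = |s - dr c| := by
            rw [abs_sub_comm s]
            congr 1
            ring
          linarith
      _ = k * (ε / (2 * (k + 1))) := by simp
      _ ≤ (k + 1) * (ε / (2 * (k + 1))) := by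
          apply mul_le_mul_of_nonneg_right _ (by positivity)
          linarith
      _ = ε / 2 := by field_simp
  rw [e]
  calc _ ≤ |law (y n) (b n) (Z n) (Y n) (b n * V (pr (y n))) (fun i => (t i - s) * sd (b n)) -
        ∏ i, Ph (t i - s)| + |∏ i, Ph (t i - s) - ∏ i, Ph (t i - dr c)| := abs_sub_le _ _ _
    _ ≤ ε / 2 + ε / 2 := add_le_add g4 (g5.trans g6)
    _ = ε := by ring

theorem point_c (hy : Tendsto y atTop atTop) (hb : Tendsto b atTop atTop) (hL : Long y b Y) (c : ℝ) (hc : 0 ≤ c)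
    (h : Tendsto (fun n => (b n : ℝ) / Real.log (y n) ^ 4) atTop (𝓝 c)) (t : ℝ) :
    Tendsto (fun n => law (y n) (b n) (Z n) (Y n) 0 (fun _ : Fin 1 => t * sd (b n))) atTop
      (𝓝 (Ph (t - dr c))) := by
  rw [Metric.tendsto_nhds]
  intro ε hε
  filter_upwards [joint_c (Z := Z) hy hb hL c hc h 1 (ε / 2) (by positivity)] with n hn
  have h1 := hn (fun _ => t)
  simp only [univ_unique, prod_const, card_singleton, pow_one] at h1
  rw [Real.dist_eq]
  linarith

lemma err_small (hy : Tendsto y atTop atTop) (hb : Tendsto b atTop atTop) (hL : Long y b Y) :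
    Tendsto (fun n => (msq (y n) (b n) (Z n) (Y n) 0 - msq (y n) (b n) (Z n) (Y n) (b n * V (pr (y n))) -
      (b n * V (pr (y n))) ^ 2) / (6 * b n / Real.pi ^ 2)) atTop (𝓝 0) := by
  obtain ⟨A1, hA1⟩ := msq_close
  obtain ⟨hpi9, hpi10⟩ := pi_facts
  have h7 : Tendsto (fun n => (7 : ℝ) / (b n : ℝ)) atTop (𝓝 0) :=
    (tendsto_natCast_atTop_atTop.comp hb).const_div_atTop 7
  refine squeeze_zero_norm' ?_ h7
  filter_upwards [ev_ge hy (A1 + 3), ev_ge hb 1, hL A1] with n g1 g2 g3
  obtain ⟨-, -, g6⟩ := hA1 (y n) (b n) (Z n) (Y n) (by omega) (by omega) g3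
  have hb0 : (0 : ℝ) < b n := by exact_mod_cast g2
  have h6 := six_pos g2
  rw [Real.norm_eq_abs, abs_div, abs_of_pos h6, div_le_div_iff₀ h6 hb0]
  calc _ ≤ 4 * (b n : ℝ) := mul_le_mul_of_nonneg_right g6 hb0.le
    _ ≤ 7 * (6 * b n / Real.pi ^ 2) := by
        have : 7 * (6 * b n / Real.pi ^ 2) = (42 / Real.pi ^ 2) * (b n : ℝ) := by ring
        rw [this]
        apply mul_le_mul_of_nonneg_right _ hb0.le
        rw [le_div_iff₀ (by positivity)]
        linarith

lemma shift_sq {n : ℕ} (h : 1 ≤ b n) : (b n * V (pr (y n)) / sd (b n)) ^ 2 =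
    (b n * V (pr (y n))) ^ 2 / (6 * b n / Real.pi ^ 2) := by
  rw [div_pow, (sd_facts h).2]

theorem msq_c (hy : Tendsto y atTop atTop) (hb : Tendsto b atTop atTop) (hL : Long y b Y) (c : ℝ) (hc : 0 ≤ c)
    (h : Tendsto (fun n => (b n : ℝ) / Real.log (y n) ^ 4) atTop (𝓝 c)) :
    Tendsto (fun n => msq (y n) (b n) (Z n) (Y n) 0 / (6 * b n / Real.pi ^ 2)) atTop (𝓝 (1 + dr c ^ 2)) := by
  have h0 := small_log_c hy hb c hc h
  have h1 := ((centred (Z := Z) hy hb hL).out 3 2).1 h0
  have h2 := (shift_lim hy hb c h).pow 2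
  have h3 := err_small (Z := Z) hy hb hL
  have h4 := (h1.add h2).add h3
  rw [add_zero] at h4
  refine h4.congr' ?_
  filter_upwards [ev_ge hb 1] with n g1
  rw [shift_sq g1, ← add_div, ← add_div]
  congr 1
  ring

lemma shift_top (hy : Tendsto y atTop atTop) (hb : Tendsto b atTop atTop)
    (h : Tendsto (fun n => (b n : ℝ) / Real.log (y n) ^ 4) atTop atTop) :
    Tendsto (fun n => (b n * V (pr (y n)) / sd (b n)) ^ 2) atTop atTop := by
  have h1 := (V_lim hy).pow 2
  have hpos : 0 < Real.exp (-(2 * Real.eulerMascheroniConstant)) ^ 2 := by positivity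
  have h2 := h.atTop_mul_pos hpos h1
  have h3 := h2.atTop_mul_const (by positivity : 0 < Real.pi ^ 2 / 6)
  refine h3.congr' ?_
  filter_upwards [ev_ge hb 1, ev_log_large hy 1] with n g1 g2
  have hb0 : (0 : ℝ) < b n := by exact_mod_cast g1
  have hl : 0 < Real.log (y n) := by linarith
  rw [shift_sq g1]
  field_simp

theorem msq_top (hy : Tendsto y atTop atTop) (hb : Tendsto b atTop atTop) (hL : Long y b Y)
    (h : Tendsto (fun n => (b n : ℝ) / Real.log (y n) ^ 4) atTop atTop) :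
    Tendsto (fun n => msq (y n) (b n) (Z n) (Y n) 0 / (6 * b n / Real.pi ^ 2)) atTop atTop := by
  have h2 := shift_top hy hb h
  have h3 := err_small (Z := Z) hy hb hL
  have h4 := h2.atTop_add h3
  refine tendsto_atTop_mono' _ ?_ h4
  filter_upwards [ev_ge hb 1] with n g1
  have h6 := six_pos g1
  rw [shift_sq g1, ← add_div]
  apply div_le_div_of_nonneg_right _ h6.le
  have g4 : 0 ≤ msq (y n) (b n) (Z n) (Y n) (b n * V (pr (y n))) := by
    unfold msq
    exact div_nonneg (sum_nonneg fun _ _ => sq_nonneg _) (Nat.cast_nonneg _)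
  linarith

lemma law_nonneg {k : ℕ} (y b Z Y : ℕ) (c : ℝ) (s : Fin k → ℝ) : 0 ≤ law y b Z Y c s := by
  unfold law
  exact div_nonneg (Nat.cast_nonneg _) (Nat.cast_nonneg _)

theorem law_top (hy : Tendsto y atTop atTop) (hb : Tendsto b atTop atTop)
    (hL : Long y b Y) (h : Tendsto (fun n => (b n : ℝ) / Real.log (y n) ^ 4) atTop atTop) (R : ℝ) :
    Tendsto (fun n => law (y n) (b n) (Z n) (Y n) 0 (fun _ : Fin 1 => R * sd (b n))) atTop (𝓝 0) := by
  rw [Metric.tendsto_nhds]
  intro ε hε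
  obtain ⟨A, hA⟩ := above main2 (Pool.Agent.H52.TM.t_MI Pool.Agent.H23.TM.t_MOM) Pool.Agent.H61.TM.t_VV |R| (ε / 2)
    (by positivity)
  filter_upwards [ev_ge hy A, ev_ge hb 1, h.eventually (eventually_ge_atTop (A : ℝ)), long_weak hL hy A,
    ev_log_large hy 1] with n h1 h2 h3 h4 h5
  rw [le_div_iff₀ (by positivity)] at h3
  have h6 := hA (y n) (b n) (Z n) (Y n) h1 h3 h4
  have h7 := law_nonneg (y n) (b n) (Z n) (Y n) 0 (fun _ : Fin 1 => R * sd (b n))
  rw [Real.dist_eq, sub_zero, abs_of_nonneg h7]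
  have h8 : law (y n) (b n) (Z n) (Y n) 0 (fun _ : Fin 1 => R * sd (b n)) ≤
      law (y n) (b n) (Z n) (Y n) 0 (fun _ : Fin 1 => |R| * √(b n : ℝ)) := by
    apply law_mono
    intro _
    have h9 : sd (b n) ≤ √(b n : ℝ) := by
      unfold sd
      apply Real.sqrt_le_sqrt
      have := pi_facts.1
      rw [div_le_iff₀ (by positivity)]
      have h0 : (0 : ℝ) ≤ b n := Nat.cast_nonneg _
      nlinarith
    have h10 : 0 ≤ sd (b n) := Real.sqrt_nonneg _
    calc R * sd (b n) ≤ |R| * sd (b n) := mul_le_mul_of_nonneg_right (le_abs_self R) h10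
      _ ≤ |R| * √(b n : ℝ) := mul_le_mul_of_nonneg_left h9 (abs_nonneg R)
  linarith

lemma by_subseq (X : ℕ → ENNReal) (a : ENNReal) (h : ∀ ns : ℕ → ℕ, Tendsto ns atTop atTop → ∀ a' : ENNReal,
    Tendsto (fun n => X (ns n)) atTop (𝓝 a') → a' = a) : Tendsto X atTop (𝓝 a) := by
  apply tendsto_of_subseq_tendsto
  intro ns hns
  obtain ⟨a', -, φ, hφ, hφt⟩ := isCompact_univ.tendsto_subseq (fun n => Set.mem_univ (X (ns n)))
  refine ⟨φ, ?_⟩
  have h1 := h (fun n => ns (φ n)) (hns.comp hφ.tendsto_atTop) a' hφt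
  rw [← h1]
  exact hφt

/-- the subsequence principle for real sequences `≥ 0` -/
lemma by_subseq_real {x : ℕ → ℝ} (h0 : ∀ n, 0 ≤ x n) (c : ℝ) (hc : 0 ≤ c)
    (hfin : ∀ ns : ℕ → ℕ, Tendsto ns atTop atTop → ∀ a : ℝ, 0 ≤ a → Tendsto (fun n => x (ns n)) atTop (𝓝 a) → a = c)
    (htop : ∀ ns : ℕ → ℕ, Tendsto ns atTop atTop → ¬ Tendsto (fun n => x (ns n)) atTop atTop) :
    Tendsto x atTop (𝓝 c) := by
  have h1 : Tendsto (fun n => ENNReal.ofReal (x n)) atTop (𝓝 (ENNReal.ofReal c)) := by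
    apply by_subseq
    intro ns hns a' ha'
    by_cases ht : a' = ⊤
    · rw [ht] at ha'
      exact absurd (ENNReal.tendsto_ofReal_nhds_top.1 ha') (htop ns hns)
    · have h2 := (ENNReal.tendsto_toReal ht).comp ha'
      have h3 : Tendsto (fun n => x (ns n)) atTop (𝓝 a'.toReal) := by
        refine h2.congr fun n => ?_
        simp only [Function.comp]
        exact ENNReal.toReal_ofReal (h0 _)
      rw [← hfin ns hns _ ENNReal.toReal_nonneg h3, ENNReal.ofReal_toReal ht]
  have h2 := (ENNReal.tendsto_toReal ENNReal.ofReal_ne_top).comp h1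
  rw [ENNReal.toReal_ofReal hc] at h2
  refine h2.congr fun n => ?_
  simp only [Function.comp]
  exact ENNReal.toReal_ofReal (h0 _)

lemma by_subseq_top {x : ℕ → ℝ} (h0 : ∀ n, 0 ≤ x n)
    (hfin : ∀ ns : ℕ → ℕ, Tendsto ns atTop atTop → ∀ a : ℝ, 0 ≤ a → ¬ Tendsto (fun n => x (ns n)) atTop (𝓝 a)) :
    Tendsto x atTop atTop := by
  rw [← ENNReal.tendsto_ofReal_nhds_top]
  apply by_subseq
  intro ns hns a' ha'
  by_contra ht
  have h2 := (ENNReal.tendsto_toReal ht).comp ha'
  have h3 : Tendsto (fun n => x (ns n)) atTop (𝓝 a'.toReal) := by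
    refine h2.congr fun n => ?_
    simp only [Function.comp]
    exact ENNReal.toReal_ofReal (h0 _)
  exact hfin ns hns _ ENNReal.toReal_nonneg h3

/-- **the limit laws without centring** -/
theorem phase_fin (hy : Tendsto y atTop atTop) (hb : Tendsto b atTop atTop) (hL : Long y b Y) (c : ℝ) (hc : 0 ≤ c) :
    List.TFAE [
      ∀ t : ℝ, Tendsto (fun n => law (y n) (b n) (Z n) (Y n) 0
        (fun _ : Fin 1 => t * sd (b n))) atTop (𝓝 (Ph (t - dr c))),
      ∀ (k : ℕ) (ε : ℝ), 0 < ε → ∀ᶠ n in atTop, ∀ t : Fin k → ℝ,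
        |law (y n) (b n) (Z n) (Y n) 0 (fun i => t i * sd (b n)) - ∏ i, Ph (t i - dr c)| ≤ ε,
      Tendsto (fun n => msq (y n) (b n) (Z n) (Y n) 0 / (6 * b n / Real.pi ^ 2)) atTop (𝓝 (1 + dr c ^ 2)),
      Tendsto (fun n => (b n : ℝ) / Real.log (y n) ^ 4) atTop (𝓝 c)] := by
  have hx0 : ∀ n, 0 ≤ (b n : ℝ) / Real.log (y n) ^ 4 := fun n =>
    div_nonneg (Nat.cast_nonneg _) (pow_nonneg (Real.log_natCast_nonneg _) 4)
  have hLs : ∀ ns : ℕ → ℕ, Tendsto ns atTop atTop →
      Long (fun n => y (ns n)) (fun n => b (ns n)) (fun n => Y (ns n)) :=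
    fun ns hns A => hns.eventually (hL A)
  tfae_have 2 → 1 := by
    intro h t
    rw [Metric.tendsto_nhds]
    intro ε hε
    filter_upwards [h 1 (ε / 2) (by positivity)] with n hn
    have h1 := hn (fun _ => t)
    simp only [univ_unique, prod_const, card_singleton, pow_one] at h1
    rw [Real.dist_eq]
    linarith
  tfae_have 4 → 2 := fun h => joint_c hy hb hL c hc h
  tfae_have 4 → 3 := fun h => msq_c hy hb hL c hc h
  tfae_have 1 → 4 := by
    intro h
    apply by_subseq_real hx0 c hc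
    · intro ns hns a ha hx
      have h1 := point_c (Z := fun n => Z (ns n)) (hy.comp hns) (hb.comp hns) (hLs ns hns) a ha hx 0
      have h2 := (h 0).comp hns
      have h3 := tendsto_nhds_unique h1 h2
      have h4 := Ph_inj h3
      exact dr_inj ha hc (by linarith)
    · intro ns hns hx
      have h1 := law_top (Z := fun n => Z (ns n)) (hy.comp hns) (hb.comp hns) (hLs ns hns) hx 0
      have h2 := (h 0).comp hns
      have h3 := tendsto_nhds_unique h1 h2
      exact absurd h3 (Ph_pos _).ne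
  tfae_have 3 → 4 := by
    intro h
    apply by_subseq_real hx0 c hc
    · intro ns hns a ha hx
      have h1 := msq_c (Z := fun n => Z (ns n)) (hy.comp hns) (hb.comp hns) (hLs ns hns) a ha hx
      have h2 := h.comp hns
      have h3 := tendsto_nhds_unique h1 h2
      have h4 : dr a ^ 2 = dr c ^ 2 := by linarith
      exact dr_inj ha hc ((sq_eq_sq₀ (dr_nonneg a) (dr_nonneg c)).1 h4)
    · intro ns hns hx
      have h1 := msq_top (Z := fun n => Z (ns n)) (hy.comp hns) (hb.comp hns) (hLs ns hns) hx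
      have h2 := h.comp hns
      exact not_tendsto_nhds_of_tendsto_atTop h1 _ h2
  tfae_finish

theorem phase_top (hy : Tendsto y atTop atTop) (hb : Tendsto b atTop atTop) (hL : Long y b Y) :
    List.TFAE [
      ∀ R : ℝ, Tendsto (fun n => law (y n) (b n) (Z n) (Y n) 0
        (fun _ : Fin 1 => R * sd (b n))) atTop (𝓝 0),
      Tendsto (fun n => msq (y n) (b n) (Z n) (Y n) 0 / (6 * b n / Real.pi ^ 2)) atTop atTop,
      Tendsto (fun n => (b n : ℝ) / Real.log (y n) ^ 4) atTop atTop] := by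
  have hx0 : ∀ n, 0 ≤ (b n : ℝ) / Real.log (y n) ^ 4 := fun n =>
    div_nonneg (Nat.cast_nonneg _) (pow_nonneg (Real.log_natCast_nonneg _) 4)
  have hLs : ∀ ns : ℕ → ℕ, Tendsto ns atTop atTop →
      Long (fun n => y (ns n)) (fun n => b (ns n)) (fun n => Y (ns n)) :=
    fun ns hns A => hns.eventually (hL A)
  tfae_have 3 → 1 := fun h R => law_top hy hb hL h R
  tfae_have 3 → 2 := fun h => msq_top hy hb hL h
  tfae_have 1 → 3 := by
    intro h
    apply by_subseq_top hx0
    intro ns hns a ha hx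
    have h1 := point_c (Z := fun n => Z (ns n)) (hy.comp hns) (hb.comp hns) (hLs ns hns) a ha hx 0
    have h2 := (h 0).comp hns
    have h3 := tendsto_nhds_unique h1 h2
    exact (Ph_pos _).ne' h3
  tfae_have 2 → 3 := by
    intro h
    apply by_subseq_top hx0
    intro ns hns a ha hx
    have h1 := msq_c (Z := fun n => Z (ns n)) (hy.comp hns) (hb.comp hns) (hLs ns hns) a ha hx
    have h2 := h.comp hns
    exact not_tendsto_nhds_of_tendsto_atTop h2 _ h1
  tfae_finish

end

end Pool.Agent.H19.TM
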