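import Pool.Agent.H19.TM.Stm

/-!
# Project TM: the two estimates at a fixed place `x`
-/

set_option autoImplicit false

namespace Pool.Agent.H19.TM

open Finset Pool.Agent.Y862.GM

lemma pw_nonneg (d : ℝ) (hd : 0 ≤ d) (hd1 : d ≤ 1) (L : ℕ) (U : Finset ℕ) : 0 ≤ pw d L U := by
  unfold pw
  refine prod_nonneg fun h _ => ?_
  split_ifs <;> linarith

lemma pw_sum (h1 : S_RAD1) (d : ℝ) (L : ℕ) : ∑ U ∈ (Ioc 0 L).powerset, pw d L U = 1 := by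
  have h := h1 d L 0 (fun i => i.elim0) (fun i => i.elim0)
  simp only [univ_eq_empty, prod_empty, mul_one] at h
  rw [h]
  have : odd (fun i : Fin 0 => (i.elim0 : ℕ)) = ∅ := by
    unfold odd
    simp
  rw [this, card_empty, pow_zero]

/-- the moments at a fixed place -/
lemma moment_pt (h1 : S_RAD1) (h2 : S_RAD2) (d : ℝ) (hd : 0 ≤ d) (hd1 : d ≤ 1) (L m : ℕ) (hm : 1 ≤ m)
    (a : ℕ → ℝ) (c₀ B : ℝ) (hB : ∑ h ∈ Ioc 0 L, a h ^ 2 ≤ B) :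
    ∑ U ∈ (Ioc 0 L).powerset, pw d L U * (∑ h ∈ Ioc 0 L, a h * sg U h - c₀) ^ (2 * m) ≤
      2 ^ (2 * m) * ((2 * m).factorial * (2 * Real.exp (256 * B)) / 8 ^ (2 * m) +
        (d * ∑ h ∈ Ioc 0 L, a h - c₀) ^ (2 * m)) := by
  obtain ⟨D, hD⟩ : ∃ D : ℝ, D = d * ∑ h ∈ Ioc 0 L, a h - c₀ := ⟨_, rfl⟩
  have heven : Even (2 * m) := even_two_mul m
  have hterm : ∀ U ∈ (Ioc 0 L).powerset, pw d L U * (∑ h ∈ Ioc 0 L, a h * sg U h - c₀) ^ (2 * m) ≤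
      2 ^ (2 * m) * (pw d L U * (∑ h ∈ Ioc 0 L, a h * (sg U h - d)) ^ (2 * m)) +
        2 ^ (2 * m) * D ^ (2 * m) * pw d L U := by
    intro U _
    have e : ∑ h ∈ Ioc 0 L, a h * sg U h - c₀ = ∑ h ∈ Ioc 0 L, a h * (sg U h - d) + D := by
      rw [hD]
      simp_rw [mul_sub]
      rw [sum_sub_distrib, ← sum_mul]
      ring
    rw [e]
    have h3 := heven.add_pow_le (a := ∑ h ∈ Ioc 0 L, a h * (sg U h - d)) (b := D)
    have hp := pw_nonneg d hd hd1 L U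
    have h4 : (2 : ℝ) ^ (2 * m - 1) ≤ 2 ^ (2 * m) := pow_le_pow_right₀ (by norm_num) (by omega)
    have h5 : 0 ≤ (∑ h ∈ Ioc 0 L, a h * (sg U h - d)) ^ (2 * m) + D ^ (2 * m) :=
      add_nonneg (heven.pow_nonneg _) (heven.pow_nonneg _)
    calc pw d L U * (∑ h ∈ Ioc 0 L, a h * (sg U h - d) + D) ^ (2 * m) ≤
          pw d L U * (2 ^ (2 * m) * ((∑ h ∈ Ioc 0 L, a h * (sg U h - d)) ^ (2 * m) + D ^ (2 * m))) := by
          apply mul_le_mul_of_nonneg_left _ hp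
          exact h3.trans (mul_le_mul_of_nonneg_right h4 h5)
      _ = _ := by ring
  refine (sum_le_sum hterm).trans ?_
  rw [sum_add_distrib, ← mul_sum, ← mul_sum, pw_sum h1, mul_one, ← hD, mul_add]
  apply add_le_add _ le_rfl
  apply mul_le_mul_of_nonneg_left _ (by positivity)
  refine (h2 d L m a hd hd1).trans ?_
  gcongr

lemma exp_close (q w θ : ℝ) (hq : 0 ≤ q) (hw : 0 ≤ w) :
    ‖Complex.exp (((-q / 2 : ℝ) : ℂ) + Complex.I * (θ : ℂ)) - ((Real.exp (-w / 2) : ℝ) : ℂ)‖ ≤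
      |q - w| / 2 + |θ| := by
  have e : Complex.exp (((-q / 2 : ℝ) : ℂ) + Complex.I * (θ : ℂ)) - ((Real.exp (-w / 2) : ℝ) : ℂ) =
      ((Real.exp (-q / 2) : ℝ) : ℂ) * (Complex.exp (Complex.I * (θ : ℂ)) - 1) +
      ((Real.exp (-q / 2) - Real.exp (-w / 2) : ℝ) : ℂ) := by
    rw [Complex.exp_add, ← Complex.ofReal_exp]
    push_cast
    ring
  rw [e]
  refine (norm_add_le _ _).trans ?_
  rw [norm_mul, Complex.norm_real, Complex.norm_real, Real.norm_eq_abs, Real.norm_eq_abs,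
    abs_of_pos (Real.exp_pos _)]
  have h1 : Real.exp (-q / 2) ≤ 1 := Real.exp_le_one_iff.2 (by linarith)
  have h2 : ‖Complex.exp (Complex.I * (θ : ℂ)) - 1‖ ≤ |θ| := by
    have := Real.norm_exp_I_mul_ofReal_sub_one_le (x := θ)
    rwa [Real.norm_eq_abs] at this
  have h3 : |Real.exp (-q / 2) - Real.exp (-w / 2)| ≤ |q - w| / 2 := by
    have key : ∀ u v : ℝ, 0 ≤ u → u ≤ v → |Real.exp (-u / 2) - Real.exp (-v / 2)| ≤ |u - v| / 2 := by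
      intro u v hu huv
      have m1 : Real.exp (-v / 2) ≤ Real.exp (-u / 2) := Real.exp_le_exp.2 (by linarith)
      rw [abs_of_nonneg (by linarith), abs_of_nonpos (by linarith : u - v ≤ 0)]
      have m2 : Real.exp (-v / 2) = Real.exp (-u / 2) * Real.exp (-(v - u) / 2) := by
        rw [← Real.exp_add]
        congr 1
        ring
      have m3 := Real.add_one_le_exp (-(v - u) / 2)
      have m4 : Real.exp (-u / 2) ≤ 1 := Real.exp_le_one_iff.2 (by linarith)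
      have m5 := Real.exp_pos (-u / 2)
      rw [m2]
      nlinarith
    rcases le_total q w with h | h
    · exact key q w hq h
    · rw [abs_sub_comm, abs_sub_comm q w]
      exact key w q hw h
  have h4 := norm_nonneg (Complex.exp (Complex.I * (θ : ℂ)) - 1)
  nlinarith [Real.exp_pos (-q / 2)]

/-- the characteristic function at a fixed place -/
lemma phase_pt (h3 : S_RAD3) (h4 : S_COS2) (d : ℝ) (hd : 0 ≤ d) (hd1 : d ≤ 1) (L : ℕ)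
    (a : ℕ → ℝ) (c₀ B τ W : ℝ) (hB : ∑ h ∈ Ioc 0 L, a h ^ 2 ≤ B) (hτ : τ ≤ 1 / 2)
    (ha : ∀ h ∈ Ioc 0 L, |a h| ≤ τ) (hτ0 : 0 ≤ τ) (hW : 0 ≤ W) :
    ‖∑ U ∈ (Ioc 0 L).powerset, (pw d L U : ℂ) *
      Complex.exp (Complex.I * ((∑ h ∈ Ioc 0 L, a h * sg U h - c₀ : ℝ) : ℂ)) -
      ((Real.exp (-W / 2) : ℝ) : ℂ)‖ ≤
      (τ + d ^ 2) * B + |∑ h ∈ Ioc 0 L, a h ^ 2 - W| / 2 + |d * ∑ h ∈ Ioc 0 L, a h - c₀| := by
  obtain ⟨Q, hQ⟩ : ∃ Q : ℝ, Q = ∑ h ∈ Ioc 0 L, a h ^ 2 := ⟨_, rfl⟩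
  have hQ0 : 0 ≤ Q := by rw [hQ]; exact sum_nonneg fun _ _ => sq_nonneg _
  obtain ⟨E0, hE0⟩ : ∃ E0 : ℂ, E0 = Complex.exp (-(Complex.I * (c₀ : ℂ))) := ⟨_, rfl⟩
  have hE0n : ‖E0‖ = 1 := by
    rw [hE0, Complex.norm_exp]
    simp
  have e1 : ∑ U ∈ (Ioc 0 L).powerset, (pw d L U : ℂ) *
      Complex.exp (Complex.I * ((∑ h ∈ Ioc 0 L, a h * sg U h - c₀ : ℝ) : ℂ)) =
      E0 * ∏ h ∈ Ioc 0 L, ((Real.cos (a h) : ℂ) + Complex.I * ((d * Real.sin (a h) : ℝ) : ℂ)) := by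
    rw [← h3 d L a, mul_sum]
    refine sum_congr rfl fun U _ => ?_
    have e2 : Complex.I * ((∑ h ∈ Ioc 0 L, a h * sg U h - c₀ : ℝ) : ℂ) =
        -(Complex.I * (c₀ : ℂ)) + Complex.I * ((∑ h ∈ Ioc 0 L, a h * sg U h : ℝ) : ℂ) := by
      push_cast
      ring
    rw [e2, Complex.exp_add, hE0]
    ring
  obtain ⟨Pr, hPr⟩ : ∃ Pr : ℂ, Pr = ∏ h ∈ Ioc 0 L,
    ((Real.cos (a h) : ℂ) + Complex.I * ((d * Real.sin (a h) : ℝ) : ℂ)) := ⟨_, rfl⟩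
  obtain ⟨Ex, hEx⟩ : ∃ Ex : ℂ, Ex = Complex.exp (((-(∑ h ∈ Ioc 0 L, a h ^ 2) / 2 : ℝ) : ℂ) +
    Complex.I * ((d * ∑ h ∈ Ioc 0 L, a h : ℝ) : ℂ)) := ⟨_, rfl⟩
  have hcos := h4 (Ioc 0 L) a d hd hd1 (fun h hh => (ha h hh).trans hτ)
  rw [← hPr, ← hEx] at hcos
  have hcos2 : ‖Pr - Ex‖ ≤ (τ + d ^ 2) * B := by
    refine hcos.trans ?_
    have : ∀ h ∈ Ioc 0 L, |a h| ^ 3 + d ^ 2 * a h ^ 2 ≤ (τ + d ^ 2) * a h ^ 2 := by
      intro h hh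
      have h5 := ha h hh
      have h6 : |a h| ^ 3 = |a h| * a h ^ 2 := by
        have : |a h| ^ 3 = |a h| * |a h| ^ 2 := by ring
        rw [this, sq_abs]
      rw [h6]
      have := sq_nonneg (a h)
      nlinarith
    refine (sum_le_sum this).trans ?_
    rw [← mul_sum]
    exact mul_le_mul_of_nonneg_left hB (by positivity)
  have e3 : E0 * Ex = Complex.exp (((-Q / 2 : ℝ) : ℂ) + Complex.I * ((d * ∑ h ∈ Ioc 0 L, a h - c₀ : ℝ) : ℂ)) := by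
    rw [hE0, hEx, ← Complex.exp_add, hQ]
    congr 1
    push_cast
    ring
  have hcl := exp_close Q W (d * ∑ h ∈ Ioc 0 L, a h - c₀) hQ0 hW
  rw [← e3] at hcl
  rw [e1, ← hPr, ← hQ]
  have e4 : E0 * Pr - ((Real.exp (-W / 2) : ℝ) : ℂ) =
      E0 * (Pr - Ex) + (E0 * Ex - ((Real.exp (-W / 2) : ℝ) : ℂ)) := by ring
  rw [e4]
  refine (norm_add_le _ _).trans ?_
  rw [norm_mul, hE0n, one_mul]
  linarith

end Pool.Agent.H19.TM
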