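import Pool.Agent.H19.TM.Var2
import Pool.Agent.H54.TM.Small

/-!
# Project TM2: the exact ranges
-/

set_option autoImplicit false

namespace Pool.Agent.H19.TM

open Finset Pool.Agent.Y862.GM Filter Topology

theorem t_LIM' : S_LIM :=
  Pool.Agent.H95.TM.t_LIM t_REC t_CNT t_VAR' (Pool.Agent.H54.TM.t_SMALL t_REC t_CNT t_VAR' Pool.Agent.H61.TM.t_VV)
    t_FAR' (Pool.Agent.H95.TM.t_PV Pool.Agent.H61.TM.t_VV) t_SIG

theorem t_DEF' : S_DEF :=
  Pool.Agent.H95.TM.t_DEF t_LIM' t_FAR' (Pool.Agent.H95.TM.t_PV Pool.Agent.H61.TM.t_VV) t_SIG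

/-- the normalisation -/
noncomputable def sd (b : ℕ) : ℝ := √(6 * b / Real.pi ^ 2)

/-- the intervals are long -/
def Long (y b Y : ℕ → ℕ) : Prop := ∀ A : ℕ, ∀ᶠ n in atTop,
  (y n : ℝ) ^ (A * (Real.log (b n) + Real.log (Real.log (y n)))) ≤ Y n

lemma ev_ge {u : ℕ → ℕ} (hu : Tendsto u atTop atTop) (A : ℕ) : ∀ᶠ n in atTop, A ≤ u n :=
  hu.eventually (eventually_ge_atTop A)

lemma frequently_of_not_tendsto {u : ℕ → ℝ} (h0 : ∀ᶠ n in atTop, 0 ≤ u n) (h : ¬ Tendsto u atTop (𝓝 0)) :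
    ∃ c : ℝ, 0 < c ∧ ∃ᶠ n in atTop, c ≤ u n := by
  by_contra hcon
  push Not at hcon
  apply h
  rw [Metric.tendsto_nhds]
  intro ε hε
  have h1 := hcon ε hε
  filter_upwards [h0, h1] with n h2 h3
  rw [Real.dist_eq, sub_zero, abs_of_nonneg h2]
  exact h3

lemma log_ratio {y b : ℕ → ℕ} (hy : Tendsto y atTop atTop) (h : Tendsto (fun n => Real.log (b n) / Real.log (y n)) atTop (𝓝 0))
    (A : ℕ) : ∀ᶠ n in atTop, (A : ℝ) * Real.log (b n) ≤ Real.log (y n) := by
  have h1 := h.eventually (gt_mem_nhds (by positivity : (0 : ℝ) < 1 / ((A : ℝ) + 1)))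
  filter_upwards [h1, ev_ge hy 3] with n h2 h3
  have hy3 : (3 : ℝ) ≤ y n := by exact_mod_cast h3
  have hl : 0 < Real.log (y n) := Real.log_pos (by linarith)
  rw [div_lt_div_iff₀ hl (by positivity)] at h2
  have hlb : 0 ≤ Real.log (b n) := Real.log_natCast_nonneg _
  nlinarith

/-- pointwise convergence and a finite set of points -/
lemma ev_finset {F : ℕ → ℝ → ℝ} {G : ℝ → ℝ} (h : ∀ t, Tendsto (fun n => F n t) atTop (𝓝 (G t))) (ts : Finset ℝ)
    (δ : ℝ) (hδ : 0 < δ) : ∀ᶠ n in atTop, ∀ t ∈ ts, |F n t - G t| < δ := by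
  rw [Filter.eventually_all_finset]
  intro t _
  have h1 := (h t)
  rw [Metric.tendsto_nhds] at h1
  filter_upwards [h1 δ hδ] with n hn
  rwa [Real.dist_eq] at hn

section

variable {y b Z Y : ℕ → ℕ}

/-- from the joint uniform law to the pointwise law -/
lemma joint_to_point (c : ℕ → ℝ) (h : ∀ (k : ℕ) (ε : ℝ), 0 < ε → ∀ᶠ n in atTop, ∀ t : Fin k → ℝ,
      |law (y n) (b n) (Z n) (Y n) (c n) (fun i => t i * sd (b n)) - ∏ i, Ph (t i)| ≤ ε) :
    ∀ t : ℝ, Tendsto (fun n => law (y n) (b n) (Z n) (Y n) (c n) (fun _ : Fin 1 => t * sd (b n))) atTop (𝓝 (Ph t)) := by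
  intro t
  rw [Metric.tendsto_nhds]
  intro ε hε
  filter_upwards [h 1 (ε / 2) (by positivity)] with n hn
  have h1 := hn (fun _ => t)
  simp only [univ_unique, prod_const, card_singleton, pow_one] at h1
  rw [Real.dist_eq]
  linarith

/-- the deficiency excludes the pointwise law -/
lemma point_fail (hb : Tendsto b atTop atTop) (hL : Long y b Y) (hy : Tendsto y atTop atTop) (c : ℕ → ℝ)
    (h : ∀ t : ℝ, Tendsto (fun n => law (y n) (b n) (Z n) (Y n) (c n) (fun _ : Fin 1 => t * sd (b n))) atTop (𝓝 (Ph t)))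
    (η : ℝ) (hη : 0 < η) : ∀ᶠ n in atTop,
    (1 - η) * (6 * b n / Real.pi ^ 2) < msq (y n) (b n) (Z n) (Y n) (c n) := by
  obtain ⟨ts, δ, hδ, hf⟩ := msq_fail η hη
  have h1 := ev_finset h ts δ hδ
  filter_upwards [h1, ev_ge hb 1, hL 0, ev_ge hy 3] with n h2 h3 h4 h5
  by_contra hcon
  rw [not_lt] at hcon
  have hY : 0 < Y n := by
    have hy0 : (0 : ℝ) < y n := by exact_mod_cast (by omega : 0 < y n)
    have := (Real.rpow_pos_of_pos hy0 _).trans_le h4
    exact_mod_cast this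
  obtain ⟨t, ht, h6⟩ := hf (y n) (b n) (Z n) (Y n) (c n) h3 hY hcon
  have h7 := h2 t ht
  unfold sd at h7
  linarith

lemma six_pos {b : ℕ} (hb : 1 ≤ b) : (0 : ℝ) < 6 * b / Real.pi ^ 2 := by
  have : (0 : ℝ) < b := by exact_mod_cast hb
  positivity

lemma ratio_tendsto {u v : ℕ → ℝ} (hv : ∀ᶠ n in atTop, 0 < v n)
    (h1 : ∀ ε : ℝ, 0 < ε → ∀ᶠ n in atTop, u n ≤ (1 + ε) * v n)
    (h2 : ∀ ε : ℝ, 0 < ε → ∀ᶠ n in atTop, (1 - ε) * v n ≤ u n) :
    Tendsto (fun n => u n / v n) atTop (𝓝 1) := by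
  rw [Metric.tendsto_nhds]
  intro ε hε
  filter_upwards [hv, h1 (ε / 2) (by positivity), h2 (ε / 2) (by positivity)] with n h3 h4 h5
  rw [Real.dist_eq, abs_lt]
  have h6 : u n / v n ≤ 1 + ε / 2 := by rw [div_le_iff₀ h3]; exact h4
  have h7 : 1 - ε / 2 ≤ u n / v n := by rw [le_div_iff₀ h3]; exact h5
  constructor <;> linarith

/-- **the exact range of the centred law** -/
theorem centred (hy : Tendsto y atTop atTop) (hb : Tendsto b atTop atTop) (hL : Long y b Y) :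
    List.TFAE [
      ∀ t : ℝ, Tendsto (fun n => law (y n) (b n) (Z n) (Y n) (b n * V (pr (y n)))
        (fun _ : Fin 1 => t * sd (b n))) atTop (𝓝 (Ph t)),
      ∀ (k : ℕ) (ε : ℝ), 0 < ε → ∀ᶠ n in atTop, ∀ t : Fin k → ℝ,
        |law (y n) (b n) (Z n) (Y n) (b n * V (pr (y n))) (fun i => t i * sd (b n)) - ∏ i, Ph (t i)| ≤ ε,
      Tendsto (fun n => msq (y n) (b n) (Z n) (Y n) (b n * V (pr (y n))) / (6 * b n / Real.pi ^ 2)) atTop (𝓝 1),
      Tendsto (fun n => Real.log (b n) / Real.log (y n)) atTop (𝓝 0)] := by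
  have key : ¬ Tendsto (fun n => Real.log (b n) / Real.log (y n)) atTop (𝓝 0) → ∃ η : ℝ, 0 < η ∧
      ∃ᶠ n in atTop, msq (y n) (b n) (Z n) (Y n) (b n * V (pr (y n))) ≤ (1 - η) * (6 * b n / Real.pi ^ 2) := by
    intro hnot
    obtain ⟨c, hc, hfr⟩ := frequently_of_not_tendsto (Eventually.of_forall fun n =>
      div_nonneg (Real.log_natCast_nonneg _) (Real.log_natCast_nonneg _)) hnot
    obtain ⟨η, hη, A, hA⟩ := msq_def t_DEF' c hc
    refine ⟨η, hη, ?_⟩
    refine (hfr.and_eventually ((ev_ge hy (A + 3)).and ((ev_ge hb (A + 3)).and (hL A)))).mono ?_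
    rintro n ⟨h1, h2, h3, h4⟩
    have hy3 : (3 : ℝ) ≤ y n := by exact_mod_cast (by omega : 3 ≤ y n)
    have hl : 0 < Real.log (y n) := Real.log_pos (by linarith)
    rw [le_div_iff₀ hl] at h1
    refine hA (y n) (b n) (Z n) (Y n) (by omega) (by omega) ?_ h4
    rw [Real.rpow_def_of_pos (by linarith), mul_comm (Real.log (y n))]
    have hb0 : (0 : ℝ) < b n := by exact_mod_cast (by omega : 0 < b n)
    rw [← Real.exp_log hb0]
    exact Real.exp_le_exp.2 h1
  tfae_have 2 → 1 := fun h => joint_to_point _ h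
  tfae_have 4 → 2 := by
    intro h k ε hε
    obtain ⟨A, hA⟩ := law2 k ε hε
    filter_upwards [ev_ge hb A, log_ratio hy h A, hL A] with n h1 h2 h3
    intro t
    exact hA (y n) (b n) (Z n) (Y n) h1 h2 h3 t
  tfae_have 1 → 4 := by
    intro h
    by_contra hnot
    obtain ⟨η, hη, hfr⟩ := key hnot
    have h1 := point_fail hb hL hy _ h η hη
    obtain ⟨n, h2, h3⟩ := (hfr.and_eventually h1).exists
    linarith
  tfae_have 3 → 4 := by
    intro h
    by_contra hnot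
    obtain ⟨η, hη, hfr⟩ := key hnot
    have h1 := h.eventually (lt_mem_nhds (by linarith : 1 - η < 1))
    obtain ⟨n, h2, h3, h4⟩ := (hfr.and_eventually (h1.and (ev_ge hb 1))).exists
    rw [lt_div_iff₀ (six_pos h4)] at h3
    linarith
  tfae_have 4 → 3 := by
    intro h
    have hp : ∀ t : ℝ, Tendsto (fun n => law (y n) (b n) (Z n) (Y n) (b n * V (pr (y n)))
        (fun _ : Fin 1 => t * sd (b n))) atTop (𝓝 (Ph t)) := by
      apply joint_to_point
      intro k ε hε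
      obtain ⟨A, hA⟩ := law2 k ε hε
      filter_upwards [ev_ge hb A, log_ratio hy h A, hL A] with n h1 h2 h3
      intro t
      exact hA (y n) (b n) (Z n) (Y n) h1 h2 h3 t
    apply ratio_tendsto
    · filter_upwards [ev_ge hb 1] with n hn
      exact six_pos hn
    · intro ε hε
      obtain ⟨A, hA⟩ := msq_up t_LIM' ε hε
      filter_upwards [ev_ge hy A, ev_ge hb A, hL A] with n h1 h2 h3
      exact hA (y n) (b n) (Z n) (Y n) h1 h2 h3
    · intro ε hε
      filter_upwards [point_fail hb hL hy _ hp ε hε] with n hn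
      exact hn.le
  tfae_finish

end

end Pool.Agent.H19.TM
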