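import Pool.Agent.H19.TM.Fin
import Pool.Agent.H23.TM.Mom
import Pool.Agent.H23.TM.Tup
import Pool.Agent.H52.TM.Mi
import Pool.Agent.H61.TM.Rad
import Pool.Agent.H61.TM.VV

set_option autoImplicit false

/-!
# The truncated Moebius function in short intervals: Gaussian law in long windows and sharp threshold

`mu y n` is the Moebius function truncated at `y` (library, `Pool.Agent.Y862.GM`): the product over the primes
`p ≤ y` of `0` if `p ^ 2` divides `n`, of `-1` if `p` divides `n` but `p ^ 2` does not, and of `1` otherwise, that is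
the Moebius function of the `y`-smooth part of `n`.  Its mean value is `mean y = ∏ p ≤ y, (1 - 1 / p) ^ 2`, which is of
the order of `1 / (log y) ^ 2`.

(1) Centred Gaussian law for `k` adjacent windows of length `b`, as soon as `b ≥ A` and `(log b) ^ A ≤ log y`, in every
interval of length at least `y ^ (A (log b + log log y))`, uniformly in the point `t ∈ ℝ ^ k`.  In particular for all
windows up to every power of `log y`.

(2), (3) The threshold: without the centring, the Gaussian law in the normalisation of Good and Churchhouse holds as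
long as `b` is small in comparison with `(log y) ^ 4`, and it fails as soon as `b` is large in comparison with
`(log y) ^ 4`: then the sum over the window is larger than `R √b` for almost all windows, for every `R`.

The new tool is a bound for all moments over a full period (`Pool.Agent.H23.TM.t_MOM`): for every finite set `P` of
primes and every `N` the mean value of `(∑ j < N, ∏ p ∈ P, muP p (n + j) - N ∏ p ∈ P, (1 - 1 / p) ^ 2) ^ (2 m)` over
the `n` modulo `∏ p ∈ P, p ^ 2` is at most `N ^ m ∏ p ∈ P, (1 + C(m) / p)`.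
-/

namespace Pool.Agent.H19.TM.Sharp

open Finset Pool.Agent.Y862.GM Pool.Agent.H19.TM

/-- the mean value of the truncated Moebius function, `∏ p ≤ y, (1 - 1 / p) ^ 2` -/
noncomputable def mean (y : ℕ) : ℝ := ∏ p ∈ pr y, (1 - 1 / (p : ℝ)) ^ 2

open Classical in
/-- the proportion of the `x` in `(Z, Z + Y]` such that, for all `i < k`, the sum of `mu y` over the window
`(x + i b, x + (i + 1) b]` is at most `s i` -/
noncomputable def proportion {k : ℕ} (y b Z Y : ℕ) (s : Fin k → ℝ) : ℝ :=
  (((Ioc Z (Z + Y)).filter (fun x => ∀ i : Fin k,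
    ∑ n ∈ Ioc (x + i * b) (x + i * b + b), mu y n ≤ s i)).card : ℝ) / Y

/-- the standard normal distribution function -/
noncomputable def Phi (t : ℝ) : ℝ := (ProbabilityTheory.gaussianReal 0 1).real (Set.Iic t)

theorem main : S_MAIN :=
  main_of Pool.Agent.H61.TM.t_RAD1 Pool.Agent.H61.TM.t_RAD2 Pool.Agent.H61.TM.t_RAD3 Pool.Agent.H61.TM.t_CMP
    (Pool.Agent.H52.TM.t_MI Pool.Agent.H23.TM.t_MOM) (Pool.Agent.H23.TM.t_TUP Pool.Agent.H52.TM.t_BR)
    Pool.Agent.H61.TM.t_VV (Pool.Agent.Y968.GM.t_SQ Pool.Agent.Y672.GM.t_EQUI)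

lemma law_eq {k : ℕ} (y b Z Y : ℕ) (c : ℝ) (s : Fin k → ℝ) :
    law y b Z Y c s = proportion y b Z Y (fun i => c + s i) := by
  classical
  unfold law proportion
  congr 2
  congr 1
  apply filter_congr
  intro x _
  apply forall_congr'
  intro i
  constructor <;> intro h <;> linarith

theorem result :
    -- (1) the centred Gaussian law in long windows
    (∀ (k : ℕ) (ε : ℝ), 0 < ε → ∃ A : ℕ, ∀ y b Z Y : ℕ, A ≤ b → Real.log b ^ A ≤ Real.log y →
      (y : ℝ) ^ (A * (Real.log b + Real.log (Real.log y))) ≤ Y → ∀ t : Fin k → ℝ,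
      |proportion y b Z Y (fun i => b * mean y + t i * √(6 * b / Real.pi ^ 2)) - ∏ i, Phi (t i)| ≤ ε) ∧
    -- (2) the Gaussian law in the normalisation of Good and Churchhouse below the threshold
    (∀ (k : ℕ) (ε : ℝ), 0 < ε → ∃ (A : ℕ) (κ : ℝ), 0 < κ ∧ ∀ y b Z Y : ℕ, A ≤ b →
      (b : ℝ) ≤ κ * Real.log y ^ 4 → (y : ℝ) ^ (A * Real.log (Real.log y)) ≤ Y → ∀ t : Fin k → ℝ,
      |proportion y b Z Y (fun i => t i * √(6 * b / Real.pi ^ 2)) - ∏ i, Phi (t i)| ≤ ε) ∧
    -- (3) its failure above the threshold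
    (∀ R ε : ℝ, 0 < ε → ∃ A : ℕ, ∀ y b Z Y : ℕ, A ≤ y → (A : ℝ) * Real.log y ^ 4 ≤ b →
      (y : ℝ) ^ (A * Real.log (Real.log y)) ≤ Y →
      proportion y b Z Y (fun _ : Fin 1 => R * √b) ≤ ε) := by
  refine ⟨?_, ?_, ?_⟩
  · intro k ε hε
    obtain ⟨A, hA⟩ := main_law main k ε hε
    refine ⟨A, fun y b Z Y h1 h2 h3 t => ?_⟩
    have := hA y b Z Y h1 h2 h3 t
    rw [law_eq] at this
    exact this
  · intro k ε hε
    obtain ⟨A, κ, hκ, hA⟩ := below main Pool.Agent.H61.TM.t_VV k ε hε
    refine ⟨A, κ, hκ, fun y b Z Y h1 h2 h3 t => ?_⟩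
    have := hA y b Z Y h1 h2 h3 t
    rw [law_eq] at this
    simp only [zero_add] at this
    exact this
  · intro R ε hε
    obtain ⟨A, hA⟩ := above main (Pool.Agent.H52.TM.t_MI Pool.Agent.H23.TM.t_MOM) Pool.Agent.H61.TM.t_VV R ε hε
    refine ⟨A, fun y b Z Y h1 h2 h3 => ?_⟩
    have := hA y b Z Y h1 h2 h3
    rw [law_eq] at this
    simp only [zero_add] at this
    exact this

end Pool.Agent.H19.TM.Sharp
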