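import Mathlib
import Pool.Graph.R_seed8.Y862.GM.Stm

/-!
# Project TM: Gaussian law for the truncated Moebius function, long windows, sharp threshold

Statements of the modules. `pr y` (primes up to `y`), `muP p n`, `mu y n`, `loc`, `odd`, `sg`, `S_MERT`, `S_TRUNC`,
`S_EQUI`, `S_LOC`, `S_LEVY`, ... are those of `Pool.Agent.Y862.GM` (library, module `R_seed8.Y862.GM.Stm`).
-/

set_option autoImplicit false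

namespace Pool.Agent.H19.TM

open Finset Pool.Agent.Y862.GM

/-- the mean value of `∏ p ∈ P, muP p n` -/
noncomputable def V (P : Finset ℕ) : ℝ := ∏ p ∈ P, (1 - 1 / (p : ℝ)) ^ 2

/-- the weight of the sign pattern `U` if the signs are independent with mean `d` -/
noncomputable def pw (d : ℝ) (L : ℕ) (U : Finset ℕ) : ℝ :=
  ∏ h ∈ Ioc 0 L, (if h ∈ U then (1 + d) / 2 else (1 - d) / 2)

/-- **BR**: the fundamental lemma with an exponentially small error -/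
def S_BR : Prop := ∀ κ : ℝ, ∃ A : ℕ, ∀ y : ℕ, A ≤ y → ∀ lam : ℝ, Real.log (Real.log y) ≤ lam →
  ∀ Z Y : ℕ, (y : ℝ) ^ (A * lam) ≤ Y → ∀ a : ℕ → ℕ → ℝ,
  (∀ p ∈ pr y, ∀ n, a p (n + p ^ 2) = a p n) → (∀ p ∈ pr y, ∀ n, |1 + a p n| ≤ 1) →
  (∀ p ∈ pr y, ∑ n ∈ range (p ^ 2), |a p n| ≤ κ * p) →
  |(∑ n ∈ Ioc Z (Z + Y), ∏ p ∈ pr y, (1 + a p n)) / Y -
    ∏ p ∈ pr y, (1 + (∑ n ∈ range (p ^ 2), a p n) / p ^ 2)| ≤ Real.exp (-lam)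

/-- **MOM**: the moments over a full period -/
def S_MOM : Prop := ∀ m : ℕ, ∃ C : ℝ, 0 ≤ C ∧ ∀ P : Finset ℕ, (∀ p ∈ P, p.Prime) → ∀ N : ℕ,
  ∑ n ∈ range (∏ p ∈ P, p ^ 2), (∑ j ∈ range N, ∏ p ∈ P, muP p (n + j) - N * V P) ^ (2 * m) ≤
    (∏ p ∈ P, (p : ℝ) ^ 2) * (∏ p ∈ P, (1 + C / p)) * (N : ℝ) ^ m

/-- **MI**: the moments in an interval -/
def S_MI : Prop := ∀ m : ℕ, ∃ (C A : ℕ), ∀ y r : ℕ, A ≤ y → 3 ≤ r → r ≤ y → ∀ lam : ℝ,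
  Real.log (Real.log y) ≤ lam → ∀ Z Y : ℕ, (y : ℝ) ^ (A * lam) ≤ Y → ∀ a b : ℕ, 1 ≤ b →
  (∑ x ∈ Ioc Z (Z + Y), (∑ h ∈ Ioc a (a + b), mu r (x + h) - b * V (pr r)) ^ (2 * m)) / Y ≤
    C * Real.log r ^ C * (b : ℝ) ^ m + (2 * b) ^ (2 * m) * Real.exp (-lam)

/-- **TUP**: the primes above `r` act as independent signs of mean `V (pr y) / V (pr r)` -/
def S_TUP : Prop := ∀ K : ℕ, ∃ (C A : ℕ), ∀ y r : ℕ, A ≤ r → r ≤ y → ∀ lam : ℝ,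
  Real.log (Real.log y) ≤ lam → ∀ Z Y : ℕ, (y : ℝ) ^ (A * lam) ≤ Y → ∀ g : Fin K → ℕ, (∀ i, g i ≤ r) →
  |(∑ x ∈ Ioc Z (Z + Y), ∏ i, mu y (x + g i)) -
    (V (pr y) / V (pr r)) ^ (odd g).card * ∑ x ∈ Ioc Z (Z + Y), ∏ i, mu r (x + g i)| ≤
    (C / r + 2 * Real.exp (-lam)) * Y

/-- **RAD1**: the correlations of the random signs -/
def S_RAD1 : Prop := ∀ (d : ℝ) (L K : ℕ) (g : Fin K → ℕ), (∀ i, g i ∈ Ioc 0 L) →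
  ∑ U ∈ (Ioc 0 L).powerset, pw d L U * ∏ i, sg U (g i) = d ^ (odd g).card

/-- **RAD2**: the moments of sums of centred random signs -/
def S_RAD2 : Prop := ∀ (d : ℝ) (L m : ℕ) (a : ℕ → ℝ), 0 ≤ d → d ≤ 1 →
  ∑ U ∈ (Ioc 0 L).powerset, pw d L U * (∑ h ∈ Ioc 0 L, a h * (sg U h - d)) ^ (2 * m) ≤
    (2 * m).factorial * (2 * Real.exp (256 * ∑ h ∈ Ioc 0 L, a h ^ 2)) / 8 ^ (2 * m)

/-- **RAD3**: the characteristic function of a sum of random signs -/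
def S_RAD3 : Prop := ∀ (d : ℝ) (L : ℕ) (a : ℕ → ℝ),
  ∑ U ∈ (Ioc 0 L).powerset, (pw d L U : ℂ) *
    Complex.exp (Complex.I * ((∑ h ∈ Ioc 0 L, a h * sg U h : ℝ) : ℂ)) =
    ∏ h ∈ Ioc 0 L, ((Real.cos (a h) : ℂ) + Complex.I * ((d * Real.sin (a h) : ℝ) : ℂ))

/-- **CMP**: comparison of the moments -/
def S_CMP : Prop := ∀ (Om : Finset ℕ) (L j : ℕ) (f₁ f₂ : ℕ → ℕ → ℝ) (v : ℕ → ℝ) (d C c₀ η : ℝ),
  (∀ h, |v h| ≤ C) → 0 ≤ η →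
  (∀ i ≤ j, ∀ g : Fin i → ℕ, (∀ l, g l ∈ Ioc 0 L) →
    |∑ x ∈ Om, ∏ l, f₁ x (g l) - d ^ (odd g).card * ∑ x ∈ Om, ∏ l, f₂ x (g l)| ≤ η) →
  |∑ x ∈ Om, (∑ h ∈ Ioc 0 L, v h * f₁ x h - c₀) ^ j -
    ∑ x ∈ Om, ∑ U ∈ (Ioc 0 L).powerset, pw d L U * (∑ h ∈ Ioc 0 L, v h * sg U h * f₂ x h - c₀) ^ j| ≤
    (C * L + |c₀|) ^ j * η

/-- **CF**: comparison of the characteristic functions, abstract form -/
def S_CF2 : Prop := ∀ (Om : Finset ℕ) (Us : Finset (Finset ℕ)) (wt : Finset ℕ → ℝ) (F : ℕ → ℝ)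
  (G : ℕ → Finset ℕ → ℝ) (m : ℕ) (η : ℝ), (∀ U ∈ Us, 0 ≤ wt U) → ∑ U ∈ Us, wt U = 1 → 0 ≤ η →
  (∀ j ≤ 2 * m, |∑ x ∈ Om, F x ^ j - ∑ x ∈ Om, ∑ U ∈ Us, wt U * G x U ^ j| ≤ η * Om.card) →
  ‖∑ x ∈ Om, Complex.exp (Complex.I * (F x : ℂ)) -
    ∑ x ∈ Om, ∑ U ∈ Us, (wt U : ℂ) * Complex.exp (Complex.I * (G x U : ℂ))‖ ≤
    4 * η * Om.card + 2 * (∑ x ∈ Om, ∑ U ∈ Us, wt U * G x U ^ (2 * m)) / (2 * m).factorial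

/-- **COS**: the product of the factors of the characteristic function -/
def S_COS2 : Prop := ∀ (s : Finset ℕ) (a : ℕ → ℝ) (d : ℝ), 0 ≤ d → d ≤ 1 → (∀ h ∈ s, |a h| ≤ 1 / 2) →
  ‖∏ h ∈ s, ((Real.cos (a h) : ℂ) + Complex.I * ((d * Real.sin (a h) : ℝ) : ℂ)) -
    Complex.exp (((-(∑ h ∈ s, a h ^ 2) / 2 : ℝ) : ℂ) + Complex.I * ((d * ∑ h ∈ s, a h : ℝ) : ℂ))‖ ≤
    ∑ h ∈ s, (|a h| ^ 3 + d ^ 2 * a h ^ 2)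

/-- **LEVY**: from characteristic functions to distribution functions, uniformly in the point `t` -/
def S_LEVY2 : Prop := ∀ (k : ℕ) (ε : ℝ), 0 < ε → ∃ T δ : ℝ, 0 < δ ∧
  ∀ Om : Finset ℕ, Om.Nonempty → ∀ S : ℕ → Fin k → ℝ,
  (∀ w : Fin k → ℝ, (∀ i, |w i| ≤ T) →
    ‖(∑ x ∈ Om, Complex.exp (Complex.I * ((∑ i, w i * S x i : ℝ) : ℂ))) / Om.card -
      ((Real.exp (-(∑ i, w i ^ 2) / 2) : ℝ) : ℂ)‖ ≤ δ) →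
  ∀ t : Fin k → ℝ, |((Om.filter (fun x => ∀ i, S x i ≤ t i)).card : ℝ) / Om.card -
    ∏ i, (ProbabilityTheory.gaussianReal 0 1).real (Set.Iic (t i))| ≤ ε

/-- **VV**: Mertens for `V` -/
def S_VV : Prop := ∃ c C : ℝ, 0 < c ∧ 0 < C ∧ ∀ y : ℕ, 3 ≤ y →
  c / Real.log y ^ 2 ≤ V (pr y) ∧ V (pr y) ≤ C / Real.log y ^ 2

open Classical in
/-- **MAIN**: the centred Gaussian law for `k` adjacent windows of length `b`, `(log b) ^ A ≤ log y` -/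
def S_MAIN : Prop := ∀ (k : ℕ) (ε : ℝ), 0 < ε → ∃ A : ℕ, ∀ y b Z Y : ℕ, A ≤ b →
  Real.log b ^ A ≤ Real.log y → (y : ℝ) ^ (A * (Real.log b + Real.log (Real.log y))) ≤ Y →
  ∀ t : Fin k → ℝ,
  |(((Ioc Z (Z + Y)).filter (fun x => ∀ i : Fin k, ∑ n ∈ Ioc (x + i * b) (x + i * b + b), mu y n -
      b * V (pr y) ≤ t i * √(6 * b / Real.pi ^ 2))).card : ℝ) / Y -
    ∏ i, (ProbabilityTheory.gaussianReal 0 1).real (Set.Iic (t i))| ≤ ε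

end Pool.Agent.H19.TM
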