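import Pool.Agent.H19.TM.Stm2

/-!
# Project TM3: the exact variance of the truncated Moebius function in windows (MP_4f18df_nt)

Statements of the modules. `V`, `Wv`, `sig`, `cnt`, `th`, `S_REC`, `S_CNT`, `S_VAR`, `S_SIG`, ... are those of `Stm` and
`Stm2`; all the statements of these two files are proved: `Pool.Agent.H19.TM.t_REC` (in `Rec`), `t_CNT`, `t_SIG`, `t_VAR`
(`VarFar`, `Rec`), `Pool.Agent.H54.TM.t_SMALL`, `Pool.Agent.H95.TM.t_PV`, ... (import `Pool.Agent.H95.TM.Lim`,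
`Pool.Agent.H54.TM.Small`, `Pool.Agent.H19.TM.Seq` for all of them).

Theorem: the variance over a full period `Wv (pr y) b`, divided by `sig (pr y) * b`, is `1 - Gd (pr y) b + o(1)` as
`b → ∞`, uniformly in `y`, where `Gd (pr y) b = ∏ p ≤ y, (1 - 1 / p) ^ 4 * ∑ n ≤ b, n y-smooth, tau4 n / n`.
-/

set_option autoImplicit false

namespace Pool.Agent.H19.TM

open Finset Pool.Agent.Y862.GM

/-- the number of quadruples of natural numbers with product `n` -/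
def tau4 (n : ℕ) : ℕ := ∑ d ∈ n.divisors, d.divisors.card * (n / d).divisors.card

/-- `(∏ p ∈ P, (1 - 1 / p) ^ 4) * ∑ n ≤ N, tau4 n / n`, over the `n` all of whose prime factors are in `P` -/
noncomputable def Gd (P : Finset ℕ) (N : ℕ) : ℝ :=
  V P ^ 2 * ∑ n ∈ (Icc 1 N).filter (fun n => n.primeFactors ⊆ P), (tau4 n : ℝ) / n

/-- the relative deficiency of the variance -/
noncomputable def Fd (P : Finset ℕ) (N : ℕ) : ℝ := 1 - Wv P N / (sig P * N)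

/-- the difference, to be shown to be small -/
noncomputable def Ed (P : Finset ℕ) (N : ℕ) : ℝ := Fd P N - Gd P N

/-- **G1**: the recursion for `Gd`.  Proof: write `n = p ^ k * m` with `m` not divisible by `p`
(`n.primeFactors ⊆ insert p P` iff `m.primeFactors ⊆ P`, `n ≤ N` iff `m ≤ N / p ^ k`, `k ≤ N`), and
`tau4 (p ^ k * m) = (k + 3).choose 3 * tau4 m` (`tau4` is the Dirichlet square of the number of divisors:
`ArithmeticFunction.sigma 0 * sigma 0`, multiplicative; at `p ^ k` it is `∑ i ≤ k, (i + 1) (k - i + 1)`). -/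
def S_G1 : Prop := ∀ P : Finset ℕ, (∀ q ∈ P, q.Prime) → ∀ p : ℕ, p.Prime → p ∉ P → ∀ N : ℕ,
  Gd (insert p P) N = (1 - 1 / (p : ℝ)) ^ 4 *
    ∑ k ∈ range (N + 1), ((k + 3).choose 3 : ℝ) / (p : ℝ) ^ k * Gd P (N / p ^ k)

/-- **G2**: bounds.  Proof from `S_G1` by induction on `P`, with `∑' k, (k + 3).choose 3 * x ^ k = 1 / (1 - x) ^ 4`
(`tsum_choose_mul_geometric_of_norm_lt_one`).  Second part (Markov): with `A P = ∑ p ∈ P, 4 log p / (p - 1)` show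
`(1 - Gd P N) * log (N + 1) ≤ A P` for ALL `N ≥ 0` by induction: `Gd P 0 = 0`, the weights
`(1 - 1 / p) ^ 4 * (k + 3).choose 3 / p ^ k`, `k ≥ 0`, have sum `1` and mean `4 / (p - 1)`,
`log (N + 1) ≤ log (N / p ^ k + 1) + k * log p` (as `N + 1 ≤ p ^ k * (N / p ^ k + 1)`), so
`log (N + 1) * (1 - Gd (insert p P) N) ≤ ∑ weights * (A P + k * log p) = A P + 4 * log p / (p - 1)`.
(The tail `k > N` of the weights: there `1 - Gd P (N / p ^ k) = 1` and the same bound holds.) -/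
def S_G2 : Prop := (∀ P : Finset ℕ, (∀ q ∈ P, q.Prime) → ∀ N : ℕ, 0 ≤ Gd P N ∧ Gd P N ≤ 1) ∧
  (∀ P : Finset ℕ, (∀ q ∈ P, q.Prime) → ∀ N : ℕ,
    (1 - Gd P N) * Real.log (N + 1) ≤ ∑ p ∈ P, 4 * Real.log p / (p - 1))

/-- **G3**: the approximate recursion, from `S_G1` and `0 ≤ Gd ≤ 1` (`S_G2`): the terms `k ≥ 2` are `O(1 / p ^ 2)`, and
`(1 - 1 / p) ^ 4 = 1 - 4 / p + O(1 / p ^ 2)`. -/
def S_G3 : Prop := ∃ C : ℝ, 0 ≤ C ∧ ∀ P : Finset ℕ, (∀ q ∈ P, q.Prime) → ∀ p : ℕ, p.Prime → p ∉ P → ∀ N : ℕ,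
  |Gd (insert p P) N - ((1 - 4 / (p : ℝ)) * Gd P N + 4 / (p : ℝ) * Gd P (N / p))| ≤ C / (p : ℝ) ^ 2

/-- **G4**: the increments are small.  Proof: the increment is `0` or `V P ^ 2 * tau4 (M + 1) / (M + 1)`, `V P ≤ 1`, and
`tau4 n / n → 0` by the divisor bound (for instance `d.divisors.card ≤ C d ^ (1/8)`). -/
def S_G4 : Prop := ∀ ε : ℝ, 0 < ε → ∃ M0 : ℕ, ∀ M : ℕ, M0 ≤ M → ∀ P : Finset ℕ, (∀ q ∈ P, q.Prime) →
  |Gd P (M + 1) - Gd P M| ≤ ε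

/-- **G5**: small primes, from the second part of `S_G2` and Mertens (`∑ p ≤ z, log p / p ≤ log z + C`). -/
def S_G5 : Prop := ∃ C : ℝ, 0 ≤ C ∧ ∀ z N : ℕ, 2 ≤ z → 1 ≤ N →
  1 - Gd (pr z) N ≤ C * Real.log z / (1 + Real.log N)

/-- **F1**: the approximate recursion for `Fd`.  Proof: divide `S_REC` by `sig (insert p P) * N =
(1 - 1 / p ^ 2) * sig P * N`.  By `S_VAR` and `1 / 2 ≤ sig ≤ 1` all the quotients `Wv P N / (sig P * N)`,
`(∑ a, Wv P (cnt p a N)) / (sig P * N)` (as `∑ a, cnt p a N = N`) are at most `2 C`; the third sum contributes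
`O(1 / p ^ 2)`; the last term is at most `(5 / 4) * 2 / N` up to a constant, as `th p N ≤ p / 4`, `th (p ^ 2) N ≤ p ^ 2 / 4`,
`V P ≤ 1`.  Finally `1 = (1 - 4 / p) + (4 / p) * ∑ a, cnt p a N / N`, and for `cnt p a N = 0` the term is zero on both
sides (`Wv P 0 = 0`). -/
def S_F1 : Prop := ∃ C : ℝ, 0 ≤ C ∧ ∀ P : Finset ℕ, (∀ q ∈ P, q.Prime) → ∀ p : ℕ, p.Prime → p ∉ P →
  ∀ N : ℕ, 1 ≤ N →
  |Fd (insert p P) N - ((1 - 4 / (p : ℝ)) * Fd P N +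
    4 / (p : ℝ) * ∑ a ∈ range p, (cnt p a N : ℝ) / N * Fd P (cnt p a N))| ≤ C * (1 / (p : ℝ) ^ 2 + 1 / N)

/-- **F2**: the exact recursion for the deficiency at a prime `p ≥ N`; proof as that of `S_FAR` in
`Pool/Agent/H19/TM/VarFar.lean` (there only an inequality is stated): all the `cnt p a N` and `cnt (p ^ 2) a N` are
`0` or `1`, and `N` of them are `1`; `th p N = N (1 - N / p)`, `th (p ^ 2) N = N (1 - N / p ^ 2)`. -/
def S_F2 : Prop := ∀ P : Finset ℕ, (∀ q ∈ P, q.Prime) → ∀ p : ℕ, p.Prime → p ∉ P → ∀ N : ℕ, N ≤ p →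
  sig (insert p P) * N - Wv (insert p P) N = (1 - 4 / p + 2 / (p : ℝ) ^ 2) * (sig P * N - Wv P N) +
    V P ^ 2 * (N : ℝ) ^ 2 * (4 / (p : ℝ) ^ 2 - 4 / (p : ℝ) ^ 3 + 1 / (p : ℝ) ^ 4)

/-- **E1**: the step at a prime `p ≤ N`, from `S_F1`, `S_G3` and `S_CNT` (`cnt p a N` is `N / p` or `N / p + 1`, and
`∑ a, cnt p a N / N = 1`): `Fd P (cnt) - Gd P (N / p) = Ed P (cnt) + (Gd P (cnt) - Gd P (N / p))`. -/
def S_E1 : Prop := ∃ C : ℝ, 0 ≤ C ∧ ∀ P : Finset ℕ, (∀ q ∈ P, q.Prime) → ∀ p : ℕ, p.Prime → p ∉ P → 5 ≤ p →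
  ∀ N : ℕ, p ≤ N → ∀ e δ : ℝ, |Ed P (N / p)| ≤ e → |Ed P (N / p + 1)| ≤ e →
  |Gd P (N / p + 1) - Gd P (N / p)| ≤ δ →
  |Ed (insert p P) N| ≤ (1 - 4 / (p : ℝ)) * |Ed P N| + 4 / (p : ℝ) * (e + δ) +
    C * (1 / (p : ℝ) ^ 2 + 1 / N)

/-- **E2**: the step at a prime `p ≥ N`, from `S_F2` (divide by `sig (insert p P) * N`), `S_G3` or `S_G1`
(`N / p ^ k = 0` for `p ^ k > N`, `Gd P 0 = 0`, and `Gd P 1 = V P ^ 2` for `N = p`) and the bounds `|Fd| ≤ C`,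
`0 ≤ Gd ≤ 1`. -/
def S_E2 : Prop := ∃ C : ℝ, 0 ≤ C ∧ ∀ P : Finset ℕ, (∀ q ∈ P, q.Prime) → ∀ p : ℕ, p.Prime → p ∉ P → 5 ≤ p →
  ∀ N : ℕ, 1 ≤ N → N ≤ p →
  |Ed (insert p P) N| ≤ |Ed P N| + C / (p : ℝ) ^ 2 + C * V P ^ 2 * N / (p : ℝ) ^ 2

/-- **E3**: the start: `S_VAR`, `S_G2` for the first part; `S_SMALL` (`Wv (pr z) N ≤ C N log z / (1 + log N)`) and
`S_G5` for the second (`Ed = (1 - Gd) - Wv / (sig N)`, both terms between `0` and `C log z / (1 + log N)`). -/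
def S_E3 : Prop := ∃ C : ℝ, 0 ≤ C ∧
  (∀ P : Finset ℕ, (∀ q ∈ P, q.Prime) → ∀ N : ℕ, |Ed P N| ≤ C) ∧
  (∀ z N : ℕ, 2 ≤ z → 1 ≤ N → |Ed (pr z) N| ≤ C * Real.log z / (1 + Real.log N))

/-- **EC**: the contraction.  Proof (as `S_LIM` in `Pool/Agent/H95/TM/Lim.lean`).  Fix `ε`.  `H e`: there is `M0` with
`|Ed (pr z) M| ≤ e` for all `M ≥ M0` and all `z`.  (a) `H e` for some `e` by `S_E3`.  (b) There is `c₁ ∈ (0, 1)`,
depending on `ε`, such that for all `e ≥ ε`, `H e` implies `H ((1 - c₁ / 4) * e)`.  Iterate (b) to get `H ε`.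
Proof of (b): let `κ` be so small that the bound of `S_E3` is at most `ε / 4` for `w ≤ N ^ κ`, `w` the integer part of
`N ^ κ`, and `c₁` a lower bound for the products `∏ w < q ≤ z, (1 - 4 / q)`, `w < z ≤ N` (`S_PV`).  Let `δ = c₁ ε / 16`
and `M0` as in `H e` and in `S_G4` for `δ`.  For a prime `p = z + 1 ≤ N`, `z ≥ w`: if `N / p ≥ M0` then `S_E1` with `e`
and `δ`, otherwise `S_E1` with the bounds of `S_E3` and `S_G2`, and `4 / p ≤ 4 (M0 + 1) / N`; so in both cases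
`|Ed (pr p) N| - (e + δ) ≤ (1 - 4 / p) (|Ed (pr (p - 1)) N| - (e + δ)) + C / p ^ 2 + E / N`, `E` depending on `M0`.
With `Pool.Agent.H95.TM.rec_sum`: `|Ed (pr z) N| - (e + δ) ≤ (ε / 4 - e) c₁ + C / w + E π(N) / N` for `w ≤ z ≤ N`,
which is at most `- c₁ e / 2 - δ` for large `N`.  For `z < w` the bound is `ε / 4`, and for `z > N` use `S_E2` and
`V (pr N) ≤ C / (log N) ^ 2` (`S_VV`): the sum of the errors over the primes `p > N` is at most `C / N + C / (log N) ^ 4`. -/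
def S_EC : Prop := ∀ ε : ℝ, 0 < ε → ∃ N0 : ℕ, ∀ N : ℕ, N0 ≤ N → ∀ z : ℕ, |Ed (pr z) N| ≤ ε

/-- **T4**: the sum of `tau4 n / n`.  Proof: `∑ n ≤ b, tau4 n / n` is the sum of `1 / (a b c d)` over the quadruples with
product at most `b`; with `S_k (x) = ∑ m ≤ x, S_{k-1} (x / m) / m`, `S_0 = 1`, one gets
`|S_k (x) - (log x) ^ k / k!| ≤ C (1 + log x) ^ (k - 1)` for `k = 1, 2, 3, 4` by induction (or by hand: two steps
suffice, the library has the sum of the number of divisors). -/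
def S_T4 : Prop := ∃ C : ℝ, 0 ≤ C ∧ ∀ b : ℕ, 1 ≤ b →
  |∑ n ∈ Icc 1 b, (tau4 n : ℝ) / n - Real.log b ^ 4 / 24| ≤ C * (1 + Real.log b) ^ 3

/-- **EX**: for `b ≤ y` all the `n ≤ b` are `y`-smooth, so `Gd (pr y) b` is given by `S_T4` and the third theorem of
Mertens, `∏ p ≤ y, (1 - 1 / p) * log y → exp (- γ)`. -/
def S_EX : Prop := ∀ ε : ℝ, 0 < ε → ∃ A : ℕ, ∀ y b : ℕ, A ≤ b → b ≤ y →
  |Gd (pr y) b - Real.exp (-(4 * Real.eulerMascheroniConstant)) / 24 * (Real.log b / Real.log y) ^ 4| ≤ ε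

end Pool.Agent.H19.TM
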