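import Pool.Agent.H19.TM.Stm3

/-!
# Project TM3, second half: the limit function of `Gd` (the function of Ankeny and Onishi of dimension 4)

`Gd (pr z) N → j (log N / log z)`, uniformly in `z ≥ 2` as `N → ∞`.
-/

set_option autoImplicit false

namespace Pool.Agent.H19.TM

open Finset Filter Topology Pool.Agent.Y862.GM

/-- the conditions which determine the function `j` -/
def JProp (j : ℝ → ℝ) : Prop :=
  Continuous j ∧ (∀ u : ℝ, u ≤ 0 → j u = 0) ∧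
  (∀ u : ℝ, 0 ≤ u → u ≤ 1 → j u = Real.exp (-(4 * Real.eulerMascheroniConstant)) / 24 * u ^ 4) ∧
  (∀ u : ℝ, 0 < u → HasDerivAt j (4 * (j u - j (u - 1)) / u) u)

/-- `exp (- γ) / ∏ p ≤ z, (1 - 1 / p)`, asymptotic to `log z` -/
noncomputable def Lz (z : ℕ) : ℝ := Real.exp (-Real.eulerMascheroniConstant) / ∏ p ∈ pr z, (1 - 1 / (p : ℝ))

/-- **J1**: existence.  Proof: `f 0 u = c (max u 0) ^ 4`, `c = exp (- 4 γ) / 24`, and
`f (n + 1) u = (max u 0) ^ 4 * (c - 4 * ∫ t in (1)..(max u 1), f n (t - 1) / t ^ 5)`.  All the `f n` are continuous,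
`f (n + 1) u = f n u` for `u ≤ n + 1` (induction), so `j u = f ⌈|u|⌉₊ u` is `f n u` for all `n ≥ |u|`; and
`j u = u ^ 4 * (c - 4 * ∫ t in (1)..u, j (t - 1) / t ^ 5)` for `u ≥ 1`, which gives the derivative for `u > 1`; for
`0 < u < 1` it is clear, and at `u = 1` both one-sided derivatives are `4 c` (or: on `(0, ∞)` one has
`j u = u ^ 4 * (c - 4 * ∫ t in (1)..u, j (t - 1) / t ^ 5)` without any condition, as `j (t - 1) = 0` for `t ≤ 1`). -/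
def S_J1 : Prop := ∃ j : ℝ → ℝ, JProp j

/-- **J2**: regularity on bounded intervals.  Proof: the derivative is continuous and zero near `-∞` (at `0` the derivative
is `0` from both sides), so it is bounded on `[-1, K]`; by the formula for the derivative it is itself Lipschitz on `(0, K]`
(for `u ≤ 1` it is `4 c u ^ 3`; for `u ≥ 1/2` it is a quotient of Lipschitz functions with `u` bounded below). -/
def S_J2 : Prop := ∀ j : ℝ → ℝ, JProp j → ∀ K : ℝ, ∃ C : ℝ, 0 ≤ C ∧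
  (∀ u : ℝ, u ≤ K → |j u| ≤ C) ∧ (∀ u v : ℝ, u ≤ K → v ≤ K → |j u - j v| ≤ C * |u - v|) ∧
  (∀ u x : ℝ, 0 < u → u ≤ K → 0 ≤ x → x ≤ 1 / 2 →
    |j (u * (1 - x)) - ((1 - 4 * x) * j u + 4 * x * j (u - 1))| ≤ C * x ^ 2)

/-- **J3**: the third theorem of Mertens, and the recursion for `Lz` (by definition). -/
def S_J3 : Prop := (∀ ε : ℝ, 0 < ε → ∃ Z0 : ℕ, ∀ z : ℕ, Z0 ≤ z → |Lz z / Real.log z - 1| ≤ ε) ∧
  (∀ z : ℕ, 0 < Lz z) ∧
  (∀ z : ℕ, (z + 1).Prime → Lz z = Lz (z + 1) * (1 - 1 / ((z + 1 : ℕ) : ℝ))) ∧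
  (∀ z : ℕ, ¬ (z + 1).Prime → Lz (z + 1) = Lz z)

/-- **J4**: one step.  With `D z N = Gd (pr z) N - j (log N / Lz z)`, `p = z + 1` prime, `log N ≤ K log z`, `z ≥ Z0(K, δ)`,
`N / p ≥ M0(K, δ)`: `D p N` is `(1 - 4 / p) D z N + (4 / p) D z (N / p)` up to `(4 / p) δ + C / p ^ 2`; and always
`D p N` is `D z N` up to `C / p`.  Proof: `S_G3` for `Gd`; for `j`, with `u = log N / Lz z ≤ 2 K`, `log N / Lz p = u (1 - 1 / p)`
(`S_J3`), so the last part of `S_J2` with `x = 1 / p`; and `|j (u - 1) - j (log (N / p) / Lz z)| ≤ C |1 - (log N - log (N / p)) / Lz z|`,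
where `N / p` is the integer part, `|log N - log p - log (integer part)| ≤ 2 p / N` and `log p / Lz z` is close to `1`. -/
def S_J4 : Prop := ∀ j : ℝ → ℝ, JProp j → ∀ K : ℝ, 1 ≤ K → ∃ C : ℝ, 0 ≤ C ∧
  (∀ z N : ℕ, 5 ≤ z → 1 ≤ N → Real.log N ≤ K * Real.log z → |Gd (pr z) N - j (Real.log N / Lz z)| ≤ C) ∧
  (∀ z N : ℕ, 5 ≤ z → (z + 1).Prime → 1 ≤ N → Real.log N ≤ K * Real.log z →
    |(Gd (pr (z + 1)) N - j (Real.log N / Lz (z + 1))) - (Gd (pr z) N - j (Real.log N / Lz z))| ≤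
      C / ((z + 1 : ℕ) : ℝ)) ∧
  ∀ δ : ℝ, 0 < δ → ∃ Z0 M0 : ℕ, ∀ z N : ℕ, Z0 ≤ z → (z + 1).Prime → z + 1 ≤ N → Real.log N ≤ K * Real.log z →
  M0 ≤ N / (z + 1) →
  |(Gd (pr (z + 1)) N - j (Real.log N / Lz (z + 1))) -
    ((1 - 4 / ((z + 1 : ℕ) : ℝ)) * (Gd (pr z) N - j (Real.log N / Lz z)) +
      4 / ((z + 1 : ℕ) : ℝ) * (Gd (pr z) (N / (z + 1)) - j (Real.log (N / (z + 1) : ℕ) / Lz z)))| ≤
    4 / ((z + 1 : ℕ) : ℝ) * δ + C / ((z + 1 : ℕ) : ℝ) ^ 2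

/-- **J5**: convergence for bounded `log N / log z`.  Proof: by induction in steps of `1 / 2`: the claim for `K` implies
the claim for `K + 1 / 2`; start `K = 1` (`z ≥ N`): `S_EX`, and `log N / Lz z` is close to `log N / log z` (`S_J3`).
Step: let `N ^ (1 / (K + 1/2)) ≤ z < N`.  For the primes `p = z' + 1 ∈ (z, N]`: `log (N / p) ≤ (K - 1/2) log p ≤ K log z'`, so
`|D z' (N / p)| ≤ δ` if `N / p ≥ M0`, and by `S_J4` (backwards, `1 - 4 / p ≥ (1 - 4 / p)`)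
`(1 - 4 / p) |D z' N| ≤ |D p N| + (8 / p) δ + C / p ^ 2`, with an additional `C' / p ≤ C' M0 / N` for the `p > N / M0`.
So `|D z N| ∏ z < q ≤ N, (1 - 4 / q) ≤ |D N N| + ∑ z < p ≤ N, (8 δ / p + C / p ^ 2) + C' M0 π(N) / N`, where
`∑ z < p ≤ N, 1 / p ≤ C (K)` and the product is at least `c (K) > 0` (`S_PV`). -/
def S_J5 : Prop := ∀ j : ℝ → ℝ, JProp j → ∀ K : ℝ, 1 ≤ K → ∀ ε : ℝ, 0 < ε → ∃ A : ℕ, ∀ N z : ℕ, A ≤ N →
  Real.log N ≤ K * Real.log z → |Gd (pr z) N - j (Real.log N / Lz z)| ≤ ε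

/-- **J6**: the limit.  Proof: for fixed `u > 0`, by `S_J5` with `N = ⌊z ^ u⌋`, `j u = lim Gd (pr z) ⌊z ^ u⌋` (`j` is
continuous and `log N / Lz z → u`), so `0 ≤ j u ≤ 1`, `j` is monotone (`Gd P N` is monotone in `N`), and
`1 - j u ≤ C / u` by `S_G5`.  Uniformly in `z`: for `log N ≤ K log z` this is `S_J5` and `S_J3` with the Lipschitz bound of
`S_J2`; for `log N > K log z` both `1 - Gd (pr z) N` and `1 - j (log N / log z)` are at most `2 C / K`. -/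
def S_J6 : Prop := ∀ j : ℝ → ℝ, JProp j → (∀ u : ℝ, 0 ≤ j u ∧ j u ≤ 1) ∧ Monotone j ∧
  Tendsto j atTop (𝓝 1) ∧ ∀ ε : ℝ, 0 < ε → ∃ A : ℕ, ∀ N z : ℕ, A ≤ N → 2 ≤ z →
  |Gd (pr z) N - j (Real.log N / Real.log z)| ≤ ε

end Pool.Agent.H19.TM
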