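import Pool.Agent.H19.TM.ExactFin

/-!
# Project TM3: the function `j` is strictly between `0` and `1`
-/

set_option autoImplicit false

namespace Pool.Agent.H19.TM

open Finset Filter Topology Pool.Agent.Y862.GM

theorem j_strict (j : ℝ → ℝ) (hj : JProp j) (h01 : ∀ u : ℝ, 0 ≤ j u ∧ j u ≤ 1) (hm : Monotone j) (u : ℝ) (hu : 0 < u) :
    0 < j u ∧ j u < 1 := by
  constructor
  · have h1 : 0 < min u 1 := lt_min hu one_pos
    have h2 : j (min u 1) ≤ j u := hm (min_le_left _ _)
    rw [hj.2.2.1 (min u 1) h1.le (min_le_right _ _)] at h2
    have h3 : 0 < Real.exp (-(4 * Real.eulerMascheroniConstant)) / 24 * (min u 1) ^ 4 := by positivity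
    linarith
  · by_contra hcon
    have hall : ∀ n : ℕ, ∀ v : ℝ, v ≤ n → j v ≠ 1 := by
      intro n
      induction n with
      | zero =>
        intro v hv hv1
        have := hj.2.1 v (by simpa using hv)
        rw [this] at hv1
        norm_num at hv1
      | succ n ih =>
        intro v hv hv1
        rcases le_or_gt v 0 with h0 | h0
        · have := hj.2.1 v h0
          rw [this] at hv1
          norm_num at hv1
        · have hmax : IsLocalMax j v := by
            apply Filter.Eventually.of_forall
            intro w
            show j w ≤ j v
            rw [hv1]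
            exact (h01 w).2
          have hd := hmax.hasDerivAt_eq_zero (hj.2.2.2 v h0)
          have h2 : j (v - 1) = 1 := by
            have h3 : 4 * (j v - j (v - 1)) = 0 := by
              rcases div_eq_zero_iff.1 hd with h | h
              · exact h
              · exact absurd h h0.ne'
            linarith
          refine ih (v - 1) ?_ h2
          push_cast at hv
          linarith
    obtain ⟨n, hn⟩ := exists_nat_ge u
    exact hall n u hn (le_antisymm (h01 u).2 (not_lt.1 hcon))

end Pool.Agent.H19.TM
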