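import Pool.Agent.H19.TM.Seq

/-!
# Project TM2: the exact range of the law without centring
-/

set_option autoImplicit false

namespace Pool.Agent.H19.TM

open Finset Pool.Agent.Y862.GM Filter Topology

lemma Ph_strict {s t : ℝ} (h : s < t) : Ph s < Ph t := by
  have h1 : Ph t - Ph s = (ProbabilityTheory.gaussianReal 0 1).real (Set.Ioc s t) := by
    unfold Ph
    have e : Set.Ioc s t = Set.Iic t \ Set.Iic s := by
      ext x
      simp only [Set.mem_Ioc, Set.mem_sdiff, Set.mem_Iic, not_le]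
      exact and_comm
    rw [e, MeasureTheory.measureReal_sdiff (Set.Iic_subset_Iic.2 h.le) measurableSet_Iic]
  have h2 : 0 < (ProbabilityTheory.gaussianReal 0 1).real (Set.Ioc s t) := by
    rw [MeasureTheory.measureReal_def, ENNReal.toReal_pos_iff]
    refine ⟨?_, MeasureTheory.measure_lt_top _ _⟩
    rw [pos_iff_ne_zero]
    intro h0
    have h3 := ProbabilityTheory.gaussianReal_absolutelyContinuous' 0 (v := 1) one_ne_zero h0
    rw [Real.volume_Ioc, ENNReal.ofReal_eq_zero] at h3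
    linarith
  linarith

lemma sd_facts {b : ℕ} (hb : 1 ≤ b) : 0 < sd b ∧ sd b ^ 2 = 6 * b / Real.pi ^ 2 := by
  obtain ⟨h1, _, h3⟩ := sigma_facts b hb
  exact ⟨h1, h3⟩

lemma pi_facts : (9 : ℝ) ≤ Real.pi ^ 2 ∧ Real.pi ^ 2 ≤ 10 := by
  have h1 := Real.pi_gt_three
  have h2 := Real.pi_lt_d2
  have h3 := Real.pi_pos
  constructor <;> nlinarith

/-- the failure of the law without centring -/
theorem unc_fail (c : ℝ) (hc : 0 < c) : ∃ δ : ℝ, 0 < δ ∧ ∃ A : ℕ, ∀ y b Z Y : ℕ, A ≤ y → A ≤ b →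
    c * Real.log y ^ 4 ≤ b → (y : ℝ) ^ (A * (Real.log b + Real.log (Real.log y))) ≤ Y →
    δ ≤ |law y b Z Y 0 (fun _ : Fin 1 => 0 * sd b) - Ph 0| := by
  classical
  obtain ⟨c0, C0, hc0, hC0, hV⟩ := Pool.Agent.H61.TM.t_VV
  obtain ⟨CV, hCV1, hCV⟩ := t_VAR'
  obtain ⟨A1, hA1⟩ := msq_close
  obtain ⟨u0, hu0⟩ : ∃ u0 : ℝ, u0 = √c * c0 := ⟨_, rfl⟩
  have hu0pos : 0 < u0 := by rw [hu0]; positivity
  obtain ⟨δ, hδ⟩ : ∃ δ : ℝ, δ = (Ph 0 - Ph (-u0)) / 2 := ⟨_, rfl⟩
  have hst := Ph_strict (by linarith : -u0 < 0)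
  have hPn := Ph_nonneg (-u0)
  have hδ0 : 0 < δ := by rw [hδ]; linarith
  have hq0 : 0 < Ph 0 - δ := by rw [hδ]; linarith
  obtain ⟨T0, hT0⟩ : ∃ T0 : ℝ, T0 = (CV + 4) / (c0 ^ 2 * (Ph 0 - δ)) := ⟨_, rfl⟩
  have hT0pos : 0 < T0 := by rw [hT0]; positivity
  obtain ⟨A2, hA2⟩ := law2 1 δ hδ0
  obtain ⟨X, hX3, hX⟩ := log_pow_small 1 (8 * A2) (by positivity)
  obtain ⟨N3, hN3⟩ := exists_nat_ge (Real.exp (X + 2 * A2 * Real.log (T0 + 1)))
  refine ⟨δ, hδ0, A1 + A2 + N3 + 3, ?_⟩
  intro y b Z Y hy hb hcb hY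
  have hb1 : 1 ≤ b := by omega
  have hy3 : 3 ≤ y := by omega
  have hy3' : (3 : ℝ) ≤ y := by exact_mod_cast hy3
  have hly1 : 1 ≤ Real.log y := by
    rw [← Real.log_exp 1]
    apply Real.log_le_log (Real.exp_pos _)
    linarith [Real.exp_one_lt_d9]
  have hlT : 0 ≤ Real.log (T0 + 1) := Real.log_nonneg (by linarith)
  have hlyX : X + 2 * A2 * Real.log (T0 + 1) ≤ Real.log y := by
    rw [← Real.log_exp (X + 2 * A2 * Real.log (T0 + 1))]
    apply Real.log_le_log (Real.exp_pos _)
    refine hN3.trans ?_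
    exact_mod_cast (by omega : N3 ≤ y)
  have hlyX' : X ≤ Real.log y := by
    have : 0 ≤ 2 * (A2 : ℝ) * Real.log (T0 + 1) := by positivity
    linarith
  have hly0 : 0 < Real.log y := by linarith
  have hlly : 0 ≤ Real.log (Real.log y) := Real.log_nonneg hly1
  have hlb : 0 ≤ Real.log b := Real.log_natCast_nonneg b
  have hYA : ∀ A' : ℕ, A' ≤ A1 + A2 + N3 + 3 →
      (y : ℝ) ^ (A' * (Real.log b + Real.log (Real.log y))) ≤ Y := by
    intro A' hA'
    refine le_trans ?_ hY
    apply Real.rpow_le_rpow_of_exponent_le (by linarith)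
    apply mul_le_mul_of_nonneg_right _ (by linarith)
    exact_mod_cast hA'
  obtain ⟨hYn, hm1, hm2⟩ := hA1 y b Z Y (by omega) hb1 (hYA A1 (by omega))
  have hY0 : (0 : ℝ) < Y := by exact_mod_cast hYn
  have hb0 : (0 : ℝ) < b := by exact_mod_cast hb1
  have hb1' : (1 : ℝ) ≤ b := by exact_mod_cast hb1
  have hVl := (hV y hy3).1
  have hVpos := V_pos (pr y) (pr_prime y)
  obtain ⟨hs0, hssq⟩ := sd_facts hb1
  obtain ⟨hpi9, hpi10⟩ := pi_facts
  -- the size of the mean
  have hVsq : c0 ^ 2 / Real.log y ^ 4 ≤ V (pr y) ^ 2 := by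
    calc c0 ^ 2 / Real.log y ^ 4 = (c0 / Real.log y ^ 2) ^ 2 := by ring
      _ ≤ V (pr y) ^ 2 := pow_le_pow_left₀ (by positivity) hVl 2
  have hgoal : law y b Z Y 0 (fun _ : Fin 1 => 0 * sd b) ≤ Ph 0 - δ := by
    rcases le_total (b : ℝ) (T0 * Real.log y ^ 4) with hcase | hcase
    · have hA2log : (A2 : ℝ) * Real.log b ≤ Real.log y := by
        have h1 : Real.log b ≤ Real.log (T0 + 1) + 4 * Real.log (Real.log y) := by
          have h2 : (b : ℝ) ≤ (T0 + 1) * Real.log y ^ 4 := by
            refine hcase.trans ?_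
            apply mul_le_mul_of_nonneg_right (by linarith) (by positivity)
          calc Real.log b ≤ Real.log ((T0 + 1) * Real.log y ^ 4) := Real.log_le_log hb0 h2
            _ = Real.log (T0 + 1) + 4 * Real.log (Real.log y) := by
                rw [Real.log_mul (by positivity) (by positivity), Real.log_pow]
                norm_num
        have h3 := hX (Real.log y) hlyX'
        rw [pow_one] at h3
        have h4 : (A2 : ℝ) * Real.log b ≤ A2 * (Real.log (T0 + 1) + 4 * Real.log (Real.log y)) :=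
          mul_le_mul_of_nonneg_left h1 (Nat.cast_nonneg _)
        have h5 : 2 * (A2 : ℝ) * Real.log (T0 + 1) ≤ Real.log y := by linarith
        linarith
      have h1 := hA2 y b Z Y (by omega) hA2log (hYA A2 (by omega)) (fun _ => -u0)
      simp only [univ_unique, prod_const, card_singleton, pow_one] at h1
      have h2 : law y b Z Y 0 (fun _ : Fin 1 => 0 * sd b) ≤
          law y b Z Y (b * V (pr y)) (fun _ : Fin 1 => -u0 * √(6 * b / Real.pi ^ 2)) := by
        rw [law_shift y b Z Y (b * V (pr y))]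
        apply law_mono
        intro i
        have h3 : u0 * sd b ≤ b * V (pr y) := by
          have h4 : (u0 * sd b) ^ 2 ≤ (b * V (pr y)) ^ 2 := by
            rw [mul_pow, hssq, hu0, mul_pow, Real.sq_sqrt hc.le]
            calc c * c0 ^ 2 * (6 * b / Real.pi ^ 2) ≤ c * c0 ^ 2 * b := by
                  apply mul_le_mul_of_nonneg_left _ (by positivity)
                  rw [div_le_iff₀ (by positivity)]
                  nlinarith
              _ = (c * Real.log y ^ 4) * (c0 ^ 2 / Real.log y ^ 4) * b := by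
                  field_simp
              _ ≤ b * V (pr y) ^ 2 * b := by gcongr
              _ = (b * V (pr y)) ^ 2 := by ring
          exact (sq_le_sq₀ (by positivity) (by positivity)).1 h4
        have h5 : √(6 * b / Real.pi ^ 2) = sd b := rfl
        rw [h5]
        linarith
      have h3 := (abs_le.1 h1).2
      have h4 : Ph (-u0) + δ = Ph 0 - δ := by rw [hδ]; ring
      linarith
    · -- Chebyshev
      obtain ⟨F, hF⟩ : ∃ F, F = (Ioc Z (Z + Y)).filter (fun x => ∀ i : Fin 1,
        ∑ n ∈ Ioc (x + i * b) (x + i * b + b), mu y n - 0 ≤ 0 * sd b) := ⟨_, rfl⟩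
      have hcheb : (F.card : ℝ) * (b * V (pr y)) ^ 2 ≤
          ∑ x ∈ Ioc Z (Z + Y), (∑ n ∈ Ioc x (x + b), mu y n - b * V (pr y)) ^ 2 := by
        calc (F.card : ℝ) * (b * V (pr y)) ^ 2 = ∑ _x ∈ F, (b * V (pr y)) ^ 2 := by
              rw [sum_const, nsmul_eq_mul]
          _ ≤ ∑ x ∈ F, (∑ n ∈ Ioc x (x + b), mu y n - b * V (pr y)) ^ 2 := by
              apply sum_le_sum
              intro x hx
              rw [hF, mem_filter] at hx
              have h1 := hx.2 0
              simp only [Fin.val_zero, zero_mul, add_zero, sub_zero] at h1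
              have h5 : 0 ≤ b * V (pr y) := by positivity
              nlinarith
          _ ≤ _ := by
              apply sum_le_sum_of_subset_of_nonneg
              · rw [hF]; exact filter_subset _ _
              · intro x _ _
                exact sq_nonneg _
      have hlaw : law y b Z Y 0 (fun _ : Fin 1 => 0 * sd b) = F.card / Y := by
        rw [hF]
        rfl
      rw [hlaw, div_le_iff₀ hY0]
      have h1 : msq y b Z Y (b * V (pr y)) ≤ (CV + 4) * b := by
        have h2 := (abs_le.1 hm1).2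
        have h3 := (hCV (pr y) (pr_prime y) b).2
        nlinarith
      have h2 : (F.card : ℝ) * (b * V (pr y)) ^ 2 ≤ (CV + 4) * b * Y := by
        unfold msq at h1
        rw [div_le_iff₀ hY0] at h1
        exact hcheb.trans h1
      have h3 : (CV + 4) ≤ (Ph 0 - δ) * (b * V (pr y) ^ 2) := by
        calc CV + 4 = (Ph 0 - δ) * (T0 * c0 ^ 2) := by
              rw [hT0]
              field_simp
          _ = (Ph 0 - δ) * ((T0 * Real.log y ^ 4) * (c0 ^ 2 / Real.log y ^ 4)) := by
              field_simp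
          _ ≤ (Ph 0 - δ) * (b * V (pr y) ^ 2) := by gcongr
      have h4 : (F.card : ℝ) * (b * V (pr y)) ^ 2 ≤ ((Ph 0 - δ) * Y) * (b * V (pr y)) ^ 2 := by
        calc (F.card : ℝ) * (b * V (pr y)) ^ 2 ≤ (CV + 4) * b * Y := h2
          _ ≤ ((Ph 0 - δ) * (b * V (pr y) ^ 2)) * b * Y := by gcongr
          _ = ((Ph 0 - δ) * Y) * (b * V (pr y)) ^ 2 := by ring
      exact le_of_mul_le_mul_right h4 (by positivity)
  rw [abs_sub_comm]
  refine le_trans ?_ (le_abs_self _)
  linarith

section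

variable {y b Z Y : ℕ → ℕ}

lemma ev_log_large (hy : Tendsto y atTop atTop) (X : ℝ) : ∀ᶠ n in atTop, X ≤ Real.log (y n) := by
  have h := (Real.tendsto_log_atTop.comp (tendsto_natCast_atTop_atTop.comp hy))
  exact h.eventually (eventually_ge_atTop X)

/-- `b = o((log y) ^ 4)` implies `log b = o(log y)` -/
lemma small_log (hy : Tendsto y atTop atTop) (hb : Tendsto b atTop atTop)
    (h : Tendsto (fun n => (b n : ℝ) / Real.log (y n) ^ 4) atTop (𝓝 0)) :
    Tendsto (fun n => Real.log (b n) / Real.log (y n)) atTop (𝓝 0) := by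
  rw [Metric.tendsto_nhds]
  intro ε hε
  obtain ⟨X, hX3, hX⟩ := log_pow_small 1 (8 / ε) (by positivity)
  filter_upwards [h.eventually (gt_mem_nhds one_pos), ev_log_large hy X, ev_ge hb 1] with n h1 h2 h3
  have hl : 0 < Real.log (y n) := by linarith
  rw [div_lt_one (by positivity)] at h1
  have hb0 : (0 : ℝ) < b n := by exact_mod_cast h3
  have h4 : Real.log (b n) ≤ 4 * Real.log (Real.log (y n)) := by
    calc Real.log (b n) ≤ Real.log (Real.log (y n) ^ 4) := Real.log_le_log hb0 h1.le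
      _ = _ := by
          rw [Real.log_pow]
          norm_num
  have h5 := hX _ h2
  rw [pow_one] at h5
  have hlb : 0 ≤ Real.log (b n) := Real.log_natCast_nonneg _
  rw [Real.dist_eq, sub_zero, abs_of_nonneg (by positivity), div_lt_iff₀ hl]
  have h6 : 8 * Real.log (Real.log (y n)) ≤ ε * Real.log (y n) := by
    have : 8 / ε * Real.log (Real.log (y n)) * ε = 8 * Real.log (Real.log (y n)) := by
      field_simp
    nlinarith
  have h7 : 0 < ε * Real.log (y n) := by positivity
  linarith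

lemma long_weak (hL : Long y b Y) (hy : Tendsto y atTop atTop) (A : ℕ) : ∀ᶠ n in atTop,
    (y n : ℝ) ^ (A * Real.log (Real.log (y n))) ≤ Y n := by
  filter_upwards [hL A, ev_ge hy 3] with n h1 h2
  refine le_trans ?_ h1
  apply Real.rpow_le_rpow_of_exponent_le (by exact_mod_cast (by omega : 1 ≤ y n))
  apply mul_le_mul_of_nonneg_left _ (Nat.cast_nonneg _)
  have : 0 ≤ Real.log (b n) := Real.log_natCast_nonneg _
  linarith

/-- **the exact range of the law without centring** -/
theorem uncentred (hy : Tendsto y atTop atTop) (hb : Tendsto b atTop atTop) (hL : Long y b Y) :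
    List.TFAE [
      ∀ t : ℝ, Tendsto (fun n => law (y n) (b n) (Z n) (Y n) 0
        (fun _ : Fin 1 => t * sd (b n))) atTop (𝓝 (Ph t)),
      ∀ (k : ℕ) (ε : ℝ), 0 < ε → ∀ᶠ n in atTop, ∀ t : Fin k → ℝ,
        |law (y n) (b n) (Z n) (Y n) 0 (fun i => t i * sd (b n)) - ∏ i, Ph (t i)| ≤ ε,
      Tendsto (fun n => msq (y n) (b n) (Z n) (Y n) 0 / (6 * b n / Real.pi ^ 2)) atTop (𝓝 1),
      Tendsto (fun n => (b n : ℝ) / Real.log (y n) ^ 4) atTop (𝓝 0)] := by
  obtain ⟨hpi9, hpi10⟩ := pi_facts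
  tfae_have 2 → 1 := fun h => joint_to_point _ h
  tfae_have 4 → 2 := by
    intro h k ε hε
    obtain ⟨A, κ, hκ, hA⟩ := below main2 Pool.Agent.H61.TM.t_VV k ε hε
    filter_upwards [ev_ge hb A, h.eventually (gt_mem_nhds hκ), long_weak hL hy A, ev_log_large hy 1]
      with n h1 h2 h3 h4
    intro t
    rw [div_lt_iff₀ (by positivity)] at h2
    exact hA (y n) (b n) (Z n) (Y n) h1 h2.le h3 t
  tfae_have 1 → 4 := by
    intro h
    by_contra hnot
    obtain ⟨c, hc, hfr⟩ := frequently_of_not_tendsto (Eventually.of_forall fun n =>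
      div_nonneg (Nat.cast_nonneg _) (pow_nonneg (Real.log_natCast_nonneg _) 4)) hnot
    obtain ⟨δ, hδ, A, hA⟩ := unc_fail c hc
    have h1 := ev_finset h {0} δ hδ
    obtain ⟨n, h2, h3, h4, h5, h6, h7⟩ := (hfr.and_eventually (h1.and ((ev_ge hy A).and ((ev_ge hb A).and
      ((hL A).and (ev_log_large hy 1)))))).exists
    rw [le_div_iff₀ (by positivity)] at h2
    have h8 := hA (y n) (b n) (Z n) (Y n) h4 h5 h2 h6
    have h9 := h3 0 (by simp)
    linarith
  tfae_have 4 → 3 := by
    intro h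
    have h0 : Tendsto (fun n => Real.log (b n) / Real.log (y n)) atTop (𝓝 0) := small_log hy hb h
    have h1 := ((centred (Z := Z) hy hb hL).out 3 2).1 h0
    obtain ⟨A1, hA1⟩ := msq_close
    obtain ⟨c0, C0, hc0, hC0, hV⟩ := Pool.Agent.H61.TM.t_VV
    have hsmall : ∀ ε : ℝ, 0 < ε → ∀ᶠ n in atTop,
        |msq (y n) (b n) (Z n) (Y n) 0 - msq (y n) (b n) (Z n) (Y n) (b n * V (pr (y n)))| ≤
          ε * (6 * b n / Real.pi ^ 2) := by
      intro ε hε
      obtain ⟨N, hN⟩ := exists_nat_ge (20 / ε)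
      filter_upwards [ev_ge hy (A1 + 3), ev_ge hb (N + 1), hL A1, ev_log_large hy 1,
        h.eventually (gt_mem_nhds (by positivity : 0 < ε / (4 * C0 ^ 2)))] with n g1 g2 g3 g4 g5
      obtain ⟨-, -, g6⟩ := hA1 (y n) (b n) (Z n) (Y n) (by omega) (by omega) g3
      have hb0 : (0 : ℝ) < b n := by exact_mod_cast (by omega : 0 < b n)
      have hVu := (hV (y n) (by omega)).2
      have hV0 := V_pos (pr (y n)) (pr_prime (y n))
      rw [div_lt_iff₀ (by positivity)] at g5
      have g7 : (b n * V (pr (y n))) ^ 2 ≤ ε / 4 * b n := by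
        calc (b n * V (pr (y n))) ^ 2 = b n * (b n * V (pr (y n)) ^ 2) := by ring
          _ ≤ b n * ((ε / (4 * C0 ^ 2) * Real.log (y n) ^ 4) * (C0 / Real.log (y n) ^ 2) ^ 2) := by
              gcongr
          _ = ε / 4 * b n := by
              field_simp
      have g8 : 4 ≤ ε / 5 * b n := by
        have : (N : ℝ) ≤ b n := by exact_mod_cast (by omega : N ≤ b n)
        have h5 := hN.trans this
        rw [div_le_iff₀ hε] at h5
        linarith
      have g9 : ε / 4 * b n + ε / 5 * b n ≤ ε * (6 * b n / Real.pi ^ 2) := by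
        have : ε * (6 * b n / Real.pi ^ 2) = (ε * b n) * (6 / Real.pi ^ 2) := by ring
        rw [this]
        have h6 : (9 : ℝ) / 20 ≤ 6 / Real.pi ^ 2 := by
          rw [div_le_div_iff₀ (by norm_num) (by positivity)]
          linarith
        have h7 : 0 < ε * b n := by positivity
        nlinarith
      rw [abs_le] at g6 ⊢
      have h10 : 0 ≤ (b n * V (pr (y n))) ^ 2 := sq_nonneg _
      constructor <;> linarith [g6.1, g6.2]
    apply ratio_tendsto
    · filter_upwards [ev_ge hb 1] with n hn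
      exact six_pos hn
    · intro ε hε
      filter_upwards [hsmall (ε / 2) (by positivity), h1.eventually (gt_mem_nhds (by linarith : 1 < 1 + ε / 2)),
        ev_ge hb 1] with n g1 g2 g3
      rw [div_lt_iff₀ (six_pos g3)] at g2
      have := (abs_le.1 g1).2
      linarith
    · intro ε hε
      filter_upwards [hsmall (ε / 2) (by positivity), h1.eventually (lt_mem_nhds (by linarith : 1 - ε / 2 < 1)),
        ev_ge hb 1] with n g1 g2 g3
      rw [lt_div_iff₀ (six_pos g3)] at g2
      have := (abs_le.1 g1).1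
      linarith
  tfae_have 3 → 4 := by
    intro h
    by_contra hnot
    obtain ⟨c, hc, hfr⟩ := frequently_of_not_tendsto (Eventually.of_forall fun n =>
      div_nonneg (Nat.cast_nonneg _) (pow_nonneg (Real.log_natCast_nonneg _) 4)) hnot
    obtain ⟨A1, hA1⟩ := msq_close
    obtain ⟨c0, C0, hc0, hC0, hV⟩ := Pool.Agent.H61.TM.t_VV
    obtain ⟨η, hη⟩ : ∃ η : ℝ, η = c * c0 ^ 2 / 4 := ⟨_, rfl⟩
    have hη0 : 0 < η := by rw [hη]; positivity
    obtain ⟨ts, δ, hδ, hf⟩ := msq_fail η hη0
    obtain ⟨A2, hA2⟩ := law2 1 (δ / 2) (by positivity)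
    obtain ⟨K, hK⟩ : ∃ K : ℝ, K = 1 + 8 / c0 ^ 2 := ⟨_, rfl⟩
    have hK1 : 1 ≤ K := by
      rw [hK]
      have : 0 ≤ 8 / c0 ^ 2 := by positivity
      linarith
    obtain ⟨X, hX3, hX⟩ := log_pow_small 4 (A2 * K) (by positivity)
    obtain ⟨N, hN⟩ := exists_nat_ge (X + 4 * Real.pi ^ 2 / (6 * η) + 4)
    have hmin : 0 < min η 1 := lt_min hη0 one_pos
    obtain ⟨n, h2, h3, h4, h5, h6, h7, h8⟩ := (hfr.and_eventually ((h.eventually (gt_mem_nhds
      (by linarith : 1 < 1 + min η 1))).and ((ev_ge hy (A1 + 3)).and ((ev_ge hb (N + A2 + 1)).and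
      ((hL A1).and ((hL A2).and (ev_log_large hy 1))))))).exists
    have hb1 : 1 ≤ b n := by omega
    have hb0 : (0 : ℝ) < b n := by exact_mod_cast hb1
    have hl0 : 0 < Real.log (y n) := by linarith
    have hNb : X + 4 * Real.pi ^ 2 / (6 * η) + 4 ≤ b n := by
      refine hN.trans ?_
      exact_mod_cast (by omega : N ≤ b n)
    have hfrac : 0 ≤ 4 * Real.pi ^ 2 / (6 * η) := by positivity
    have hXb : X ≤ b n := by linarith
    have h4b : 4 ≤ (b n : ℝ) := by linarith
    rw [le_div_iff₀ (by positivity)] at h2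
    rw [div_lt_iff₀ (six_pos hb1)] at h3
    obtain ⟨hYn, hm1, hm2⟩ := hA1 (y n) (b n) (Z n) (Y n) (by omega) hb1 h6
    have hVl := (hV (y n) (by omega)).1
    have hVpos := V_pos (pr (y n)) (pr_prime (y n))
    have hsix : (6 : ℝ) * b n / Real.pi ^ 2 ≤ b n := by
      rw [div_le_iff₀ (by positivity)]
      nlinarith
    have hsix0 := six_pos hb1
    have hVsq : c0 ^ 2 / Real.log (y n) ^ 4 ≤ V (pr (y n)) ^ 2 := by
      calc c0 ^ 2 / Real.log (y n) ^ 4 = (c0 / Real.log (y n) ^ 2) ^ 2 := by ring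
        _ ≤ V (pr (y n)) ^ 2 := pow_le_pow_left₀ (by positivity) hVl 2
    have hmean : 4 * η * b n ≤ (b n * V (pr (y n))) ^ 2 := by
      calc 4 * η * b n = b n * ((c * Real.log (y n) ^ 4) * (c0 ^ 2 / Real.log (y n) ^ 4)) := by
            rw [hη]
            field_simp
        _ ≤ b n * (b n * V (pr (y n)) ^ 2) := by gcongr
        _ = _ := by ring
    have h4η : 4 ≤ η * (6 * b n / Real.pi ^ 2) := by
      have h9 : 4 * Real.pi ^ 2 / (6 * η) ≤ b n := by linarith
      rw [div_le_iff₀ (by positivity)] at h9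
      have e : η * (6 * b n / Real.pi ^ 2) = (b n * (6 * η)) / Real.pi ^ 2 := by ring
      rw [e, le_div_iff₀ (by positivity)]
      linarith
    have hdef : msq (y n) (b n) (Z n) (Y n) (b n * V (pr (y n))) ≤ (1 - η) * (6 * b n / Real.pi ^ 2) := by
      have g1 := (abs_le.1 hm2).1
      have g2 : min η 1 * (6 * b n / Real.pi ^ 2) ≤ η * (6 * b n / Real.pi ^ 2) :=
        mul_le_mul_of_nonneg_right (min_le_left _ _) hsix0.le
      have g3 : η * (6 * b n / Real.pi ^ 2) ≤ η * b n := mul_le_mul_of_nonneg_left hsix hη0.le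
      nlinarith
    obtain ⟨t, ht, hbad⟩ := hf (y n) (b n) (Z n) (Y n) _ hb1 hYn hdef
    have hlogs : Real.log (y n) < A2 * Real.log (b n) := by
      by_contra hcon
      rw [not_lt] at hcon
      have g1 := hA2 (y n) (b n) (Z n) (Y n) (by omega) hcon h7 (fun _ => t)
      simp only [univ_unique, prod_const, card_singleton, pow_one] at g1
      linarith
    -- long windows: the mean is too large
    have g1 := hX _ hXb
    have g2 : K * Real.log (y n) ^ 4 ≤ b n := by
      calc K * Real.log (y n) ^ 4 ≤ K ^ 4 * (A2 * Real.log (b n)) ^ 4 := by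
            apply mul_le_mul _ (pow_le_pow_left₀ hl0.le hlogs.le 4) (by positivity) (by positivity)
            calc K = K ^ 1 := (pow_one K).symm
              _ ≤ K ^ 4 := pow_le_pow_right₀ hK1 (by norm_num)
        _ = (A2 * K * Real.log (b n)) ^ 4 := by ring
        _ ≤ b n := g1
    have g3 : 8 * b n ≤ (b n * V (pr (y n))) ^ 2 := by
      calc 8 * (b n : ℝ) = b n * (8 / c0 ^ 2 * c0 ^ 2) := by field_simp
        _ ≤ b n * (K * c0 ^ 2) := by
            gcongr
            rw [hK]
            linarith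
        _ = b n * ((K * Real.log (y n) ^ 4) * (c0 ^ 2 / Real.log (y n) ^ 4)) := by
            field_simp
        _ ≤ b n * (b n * V (pr (y n)) ^ 2) := by gcongr
        _ = _ := by ring
    have g4 : 0 ≤ msq (y n) (b n) (Z n) (Y n) (b n * V (pr (y n))) := by
      unfold msq
      exact div_nonneg (sum_nonneg fun _ _ => sq_nonneg _) (Nat.cast_nonneg _)
    have g5 := (abs_le.1 hm2).1
    have g6 : min η 1 * (6 * b n / Real.pi ^ 2) ≤ 1 * (6 * b n / Real.pi ^ 2) :=
      mul_le_mul_of_nonneg_right (min_le_right _ _) hsix0.le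
    linarith
  tfae_finish

end

end Pool.Agent.H19.TM
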