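import Pool.Agent.H19.TM.Stm2
import Pool.Agent.H19.TM.Core

/-!
# Project TM2: the modules VAR and FAR
-/

set_option autoImplicit false

namespace Pool.Agent.H19.TM

open Finset Pool.Agent.Y862.GM

lemma cnt_le_one (M a N : ℕ) (h : N ≤ M) : cnt M a N ≤ 1 := by
  unfold cnt
  rw [Finset.card_le_one]
  intro j hj j' hj'
  rw [mem_filter, mem_range] at hj hj'
  have h1 := Nat.mod_eq_of_lt (lt_of_lt_of_le hj.1 h)
  have h2 := Nat.mod_eq_of_lt (lt_of_lt_of_le hj'.1 h)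
  rw [← h1, ← h2, hj.2, hj'.2]

lemma sig_insert {P : Finset ℕ} {p : ℕ} (hp : p ∉ P) : sig (insert p P) = (1 - 1 / (p : ℝ) ^ 2) * sig P := by
  unfold sig
  rw [prod_insert hp]

lemma V_insert {P : Finset ℕ} {p : ℕ} (hp : p ∉ P) : V (insert p P) = (1 - 1 / (p : ℝ)) ^ 2 * V P := by
  unfold V
  rw [prod_insert hp]

lemma Wv_nonneg (P : Finset ℕ) (N : ℕ) : 0 ≤ Wv P N := by
  unfold Wv
  exact div_nonneg (sum_nonneg fun _ _ => sq_nonneg _) (prod_nonneg fun _ _ => sq_nonneg _)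

/-- **FAR** -/
theorem t_FAR (hR : S_REC) (hC : S_CNT) (hS : S_SIG) : S_FAR := by
  intro P hP p hp hpP N hN
  obtain ⟨-, -, hW⟩ := hS
  obtain ⟨hW0, hW1⟩ := hW P hP
  have hp1 : 1 ≤ p := hp.one_lt.le
  have hp2 : p ≤ p ^ 2 := by nlinarith
  have hsmall : ∀ c : ℕ, c ≤ 1 → Wv P c = c * (sig P - V P ^ 2) := by
    intro c hc
    interval_cases c
    · rw [hW0]; simp
    · rw [hW1]; simp
  have hsum : ∀ M : ℕ, 1 ≤ M → N ≤ M → ∑ a ∈ range M, Wv P (cnt M a N) = N * (sig P - V P ^ 2) := by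
    intro M hM hNM
    have h1 : ∀ a ∈ range M, Wv P (cnt M a N) = (cnt M a N : ℝ) * (sig P - V P ^ 2) :=
      fun a _ => hsmall _ (cnt_le_one M a N hNM)
    rw [sum_congr rfl h1, ← sum_mul]
    congr 1
    have h2 := (hC M N hM).1
    exact_mod_cast h2
  have h1 := (hC p N hp1).2.2.2.2.2 hN
  have h2 := (hC (p ^ 2) N (by nlinarith)).2.2.2.2.2 (hN.trans hp2)
  rw [hR P hP p hp hpP N, hsum p hp1 hN, hsum (p ^ 2) (by nlinarith) (hN.trans hp2), h1, h2, sig_insert hpP]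
  have hp0 : (0 : ℝ) < p := by exact_mod_cast hp.pos
  obtain ⟨x, hx⟩ : ∃ x : ℝ, x = 1 / (p : ℝ) := ⟨_, rfl⟩
  have e1 : 4 / (p : ℝ) = 4 * x := by rw [hx]; ring
  have e2 : 2 / (p : ℝ) ^ 2 = 2 * x ^ 2 := by rw [hx]; ring
  have e3 : 4 / (p : ℝ) ^ 2 = 4 * x ^ 2 := by rw [hx]; ring
  have e4 : 1 / (p : ℝ) ^ 2 = x ^ 2 := by rw [hx]; ring
  have e5 : (N : ℝ) / (p : ℝ) = N * x := by rw [hx]; ring
  have e6 : (N : ℝ) / ((p ^ 2 : ℕ) : ℝ) = N * x ^ 2 := by rw [hx]; push_cast; ring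
  rw [e1, e2, e3, e4, e5, e6]
  have e7 : (N : ℝ) * (1 - N * x ^ 2) / (p : ℝ) ^ 2 = (N : ℝ) * (1 - N * x ^ 2) * x ^ 2 := by
    rw [div_eq_mul_one_div, e4]
  rw [e7]
  have key : (1 - x ^ 2) * sig P * N - ((1 - 4 * x + 2 * x ^ 2) * Wv P N +
      (4 * x - 4 * x ^ 2) * (N * (sig P - V P ^ 2)) + x ^ 2 * (N * (sig P - V P ^ 2)) +
      V P ^ 2 * ((4 * x - 4 * x ^ 2) * (N * (1 - N * x)) + N * (1 - N * x ^ 2) * x ^ 2)) =
      (1 - 4 * x + 2 * x ^ 2) * (sig P * N - Wv P N) + (V P * N * (x * (2 - x))) ^ 2 := by ring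
  rw [key]
  have := sq_nonneg (V P * N * (x * (2 - x)))
  linarith

lemma prod_three_bound (P : Finset ℕ) : ∏ p ∈ P, (1 + 3 / (p : ℝ) ^ 2) ≤ Real.exp (3 * (Real.pi ^ 2 / 6)) := by
  calc ∏ p ∈ P, (1 + 3 / (p : ℝ) ^ 2) ≤ ∏ p ∈ P, Real.exp (3 / (p : ℝ) ^ 2) := by
        refine prod_le_prod (fun p _ => by positivity) fun p _ => ?_
        have := Real.add_one_le_exp (3 / (p : ℝ) ^ 2)
        linarith
    _ = Real.exp (3 * ∑ p ∈ P, 1 / (p : ℝ) ^ 2) := by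
        rw [← Real.exp_sum, mul_sum]
        congr 1
        exact sum_congr rfl fun p _ => by ring
    _ ≤ _ := by
        apply Real.exp_le_exp.2
        apply mul_le_mul_of_nonneg_left _ (by norm_num)
        exact sum_le_hasSum P (fun n _ => by positivity) hasSum_zeta_two

/-- the bound for the variance, with the explicit factor -/
lemma var_aux (hR : S_REC) (hC : S_CNT) (P : Finset ℕ) : (∀ p ∈ P, p.Prime) → ∀ N : ℕ,
    Wv P N ≤ 5 * (∏ p ∈ P, (1 + 3 / (p : ℝ) ^ 2)) * (1 - V P ^ 2) * N := by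
  induction P using Finset.induction_on with
  | empty =>
    intro _ N
    unfold Wv V
    simp
  | insert p P hpP ih =>
    intro hP' N
    have hP : ∀ q ∈ P, q.Prime := fun q hq => hP' q (mem_insert_of_mem hq)
    have hp : p.Prime := hP' p (mem_insert_self _ _)
    have ihP := ih hP
    have hp1 : 1 ≤ p := hp.one_lt.le
    have hp0 : (0 : ℝ) < p := by exact_mod_cast hp.pos
    have hV0 := (V_pos P hP).le
    have hV1 := V_le_one P hP
    obtain ⟨E, hE⟩ : ∃ E : ℝ, E = ∏ p ∈ P, (1 + 3 / (p : ℝ) ^ 2) := ⟨_, rfl⟩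
    have hE1 : 1 ≤ E := by
      rw [hE]
      apply Finset.prod_induction _ (fun z : ℝ => 1 ≤ z)
      · intro a b ha hb
        nlinarith
      · exact le_rfl
      · intro q _
        have : (0 : ℝ) ≤ 3 / (q : ℝ) ^ 2 := by positivity
        linarith
    obtain ⟨v, hv⟩ : ∃ v : ℝ, v = V P ^ 2 := ⟨_, rfl⟩
    have hv0 : 0 ≤ v := by rw [hv]; exact sq_nonneg _
    have hv1 : v ≤ 1 := by rw [hv]; exact pow_le_one₀ hV0 hV1
    obtain ⟨B, hB⟩ : ∃ B : ℝ, B = 5 * E * (1 - v) := ⟨_, rfl⟩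
    have hB0 : 0 ≤ B := by
      rw [hB]
      apply mul_nonneg (by linarith) (by linarith)
    have ihB : ∀ M : ℕ, Wv P M ≤ B * M := by
      intro M
      rw [hB, hE, hv]
      exact ihP M
    obtain ⟨x, hx⟩ : ∃ x : ℝ, x = 1 / (p : ℝ) := ⟨_, rfl⟩
    have hx0 : 0 < x := by rw [hx]; positivity
    have hx1 : x ≤ 1 / 2 := by
      rw [hx]
      apply one_div_le_one_div_of_le (by norm_num)
      exact_mod_cast hp.two_le
    have e1 : 4 / (p : ℝ) = 4 * x := by rw [hx]; ring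
    have e2 : 2 / (p : ℝ) ^ 2 = 2 * x ^ 2 := by rw [hx]; ring
    have e3 : 4 / (p : ℝ) ^ 2 = 4 * x ^ 2 := by rw [hx]; ring
    have e4 : 1 / (p : ℝ) ^ 2 = x ^ 2 := by rw [hx]; ring
    have e5 : 3 / (p : ℝ) ^ 2 = 3 * x ^ 2 := by rw [hx]; ring
    have e6 : ∀ t : ℝ, t / (p : ℝ) ^ 2 = x ^ 2 * t := by intro t; rw [hx]; ring
    rw [hR P hP p hp hpP N, V_insert hpP, prod_insert hpP, ← hE, mul_pow, ← hv, e6 (th (p ^ 2) N), e1, e2, e3,
      e4, e5, ← hx]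
    have hsum : ∀ M : ℕ, 1 ≤ M → ∑ a ∈ range M, Wv P (cnt M a N) ≤ B * N := by
      intro M hM
      calc ∑ a ∈ range M, Wv P (cnt M a N) ≤ ∑ a ∈ range M, B * (cnt M a N : ℝ) :=
            sum_le_sum fun a _ => ihB _
        _ = B * N := by
            rw [← mul_sum]
            congr 1
            have h2 := (hC M N hM).1
            exact_mod_cast h2
    have s1 := hsum p hp1
    have s2 := hsum (p ^ 2) (by nlinarith)
    have t1 := (hC p N hp1).2.2.2.2.1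
    have t2 := (hC (p ^ 2) N (by nlinarith)).2.2.2.2.1
    have t10 := (hC p N hp1).2.2.1
    have t20 := (hC (p ^ 2) N (by nlinarith)).2.2.1
    have hW := ihB N
    have hW0 := Wv_nonneg P N
    have hN0 : (0 : ℝ) ≤ N := Nat.cast_nonneg _
    have hBN : 0 ≤ B * N := mul_nonneg hB0 hN0
    have hcoef : 0 ≤ 4 * x - 4 * x ^ 2 := by nlinarith
    have k1 : (1 - 4 * x + 2 * x ^ 2) * Wv P N + (4 * x - 4 * x ^ 2) * ∑ a ∈ range p, Wv P (cnt p a N) +
        x ^ 2 * ∑ a ∈ range (p ^ 2), Wv P (cnt (p ^ 2) a N) ≤ (1 + 3 * x ^ 2) * (B * N) := by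
      have a1 : (4 * x - 4 * x ^ 2) * ∑ a ∈ range p, Wv P (cnt p a N) ≤ (4 * x - 4 * x ^ 2) * (B * N) :=
        mul_le_mul_of_nonneg_left s1 hcoef
      have a2 : x ^ 2 * ∑ a ∈ range (p ^ 2), Wv P (cnt (p ^ 2) a N) ≤ x ^ 2 * (B * N) :=
        mul_le_mul_of_nonneg_left s2 (sq_nonneg _)
      have a3 : (1 - 4 * x + 2 * x ^ 2) * Wv P N ≤ (1 - 4 * x + 6 * x ^ 2) * (B * N) := by
        rcases le_total 0 (1 - 4 * x + 2 * x ^ 2) with h | h
        · have b1 : (1 - 4 * x + 2 * x ^ 2) * Wv P N ≤ (1 - 4 * x + 2 * x ^ 2) * (B * N) :=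
            mul_le_mul_of_nonneg_left hW h
          nlinarith [mul_nonneg (sq_nonneg x) hBN]
        · have b1 : (1 - 4 * x + 2 * x ^ 2) * Wv P N ≤ 0 := mul_nonpos_of_nonpos_of_nonneg h hW0
          have b2 : 0 ≤ 1 - 4 * x + 6 * x ^ 2 := by nlinarith [sq_nonneg (3 * x - 1)]
          have b3 := mul_nonneg b2 hBN
          linarith
      nlinarith
    have k2 : v * ((4 * x - 4 * x ^ 2) * th p N + x ^ 2 * th (p ^ 2) N) ≤ 5 * x * v * N := by
      have a1 : (4 * x - 4 * x ^ 2) * th p N ≤ (4 * x - 4 * x ^ 2) * N :=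
        mul_le_mul_of_nonneg_left t1 hcoef
      have a2 : x ^ 2 * th (p ^ 2) N ≤ x ^ 2 * N := mul_le_mul_of_nonneg_left t2 (sq_nonneg _)
      have a3 : (4 * x - 4 * x ^ 2) * th p N + x ^ 2 * th (p ^ 2) N ≤ 5 * x * N := by
        have : 0 ≤ (x + 3 * x ^ 2) * N := by positivity
        nlinarith
      calc v * ((4 * x - 4 * x ^ 2) * th p N + x ^ 2 * th (p ^ 2) N) ≤ v * (5 * x * N) :=
            mul_le_mul_of_nonneg_left a3 hv0
        _ = 5 * x * v * N := by ring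
    have k3 : (1 + 3 * x ^ 2) * (B * N) + 5 * x * v * N ≤
        5 * ((1 + 3 * x ^ 2) * E) * (1 - ((1 - x) ^ 2) ^ 2 * v) * N := by
      have a1 : ((1 - x) ^ 2) ^ 2 ≤ 1 - x := by
        have b0 : 0 ≤ 1 - x := by linarith
        have b1 : 1 - x ≤ 1 := by linarith
        calc ((1 - x) ^ 2) ^ 2 = (1 - x) * (1 - x) ^ 3 := by ring
          _ ≤ (1 - x) * 1 := mul_le_mul_of_nonneg_left (pow_le_one₀ b0 b1) b0
          _ = 1 - x := mul_one _
      have a2 : (1 - v) + x * v ≤ 1 - ((1 - x) ^ 2) ^ 2 * v := by nlinarith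
      have a3 : 1 ≤ (1 + 3 * x ^ 2) * E := by nlinarith [sq_nonneg x]
      have a4 : 0 ≤ x * v * N := by positivity
      calc (1 + 3 * x ^ 2) * (B * N) + 5 * x * v * N ≤
            (1 + 3 * x ^ 2) * (B * N) + 5 * ((1 + 3 * x ^ 2) * E) * (x * v * N) := by
            nlinarith [mul_le_mul_of_nonneg_right a3 a4]
        _ = 5 * ((1 + 3 * x ^ 2) * E) * ((1 - v) + x * v) * N := by rw [hB]; ring
        _ ≤ _ := by
            apply mul_le_mul_of_nonneg_right _ hN0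
            exact mul_le_mul_of_nonneg_left a2 (by linarith)
    linarith

/-- **VAR** -/
theorem t_VAR (hR : S_REC) (hC : S_CNT) : S_VAR := by
  refine ⟨5 * Real.exp (3 * (Real.pi ^ 2 / 6)), ?_, ?_⟩
  · have : 1 ≤ Real.exp (3 * (Real.pi ^ 2 / 6)) := Real.one_le_exp (by positivity)
    linarith
  · intro P hP N
    refine ⟨Wv_nonneg P N, (var_aux hR hC P hP N).trans ?_⟩
    apply mul_le_mul_of_nonneg_right _ (Nat.cast_nonneg _)
    have hV0 := (V_pos P hP).le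
    have hV1 := V_le_one P hP
    have h1 := prod_three_bound P
    have h2 : 0 ≤ ∏ p ∈ P, (1 + 3 / (p : ℝ) ^ 2) := prod_nonneg fun p _ => by positivity
    have h3 : 0 ≤ V P ^ 2 := sq_nonneg _
    have h4 : V P ^ 2 ≤ 1 := pow_le_one₀ hV0 hV1
    calc 5 * (∏ p ∈ P, (1 + 3 / (p : ℝ) ^ 2)) * (1 - V P ^ 2) ≤
          5 * (∏ p ∈ P, (1 + 3 / (p : ℝ) ^ 2)) * 1 :=
            mul_le_mul_of_nonneg_left (by linarith) (by positivity)
      _ ≤ 5 * Real.exp (3 * (Real.pi ^ 2 / 6)) := by linarith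

end Pool.Agent.H19.TM
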